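import Pool.Agent.P.MP_6149fc_ag.Iface

namespace Pool.Agent.P.MP_6149fc_ag

open scoped ENNReal
open MvPolynomial MeasureTheory

namespace ArcidA

variable {L : Type} [Field L] [Algebra ℂ L] (δ : Derivation ℂ L L)

theorem cd_mul (f g : PowerSeries L) : cd δ (f * g) = f * cd δ g + g * cd δ f := by
  ext l
  rw [mul_comm g]
  simp [cd, PowerSeries.coeff_mul, Finset.sum_add_distrib, mul_comm (δ _)]

/-- `cd δ` is linear. -/
noncomputable def cdL : PowerSeries L →ₗ[ℂ] PowerSeries L where
  toFun := cd δ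
  map_add' f g := by
    ext l
    simp [cd]
  map_smul' c f := by
    ext l
    simp [cd]

end ArcidA

open ArcidA in
theorem p_ARCID : S_ARCID := by
  intro n K L _ _ _ _ O φ δ w c b e hO hφ h
  have : IsFractionRing O K := IsFractionRing.of_field O K fun a => by
    obtain ⟨s, h1, h2, h3⟩ := hO a
    exact ⟨⟨_, h3⟩, ⟨s, h1⟩, (mul_div_cancel_left₀ a h2).symm⟩
  let := φ.toRingHom.toAlgebra
  have : IsScalarTower ℂ O (PowerSeries L) := .of_algebraMap_eq fun x => (φ.commutes x).symm
  let E : Derivation ℂ O (PowerSeries L) := Derivation.mk' ((cdL δ).comp φ.toLinearMap)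
    fun a b => (congrArg (cd δ) (map_mul φ a b)).trans (cd_mul δ _ _)
  obtain ⟨s, hs⟩ := IsLocalizedModule.exists_of_eq (S := nonZeroDivisors O)
    (f := KaehlerDifferential.map ℂ ℂ O K) (x₁ := e • KaehlerDifferential.D ℂ O b)
    (x₂ := ∑ a, c a • KaehlerDifferential.D ℂ O (w a)) (by
      simp only [LinearMap.map_smul, map_sum, KaehlerDifferential.map_D]
      exact h)
  have h1 := congrArg E.liftKaehlerDifferential hs
  simp only [Submonoid.smul_def, map_smul, map_sum, Derivation.liftKaehlerDifferential_comp_D] at h1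
  exact mul_left_cancel₀ ((map_ne_zero_iff φ hφ).2 (nonZeroDivisors.ne_zero s.2)) h1

end Pool.Agent.P.MP_6149fc_ag
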