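import Pool.Agent.P.MP_6149fc_ag.Iface

namespace Pool.Agent.P.MP_6149fc_ag

open scoped ENNReal
open MvPolynomial MeasureTheory

namespace BaryA

theorem vol_smul {n : ℕ} {a : ℝ} (ha : 0 < a) (A : Set (Fin n → ℝ)) :
    ENNReal.ofReal (a ^ n) * volume ((a • ·) ⁻¹' A) = volume A := by
  rw [Measure.addHaar_preimage_smul _ ha.ne', Module.finrank_fin_fun, ← mul_assoc,
    ← ENNReal.ofReal_mul (by positivity), abs_of_pos (by positivity),
    mul_inv_cancel₀ (by positivity), ENNReal.ofReal_one, one_mul]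

theorem vol_one {n : ℕ} {a : ℝ} (ha : 0 < a) {A : Set (Fin n → ℝ)}
    (h : volume A = ENNReal.ofReal (a ^ n)) : volume ((a • ·) ⁻¹' A) = 1 := by
  have h1 := vol_smul ha A
  rw [h] at h1
  exact (ENNReal.mul_right_inj (ENNReal.ofReal_pos.2 (by positivity)).ne'
    ENNReal.ofReal_ne_top).1 (h1.trans (mul_one _).symm)

/-- The additive form. -/
theorem bm (hBM : S_BM) {n : ℕ} {A B C : Set (Fin n → ℝ)} (hA : MeasurableSet A)
    (hB : MeasurableSet B) (hC : MeasurableSet C) {t a b : ℝ} (h0 : 0 < t) (h1 : t < 1)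
    (h : ∀ x ∈ A, ∀ y ∈ B, (1 - t) • x + t • y ∈ C) (ha : 0 < a) (hb : 0 < b)
    (vA : volume A = ENNReal.ofReal (a ^ n)) (vB : volume B = ENNReal.ofReal (b ^ n)) :
    ENNReal.ofReal (((1 - t) * a + t * b) ^ n) ≤ volume C := by
  have e1 : 0 < (1 - t) * a := mul_pos (sub_pos.2 h1) ha
  have e2 : 0 < t * b := mul_pos h0 hb
  have hc : 0 < (1 - t) * a + t * b := add_pos e1 e2
  have := hBM n ((a • ·) ⁻¹' A) ((b • ·) ⁻¹' B) ((((1 - t) * a + t * b) • ·) ⁻¹' C)
    (t * b / ((1 - t) * a + t * b)) (measurable_const_smul a hA) (measurable_const_smul b hB)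
    (measurable_const_smul _ hC) (by positivity) ((div_lt_one hc).2 (by linarith))
    fun x hx y hy => by
      have := h _ hx _ hy
      have e3 : ((1 - t) * a + t * b) * (1 - t * b / ((1 - t) * a + t * b)) = (1 - t) * a := by
        field_simp
        ring
      have e4 : ((1 - t) * a + t * b) * (t * b / ((1 - t) * a + t * b)) = t * b := by
        field_simp
      simp only [Set.mem_preimage, smul_add, smul_smul, e3, e4] at this ⊢
      exact this
  rw [vol_one ha vA, vol_one hb vB, ENNReal.one_rpow, ENNReal.one_rpow, one_mul] at this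
  rw [← vol_smul hc C]
  exact le_mul_of_one_le_right' this

/-- The simplex with vertices `0` and `ε j` times the unit vectors. -/
def T {n : ℕ} (ε : Fin n → ℝ) : Set (Fin n → ℝ) := {x | (∀ j, 0 ≤ x j) ∧ ∑ j, x j / ε j ≤ 1}

theorem T_meas {n : ℕ} (ε : Fin n → ℝ) : MeasurableSet (T ε) := by
  have : T ε = (⋂ j, {x | 0 ≤ x j}) ∩ {x | ∑ j, x j / ε j ≤ 1} := by
    ext x
    simp [T]
  rw [this]
  exact (MeasurableSet.iInter fun j => measurableSet_le measurable_const (by fun_prop)).inter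
    (measurableSet_le (by fun_prop) measurable_const)

theorem T_vol {n : ℕ} {ε : Fin n → ℝ} (hε : ∀ i, 0 < ε i) :
    volume (T ε) = ENNReal.ofReal (∏ j, ε j) * volume (simplex n) := by
  have e : T ε = Matrix.toLin' (Matrix.diagonal fun j => (ε j)⁻¹) ⁻¹' simplex n := by
    ext x
    simp only [T, simplex, Set.mem_preimage, Set.mem_ofPred_eq, Matrix.toLin'_apply,
      Matrix.mulVec_diagonal, inv_mul_eq_div, le_div_iff₀ (hε _), zero_mul]
  have hp : 0 < ∏ j, ε j := Finset.prod_pos fun j _ => hε j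
  have hd : LinearMap.det (Matrix.toLin' (Matrix.diagonal fun j => (ε j)⁻¹)) = (∏ j, ε j)⁻¹ := by
    rw [LinearMap.det_toLin', Matrix.det_diagonal, Finset.prod_inv_distrib]
  rw [e, Measure.addHaar_preimage_linearMap _ (by rw [hd]; positivity), hd, inv_inv,
    abs_of_pos hp]

theorem T_sub {n : ℕ} {D : Set (Fin n → ℝ)} {ε : Fin n → ℝ} (hD : Convex ℝ D)
    (h0 : (0 : Fin n → ℝ) ∈ D) (hε : ∀ i, 0 < ε i) (h1 : ∀ i, Pi.single i (ε i) ∈ D) :
    T ε ⊆ D := fun x hx => by
  have := hD.sum_mem (t := Finset.univ)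
    (w := fun o : Option (Fin n) => o.elim (1 - ∑ j, x j / ε j) fun j => x j / ε j)
    (z := fun o : Option (Fin n) => o.elim 0 fun j => Pi.single j (ε j))
    (fun o _ => by
      cases o with
      | none => exact sub_nonneg.2 hx.2
      | some j => exact div_nonneg (hx.1 j) (hε j).le)
    (by simp [Fintype.sum_option])
    (fun o _ => by
      cases o with
      | none => exact h0
      | some j => exact h1 j)
  have e : ∀ j, (x j / ε j) • (Pi.single j (ε j) : Fin n → ℝ) = Pi.single j (x j) := fun j => by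
    rw [← Pi.single_smul, smul_eq_mul, div_mul_cancel₀ _ (hε j).ne']
  simpa only [Fintype.sum_option, Option.elim, smul_zero, zero_add, e,
    Finset.univ_sum_single] using this

theorem T_cut {n : ℕ} {ε : Fin n → ℝ} (hε : ∀ i, 0 < ε i) (i : Fin n) {h : ℝ} (h1 : h < ε i) :
    volume (T ε ∩ {x | h ≤ x i}) ≤ ENNReal.ofReal ((1 - h / ε i) ^ n) * volume (T ε) := by
  have hρ : 0 < 1 - h / ε i := sub_pos.2 ((div_lt_one (hε i)).2 h1)
  have e := vol_smul (inv_pos.2 hρ) (T ε)
  rw [← e, ← mul_assoc, ← ENNReal.ofReal_mul (by positivity), ← mul_pow,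
    mul_inv_cancel₀ hρ.ne', one_pow, ENNReal.ofReal_one, one_mul,
    ← measure_preimage_add_right volume (-Pi.single i h) (_ ⁻¹' T ε)]
  refine measure_mono fun x hx => ?_
  change (1 - h / ε i)⁻¹ • (x + -Pi.single i h) ∈ T ε
  rw [← sub_eq_add_neg]
  refine ⟨fun j => ?_, ?_⟩
  · refine mul_nonneg (inv_pos.2 hρ).le ?_
    rw [Pi.sub_apply, sub_nonneg]
    by_cases hj : j = i
    · rw [hj, Pi.single_eq_same]
      exact hx.2
    · rw [Pi.single_eq_of_ne hj]
      exact hx.1.1 j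
  · have e2 : ∑ j, (Pi.single i h : Fin n → ℝ) j / ε j = h / ε i := by
      rw [Finset.sum_eq_single i (fun j _ hj => by rw [Pi.single_eq_of_ne hj, zero_div])
        (fun hi => absurd (Finset.mem_univ i) hi), Pi.single_eq_same]
    simp only [Pi.smul_apply, Pi.sub_apply, smul_eq_mul, mul_div_assoc, sub_div]
    rw [← Finset.mul_sum, Finset.sum_sub_distrib, e2, inv_mul_le_iff₀ hρ]
    linarith [hx.1.2]

theorem slope {n : ℕ} (hn : n ≠ 0) {V W u v δ : ℝ} (hδ : 0 < δ)
    (h : ∀ t, 0 < t → t < δ → V * (1 - t * u) ^ n ≤ V - W + (1 - t * v) ^ n * W) :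
    v * W ≤ V * u := by
  have d1 : HasDerivAt (fun t : ℝ => V - W + (1 - t * v) ^ n * W - V * (1 - t * u) ^ n)
      (n * (V * u - v * W)) 0 := by
    have a1 := ((((hasDerivAt_id' (0 : ℝ)).mul_const v).const_sub 1).fun_pow n).mul_const W
    have a2 := ((((hasDerivAt_id' (0 : ℝ)).mul_const u).const_sub 1).fun_pow n).const_mul V
    refine ((a1.const_add (V - W)).fun_sub a2).congr_deriv ?_
    simp only [zero_mul, sub_zero, one_pow]
    ring
  have := ge_of_tendsto d1.tendsto_slope_zero_right (b := 0) (by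
    filter_upwards [Ioo_mem_nhdsGT hδ] with t ht
    have := h t ht.1 ht.2
    simp only [zero_add, zero_mul, sub_zero, one_pow, smul_eq_mul]
    exact mul_nonneg (inv_pos.2 ht.1).le (by linarith))
  have hn' : (0 : ℝ) < n := Nat.cast_pos.2 (Nat.pos_of_ne_zero hn)
  linarith [nonneg_of_mul_nonneg_right this hn']

theorem integ (n : ℕ) {V k : ℝ} (hV : 0 ≤ V) (hk : 0 < k) :
    ∫⁻ s in Set.Ioc 0 k⁻¹, ENNReal.ofReal (V * (1 - k * s) ^ n) =
      ENNReal.ofReal (V / (k * (n + 1))) := by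
  have hc : Continuous fun s : ℝ => V * (1 - k * s) ^ n := by fun_prop
  rw [← ofReal_integral_eq_lintegral_ofReal (hc.integrableOn_Icc.mono_set Set.Ioc_subset_Icc_self),
    ← intervalIntegral.integral_of_le (inv_pos.2 hk).le,
    intervalIntegral.integral_eq_sub_of_hasDerivAt
      (f := fun s => -(V / (k * (n + 1))) * (1 - k * s) ^ (n + 1)) (fun s _ => ?_)
      (hc.intervalIntegrable _ _)]
  · simp [hk.ne']
  · refine (((((hasDerivAt_id' s).const_mul k).const_sub 1).fun_pow (n + 1)).const_mul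
      _).congr_deriv ?_
    simp only [Nat.add_sub_cancel]
    push_cast
    field_simp
  · filter_upwards [ae_restrict_mem measurableSet_Ioc] with s hs
    refine mul_nonneg hV (pow_nonneg (sub_nonneg.2 ?_) _)
    exact (mul_le_mul_of_nonneg_left hs.2 hk.le).trans_eq (mul_inv_cancel₀ hk.ne')

end BaryA

open BaryA in
theorem p_BARY (hBM : S_BM) : S_BARY := by
  intro n D ε hD hm hpos h0 hε h1 i
  have hn : n ≠ 0 := (Fin.pos i).ne'
  by_cases hV : volume D = ⊤
  · rw [hV, ENNReal.top_pow two_ne_zero]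
    exact le_top
  by_cases hσ : volume (simplex n) = 0
  · rw [hσ, mul_zero, zero_mul]
    exact zero_le
  have hTD := T_sub hD h0 hε h1
  have hT : volume (T ε) ≠ ⊤ := ne_top_of_le_ne_top hV (measure_mono hTD)
  have hP : 0 < ∏ j ∈ Finset.univ.erase i, ε j := Finset.prod_pos fun j _ => hε j
  have hTv := T_vol hε
  rw [← Finset.mul_prod_erase _ _ (Finset.mem_univ i)] at hTv
  have hεP := mul_pos (hε i) hP
  have hσ' : volume (simplex n) ≠ ⊤ := fun e => hT (by
    rw [hTv, e, ENNReal.mul_top (ENNReal.ofReal_pos.2 hεP).ne'])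
  generalize ∏ j ∈ Finset.univ.erase i, ε j = P at hP hTv hεP ⊢
  obtain ⟨σ, hσ0, eσ⟩ : ∃ σ : ℝ, 0 < σ ∧ volume (simplex n) = ENNReal.ofReal σ :=
    ⟨_, ENNReal.toReal_pos hσ hσ', (ENNReal.ofReal_toReal hσ').symm⟩
  rw [eσ, ← ENNReal.ofReal_mul hεP.le] at hTv
  have hW : 0 < ε i * P * σ := mul_pos hεP hσ0
  obtain ⟨V, hV0, eV⟩ : ∃ V : ℝ, 0 < V ∧ volume D = ENNReal.ofReal V :=
    ⟨_, ENNReal.toReal_pos (fun e => (ENNReal.ofReal_pos.2 hW).ne'
      (hTv ▸ measure_mono_null hTD e)) hV, (ENNReal.ofReal_toReal hV).symm⟩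
  have hWV : ε i * P * σ ≤ V := (ENNReal.ofReal_le_ofReal_iff hV0.le).1 (by
    rw [← hTv, ← eV]
    exact measure_mono hTD)
  have hs : ∀ s : ℝ, MeasurableSet (D ∩ {x | s ≤ x i}) := fun s =>
    hm.inter (measurableSet_le measurable_const (by fun_prop))
  have up : ∀ h, h < ε i → volume (D ∩ {x | h ≤ x i}) ≤
      ENNReal.ofReal (V - ε i * P * σ + (1 - h / ε i) ^ n * (ε i * P * σ)) := fun h hh => by
    have hρ : 0 ≤ (1 - h / ε i) ^ n :=
      pow_nonneg (sub_pos.2 ((div_lt_one (hε i)).2 hh)).le _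
    have a1 : D ∩ {x | h ≤ x i} ⊆ (D \ T ε) ∪ (T ε ∩ {x | h ≤ x i}) := fun x hx =>
      (em (x ∈ T ε)).elim (fun e => Or.inr ⟨e, hx.2⟩) fun e => Or.inl ⟨hx.1, e⟩
    refine (measure_mono a1).trans ((measure_union_le _ _).trans ?_)
    rw [ENNReal.ofReal_add (sub_nonneg.2 hWV) (mul_nonneg hρ hW.le), ENNReal.ofReal_mul hρ,
      ENNReal.ofReal_sub _ hW.le, ← hTv, ← eV,
      measure_sdiff hTD (T_meas ε).nullMeasurableSet hT]
    exact add_le_add le_rfl (T_cut hε i hh)
  have hk : 0 < P * σ / V := by positivity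
  have key : ∀ s : ℝ, 0 < s → volume (D ∩ {x | s ≤ x i}) ≤ (Set.Ioc 0 (P * σ / V)⁻¹).indicator
      (fun s => ENNReal.ofReal (V * (1 - P * σ / V * s) ^ n)) s := fun s hs0 => by
    by_cases hG : volume (D ∩ {x | s ≤ x i}) = 0
    · rw [hG]
      exact zero_le
    have hG' : volume (D ∩ {x | s ≤ x i}) ≠ ⊤ :=
      ne_top_of_le_ne_top hV (measure_mono Set.inter_subset_left)
    have hG0 := ENNReal.toReal_pos hG hG'
    obtain ⟨a, ha, ea⟩ : ∃ a : ℝ, 0 < a ∧ a ^ n = V :=
      ⟨_, Real.rpow_pos_of_pos hV0 _, Real.rpow_inv_natCast_pow hV0.le hn⟩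
    obtain ⟨b, hb, eb⟩ : ∃ b : ℝ, 0 < b ∧ volume (D ∩ {x | s ≤ x i}) = ENNReal.ofReal (b ^ n) :=
      ⟨_, Real.rpow_pos_of_pos hG0 _, by
        rw [Real.rpow_inv_natCast_pow hG0.le hn, ENNReal.ofReal_toReal hG']⟩
    have c1 := slope hn (V := V) (W := ε i * P * σ) (u := 1 - b / a) (v := s / ε i)
      (lt_min one_pos (div_pos (hε i) hs0)) fun t t0 t1 => by
        have t2 : t < 1 := t1.trans_le (min_le_left _ _)
        have t3 : t * s < ε i := (lt_div_iff₀ hs0).1 (t1.trans_le (min_le_right _ _))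
        have b1 := (bm hBM hm (hs s) (hs (t * s)) t0 t2 (fun x hx y hy =>
          ⟨hD hx hy.1 (sub_nonneg.2 t2.le) t0.le (by ring), by
            have d1 := mul_nonneg (sub_nonneg.2 t2.le) (hpos x hx i)
            have d2 := mul_le_mul_of_nonneg_left (show s ≤ y i from hy.2) t0.le
            change t * s ≤ (1 - t) * x i + t * y i
            linarith⟩) ha hb (ea ▸ eV) eb).trans (up _ t3)
        have hρ : 0 ≤ (1 - t * s / ε i) ^ n :=
          pow_nonneg (sub_pos.2 ((div_lt_one (hε i)).2 t3)).le _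
        rw [ENNReal.ofReal_le_ofReal_iff
          (add_nonneg (sub_nonneg.2 hWV) (mul_nonneg hρ hW.le)), mul_div_assoc] at b1
        refine le_trans (le_of_eq ?_) b1
        rw [← ea, ← mul_pow]
        congr 1
        field_simp
        ring
    have c2 : b / a ≤ 1 - P * σ / V * s := by
      have e : s / ε i * (ε i * P * σ) = V * (P * σ / V * s) := by
        have := (hε i).ne'
        field_simp
      rw [e] at c1
      linarith [le_of_mul_le_mul_left c1 hV0]
    have c3 : 0 < b / a := div_pos hb ha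
    rw [Set.indicator_of_mem (show s ∈ Set.Ioc 0 (P * σ / V)⁻¹ from
      ⟨hs0, by rw [← one_div, le_div_iff₀ hk]; linarith⟩), eb]
    refine ENNReal.ofReal_le_ofReal ?_
    rw [← ea, ← mul_pow, ea]
    exact pow_le_pow_left₀ hb.le ((div_le_iff₀' ha).1 c2) n
  have fin : ∫⁻ x in D, ENNReal.ofReal (x i) ≤ ENNReal.ofReal (V / (P * σ / V * (n + 1))) := by
    rw [lintegral_eq_lintegral_meas_le _ ((ae_restrict_mem hm).mono fun x hx => hpos x hx i)
      (measurable_pi_apply i).aemeasurable, ← integ n hV0.le hk, ← lintegral_indicator measurableSet_Ioc]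
    refine le_trans (setLIntegral_mono' measurableSet_Ioi fun s hs0 => ?_)
      (setLIntegral_le_lintegral _ _)
    rw [Measure.restrict_apply' hm, Set.inter_comm]
    exact key s hs0
  refine (mul_le_mul_right fin _).trans (le_of_eq ?_)
  rw [eσ, eV, ← ENNReal.ofReal_natCast, ← ENNReal.ofReal_mul (by positivity),
    ← ENNReal.ofReal_mul (by positivity), ← ENNReal.ofReal_mul (by positivity),
    ← ENNReal.ofReal_pow hV0.le]
  congr 1
  push_cast
  field_simp

end Pool.Agent.P.MP_6149fc_ag
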