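import Pool.Agent.P.MP_6149fc_ag.Iface

namespace Pool.Agent.P.MP_6149fc_ag

open scoped ENNReal Pointwise
open MvPolynomial MeasureTheory

namespace BodyA

variable {n : ℕ} (G : Semi n)

theorem nsmul_mem {M j : ℕ} {a : Fin n →₀ ℕ} (h : a ∈ G.Γ M j) (k : ℕ) :
    k • a ∈ G.Γ (k * M) (k * j) := by
  induction k with
  | zero => simpa using G.zero0
  | succ k ih =>
    rw [succ_nsmul, Nat.succ_mul, Nat.succ_mul]
    exact G.add _ _ _ _ _ _ ih h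

theorem sum_mem {ι : Type} (s : Finset ι) {f : ι → Fin n →₀ ℕ} {M j : ι → ℕ}
    (h : ∀ i, f i ∈ G.Γ (M i) (j i)) : ∑ i ∈ s, f i ∈ G.Γ (∑ i ∈ s, M i) (∑ i ∈ s, j i) := by
  classical
  induction s using Finset.induction_on with
  | empty => simpa using G.zero0
  | insert a s ha ih =>
    rw [Finset.sum_insert ha, Finset.sum_insert ha, Finset.sum_insert ha]
    exact G.add _ _ _ _ _ _ (h a) ih

theorem pad {M M' j : ℕ} {a : Fin n →₀ ℕ} (h : a ∈ G.Γ M j) (hM : M ≤ M') : a ∈ G.Γ M' j := by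
  obtain ⟨k, rfl⟩ := Nat.exists_eq_add_of_le hM
  simpa using G.add _ _ _ _ _ _ h (nsmul_mem G G.zero1 k)

theorem any_mem (r : Fin n →₀ ℕ) : r ∈ G.Γ (∑ i, r i) 0 := by
  have h := sum_mem G Finset.univ fun i => nsmul_mem G (G.single1 i) (r i)
  simpa [Finsupp.univ_sum_single] using h

/-- The generators. -/
abbrev T : Type := {a : ℕ × ℕ × (Fin n →₀ ℕ) // a.2.2 ∈ G.Γ a.1 a.2.1}

/-- The polytope spanned by finitely many generators. -/
def Pt (F : Finset (T G)) : Set (ℝ × (Fin n → ℝ)) :=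
  {p | ∃ l : T G → ℝ, (∀ a, l a ∈ Set.Icc (0 : ℝ) 1) ∧ ∑ a ∈ F, l a * a.1.1 ≤ 1 ∧ 0 ≤ p.1 ∧
    p.1 ≤ ∑ a ∈ F, l a * a.1.2.1 ∧ ∀ i, p.2 i = ∑ a ∈ F, l a * a.1.2.2 i}

theorem P_compact (F : Finset (T G)) : IsCompact (Pt G F) := by
  have h1 : IsCompact ((Set.univ.pi fun _ : T G => Set.Icc (0 : ℝ) 1) ×ˢ
      Set.Icc (0 : ℝ) (∑ a ∈ F, (a.1.2.1 : ℝ))) :=
    (isCompact_univ_pi fun _ => isCompact_Icc).prod isCompact_Icc
  have h2 : IsClosed {q : (T G → ℝ) × ℝ | ∑ a ∈ F, q.1 a * a.1.1 ≤ 1 ∧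
      q.2 ≤ ∑ a ∈ F, q.1 a * a.1.2.1} :=
    IsClosed.and (isClosed_le (by fun_prop) continuous_const)
      (isClosed_le (by fun_prop) (by fun_prop))
  have h3 := (h1.inter_right h2).image (f := fun q : (T G → ℝ) × ℝ =>
    ((q.2, fun i => ∑ a ∈ F, q.1 a * a.1.2.2 i) : ℝ × (Fin n → ℝ))) (by fun_prop)
  refine (congrArg IsCompact (Set.Subset.antisymm ?_ ?_)).mp h3
  · rintro _ ⟨q, ⟨⟨h4, h5⟩, h6, h7⟩, rfl⟩
    exact ⟨q.1, fun a => h4 a trivial, h6, h5.1, h7, fun _ => rfl⟩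
  · rintro p ⟨l, h4, h5, h6, h7, h8⟩
    refine ⟨(l, p.1), ⟨⟨fun a _ => h4 a, h6, h7.trans (Finset.sum_le_sum fun a _ => ?_)⟩, h5, h7⟩,
      Prod.ext rfl (funext fun i => (h8 i).symm)⟩
    exact mul_le_of_le_one_left (Nat.cast_nonneg _) (h4 a).2

theorem P_mono : Monotone (Pt G) := by
  classical
  rintro F F' h p ⟨l, h1, h2, h3, h4, h5⟩
  have key : ∀ c : T G → ℝ, ∑ a ∈ F', (if a ∈ F then l a else 0) * c a = ∑ a ∈ F, l a * c a :=
    fun c => by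
      simp only [ite_mul, zero_mul, Finset.sum_ite_mem, Finset.inter_eq_right.2 h]
  refine ⟨fun a => if a ∈ F then l a else 0, fun a => ?_, by rwa [key], h3, by rwa [key],
    fun i => by rw [key, h5]⟩
  beta_reduce
  split_ifs
  exacts [h1 a, ⟨le_rfl, zero_le_one⟩]

theorem P_convex (F : Finset (T G)) : Convex ℝ (Pt G F) := by
  rintro p ⟨l, h1, h2, h3, h4, h5⟩ p' ⟨l', h1', h2', h3', h4', h5'⟩ u v hu hv huv
  have key : ∀ c : T G → ℝ, ∑ a ∈ F, (u * l a + v * l' a) * c a =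
      u * ∑ a ∈ F, l a * c a + v * ∑ a ∈ F, l' a * c a := fun c => by
    simp only [add_mul, Finset.sum_add_distrib, Finset.mul_sum, mul_assoc]
  refine ⟨fun a => u * l a + v * l' a, fun a => convex_Icc 0 1 (h1 a) (h1' a) hu hv huv,
    ?_, ?_, ?_, fun i => ?_⟩
  · rw [key]
    nlinarith
  · exact add_nonneg (mul_nonneg hu h3) (mul_nonneg hv h3')
  · rw [key]
    exact add_le_add (mul_le_mul_of_nonneg_left h4 hu) (mul_le_mul_of_nonneg_left h4' hv)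
  · rw [key, ← h5, ← h5']
    rfl

theorem near (F : Finset (T G)) {θ : ℝ} (h0 : 0 < θ) (h1 : θ < 1) :
    ∃ C : ℕ, ∀ᶠ M : ℕ in Filter.atTop, ∀ p ∈ Pt G F, ∃ l ≤ M * C, ∃ g ∈ G.Γ M l,
      θ * M * p.1 ≤ l + C ∧ ∀ i, (g i : ℝ) ≤ θ * M * p.2 i ∧ θ * M * p.2 i < g i + 1 := by
  refine ⟨∑ a ∈ F, a.1.2.1, ?_⟩
  filter_upwards [Filter.eventually_ge_atTop
    ⌈(∑ i, ∑ a ∈ F, (a.1.2.2 i : ℝ)) / (1 - θ)⌉₊] with M hM
  rw [Nat.ceil_le, div_le_iff₀ (by linarith)] at hM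
  rintro p ⟨l, h2, h3, h4, h5, h6⟩
  have hθ : 0 ≤ θ * M := by positivity
  have hθ' : θ * M ≤ M := mul_le_of_le_one_left (Nat.cast_nonneg _) h1.le
  have hμ : ∀ a, 0 ≤ θ * M * l a := fun a => mul_nonneg hθ (h2 a).1
  have lo : ∀ c : T G → ℕ, ((∑ a ∈ F, ⌊θ * M * l a⌋₊ * c a : ℕ) : ℝ) ≤
      θ * M * ∑ a ∈ F, l a * c a := fun c => by
    rw [Finset.mul_sum]
    push_cast
    refine Finset.sum_le_sum fun a _ => ?_
    rw [← mul_assoc]
    exact mul_le_mul_of_nonneg_right (Nat.floor_le (hμ a)) (Nat.cast_nonneg _)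
  have hi : ∀ c : T G → ℕ, θ * M * ∑ a ∈ F, l a * c a ≤
      ((∑ a ∈ F, ⌊θ * M * l a⌋₊ * c a : ℕ) : ℝ) + ∑ a ∈ F, (c a : ℝ) := fun c => by
    rw [Finset.mul_sum]
    push_cast
    rw [← Finset.sum_add_distrib]
    refine Finset.sum_le_sum fun a _ => ?_
    rw [← mul_assoc, ← add_one_mul]
    exact mul_le_mul_of_nonneg_right (Nat.lt_floor_add_one _).le (Nat.cast_nonneg _)
  have hx : ∀ i, 0 ≤ θ * M * p.2 i := fun i => by
    rw [h6]
    exact (Nat.cast_nonneg _).trans (lo fun a => a.1.2.2 i)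
  have hg := sum_mem G F fun a => nsmul_mem G a.2 ⌊θ * M * l a⌋₊
  obtain ⟨g, hg0⟩ : ∃ g, g = ∑ a ∈ F, ⌊θ * M * l a⌋₊ • a.1.2.2 := ⟨_, rfl⟩
  rw [← hg0] at hg
  have hgi : ∀ i, g i = ∑ a ∈ F, ⌊θ * M * l a⌋₊ * a.1.2.2 i := fun i => by
    simp [hg0, Finsupp.finsetSum_apply]
  have hle : ∀ i, g i ≤ ⌊θ * M * p.2 i⌋₊ := fun i =>
    Nat.le_floor (by rw [hgi, h6]; exact lo fun a => a.1.2.2 i)
  obtain ⟨r, hr⟩ : ∃ r : Fin n →₀ ℕ, ∀ i, g i + r i = ⌊θ * M * p.2 i⌋₊ :=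
    ⟨Finsupp.equivFunOnFinite.symm fun i => ⌊θ * M * p.2 i⌋₊ - g i,
      fun i => Nat.add_sub_of_le (hle i)⟩
  have hr' : ∀ i, (r i : ℝ) ≤ ∑ a ∈ F, (a.1.2.2 i : ℝ) := fun i => by
    have e1 := Nat.floor_le (hx i)
    have e2 := hi fun a => a.1.2.2 i
    rw [← hr, Nat.cast_add] at e1
    rw [← h6, ← hgi] at e2
    linarith
  refine ⟨∑ a ∈ F, ⌊θ * M * l a⌋₊ * a.1.2.1, ?_, g + r,
    pad G (G.add _ _ _ _ _ _ hg (any_mem G r)) ?_, ?_, fun i => ?_⟩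
  · rw [Finset.mul_sum]
    refine Finset.sum_le_sum fun a _ => Nat.mul_le_mul_right _ (Nat.floor_le_of_le ?_)
    exact (mul_le_of_le_one_right hθ (h2 a).2).trans hθ'
  · have e1 := (lo fun a => a.1.1).trans (mul_le_of_le_one_right hθ h3)
    have e2 : ∑ i, (r i : ℝ) ≤ _ := Finset.sum_le_sum fun i _ => hr' i
    rw [← Nat.cast_le (α := ℝ), Nat.cast_add, Nat.cast_sum Finset.univ]
    linarith
  · rw [Nat.cast_sum F fun a => a.1.2.1]
    exact (mul_le_mul_of_nonneg_left h5 hθ).trans (hi fun a => a.1.2.1)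
  · rw [Finsupp.add_apply, hr]
    exact ⟨Nat.floor_le (hx i), Nat.lt_floor_add_one _⟩

end BodyA

open BodyA in
theorem p_BODY (hCUBE : S_CUBE) : S_BODY := by
  intro n G
  have hdir : Directed (· ⊆ ·) (Pt G) := (P_mono G).directed_le
  refine ⟨⋃ F, Pt G F, MeasurableSet.iUnion fun F => (P_compact G F).measurableSet,
    hdir.convex_iUnion (P_convex G), fun p hp => ?_, fun s s' x hp h0 h1 => ?_,
    fun M j γ hM hγ => ?_, fun θ h0 h1 b hb => ?_, fun θ h0 h1 b hb => ?_⟩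
  · obtain ⟨F, l, h1, -, h3, -, h5⟩ := Set.mem_iUnion.1 hp
    refine ⟨h3, fun i => ?_⟩
    rw [h5]
    exact Finset.sum_nonneg fun a _ => mul_nonneg (h1 a).1 (Nat.cast_nonneg _)
  · obtain ⟨F, l, h2, h3, -, h4, h5⟩ := Set.mem_iUnion.1 hp
    exact Set.mem_iUnion.2 ⟨F, l, h2, h3, h0, h1.trans h4, h5⟩
  · have hM' : (1 : ℝ) ≤ M := by exact_mod_cast hM
    refine Set.mem_iUnion.2 ⟨{⟨(M, j, γ), hγ⟩}, fun _ => (M : ℝ)⁻¹,
      fun _ => ⟨by positivity, inv_le_one_of_one_le₀ hM'⟩, ?_, by positivity, ?_, fun i => ?_⟩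
    · rw [Finset.sum_singleton, inv_mul_cancel₀ (by positivity)]
    · rw [Finset.sum_singleton, div_eq_inv_mul]
    · rw [Finset.sum_singleton, ← div_eq_inv_mul]
  · have h2 : {x | ((0 : ℝ), x) ∈ ⋃ F, Pt G F} = ⋃ F, {x | ((0 : ℝ), x) ∈ Pt G F} := by
      ext x
      simp only [Set.mem_iUnion, Set.mem_ofPred_eq]
    have h3 : Directed (· ⊆ ·) fun F => {x | ((0 : ℝ), x) ∈ Pt G F} :=
      Monotone.directed_le fun F F' h x hx => P_mono G h hx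
    rw [h2, h3.measure_iUnion, lt_iSup_iff] at hb
    obtain ⟨F, hF⟩ := hb
    obtain ⟨C, hC⟩ := near G F h0 h1
    filter_upwards [hC] with M hM
    have hθ : 0 ≤ θ * M := by positivity
    refine (mul_le_mul_right hF.le _).trans (le_trans (le_of_eq ?_)
      ((hCUBE n).2.1 (G.Γ M 0) ((θ * M) • {x | ((0 : ℝ), x) ∈ Pt G F}) ?_))
    · rw [Measure.addHaar_smul_of_nonneg _ hθ, Module.finrank_fin_fun, ENNReal.ofReal_pow hθ]
    · rintro _ ⟨x, hx, rfl⟩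
      obtain ⟨l, -, g, hg, -, h4⟩ := hM _ hx
      exact ⟨g, G.anti _ _ _ (Nat.zero_le l) hg, h4⟩
  · rw [hdir.measure_iUnion, lt_iSup_iff] at hb
    obtain ⟨F, hF⟩ := hb
    obtain ⟨C, hC⟩ := near G F h0 h1
    refine ⟨C + 1, ?_⟩
    filter_upwards [hC] with M hM
    refine ⟨M * C, ?_⟩
    have hθ : 0 ≤ θ * M := by positivity
    obtain ⟨D, hD⟩ : ∃ D : ℕ → Set (Fin n → ℝ), ∀ j, D j =
      {x | ∃ γ ∈ G.Γ M j, ∀ i, (γ i : ℝ) ≤ x i ∧ x i < (γ i : ℝ) + 1} := ⟨_, fun _ => rfl⟩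
    have hD' : ∀ j, volume (D j) ≤ (G.Γ M j).card := fun j =>
      (hCUBE n).2.1 _ _ fun x hx => by rwa [hD] at hx
    have hsub : (θ * M) • Pt G F ⊆ (⋃ j ∈ Finset.Icc 1 (M * C),
        Set.Ico ((j + C : ℕ) : ℝ) ((j + C : ℕ) + 1) ×ˢ D j) ∪
          Set.Ico (0 : ℝ) (C + 1 : ℕ) ×ˢ D 0 := by
      rintro _ ⟨p, hp, rfl⟩
      obtain ⟨l, h2, g, hg, h3, h4⟩ := hM _ hp
      have h5 : 0 ≤ θ * M * p.1 := mul_nonneg hθ hp.choose_spec.2.2.1
      have h6 : ⌊θ * M * p.1⌋₊ ≤ l + C := Nat.floor_le_of_le (by exact_mod_cast h3)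
      rcases Nat.lt_or_ge ⌊θ * M * p.1⌋₊ (C + 1) with h | h
      · refine Or.inr ⟨⟨h5, (Nat.floor_lt h5).1 h⟩, ?_⟩
        rw [hD]
        exact ⟨g, G.anti _ _ _ (Nat.zero_le l) hg, h4⟩
      · refine Or.inl (Set.mem_iUnion₂.2 ⟨⌊θ * M * p.1⌋₊ - C,
          Finset.mem_Icc.2 ⟨by omega, by omega⟩, ?_, ?_⟩)
        · rw [Nat.sub_add_cancel (by omega)]
          exact ⟨Nat.floor_le h5, Nat.lt_floor_add_one _⟩
        · rw [hD]
          exact ⟨g, G.anti _ _ _ (by omega) hg, h4⟩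
    have h7 : volume ((θ * M) • Pt G F) = ENNReal.ofReal (θ * M) ^ (n + 1) * volume (Pt G F) := by
      have : (volume : Measure (ℝ × (Fin n → ℝ))).IsAddHaarMeasure :=
        Measure.prod.instIsAddHaarMeasure _ _
      rw [Measure.addHaar_smul_of_nonneg _ hθ, Module.finrank_prod, Module.finrank_fin_fun,
        Module.finrank_self, ENNReal.ofReal_pow hθ, add_comm]
    refine (mul_le_mul_right hF.le _).trans (h7.ge.trans ((measure_mono hsub).trans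
      ((measure_union_le _ _).trans ?_)))
    rw [Nat.cast_add (R := ℝ≥0∞), Nat.cast_sum, Nat.cast_mul]
    refine add_le_add ((measure_biUnion_finset_le _ _).trans (Finset.sum_le_sum fun j _ => ?_)) ?_
    · rw [Measure.volume_eq_prod, Measure.prod_prod, Real.volume_Ico, add_sub_cancel_left,
        ENNReal.ofReal_one, one_mul]
      exact hD' j
    · rw [Measure.volume_eq_prod, Measure.prod_prod, Real.volume_Ico, sub_zero,
        ENNReal.ofReal_natCast]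
      exact mul_le_mul_right (hD' 0) _

end Pool.Agent.P.MP_6149fc_ag
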