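import Pool.Agent.P.MP_6149fc_ag.Iface

namespace Pool.Agent.P.MP_6149fc_ag

open scoped ENNReal
open MvPolynomial MeasureTheory

namespace ConvA

open Filter Topology

theorem le_of_theta {a c : ℝ≥0∞} (k : ℕ)
    (h : ∀ θ : ℝ, 0 < θ → θ < 1 → ENNReal.ofReal θ ^ k * a ≤ c) : a ≤ c := by
  have h1 : Tendsto (fun θ : ℝ => ENNReal.ofReal θ ^ k) (𝓝[<] 1) (𝓝 1) := by
    have h0 : Tendsto (fun θ : ℝ => ENNReal.ofReal θ) (𝓝[<] 1) (𝓝 1) := by
      have := (ENNReal.continuous_ofReal.tendsto 1).mono_left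
        (nhdsWithin_le_nhds (s := Set.Iio (1 : ℝ)))
      simpa using this
    simpa using ENNReal.Tendsto.pow (n := k) h0
  have h2 := ENNReal.Tendsto.mul_const (b := a) h1 (Or.inl one_ne_zero)
  rw [one_mul] at h2
  refine le_of_tendsto h2 ?_
  filter_upwards [Ioo_mem_nhdsLT (zero_lt_one' ℝ)] with θ hθ
  exact h θ hθ.1 hθ.2

theorem ev_theta (n : ℕ) {θ : ℝ} (h1 : θ < 1) :
    ∀ᶠ M : ℕ in atTop, 1 ≤ M ∧ θ * ((M : ℝ) + n) ≤ M := by
  have h : Tendsto (fun M : ℕ => (1 - θ) * (M : ℝ)) atTop atTop :=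
    tendsto_natCast_atTop_atTop.const_mul_atTop (by linarith)
  filter_upwards [eventually_ge_atTop 1, h.eventually_ge_atTop (θ * n)] with M a b
  exact ⟨a, by linarith⟩

theorem theta_en {n M : ℕ} {θ : ℝ} (h0 : 0 < θ) (h : θ * ((M : ℝ) + n) ≤ M) :
    ENNReal.ofReal θ * ((M + n : ℕ) : ℝ≥0∞) ≤ M := by
  rw [← ENNReal.ofReal_natCast, ← ENNReal.ofReal_mul h0.le, ← ENNReal.ofReal_natCast M]
  exact ENNReal.ofReal_le_ofReal (by push_cast; exact h)

theorem theta_pow {n M : ℕ} {θ : ℝ} (h0 : 0 < θ) (h : θ * ((M : ℝ) + n) ≤ M) (k : ℕ) :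
    ENNReal.ofReal θ ^ (2 * k) * ((M + n : ℕ) : ℝ≥0∞) ^ k ≤ ENNReal.ofReal (θ * M) ^ k := by
  rw [ENNReal.ofReal_mul h0.le, ENNReal.ofReal_natCast, pow_mul, ← mul_pow]
  refine pow_le_pow_left' ?_ k
  rw [sq, mul_assoc]
  exact mul_le_mul_right (theta_en h0 h) _

theorem vol_scale {n : ℕ} (E : Set (Fin n → ℝ)) {c : ℕ} (hc : c ≠ 0) :
    volume ((fun x : Fin n → ℝ => (c : ℝ)⁻¹ • x) ⁻¹' E) = (c : ℝ≥0∞) ^ n * volume E := by
  have hc' : (c : ℝ) ≠ 0 := by exact_mod_cast hc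
  rw [Measure.addHaar_preimage_smul volume (inv_ne_zero hc')]
  congr 1
  rw [inv_pow, inv_inv, abs_of_nonneg (by positivity), Module.finrank_fin_fun,
    ENNReal.ofReal_pow (by positivity), ENNReal.ofReal_natCast]

theorem int_scale {n : ℕ} {E : Set (Fin n → ℝ)} (hE : MeasurableSet E) {c : ℕ} (hc : c ≠ 0)
    (i : Fin n) :
    ∫⁻ x in (fun x : Fin n → ℝ => (c : ℝ)⁻¹ • x) ⁻¹' E, ENNReal.ofReal (x i) =
      (c : ℝ≥0∞) ^ (n + 1) * ∫⁻ x in E, ENNReal.ofReal (x i) := by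
  have hc' : (c : ℝ) ≠ 0 := by exact_mod_cast hc
  have hm : Measurable fun x : Fin n → ℝ => (c : ℝ)⁻¹ • x := measurable_const_smul _
  have hf : Measurable fun x : Fin n → ℝ => ENNReal.ofReal (x i) :=
    (measurable_pi_apply i).ennreal_ofReal
  have h1 : ∀ x : Fin n → ℝ, ENNReal.ofReal (x i) =
      c * ENNReal.ofReal (((c : ℝ)⁻¹ • x) i) := by
    intro x
    rw [← ENNReal.ofReal_natCast, ← ENNReal.ofReal_mul (by positivity)]
    congr 1
    simp only [Pi.smul_apply, smul_eq_mul]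
    field_simp
  rw [lintegral_congr h1, lintegral_const_mul' _ _ (ENNReal.natCast_ne_top c),
    ← setLIntegral_map hE hf hm, Measure.map_addHaar_smul volume (inv_ne_zero hc'),
    Measure.restrict_smul, lintegral_smul_measure, inv_pow, inv_inv,
    abs_of_nonneg (by positivity), Module.finrank_fin_fun,
    ENNReal.ofReal_pow (by positivity), ENNReal.ofReal_natCast, smul_eq_mul]
  ring

theorem simplex_sub {n : ℕ} {D : Set (Fin n → ℝ)} (hD : Convex ℝ D) (h0 : (0 : Fin n → ℝ) ∈ D)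
    (h1 : ∀ i, Pi.single i (1 : ℝ) ∈ D) : simplex n ⊆ D := by
  rintro x ⟨hx, hs⟩
  have := hD.sum_mem (t := Finset.univ) (w := fun o : Option (Fin n) => o.elim (1 - ∑ i, x i) x)
    (z := fun o : Option (Fin n) => o.elim 0 fun i => Pi.single i (1 : ℝ))
    (by rintro (_ | i) _
        · simpa using hs
        · simpa using hx i)
    (by simp [Fintype.sum_option])
    (by rintro (_ | i) _
        · simpa using h0
        · simpa using h1 i)
  convert this using 1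
  ext j
  simp [Fintype.sum_option, Finset.sum_apply, Pi.single_apply]

theorem prod_eps {n : ℕ} (S : Finset (Fin n)) (i : Fin n) {θ : ℝ} (h0 : 0 < θ) (h1 : θ < 1) :
    θ ^ n * 2 ^ (S.card - 1) ≤
      ∏ j ∈ Finset.univ.erase i, θ * (if j ∈ S then (2 : ℝ) else 1) := by
  rw [Finset.prod_mul_distrib, Finset.prod_const, Finset.prod_ite, Finset.prod_const,
    Finset.prod_const_one, mul_one]
  refine mul_le_mul ?_ ?_ (by positivity) (by positivity)
  · refine pow_le_pow_of_le_one h0.le h1.le ?_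
    simp
  · refine pow_le_pow_right₀ one_le_two ?_
    refine (Finset.pred_card_le_card_erase (a := i)).trans (Finset.card_le_card ?_)
    intro j hj
    simp only [Finset.mem_erase, Finset.mem_filter, Finset.mem_univ, and_true] at hj ⊢
    exact hj

theorem int_sig {g : ℝ → ℝ≥0∞} (hg : Measurable g) {θ : ℝ} (h0 : 0 < θ) :
    ENNReal.ofReal θ * ∫⁻ t in Set.Ioi (0 : ℝ), g (θ * t) ≤ ∫⁻ t, g t := by
  have h1 : ∫⁻ t, g (θ * t) = ENNReal.ofReal θ⁻¹ * ∫⁻ t, g t := by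
    rw [← lintegral_map hg (measurable_const_mul θ), Real.map_volume_mul_left h0.ne',
      lintegral_smul_measure, abs_of_pos (inv_pos.2 h0), smul_eq_mul]
  calc _ ≤ ENNReal.ofReal θ * ∫⁻ t, g (θ * t) :=
        mul_le_mul_right (setLIntegral_le_lintegral _ _) _
    _ = _ := by
        rw [h1, ← mul_assoc, ← ENNReal.ofReal_mul h0.le, mul_inv_cancel₀ h0.ne',
          ENNReal.ofReal_one, one_mul]

end ConvA

open ConvA Filter Topology

theorem p_CONV (hCUBE : S_CUBE) (hBODY : S_BODY) (hBARY : S_BARY) : S_CONV := by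
  intro n d A C0 G S hn hS hd hA hdle
  obtain ⟨B, hBm, hBc, hpos, hdown, hmem, hlow0, hlowB⟩ := hBODY n G
  obtain ⟨hc1, -, hc3, -, hV0z, hV0t⟩ := hCUBE n
  set V0 := volume (simplex n) with hV0
  let sl : ℝ → Set (Fin n → ℝ) := fun s => Prod.mk s ⁻¹' B
  have hslm : ∀ s, MeasurableSet (sl s) := fun s => measurable_prodMk_left hBm
  have hDc : Convex ℝ (sl 0) := by
    intro x hx y hy a b ha hb hab
    have := hBc hx hy ha hb hab
    simpa [sl] using this
  have hD0 : (0 : Fin n → ℝ) ∈ sl 0 := by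
    have := hmem 1 0 0 le_rfl G.zero1
    simp only [Nat.cast_zero, Finsupp.coe_zero, Pi.zero_apply, zero_div] at this
    exact this
  have hDs : ∀ (M : ℕ) (a : Fin n) (k : ℕ), 1 ≤ M → Finsupp.single a k ∈ G.Γ M 0 →
      Pi.single a ((k : ℝ) / M) ∈ sl 0 := by
    intro M a k hM h
    have := hmem M 0 _ hM h
    simp only [Nat.cast_zero, zero_div] at this
    change (0, _) ∈ B
    convert this using 2
    ext j
    by_cases hj : j = a
    · subst hj; simp
    · simp [hj]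
  have hD1 : ∀ i, Pi.single i (1 : ℝ) ∈ sl 0 := fun i => by
    simpa using hDs 1 i 1 le_rfl (G.single1 i)
  have hsim := simplex_sub hDc hD0 hD1
  have hnR : (0 : ℝ) < n := by exact_mod_cast hn
  have hcube : ∀ (M j : ℕ) (γ : Fin n →₀ ℕ), 1 ≤ M → γ ∈ G.Γ M j → ∀ x : Fin n → ℝ,
      (∀ i, (γ i : ℝ) ≤ x i ∧ x i < γ i + 1) →
      (((M + n : ℕ) : ℝ)⁻¹ • x) ∈ sl (j / ((M : ℝ) + n)) := by
    intro M j γ hM hγ x hx
    have hMR : (0 : ℝ) < M := by exact_mod_cast hM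
    have hq : (fun i => (x i - γ i) / n) ∈ simplex n := by
      refine ⟨fun i => div_nonneg (by linarith [(hx i).1]) hnR.le, ?_⟩
      rw [← Finset.sum_div, div_le_one hnR]
      calc ∑ i, (x i - γ i) ≤ ∑ _i : Fin n, (1 : ℝ) :=
            Finset.sum_le_sum fun i _ => by linarith [(hx i).2]
        _ = n := by simp
    have := hBc (hmem M j γ hM hγ) (hsim hq) (a := M / (M + n)) (b := n / (M + n))
      (by positivity) (by positivity) (by field_simp)
    change (_, _) ∈ B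
    convert this using 1
    ext i
    · simp only [Prod.fst_add, Prod.smul_fst, smul_eq_mul]
      field_simp
      ring
    · simp only [Prod.snd_add, Prod.smul_snd, Pi.add_apply, Pi.smul_apply, smul_eq_mul]
      push_cast
      field_simp
      ring
  set V := volume (sl 0) with hV
  have hMn : ∀ M : ℕ, M + n ≠ 0 := fun M => by omega
  have hpz : ∀ M k : ℕ, ((M + n : ℕ) : ℝ≥0∞) ^ k ≠ 0 := fun M k =>
    pow_ne_zero _ (by exact_mod_cast hMn M)
  have hpt : ∀ M k : ℕ, ((M + n : ℕ) : ℝ≥0∞) ^ k ≠ ⊤ := fun M k =>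
    ENNReal.pow_ne_top (ENNReal.natCast_ne_top _)
  have hcard : ∀ M, ((G.Γ M 0).card : ℝ≥0∞) ≤ ((M + n : ℕ) : ℝ≥0∞) ^ n * (d * V0) := by
    intro M
    calc ((G.Γ M 0).card : ℝ≥0∞) ≤ ((d * (M + n).choose n : ℕ) : ℝ≥0∞) := by
          exact_mod_cast hd M
      _ ≤ d * (((M + n : ℕ) : ℝ≥0∞) ^ n * V0) := by
          rw [Nat.cast_mul]; exact mul_le_mul_right (hc3 M) _
      _ = _ := by ring
  have h1 : V ≤ d * V0 := by
    refine le_of_forall_lt_imp_le_of_dense fun b hb => le_of_theta (2 * n) fun θ h0 h1 => ?_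
    obtain ⟨M, hM, -, hθ⟩ := ((hlow0 θ h0 h1 b hb).and (ev_theta n h1)).exists
    refine (ENNReal.mul_le_mul_iff_right (hpz M n) (hpt M n)).1 ?_
    calc _ = ENNReal.ofReal θ ^ (2 * n) * ((M + n : ℕ) : ℝ≥0∞) ^ n * b := by ring
      _ ≤ _ := (mul_le_mul_left (theta_pow h0 hθ n) _).trans (hM.trans (hcard M))
  have hdt : (d : ℝ≥0∞) * V0 ≠ ⊤ := ENNReal.mul_ne_top (ENNReal.natCast_ne_top _) hV0t
  have h3 : ∀ i, ∫⁻ x in sl 0, ENNReal.ofReal (x i) ≤ V := by
    intro i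
    refine le_of_theta n fun θ h0 h1' => ?_
    have hb := hBARY n (sl 0) (fun j => θ * (if j ∈ S then (2 : ℝ) else 1)) hDc (hslm 0)
      (fun x hx i => (hpos _ hx).2 i) hD0 (fun j => by split_ifs <;> positivity) (fun j => ?_) i
    · have hK0 : ((n + 1 : ℕ) : ℝ≥0∞) * 2 ^ (S.card - 1) * V0 ≠ 0 :=
        mul_ne_zero (mul_ne_zero (by exact_mod_cast Nat.succ_ne_zero n) (by simp)) hV0z
      have hKt : ((n + 1 : ℕ) : ℝ≥0∞) * 2 ^ (S.card - 1) * V0 ≠ ⊤ :=
        ENNReal.mul_ne_top (ENNReal.mul_ne_top (ENNReal.natCast_ne_top _) (by simp)) hV0t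
      refine (ENNReal.mul_le_mul_iff_right hK0 hKt).1 ?_
      have hp : ENNReal.ofReal θ ^ n * 2 ^ (S.card - 1) ≤ ENNReal.ofReal
          (∏ j ∈ Finset.univ.erase i, θ * (if j ∈ S then (2 : ℝ) else 1)) := by
        refine le_trans (le_of_eq ?_) (ENNReal.ofReal_le_ofReal (prod_eps S i h0 h1'))
        rw [ENNReal.ofReal_mul (by positivity), ENNReal.ofReal_pow h0.le,
          ENNReal.ofReal_pow zero_le_two, ENNReal.ofReal_ofNat]
      have hd' : (d : ℝ≥0∞) ≤ ((n + 1 : ℕ) : ℝ≥0∞) * 2 ^ (S.card - 1) := by exact_mod_cast hdle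
      calc _ = ((n + 1 : ℕ) : ℝ≥0∞) * (ENNReal.ofReal θ ^ n * 2 ^ (S.card - 1)) * V0 *
            ∫⁻ x in sl 0, ENNReal.ofReal (x i) := by ring
        _ ≤ _ := by gcongr
        _ ≤ V ^ 2 := hb
        _ ≤ _ := by
            rw [sq]
            exact mul_le_mul_left (h1.trans (mul_le_mul_left hd' _)) _
    · split_ifs with hj
      · have ht : Tendsto (fun M : ℕ => (2 - θ * 2) * (M : ℝ)) atTop atTop :=
          tendsto_natCast_atTop_atTop.const_mul_atTop (by linarith)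
        obtain ⟨M, hM, hM2⟩ := ((eventually_ge_atTop 1).and (ht.eventually_ge_atTop C0)).exists
        have hMR : (0 : ℝ) < M := by exact_mod_cast hM
        have hk : θ * 2 ≤ ((2 * M - C0 : ℕ) : ℝ) / M := by
          rw [le_div_iff₀ hMR]
          have : 2 * M ≤ 2 * M - C0 + C0 := le_tsub_add
          have : (2 * M : ℝ) ≤ ((2 * M - C0 : ℕ) : ℝ) + C0 := by exact_mod_cast this
          linarith
        have hk0 : 0 < ((2 * M - C0 : ℕ) : ℝ) / M := lt_of_lt_of_le (by positivity) hk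
        have := hDc.smul_mem_of_zero_mem hD0 (hDs M j _ hM (hS M j hj))
          (t := θ * 2 / (((2 * M - C0 : ℕ) : ℝ) / M))
          ⟨by positivity, (div_le_one hk0).2 hk⟩
        rwa [← Pi.single_smul, smul_eq_mul, div_mul_cancel₀ _ hk0.ne'] at this
      · have := hDc.smul_mem_of_zero_mem hD0 (hD1 j) (t := θ) ⟨h0.le, h1'.le⟩
        rwa [← Pi.single_smul, smul_eq_mul] at this
  have hsc : ∀ (M : ℕ) (s : ℝ), MeasurableSet
      ((fun x : Fin n → ℝ => ((M + n : ℕ) : ℝ)⁻¹ • x) ⁻¹' sl s) := fun M s =>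
    measurable_const_smul _ (hslm s)
  have h2a : ∀ M i, 1 ≤ M → ((∑ γ ∈ G.Γ M 0, γ i : ℕ) : ℝ≥0∞) ≤
      ((M + n : ℕ) : ℝ≥0∞) ^ (n + 1) * V := by
    intro M i hM
    refine ((hc1 (G.Γ M 0) _ (hsc M 0) fun γ hγ x hx => ?_).2 i).trans ?_
    · simpa using hcube M 0 γ hM hγ x hx
    · rw [int_scale (hslm 0) (hMn M)]
      exact mul_le_mul_right (h3 i) _
  have h4 : volume B ≤ A * V := by
    refine le_of_forall_lt_imp_le_of_dense fun b hb =>
      le_of_theta (2 * (n + 1)) fun θ h0 h1 => ?_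
    obtain ⟨C, hC⟩ := hlowB θ h0 h1 b hb
    have ht : Tendsto (fun M : ℕ => A * V + C * (d * V0) * ((M + n : ℕ) : ℝ≥0∞)⁻¹) atTop
        (𝓝 (A * V + C * (d * V0) * 0)) :=
      tendsto_const_nhds.add (ENNReal.Tendsto.const_mul
        (ENNReal.tendsto_inv_nat_nhds_zero.comp (tendsto_add_atTop_nat n))
        (Or.inr (ENNReal.mul_ne_top (ENNReal.natCast_ne_top _) hdt)))
    rw [mul_zero, add_zero] at ht
    refine ge_of_tendsto ht ?_
    filter_upwards [hC, ev_theta n h1] with M ⟨J, hJ⟩ ⟨hM, hθ⟩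
    obtain ⟨i, hi⟩ := hA M J
    refine (ENNReal.mul_le_mul_iff_right (hpz M (n + 1)) (hpt M (n + 1))).1 ?_
    have hinv : ((M + n : ℕ) : ℝ≥0∞) * ((M + n : ℕ) : ℝ≥0∞)⁻¹ = 1 :=
      ENNReal.mul_inv_cancel (by exact_mod_cast hMn M) (ENNReal.natCast_ne_top _)
    have hi' : ((∑ j ∈ Finset.Icc 1 J, (G.Γ M j).card : ℕ) : ℝ≥0∞) ≤
        A * ((∑ γ ∈ G.Γ M 0, γ i : ℕ) : ℝ≥0∞) := by exact_mod_cast hi
    calc _ = ENNReal.ofReal θ ^ (2 * (n + 1)) * ((M + n : ℕ) : ℝ≥0∞) ^ (n + 1) * b := by ring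
      _ ≤ _ := (mul_le_mul_left (theta_pow h0 hθ (n + 1)) _).trans hJ
      _ ≤ A * (((M + n : ℕ) : ℝ≥0∞) ^ (n + 1) * V) +
            C * (((M + n : ℕ) : ℝ≥0∞) ^ n * (d * V0)) := by
          rw [Nat.cast_add, Nat.cast_mul]
          exact add_le_add (hi'.trans (mul_le_mul_right (h2a M i hM) _))
            (mul_le_mul_right (hcard M) _)
      _ = A * (((M + n : ℕ) : ℝ≥0∞) ^ (n + 1) * V) + C * (((M + n : ℕ) : ℝ≥0∞) ^ n * (d * V0)) *
            (((M + n : ℕ) : ℝ≥0∞) * ((M + n : ℕ) : ℝ≥0∞)⁻¹) := by rw [hinv, mul_one]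
      _ = _ := by ring
  have h5 : ∀ θ : ℝ, 0 < θ → θ < 1 → ∀ t : ℝ, 0 < t → ENNReal.ofReal θ ^ n *
      limsup (fun M : ℕ => (n.factorial * (G.Γ M ⌈t * M⌉₊).card : ℝ≥0∞) / (M : ℝ≥0∞) ^ n) atTop ≤
      n.factorial * volume (sl (θ * t)) := by
    intro θ h0 h1 t ht
    have hT0 : ENNReal.ofReal θ ^ n ≠ 0 := pow_ne_zero _ (by simpa using h0)
    have hTt : ENNReal.ofReal θ ^ n ≠ ⊤ := ENNReal.pow_ne_top ENNReal.ofReal_ne_top
    rw [mul_comm, ← ENNReal.le_div_iff_mul_le (Or.inl hT0) (Or.inl hTt)]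
    refine limsup_le_of_le (by isBoundedDefault) ?_
    filter_upwards [ev_theta n h1] with M ⟨hM, hθ⟩
    rw [ENNReal.le_div_iff_mul_le (Or.inl hT0) (Or.inl hTt), mul_comm, ← mul_div_assoc]
    refine ENNReal.div_le_of_le_mul ?_
    have hc : ((G.Γ M ⌈t * M⌉₊).card : ℝ≥0∞) ≤
        ((M + n : ℕ) : ℝ≥0∞) ^ n * volume (sl (θ * t)) := by
      rw [← vol_scale _ (hMn M)]
      refine (hc1 _ _ (hsc M _) fun γ hγ x hx => ?_).1
      refine hdown _ _ _ (hcube M _ γ hM hγ x hx) (by positivity) ?_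
      rw [le_div_iff₀ (by positivity)]
      have := Nat.le_ceil (t * M)
      nlinarith [mul_le_mul_of_nonneg_left hθ ht.le]
    calc _ ≤ ENNReal.ofReal θ ^ n *
            (n.factorial * (((M + n : ℕ) : ℝ≥0∞) ^ n * volume (sl (θ * t)))) := by gcongr
      _ = n.factorial * volume (sl (θ * t)) * (ENNReal.ofReal θ * ((M + n : ℕ) : ℝ≥0∞)) ^ n := by
          ring
      _ ≤ _ := mul_le_mul_right (pow_le_pow_left' (theta_en h0 hθ) n) _
  have h6 : n.factorial * V ≤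
      limsup (fun M : ℕ => (n.factorial * (G.Γ M 0).card : ℝ≥0∞) / (M : ℝ≥0∞) ^ n) atTop := by
    refine ENNReal.mul_le_of_forall_lt fun a ha b hb => le_of_theta n fun θ h0 h1 => ?_
    refine le_limsup_of_frequently_le' (Eventually.frequently ?_)
    filter_upwards [hlow0 θ h0 h1 b hb, eventually_ge_atTop 1] with M hM hM1
    have hz : (M : ℝ≥0∞) ^ n ≠ 0 := pow_ne_zero _ (by exact_mod_cast (by omega : M ≠ 0))
    rw [ENNReal.le_div_iff_mul_le (Or.inl hz)
      (Or.inl (ENNReal.pow_ne_top (ENNReal.natCast_ne_top _)))]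
    rw [ENNReal.ofReal_mul h0.le, ENNReal.ofReal_natCast] at hM
    calc _ = a * ((ENNReal.ofReal θ * M) ^ n * b) := by ring
      _ ≤ _ := mul_le_mul' ha.le hM
  refine le_of_theta (n + 1) fun θ h0 h1 => ?_
  have hsig : Measurable fun s => volume (sl s) := measurable_measure_prodMk_left hBm
  have hvol : volume B = ∫⁻ s, volume (sl s) := by
    rw [Measure.volume_eq_prod, Measure.prod_apply hBm]
  calc _ = ENNReal.ofReal θ * ∫⁻ t in Set.Ioi (0 : ℝ), ENNReal.ofReal θ ^ n * limsup (fun M : ℕ =>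
        (n.factorial * (G.Γ M ⌈t * M⌉₊).card : ℝ≥0∞) / (M : ℝ≥0∞) ^ n) atTop := by
        rw [lintegral_const_mul' _ _ (ENNReal.pow_ne_top ENNReal.ofReal_ne_top)]
        ring
    _ ≤ ENNReal.ofReal θ * ∫⁻ t in Set.Ioi (0 : ℝ), n.factorial * volume (sl (θ * t)) :=
        mul_le_mul_right (setLIntegral_mono' measurableSet_Ioi fun t ht => h5 θ h0 h1 t ht) _
    _ = n.factorial * (ENNReal.ofReal θ * ∫⁻ t in Set.Ioi (0 : ℝ), volume (sl (θ * t))) := by
        rw [lintegral_const_mul' _ _ (ENNReal.natCast_ne_top _)]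
        ring
    _ ≤ n.factorial * (A * V) :=
        mul_le_mul_right ((int_sig hsig h0).trans (hvol ▸ h4)) _
    _ = A * (n.factorial * V) := by ring
    _ ≤ _ := mul_le_mul_right h6 _

end Pool.Agent.P.MP_6149fc_ag
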