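import Pool.Agent.P.MP_6149fc_ag.Iface

namespace Pool.Agent.P.MP_6149fc_ag

open scoped ENNReal Pointwise
open MvPolynomial MeasureTheory

namespace CubeA

variable {n : ℕ}

/-- The unit cube at a lattice point. -/
def cube (γ : Fin n →₀ ℕ) : Set (Fin n → ℝ) :=
  Set.pi Set.univ fun i => Set.Ico (γ i : ℝ) (γ i + 1)

theorem mem_cube {γ : Fin n →₀ ℕ} {x : Fin n → ℝ} :
    x ∈ cube γ ↔ ∀ i, (γ i : ℝ) ≤ x i ∧ x i < γ i + 1 := by
  simp [cube]

theorem vol_cube (γ : Fin n →₀ ℕ) : volume (cube γ) = 1 := by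
  simp [cube, Real.volume_pi_Ico]

theorem meas_cube (γ : Fin n →₀ ℕ) : MeasurableSet (cube γ) :=
  MeasurableSet.univ_pi fun _ => measurableSet_Ico

theorem disj (Λ : Finset (Fin n →₀ ℕ)) : (Λ : Set (Fin n →₀ ℕ)).PairwiseDisjoint cube := by
  intro γ _ γ' _ hne
  refine Set.disjoint_left.2 fun x h h' => hne (Finsupp.ext fun i => ?_)
  obtain ⟨a, b⟩ := mem_cube.1 h i
  obtain ⟨a', b'⟩ := mem_cube.1 h' i
  have e1 : γ i < γ' i + 1 := by exact_mod_cast a.trans_lt b'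
  have e2 : γ' i < γ i + 1 := by exact_mod_cast a'.trans_lt b
  omega

theorem card_le (Λ : Finset (Fin n →₀ ℕ)) (D : Set (Fin n → ℝ))
    (h : ∀ γ ∈ Λ, cube γ ⊆ D) : (Λ.card : ℝ≥0∞) ≤ volume D := by
  refine le_trans (le_of_eq ?_) (measure_mono (Set.iUnion₂_subset h))
  rw [measure_biUnion_finset (disj Λ) fun γ _ => meas_cube γ]
  simp [vol_cube]

theorem sum_le (Λ : Finset (Fin n →₀ ℕ)) (D : Set (Fin n → ℝ))
    (h : ∀ γ ∈ Λ, cube γ ⊆ D) (i : Fin n) :
    ((∑ γ ∈ Λ, γ i : ℕ) : ℝ≥0∞) ≤ ∫⁻ x in D, ENNReal.ofReal (x i) := by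
  refine le_trans ?_ (lintegral_mono_set (Set.iUnion₂_subset h))
  rw [lintegral_biUnion_finset (disj Λ) fun γ _ => meas_cube γ, Nat.cast_sum]
  refine Finset.sum_le_sum fun γ _ => ?_
  calc ((γ i : ℕ) : ℝ≥0∞) = ∫⁻ _ in cube γ, (γ i : ℝ≥0∞) := by
        rw [setLIntegral_const, vol_cube, mul_one]
    _ ≤ _ := setLIntegral_mono' (meas_cube γ) fun x hx => by
        rw [← ENNReal.ofReal_natCast]
        exact ENNReal.ofReal_le_ofReal (mem_cube.1 hx i).1

theorem exists_set (n M : ℕ) : ∃ Λ : Finset (Fin n →₀ ℕ), Λ.card = (M + n).choose n ∧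
    ∀ γ ∈ Λ, ∑ i, γ i ≤ M := by
  classical
  have hs : ∀ γ ∈ (Finset.univ : Finset (Fin (n + 1))).finsuppAntidiag M,
      γ 0 + ∑ i, γ.tail i = M := fun γ h => by
    rw [← (Finset.mem_finsuppAntidiag.1 h).1, Fin.sum_univ_succ]
    rfl
  refine ⟨((Finset.univ : Finset (Fin (n + 1))).finsuppAntidiag M).image Finsupp.tail, ?_, ?_⟩
  · rw [Finset.card_image_of_injOn, Finset.card_finsuppAntidiag_nat_eq_choose, Finset.card_univ,
      Fintype.card_fin, ← Nat.choose_symm_add, show n + 1 + M - 1 = M + n by omega]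
    intro γ h γ' h' e
    have e1 := hs γ h
    have e2 := hs γ' h'
    rw [e] at e1
    rw [← γ.cons_tail, ← γ'.cons_tail, e, show γ 0 = γ' 0 by omega]
  · intro γ h
    obtain ⟨δ, hδ, rfl⟩ := Finset.mem_image.1 h
    have := hs δ hδ
    omega

theorem choose_le (n M : ℕ) :
    (((M + n).choose n : ℕ) : ℝ≥0∞) ≤ ((M + n : ℕ) : ℝ≥0∞) ^ n * volume (simplex n) := by
  rcases Nat.eq_zero_or_pos n with rfl | hn
  · have : simplex 0 = cube 0 := by
      ext x
      simp [simplex, mem_cube]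
    simp [this, vol_cube]
  obtain ⟨Λ, h1, h2⟩ := exists_set n M
  have h0 : (0 : ℝ) < (M + n : ℕ) := by exact_mod_cast (by omega : 0 < M + n)
  have := card_le Λ (((M + n : ℕ) : ℝ) • simplex n) fun γ hγ x hx => by
    rw [Set.mem_smul_set_iff_inv_smul_mem₀ h0.ne']
    have hx := mem_cube.1 hx
    refine ⟨fun i => mul_nonneg (inv_nonneg.2 h0.le) ((Nat.cast_nonneg _).trans (hx i).1), ?_⟩
    simp only [Pi.smul_apply, smul_eq_mul, ← Finset.mul_sum]
    rw [inv_mul_le_iff₀ h0, mul_one]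
    refine (Finset.sum_le_sum fun i _ => (hx i).2.le).trans ?_
    have : ((∑ i, γ i : ℕ) : ℝ) ≤ M := by exact_mod_cast h2 γ hγ
    push_cast at this ⊢
    simpa [Finset.sum_add_distrib] using this
  rwa [h1, Measure.addHaar_smul_of_nonneg _ h0.le, Module.finrank_fin_fun,
    ENNReal.ofReal_pow h0.le, ENNReal.ofReal_natCast] at this

end CubeA

open CubeA in
theorem p_CUBE : S_CUBE := by
  intro n
  refine ⟨fun Λ D _ h => ?_, fun Λ D h => ?_, choose_le n, ?_, fun h => ?_, ?_⟩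
  · have h' : ∀ γ ∈ Λ, cube γ ⊆ D := fun γ hγ x hx => h γ hγ x (mem_cube.1 hx)
    exact ⟨card_le Λ D h', sum_le Λ D h'⟩
  · refine (measure_mono (t := ⋃ γ ∈ Λ, cube γ) fun x hx => ?_).trans
      ((measure_biUnion_finset_le Λ cube).trans (by simp [vol_cube]))
    obtain ⟨γ, h1, h2⟩ := h x hx
    exact Set.mem_biUnion h1 (mem_cube.2 h2)
  · refine IsClosed.measurableSet ?_
    simp only [simplex, Set.ofPred_and, Set.ofPred_forall]
    exact (isClosed_iInter fun i => isClosed_le continuous_const (continuous_apply i)).inter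
      (isClosed_le (by fun_prop) continuous_const)
  · simpa [h] using choose_le n 0
  · refine ne_top_of_le_ne_top (isCompact_Icc (a := (0 : Fin n → ℝ)) (b := 1)).measure_ne_top
      (measure_mono fun x hx => ⟨hx.1, fun i => ?_⟩)
    exact (Finset.single_le_sum (fun j _ => hx.1 j) (Finset.mem_univ i)).trans hx.2

end Pool.Agent.P.MP_6149fc_ag
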