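import Pool.Agent.P.MP_6149fc_ag.Iface

namespace Pool.Agent.P.MP_6149fc_ag

open scoped ENNReal
open MvPolynomial MeasureTheory

namespace CutA

theorem drop {k A : Type} [Field k] [CommRing A] [Algebra k A] {Q Q' : Ideal A} [Q.IsPrime]
    [Q'.IsPrime] (h : Q ≤ Q') {a : A} (h1 : a ∈ Q') (h2 : a ∉ Q) :
    Algebra.trdeg k (A ⧸ Q') + 1 ≤ Algebra.trdeg k (A ⧸ Q) := by
  obtain ⟨s, hs⟩ := exists_isTranscendenceBasis k (A ⧸ Q')
  choose x hx using fun y : s => Ideal.Quotient.factor_surjective h y.1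
  have h3 : AlgebraicIndependent k (Ideal.Quotient.factorₐ k h ∘ x) := by
    rw [show Ideal.Quotient.factorₐ k h ∘ x = Subtype.val from funext hx]
    exact hs.1
  have h4 := (AlgebraicIndependent.option_iff (a := Ideal.Quotient.mk Q a)).2
    ⟨h3.of_comp _, fun h5 => by
      obtain ⟨⟨r, hr⟩, h6, h7⟩ := h5.exists_nonzero_dvd
        (mem_nonZeroDivisors_of_ne_zero (mt Ideal.Quotient.eq_zero_iff_mem.1 h2))
      obtain ⟨P, rfl⟩ : r ∈ (aeval (R := k) x).range := Algebra.adjoin_range_eq_range_aeval k x ▸ hr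
      have h8 := map_dvd (Ideal.Quotient.factorₐ k h) h7
      rw [show Ideal.Quotient.factorₐ k h (Ideal.Quotient.mk Q a) = 0 from
        Ideal.Quotient.eq_zero_iff_mem.2 h1, zero_dvd_iff] at h8
      have h9 : P = 0 := h3.eq_zero_of_aeval_eq_zero P ((comp_aeval_apply x _ P).symm.trans h8)
      exact h6 (Subtype.ext (by simp [h9]))⟩
  rw [← hs.cardinalMk_eq_trdeg, ← Cardinal.mk_option]
  exact h4.cardinalMk_le_trdeg

variable {k : Type} [Field k] {n : ℕ}

theorem bound {e : ℕ} {Q : Ideal (MvPolynomial (Fin n) k)} [Q.IsPrime]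
    (h : ∀ S : Finset (Fin n), AlgebraicIndependent k (fun a : S => algebraMap _
      (FractionRing (MvPolynomial (Fin n) k ⧸ Q)) (Ideal.Quotient.mk Q (X a))) → S.card ≤ e) :
    Algebra.trdeg k (MvPolynomial (Fin n) k ⧸ Q) ≤ e := by
  classical
  have h1 : Algebra.adjoin k (Set.range fun a => Ideal.Quotient.mk Q (X a)) = ⊤ := by
    rw [Algebra.adjoin_range_eq_range_aeval, AlgHom.range_eq_top,
      show aeval _ = Ideal.Quotient.mkₐ k Q by ext; simp]
    exact Ideal.Quotient.mk_surjective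
  have : Algebra.IsAlgebraic (Algebra.adjoin k (Set.range fun a => Ideal.Quotient.mk Q (X a)))
      (MvPolynomial (Fin n) k ⧸ Q) :=
    ⟨fun x => isAlgebraic_algebraMap (⟨x, h1 ▸ Algebra.mem_top⟩ : Algebra.adjoin k _)⟩
  obtain ⟨t, h2, h3⟩ := exists_isTranscendenceBasis_subset (R := k)
    (Set.range fun a => Ideal.Quotient.mk Q (X a))
  choose f hf using fun x : t => h2 x.2
  have h4 : Function.Injective f := fun x y e => Subtype.ext (by rw [← hf x, ← hf y, e])
  let σ : t ≃ (Set.range f).toFinset :=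
    (Equiv.ofInjective f h4).trans (Equiv.subtypeEquivRight fun _ => Set.mem_toFinset.symm)
  rw [← h3.cardinalMk_eq_trdeg, Cardinal.mk_congr σ, Cardinal.mk_coe_finset, Nat.cast_le]
  refine h _ ((algebraicIndependent_equiv σ).1 ?_)
  have h5 := h3.1.map' (f := IsScalarTower.toAlgHom k _
    (FractionRing (MvPolynomial (Fin n) k ⧸ Q))) (IsFractionRing.injective _ _)
  refine (congrArg (fun y => AlgebraicIndependent k y) (_root_.funext fun x => ?_)).mp h5
  exact congrArg (algebraMap _ _) (hf x).symm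

/-- Linear forms. -/
noncomputable def form : (Fin n → k) →ₗ[k] MvPolynomial (Fin n) k := Fintype.linearCombination k X

/-- The ideal of the origin. -/
noncomputable def m0 : Ideal (MvPolynomial (Fin n) k) := RingHom.ker constantCoeff

instance : (m0 (k := k) (n := n)).IsPrime := RingHom.ker_isPrime _

theorem form_mem {Q : Ideal (MvPolynomial (Fin n) k)} (h : ∀ a, X a ∈ Q) (x : Fin n → k) :
    form x ∈ Q := by
  rw [form, Fintype.linearCombination_apply]
  exact Q.sum_mem fun a _ => Q.smul_of_tower_mem _ (h a)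

theorem cut [Infinite k] {e : ℕ} {I : Ideal (MvPolynomial (Fin n) k)}
    (h : ∀ Q : Ideal (MvPolynomial (Fin n) k), Q.IsPrime → I ≤ Q →
      Algebra.trdeg k (MvPolynomial (Fin n) k ⧸ Q) ≤ e) (j : ℕ) (hj : j ≤ n) :
    ∃ u : Fin n → Fin n → k, LinearIndepOn k u {b | b.1 < j} ∧ ∀ i ≤ j,
      ∀ Q : Ideal (MvPolynomial (Fin n) k), Q.IsPrime → I ≤ Q → (∀ b, b.1 < i → form (u b) ∈ Q) →
        (∃ a, X a ∉ Q) → Algebra.trdeg k (MvPolynomial (Fin n) k ⧸ Q) + i ≤ e := by
  classical
  induction j with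
  | zero =>
    refine ⟨0, by simp, fun i hi Q h1 h2 _ _ => ?_⟩
    simpa [Nat.le_zero.1 hi] using h Q h1 h2
  | succ j ih =>
    obtain ⟨u, u1, u2⟩ := ih (by omega)
    let J := I ⊔ Ideal.span ((fun b => form (u b)) '' {b | b.1 < j})
    let T := Finset.univ.filter fun b : Fin n => b.1 < j
    have hf : (J.minimalPrimes ∩ {Q | ∃ a, X a ∉ Q}).Finite :=
      J.finite_minimalPrimes_of_isNoetherianRing.inter_of_left _
    have h1 := Subspace.biUnion_ne_univ_of_top_notMem (k := k) (E := Fin n → k)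
      (s := insert (Submodule.span k (T.image u))
        (hf.toFinset.image fun Q => (Q.restrictScalars k).comap form)) (by
        rw [Finset.mem_insert, not_or]
        refine ⟨(span_lt_top_of_card_lt_finrank ?_).ne', fun h2 => ?_⟩
        · rw [Finset.toFinset_coe, Module.finrank_fin_fun]
          refine Finset.card_image_le.trans_lt ?_
          rw [Fin.card_filter_val_lt]
          omega
        · obtain ⟨Q, h3, h4⟩ := Finset.mem_image.1 h2
          obtain ⟨a, ha⟩ := (hf.mem_toFinset.1 h3).2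
          have h5 : Pi.single a 1 ∈ (Q.restrictScalars k).comap form := h4 ▸ Submodule.mem_top
          exact ha (by simpa [form] using h5))
    obtain ⟨x, hx⟩ := (Set.ne_univ_iff_exists_notMem _).1 h1
    simp only [Set.mem_iUnion, not_exists] at hx
    have h2 : ∀ b : Fin n, b.1 < j → Function.update u ⟨j, hj⟩ x b = u b := fun b hb =>
      Function.update_of_ne (fun e => by simp [e] at hb) _ _
    refine ⟨Function.update u ⟨j, hj⟩ x, ?_, fun i hi Q q1 q2 q3 q4 => ?_⟩
    · rw [show {b : Fin n | b.1 < j + 1} = insert ⟨j, hj⟩ {b | b.1 < j} by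
        ext b; simp [Fin.ext_iff]; omega, linearIndepOn_insert (by simp), Function.update_self,
        Set.image_congr (s := {b : Fin n | b.1 < j}) h2]
      exact ⟨u1.congr fun b hb => (h2 b hb).symm,
        fun h3 => hx _ (Finset.mem_insert_self _ _) (by simpa [T] using h3)⟩
    rcases hi.eq_or_lt with rfl | hi
    · obtain ⟨P, p1, p2⟩ := Ideal.exists_minimalPrimes_le (I := J) (J := Q) (sup_le q2
        (Ideal.span_le.2 (by
          rintro _ ⟨b, hb, rfl⟩
          simpa only [h2 b hb, SetLike.mem_coe] using q3 b (Nat.lt_succ_of_lt hb))))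
      have p3 : ∃ a, X a ∉ P := q4.imp fun a ha h3 => ha (p2 h3)
      have := p1.1.1
      have p4 := drop (k := k) p2 (by simpa using q3 ⟨j, hj⟩ (by simp)) (hx _
        (Finset.mem_insert_of_mem (Finset.mem_image_of_mem _ (hf.mem_toFinset.2 ⟨p1, p3⟩))))
      have p5 := u2 j le_rfl P this (le_sup_left.trans p1.1.2)
        (fun b hb => (le_sup_right.trans p1.1.2) (Ideal.subset_span ⟨b, hb, rfl⟩)) p3
      rw [Nat.cast_succ, add_comm (j : Cardinal), ← add_assoc]
      exact (add_le_add_left p4 _).trans p5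
    · exact u2 i (by omega) Q q1 q2 (fun b hb => h2 b (by omega) ▸ q3 b hb) q4

end CutA

open CutA in
theorem p_CUT : S_CUT := by
  intro k _ _ n e I he h
  classical
  obtain ⟨u, u1, u2⟩ := cut (I := I) (e := e) (fun Q _ hQ => by
    refine bound (h (FractionRing (MvPolynomial (Fin n) k ⧸ Q))
      (fun a => algebraMap _ _ (Ideal.Quotient.mk Q (X a))) fun f hf => ?_)
    rw [show aeval (fun a => algebraMap _ (FractionRing (MvPolynomial (Fin n) k ⧸ Q))
      (Ideal.Quotient.mk Q (X a))) = (IsScalarTower.toAlgHom k _ _).comp (Ideal.Quotient.mkₐ k Q) by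
        ext; simp]
    simp [Ideal.Quotient.eq_zero_iff_mem.2 (hQ hf)]) n le_rfl
  let J := I ⊔ Ideal.span ((fun b => form (u b)) '' {b | b.1 < e})
  have h1 : ∀ a, ∃ (g : MvPolynomial (Fin n) k) (N : ℕ), g ∉ m0 ∧ g * form (u a) ^ N ∈ J := by
    intro a
    by_contra h1
    obtain ⟨P, p1, p2, p3⟩ := J.exists_le_prime_disjoint
      (m0.primeCompl ⊔ Submonoid.powers (form (u a))) (Set.disjoint_left.2 fun x x1 x2 => by
        obtain ⟨g, g1, _, ⟨N, rfl⟩, rfl⟩ := Submonoid.mem_sup.1 x2
        exact h1 ⟨g, N, g1, x1⟩)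
    have p4 : P ≤ m0 := fun x hx => by_contra fun h2 =>
      Set.disjoint_left.1 p3 hx (Submonoid.mem_sup_left h2)
    obtain ⟨b, hb⟩ : ∃ b, X b ∉ P := not_forall.1 fun h2 => Set.disjoint_left.1 p3
      (form_mem h2 (u a)) (Submonoid.mem_sup_right (Submonoid.mem_powers _))
    have p5 := (add_le_add_left (le_add_self.trans (drop (k := k) p4 (by simp [m0]) hb)) _).trans
      (u2 e he P p1 (le_sup_left.trans p2)
        (fun b hb => (le_sup_right.trans p2) (Ideal.subset_span ⟨b, hb, rfl⟩)) ⟨b, hb⟩)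
    norm_cast at p5
    omega
  choose g N g1 g2 using h1
  obtain ⟨B, hB⟩ := (Matrix.linearIndependent_cols_iff_isUnit (A := (Matrix.of u).transpose).1
    (linearIndepOn_univ_iff.1 (u1.mono fun b _ => b.2))).exists_left_inv
  set θ : MvPolynomial (Fin n) k →ₐ[k] MvPolynomial (Fin n) k :=
    aeval fun a' => ∑ b, X b * C (B b a') with hθ
  have h2 : ∀ a, θ (form (u a)) = X a := fun a => by
    have h3 : ∀ b, ∑ c, B b c * u a c = if b = a then 1 else 0 := fun b =>
      congrFun (congrFun hB b) a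
    simp only [form, Fintype.linearCombination_apply, map_sum, map_smul, hθ, aeval_X,
      Finset.smul_sum]
    rw [Finset.sum_comm]
    simp only [smul_eq_C_mul, mul_left_comm (C _), ← C_mul, ← Finset.mul_sum, ← map_sum,
      mul_comm (u a _), h3]
    simp [apply_ite]
  have h3 : ∀ f, constantCoeff (θ f) = constantCoeff f := fun f => by
    induction f using MvPolynomial.induction_on with
    | C c => simp
    | add p q hp hq => simp [hp, hq]
    | mul_X p j hp => simp [hθ]
  refine ⟨B, _, (Finset.univ.filter fun b : Fin n => b.1 < e)ᶜ, θ (∏ a, g a),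
    Finset.univ.sup N, hB, ?_, ?_, fun a => ?_⟩
  · rw [Finset.card_compl, Fin.card_filter_val_lt, Fintype.card_fin, min_eq_right he]
  · rw [h3, map_prod]
    exact Finset.prod_ne_zero_iff.2 fun a _ => g1 a
  · have h4 : J.map θ ≤ Ideal.span (X '' {b | b ∉ (Finset.univ.filter fun b : Fin n => b.1 < e)ᶜ}) ⊔
        I.map θ := by
      rw [Ideal.map_sup, sup_comm, Ideal.map_span, Set.image_image]
      simp [h2]
    rw [← h2, ← map_pow, ← map_mul]
    exact h4 (Ideal.mem_map_of_mem _ (J.mem_of_dvd (mul_dvd_mul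
      (Finset.dvd_prod_of_mem _ (Finset.mem_univ a))
      (pow_dvd_pow _ (Finset.le_sup (Finset.mem_univ a)))) (g2 a)))

end Pool.Agent.P.MP_6149fc_ag
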