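import Pool.Agent.P.MP_6149fc_ag.Iface

namespace Pool.Agent.P.MP_6149fc_ag

open scoped ENNReal
open MvPolynomial MeasureTheory

namespace DerA

end DerA

theorem p_DER (hFSM : S_FSM) : S_DER := by
  intro k L ι _ _ _ _ x hx c
  classical
  obtain ⟨t, ht, hb⟩ := exists_isTranscendenceBasis_superset hx.to_subtype_range
  let π : TrivSqZeroExt L L →ₐ[k] L := TrivSqZeroExt.fstHom k L L
  have hπ : Function.Surjective π := fun a => ⟨TrivSqZeroExt.inl a, rfl⟩
  let J : Ideal (TrivSqZeroExt L L) := RingHom.ker π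
  let e : (TrivSqZeroExt L L ⧸ J) ≃ₐ[k] L := Ideal.quotientKerAlgEquivOfSurjective hπ
  have he : ∀ z, e (Ideal.Quotient.mk J z) = z.fst := fun z => rfl
  let d : L → L := fun b => if h : ∃ i, x i = b then c h.choose else 0
  have hd : ∀ i, d (x i) = c i := fun i => by
    have h : ∃ j, x j = x i := ⟨i, rfl⟩
    simp only [d, dif_pos h]
    rw [hx.injective h.choose_spec]
  have hJ : IsNilpotent J := by
    refine ⟨2, ?_⟩
    rw [show J ^ 2 = J * J from sq J, Ideal.zero_eq_bot, eq_bot_iff, Ideal.mul_le]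
    intro a ha b hb
    have h1 : a.fst = 0 := ha
    have h2 : b.fst = 0 := hb
    rw [Ideal.mem_bot]
    ext <;> simp [h1, h2]
  obtain ⟨g, hg, hy⟩ := hFSM k L t (TrivSqZeroExt L L) Subtype.val J (e.symm : L →ₐ[k] _)
    (fun b => TrivSqZeroExt.inl b.1 + TrivSqZeroExt.inr (d b.1)) hb (Or.inl hJ) (fun b => by
      apply e.injective
      rw [he]
      simp)
  have hf : ∀ a, (g a).fst = a := fun a => by
    rw [← he, hg]; simp
  let l : L →ₗ[k] L := ((TrivSqZeroExt.sndHom L L).restrictScalars k).comp g.toLinearMap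
  have hl : ∀ a, l a = (g a).snd := fun a => rfl
  refine ⟨Derivation.mk' l fun a b => ?_, fun i => ?_⟩
  · rw [hl, hl, hl, map_mul, TrivSqZeroExt.snd_mul, hf, hf]
    simp [mul_comm]
  · change l (x i) = c i
    rw [hl, show g (x i) = _ from hy ⟨x i, ht ⟨i, rfl⟩⟩]
    simp [hd]

end Pool.Agent.P.MP_6149fc_ag
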