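import Pool.Agent.P.MP_6149fc_ag.Iface

namespace Pool.Agent.P.MP_6149fc_ag

open scoped ENNReal IntermediateField.algebraAdjoinAdjoin
open MvPolynomial MeasureTheory

theorem p_FSM : S_FSM := by
  intro k L ι C _ _ _ _ _ _ x J f y hx hJ hy
  let A := Algebra.adjoin k (Set.range x)
  let E := IntermediateField.adjoin k (Set.range x)
  have h1 : Algebra.FormallySmooth A E := .of_isLocalization (nonZeroDivisors _)
  have h2 : Algebra.IsAlgebraic E L := hx.isAlgebraic_field
  have h3 : Algebra.FormallyEtale E L := Algebra.FormallyEtale.of_isSeparable _ L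
  have h4 : Algebra.FormallySmooth A L := .comp _ E _
  let φ : A →ₐ[k] C := (aeval y).comp hx.1.aevalEquiv.symm.toAlgHom
  have h5 : ∀ p, φ (hx.1.aevalEquiv p) = aeval y p := fun p =>
    congrArg (aeval y) (hx.1.aevalEquiv.symm_apply_apply p)
  have h6 : ((Ideal.Quotient.mkₐ k J).comp (aeval y) : MvPolynomial ι k →ₐ[k] _) =
      f.comp (aeval x) := algHom_ext fun i => by simpa using hy i
  let _ : Algebra A C := φ.toAlgebra
  let f' : L →ₐ[A] C ⧸ J := ⟨f, fun a => by
    obtain ⟨p, rfl⟩ := hx.1.aevalEquiv.surjective a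
    exact ((congrArg _ (h5 p)).trans (DFunLike.congr_fun h6 p)).symm⟩
  obtain ⟨g, hg⟩ : ∃ g : L →ₐ[A] C, (Ideal.Quotient.mkₐ A J).comp g = f' := by
    rcases hJ with h | h
    · exact Algebra.FormallySmooth.exists_lift J h f'
    · exact Algebra.FormallySmooth.exists_mkₐ_comp_eq_of_isAdicComplete f'
  refine ⟨⟨g, fun c => (g.commutes (algebraMap k A c)).trans (φ.commutes c)⟩,
    DFunLike.congr_fun hg, fun i => ?_⟩
  rw [← aeval_X (R := k) x i, ← aeval_X (R := k) y i, ← h5]
  exact g.commutes (hx.1.aevalEquiv (X i))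

end Pool.Agent.P.MP_6149fc_ag
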