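import Pool.Agent.P.MP_6149fc_ag.Iface

namespace Pool.Agent.P.MP_6149fc_ag

open scoped ENNReal
open MvPolynomial MeasureTheory

namespace GenarcA

section
variable {K : Type} [Field K] {v : AddValuation K (WithTop ℤ)} {π : K}

theorem v_pow (hπ : v π = 1) (e : ℕ) : v (π ^ e) = ((e : ℤ) : WithTop ℤ) := by
  rw [AddValuation.map_pow, hπ, nsmul_one]
  rfl

theorem split (hπ : v π = 1) (e : ℕ) (b : K) :
    ∃ c, b = π ^ e * c ∧ v b = ((e : ℤ) : WithTop ℤ) + v c := by
  have h0 : π ≠ 0 := by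
    rintro rfl
    rw [AddValuation.map_zero] at hπ
    exact WithTop.top_ne_one hπ
  have h1 : b = π ^ e * (b / π ^ e) := by field_simp
  refine ⟨b / π ^ e, h1, ?_⟩
  rw [← v_pow hπ, ← AddValuation.map_mul, ← h1]

theorem nonneg_of_le {e : ℤ} {a : WithTop ℤ} (h : (e : WithTop ℤ) ≤ e + a) : 0 ≤ a := by
  induction a using WithTop.recTopCoe with
  | top => exact le_top
  | coe a =>
    rw [← WithTop.coe_add, WithTop.coe_le_coe] at h
    exact WithTop.coe_le_coe.2 (show (0 : ℤ) ≤ a by omega)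

theorem eq_zero_of {a : WithTop ℤ} (h0 : 0 ≤ a) (h1 : ¬ 1 ≤ a) : a = 0 := by
  induction a using WithTop.recTopCoe with
  | top => exact (h1 le_top).elim
  | coe a =>
    have h2 : (0 : ℤ) ≤ a := WithTop.coe_le_coe.1 h0
    have h3 : ¬ (1 : ℤ) ≤ a := fun h => h1 (WithTop.coe_le_coe.2 h)
    exact congrArg _ (show a = 0 by omega)
end

section
variable {κ L : Type} [Field κ] [Field L] [Algebra κ L] (δ : Derivation κ L L)

theorem cd_add (f g : PowerSeries L) : cd δ (f + g) = cd δ f + cd δ g := by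
  ext n; simp [cd]

theorem cd_C (c : κ) : cd δ (PowerSeries.C (algebraMap κ L c)) = 0 := by
  ext n
  simp only [cd, PowerSeries.coeff_mk, PowerSeries.coeff_C, map_zero]
  split_ifs <;> simp

theorem cd_sum {N : ℕ} (k : ℕ) (u : Fin N → L) :
    cd δ (PowerSeries.X ^ k * ∑ l : Fin N, PowerSeries.C (u l) * PowerSeries.X ^ (l : ℕ)) =
      PowerSeries.X ^ k * ∑ l : Fin N, PowerSeries.C (δ (u l)) * PowerSeries.X ^ (l : ℕ) := by
  ext n
  simp only [cd, PowerSeries.coeff_mk, Finset.mul_sum, mul_left_comm (PowerSeries.X ^ k),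
    ← pow_add, map_sum, PowerSeries.coeff_C_mul, PowerSeries.coeff_X_pow]
  refine Finset.sum_congr rfl fun l _ => ?_
  split_ifs <;> simp

theorem const_sum {N : ℕ} (hN : 1 ≤ N) (u : Fin N → L) :
    PowerSeries.constantCoeff (∑ l : Fin N, PowerSeries.C (u l) * PowerSeries.X ^ (l : ℕ)) =
      u ⟨0, hN⟩ := by
  rw [map_sum, Finset.sum_eq_single ⟨0, hN⟩]
  · simp
  · intro l _ hl
    have : (l : ℕ) ≠ 0 := fun h => hl (Fin.ext h)
    simp [this]
  · simp
end

end GenarcA

open GenarcA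

theorem p_GENARC (hLIFT : S_LIFT) (hDER : S_DER) : S_GENARC := by
  intro m K _ _ v κ _ _ D q N hq hN
  let L := FractionRing (MvPolynomial (Fin (m + 1) × Fin N) κ)
  let U : Fin (m + 1) × Fin N → L := fun b => algebraMap _ L (X b : MvPolynomial _ κ)
  have hU : AlgebraicIndependent κ U :=
    (MvPolynomial.algebraicIndependent_X _ κ).map'
      (f := IsScalarTower.toAlgHom κ (MvPolynomial (Fin (m + 1) × Fin N) κ) L)
      (IsFractionRing.injective _ L)
  let S : Fin (m + 1) → PowerSeries L := fun a =>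
    ∑ l : Fin N, PowerSeries.C (U (a, l)) * PowerSeries.X ^ (l : ℕ)
  have hπ := D.unif
  have hO : ∀ b : D.O, 0 ≤ v b := fun b => (D.mem _).1 b.2
  have hsp : ∀ (e : ℕ) (b : D.O), ((e : ℤ) : WithTop ℤ) ≤ v b →
      ∃ c : D.O, b = D.w 0 ^ e * c ∧ v b = ((e : ℤ) : WithTop ℤ) + v c := fun e b h => by
    obtain ⟨c, h1, h2⟩ := split hπ e b
    exact ⟨⟨c, (D.mem _).2 (nonneg_of_le (h2 ▸ h))⟩, Subtype.ext h1, h2⟩
  obtain ⟨φ, f1, f2, f3⟩ := hLIFT m D.O κ L D.res (D.w 0) (fun a => D.w a.succ)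
    (IsScalarTower.toAlgHom ℂ κ L) (PowerSeries.X ^ q * S 0)
    (fun a => PowerSeries.C (algebraMap κ L (D.res (D.w a.succ))) + PowerSeries.X ^ 1 * S a.succ)
    D.surj
    (fun b => by
      rw [D.ker]
      constructor
      · intro h
        obtain ⟨c, h1, -⟩ := hsp 1 b h
        exact ⟨c, by simpa using h1⟩
      · rintro ⟨c, rfl⟩
        rw [Subalgebra.coe_mul, AddValuation.map_mul, hπ]
        exact le_add_of_nonneg_right (hO c))
    (fun b hb => by
      have h0 : v b = 0 := eq_zero_of (hO b) (by rwa [← D.ker])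
      have h1 : (b : K) ≠ 0 := fun h => by
        rw [h, AddValuation.map_zero] at h0
        exact WithTop.top_ne_zero h0
      have h2 : v (b : K)⁻¹ = 0 := by
        have := v.map_mul b (b : K)⁻¹
        rw [mul_inv_cancel₀ h1, AddValuation.map_one, h0, zero_add] at this
        exact this.symm
      exact IsUnit.of_mul_eq_one ⟨(b : K)⁻¹, (D.mem _).2 h2.ge⟩
        (Subtype.ext (mul_inv_cancel₀ h1)))
    (fun e M ⟨c, hc⟩ => by
      have h1 := congrArg (fun b : D.O => v b) hc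
      simp only [Subalgebra.coe_mul, Subalgebra.coe_pow, AddValuation.map_mul, v_pow hπ] at h1
      have h2 : ((M : ℤ) : WithTop ℤ) ≤ ((e : ℤ) : WithTop ℤ) :=
        h1 ▸ le_add_of_nonneg_right (hO c)
      exact_mod_cast h2)
    D.basis (by simp [show q ≠ 0 by omega]) (fun a => by simp)
  have hord : ∀ (b : D.O) (e : ℕ), v b = ((e : ℤ) : WithTop ℤ) →
      ∃ u : PowerSeries L, IsUnit u ∧ φ b = PowerSeries.X ^ (q * e) * u := fun b e he => by
    obtain ⟨c, h1, h2⟩ := hsp e b he.ge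
    have h3 : D.res c ≠ 0 := by
      rw [Ne, D.ker]
      intro h
      rw [he] at h2
      have h4 : ((e : ℤ) : WithTop ℤ) + 1 ≤ ((e : ℤ) : WithTop ℤ) :=
        (add_le_add_right h _).trans h2.ge
      have h5 : (e : ℤ) + 1 ≤ e := by exact_mod_cast h4
      omega
    refine ⟨S 0 ^ e * φ c, (IsUnit.pow _ ?_).mul ?_, ?_⟩
    · rw [PowerSeries.isUnit_iff_constantCoeff, const_sum hN]
      exact (hU.ne_zero _).isUnit
    · rw [PowerSeries.isUnit_iff_constantCoeff, f3]
      exact ((map_ne_zero _).2 h3).isUnit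
    · rw [h1, map_mul, map_pow, f1, mul_pow, ← pow_mul, mul_assoc]
  refine ⟨L, inferInstance, inferInstance, inferInstance, inferInstance,
    ⟨⟨φ, f3, hord, ?_, fun c => ?_⟩⟩⟩
  · rw [injective_iff_map_eq_zero]
    intro b hb
    by_contra h0
    have h1 : v b ≠ ⊤ := fun h => h0 (Subtype.ext (v.top_iff.1 h))
    obtain ⟨z, hz⟩ := WithTop.ne_top_iff_exists.1 h1
    have h2 : (0 : ℤ) ≤ z := WithTop.coe_le_coe.1 (hz ▸ hO b)
    obtain ⟨e, rfl⟩ := Int.eq_ofNat_of_zero_le h2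
    obtain ⟨u, hu, h3⟩ := hord b e hz.symm
    rw [hb] at h3
    exact mul_ne_zero (pow_ne_zero _ PowerSeries.X_ne_zero) hu.ne_zero h3.symm
  · haveI : CharZero κ := charZero_of_injective_algebraMap (algebraMap ℂ κ).injective
    obtain ⟨δ, hδ⟩ := hDER κ L _ U hU c
    refine ⟨δ, fun a => ?_⟩
    refine Fin.cases ?_ (fun a => ?_) a
    · rw [f1, if_pos rfl, cd_sum]
      simp only [hδ]
    · rw [f2, if_neg (Fin.succ_ne_zero a), cd_add, cd_C, zero_add, cd_sum]
      simp only [hδ]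

end Pool.Agent.P.MP_6149fc_ag
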