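import Pool.Agent.P.MP_6149fc_ag.Iface

namespace Pool.Agent.P.MP_6149fc_ag

open scoped ENNReal
open MvPolynomial MeasureTheory

namespace GeomA

variable {σ : Type} [Fintype σ] [DecidableEq σ] {r : ℕ} {F : Fin r → MvPolynomial σ ℂ}
  {n : ℕ} {κ : Type} [Field κ] [Algebra ℂ κ] {j0 : σ} {x : σ → κ}

theorem map_pt (c : Chart F n j0 x) {C C' : Type} [CommRing C] [Algebra κ C] [CommRing C']
    [Algebra κ C'] (ψ : C →ₐ[κ] C') (z : Fin n → C) (i : σ) :
    ψ (c.pt z 0 i) = c.pt (fun a => ψ (z a)) 0 i := by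
  simp [Chart.pt]

theorem map_ev (c : Chart F n j0 x) {C C' : Type} [CommRing C] [Algebra κ C] [CommRing C']
    [Algebra κ C'] [Algebra ℂ C] [Algebra ℂ C'] [IsScalarTower ℂ κ C] [IsScalarTower ℂ κ C']
    (ψ : C →ₐ[κ] C') (z : Fin n → C) (G : MvPolynomial σ ℂ) :
    ψ (aeval (c.pt z 0) G) = aeval (c.pt (fun a => ψ (z a)) 0) G := by
  refine (comp_aeval_apply _ (ψ.restrictScalars ℂ) G).trans ?_
  congr 2
  exact funext fun i => map_pt c ψ z i

omit [DecidableEq σ] [Algebra ℂ κ] in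
theorem sum_left (B : Fin n → κ) (u : Fin n → σ → κ) (w : σ → κ) :
    ∑ i, (∑ a, B a * u a i) * w i = ∑ a, B a * ∑ i, u a i * w i := by
  simp only [Finset.sum_mul, Finset.mul_sum, mul_assoc]
  exact Finset.sum_comm

omit [DecidableEq σ] [Algebra ℂ κ] in
theorem sum_right (B : Fin n → κ) (u : Fin n → σ → κ) (w : σ → κ) :
    ∑ i, w i * ∑ a, B a * u a i = ∑ a, B a * ∑ i, w i * u a i := by
  simp only [mul_comm (w _), sum_left]

/-- A linear change of the tangent coordinates. -/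
def change (c : Chart F n j0 x) (B B' : Matrix (Fin n) (Fin n) κ) (h : B * B' = 1) :
    Chart F n j0 x where
  vv b i := ∑ a, B b a * c.vv a i
  ww := c.ww
  cz b i := ∑ a, B' a b * c.cz a i
  x_j0 := c.x_j0
  onX := c.onX
  vv_j0 b := by simp [c.vv_j0]
  ww_j0 := c.ww_j0
  cz_x b := by simp [sum_left, c.cz_x]
  cz_vv a b := by
    have h1 := congrFun (congrFun h b) a
    rw [Matrix.mul_apply, Matrix.one_apply] at h1
    simp only [sum_left, sum_right, c.cz_vv, mul_ite, mul_one, mul_zero, Finset.sum_ite_eq,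
      Finset.mem_univ, if_true]
    simpa only [mul_comm, eq_comm] using h1
  cz_ww b l := by simp [sum_left, c.cz_ww]
  cy_x := c.cy_x
  cy_vv s b := by simp [sum_right, c.cy_vv]
  cy_ww := c.cy_ww
  decomp i i' := by
    rw [c.decomp i i']
    congr 2
    have h1 : ∀ a a', ∑ b, B' a b * B b a' = if a = a' then 1 else 0 := fun a a' => by
      rw [← Matrix.mul_apply, mul_eq_one_comm.1 h, Matrix.one_apply]
    calc ∑ a, c.vv a i * c.cz a i'
        = ∑ a, ∑ a', (∑ b, B' a' b * B b a) * (c.vv a i * c.cz a' i') := by simp [h1]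
      _ = ∑ a, ∑ b, ∑ a', B b a * c.vv a i * (B' a' b * c.cz a' i') := by
          refine Finset.sum_congr rfl fun a _ => ?_
          rw [Finset.sum_comm]
          refine Finset.sum_congr rfl fun a' _ => ?_
          rw [Finset.sum_mul]
          exact Finset.sum_congr rfl fun b _ => by ring
      _ = _ := by
          rw [Finset.sum_comm]
          simp only [Finset.sum_mul_sum]

theorem pt_change (c : Chart F n j0 x) (B B' : Matrix (Fin n) (Fin n) κ) (h : B * B' = 1)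
    {C : Type} [CommRing C] [Algebra κ C] (z : Fin n → C) :
    c.pt (fun a => ∑ b, z b * algebraMap κ C (B b a)) 0 = (change c B B' h).pt z 0 := by
  funext i
  simp only [Chart.pt, change, map_sum, map_mul, Finset.sum_mul, Finset.mul_sum, mul_assoc]
  rw [Finset.sum_comm]

theorem ev_mem (c : Chart F n j0 x) {y : Fin r → MvPowerSeries (Fin n) κ} (hy : c.IsParam y)
    {T : Ideal (MvPowerSeries (Fin n) κ)} (hT : ∀ l, y l ∈ T) (s : Fin r) :
    aeval (c.pt MvPowerSeries.X 0) (F s) ∈ T := by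
  obtain ⟨h, h1, -⟩ := taylor ⊤ (c.pt MvPowerSeries.X 0) (c.pt MvPowerSeries.X y)
    (fun _ => Submodule.mem_top) (F s)
  rw [hy.2 s, sub_zero] at h1
  rw [h1]
  refine T.sum_mem fun i _ => T.mul_mem_right _ ?_
  simp only [Chart.pt, Pi.zero_apply, zero_mul, Finset.sum_const_zero, add_zero, sub_add_cancel_left]
  exact T.neg_mem (T.sum_mem fun l _ => T.mul_mem_right _ (hT l))

end GeomA

theorem p_GEOM (hCHART : S_CHART) (hLEF : S_LEF) (hCUT : S_CUT) (hPARAM : S_PARAM) : S_GEOM := by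
  intro σ _ _ r F d n κ _ _ j0 x hcard hx hF hd hhom hU
  have : Infinite κ := Infinite.of_injective _ (algebraMap ℂ κ).injective
  obtain ⟨c0⟩ := hCHART σ r F n κ j0 x hcard hx hF (fun s => ⟨_, hhom s⟩)
    (Fintype.linearIndependent_iff.2 fun g hg s => by
      obtain ⟨m, hm⟩ := hU κ ⊥ x g (fun s => hF s) (fun i => by simpa using congrFun hg i) s j0
      rw [hx, mul_one] at hm
      exact eq_zero_of_pow_eq_zero hm)
  obtain ⟨B, B', S, g, N, hB, hS, hg, hN⟩ := hCUT κ n (max (n - r) (n / 2))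
    (Ideal.span (Set.range fun s => aeval (c0.pt X 0) (F s))) (by omega) fun Ω _ _ ζ h => by
      let : Algebra ℂ Ω := Algebra.compHom Ω (algebraMap ℂ κ)
      have : IsScalarTower ℂ κ Ω := IsScalarTower.of_algebraMap_eq fun _ => rfl
      refine hLEF σ r F d n κ j0 x c0 hd hhom hU Ω ζ fun s => ?_
      have h1 := h _ (Ideal.subset_span ⟨s, rfl⟩)
      rw [GeomA.map_ev c0 (aeval ζ) X] at h1
      simpa only [aeval_X] using h1
  obtain ⟨y, hy⟩ := hPARAM σ r F n κ j0 x (GeomA.change c0 B B' hB)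
  refine ⟨_, y, S, N, hy, by omega, fun a => ?_⟩
  obtain ⟨ψ, hψ⟩ : ∃ ψ : MvPolynomial (Fin n) κ →ₐ[κ] MvPowerSeries (Fin n) κ,
      ∀ f, ψ f = (f : MvPowerSeries (Fin n) κ) :=
    ⟨coeToMvPowerSeries.algHom κ, fun f => by simp⟩
  have hX : ∀ b, ψ (X b) = MvPowerSeries.X b := fun b => by rw [hψ, coe_X]
  have hu : IsUnit (ψ g) := by
    rw [MvPowerSeries.isUnit_iff_constantCoeff, hψ, ← MvPowerSeries.coeff_zero_eq_constantCoeff_apply,
      coeff_coe]
    exact Ne.isUnit hg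
  rw [← Ideal.unit_mul_mem_iff_mem _ hu, ← hX, ← map_pow, ← map_mul, ← Ideal.mem_comap]
  refine (sup_le (Ideal.span_le.2 ?_) (Ideal.map_le_iff_le_comap.2 (Ideal.span_le.2 ?_)) :
    _ ≤ Ideal.comap ψ _) (hN a)
  · rintro _ ⟨b, hb, rfl⟩
    exact Ideal.mem_comap.2 (Ideal.subset_span (Or.inl ⟨b, hb, (hX b).symm⟩))
  · rintro _ ⟨s, rfl⟩
    refine Ideal.mem_comap.2 (Ideal.mem_comap.2 ?_)
    rw [GeomA.map_ev c0 _ X, GeomA.map_ev c0 ψ]
    simp only [aeval_X, map_sum, map_mul, hX, algHom_C]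
    rw [GeomA.pt_change c0 B B' hB]
    exact GeomA.ev_mem _ hy (fun l => Ideal.subset_span (Or.inr ⟨l, rfl⟩)) s

end Pool.Agent.P.MP_6149fc_ag
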