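import Pool.Agent.P.MP_6149fc_ag.Iface

namespace Pool.Agent.P.MP_6149fc_ag

open scoped ENNReal
open MvPolynomial MeasureTheory

namespace HenselA

section
variable {σ : Type} [Fintype σ] [DecidableEq σ] {r : ℕ} {C : Type} [CommRing C] [Algebra ℂ C]

/-- The point attached to the parameters `y`. -/
noncomputable def pt (p : σ → C) (ww : Fin r → σ → C) (y : Fin r → C) (i : σ) : C :=
  p i + ∑ l, y l * ww l i

/-- The Newton iteration with frozen derivative. -/
noncomputable def seq (F : Fin r → MvPolynomial σ ℂ) (p : σ → C) (ww : Fin r → σ → C)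
    (τ : Fin r → C) : ℕ → Fin r → C
  | 0 => 0
  | k + 1 => fun l => seq F p ww τ k l - (aeval (pt p ww (seq F p ww τ k)) (F l) - τ l)

theorem aeval_sub_mem (I : Ideal C) (a b : σ → C) (hab : ∀ i, a i - b i ∈ I)
    (G : MvPolynomial σ ℂ) : aeval a G - aeval b G ∈ I := by
  obtain ⟨h, e, -⟩ := taylor I a b hab G
  rw [e]
  exact Ideal.sum_mem _ fun i _ => I.mul_mem_right _ (hab i)

omit [Fintype σ] [DecidableEq σ] [Algebra ℂ C] in
theorem pt_sub (p : σ → C) (ww : Fin r → σ → C) (y y' : Fin r → C) (i : σ) :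
    pt p ww y i - pt p ww y' i = ∑ l, (y l - y' l) * ww l i := by
  simp only [pt, sub_mul, Finset.sum_sub_distrib]; ring

omit [Fintype σ] [DecidableEq σ] [Algebra ℂ C] in
theorem pt_sub_mem (I : Ideal C) (p : σ → C) (ww : Fin r → σ → C) (y y' : Fin r → C)
    (h : ∀ l, y l - y' l ∈ I) (i : σ) : pt p ww y i - pt p ww y' i ∈ I := by
  rw [pt_sub]
  exact Ideal.sum_mem _ fun l _ => I.mul_mem_right _ (h l)

/-- One Newton step improves the error by one power of the ideal. -/
theorem step (F : Fin r → MvPolynomial σ ℂ) (J : Ideal C) (p : σ → C) (ww : Fin r → σ → C)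
    (τ : Fin r → C)
    (hd : ∀ s l, ∑ i, aeval p (pderiv i (F s)) * ww l i - (if s = l then 1 else 0) ∈ J)
    (m : ℕ) (hm : 1 ≤ m) (y : Fin r → C) (hy : ∀ l, y l ∈ J)
    (hE : ∀ s, aeval (pt p ww y) (F s) - τ s ∈ J ^ m) (s : Fin r) :
    aeval (pt p ww fun l => y l - (aeval (pt p ww y) (F l) - τ l)) (F s) - τ s ∈ J ^ (m + 1) := by
  set E : Fin r → C := fun l => aeval (pt p ww y) (F l) - τ l with hEdef
  have hle : J ^ m ≤ J := Ideal.pow_le_self (by omega)
  have h1 : ∀ i, pt p ww (fun l => y l - E l) i - pt p ww y i ∈ J := fun i =>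
    pt_sub_mem J p ww _ _ (fun l => by
      have := J.neg_mem (hle (hE l))
      convert this using 1
      simp only [hEdef]; ring) i
  obtain ⟨h, e, hh⟩ := taylor J _ _ h1 (F s)
  have h2 : ∀ i, pt p ww y i - p i ∈ J := fun i => by
    simp only [pt, add_sub_cancel_left]
    exact Ideal.sum_mem _ fun l _ => J.mul_mem_right _ (hy l)
  have h3 : ∀ i, h i - aeval p (pderiv i (F s)) ∈ J := fun i => by
    have := J.add_mem (hh i) (aeval_sub_mem J _ _ h2 (pderiv i (F s)))
    convert this using 1
    ring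
  have h4 : ∀ l, (if s = l then 1 else 0) - ∑ i, h i * ww l i ∈ J := fun l => by
    have h5 : ∑ i, (h i - aeval p (pderiv i (F s))) * ww l i ∈ J :=
      Ideal.sum_mem _ fun i _ => J.mul_mem_right _ (h3 i)
    have := J.neg_mem (J.add_mem h5 (hd s l))
    convert this using 1
    simp only [sub_mul, Finset.sum_sub_distrib]; ring
  have h6 : aeval (pt p ww fun l => y l - E l) (F s) - τ s =
      ∑ l, E l * ((if s = l then 1 else 0) - ∑ i, h i * ww l i) := by
    have h7 : aeval (pt p ww fun l => y l - E l) (F s) - τ s =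
        E s + ∑ i, (pt p ww (fun l => y l - E l) i - pt p ww y i) * h i := by
      rw [← e]; simp only [hEdef]; ring
    rw [h7]
    simp only [pt_sub, mul_sub, Finset.sum_sub_distrib, mul_ite, mul_one, mul_zero,
      Finset.sum_ite_eq, Finset.mem_univ, if_true, Finset.mul_sum, Finset.sum_mul]
    rw [sub_eq_add_neg, ← Finset.sum_neg_distrib, Finset.sum_comm]
    congr 1
    refine Finset.sum_congr rfl fun l _ => ?_
    rw [← Finset.sum_neg_distrib]
    refine Finset.sum_congr rfl fun i _ => ?_
    ring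
  rw [h6, pow_succ]
  exact Ideal.sum_mem _ fun l _ => Ideal.mul_mem_mul (hE l) (h4 l)

end

end HenselA

open HenselA in
theorem p_HENSEL : S_HENSEL := by
  intro σ _ _ r F C _ _ J _ e p ww τ he h0 hd
  have hle : ∀ k, J ^ (e + k) ≤ J ^ e := fun k => Ideal.pow_le_pow_right (by omega)
  have hle1 : J ^ e ≤ J := Ideal.pow_le_self (by omega)
  have key : ∀ k, (∀ l, seq F p ww τ k l ∈ J ^ e) ∧
      ∀ s, aeval (pt p ww (seq F p ww τ k)) (F s) - τ s ∈ J ^ (e + k) := by
    intro k
    induction k with
    | zero =>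
      refine ⟨fun l => by simp [seq], fun s => ?_⟩
      have : pt p ww (seq F p ww τ 0) = p := by
        funext i; simp [pt, seq]
      rw [this]; exact h0 s
    | succ k ih =>
      refine ⟨fun l => (J ^ e).sub_mem (ih.1 l) (hle k (ih.2 l)), fun s => ?_⟩
      exact step F J p ww τ hd (e + k) (by omega) _ (fun l => hle1 (ih.1 l)) ih.2 s
  have cau : ∀ l m n, m ≤ n → seq F p ww τ n l - seq F p ww τ m l ∈ J ^ (e + m) := by
    intro l m n hmn
    induction n, hmn using Nat.le_induction with
    | base => simp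
    | succ n hmn ih =>
      have h1 : aeval (pt p ww (seq F p ww τ n)) (F l) - τ l ∈ J ^ (e + m) :=
        Ideal.pow_le_pow_right (by omega) ((key n).2 l)
      have := (J ^ (e + m)).sub_mem ih h1
      convert this using 1
      simp only [seq]; ring
  have lim : ∀ l, ∃ L : C, ∀ n, L - seq F p ww τ n l ∈ J ^ n := by
    intro l
    obtain ⟨L, hL⟩ := IsPrecomplete.prec (I := J) (M := C) inferInstance
      (f := fun n => seq F p ww τ n l) (fun {m n} hmn => by
        rw [SModEq.sub_mem, smul_eq_mul, Ideal.mul_top]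
        have := (J ^ m).neg_mem (Ideal.pow_le_pow_right (by omega) (cau l m n hmn))
        simpa using this)
    refine ⟨L, fun n => ?_⟩
    have := hL n
    rw [SModEq.sub_mem, smul_eq_mul, Ideal.mul_top] at this
    simpa using (J ^ n).neg_mem this
  choose y hy using lim
  refine ⟨y, fun l => ?_, fun s => ?_⟩
  · have := (J ^ e).add_mem (hy l e) ((key e).1 l)
    simpa using this
  · change aeval (pt p ww y) (F s) = τ s
    rw [← sub_eq_zero]
    refine IsHausdorff.haus (I := J) inferInstance _ fun n => ?_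
    rw [SModEq.sub_mem, smul_eq_mul, Ideal.mul_top, sub_zero]
    have h1 := aeval_sub_mem (J ^ n) _ _
      (pt_sub_mem (J ^ n) p ww y (seq F p ww τ n) fun l => hy l n) (F s)
    have h2 : aeval (pt p ww (seq F p ww τ n)) (F s) - τ s ∈ J ^ n :=
      Ideal.pow_le_pow_right (by omega) ((key n).2 s)
    have := (J ^ n).add_mem h1 h2
    convert this using 1
    ring

end Pool.Agent.P.MP_6149fc_ag
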