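import Pool.Agent.P.MP_6149fc_ag.Iface

namespace Pool.Agent.P.MP_6149fc_ag

open scoped ENNReal
open MvPolynomial MeasureTheory

namespace HilbA

theorem exists_dual {σ K : Type} [Fintype σ] [DecidableEq σ] [Field K] {r : ℕ}
    (v : Fin r → σ → K) (hv : LinearIndependent K v) :
    ∃ ww : Fin r → σ → K, ∀ s l, ∑ i, v s i * ww l i = if s = l then 1 else 0 := by
  obtain ⟨g, hg⟩ := LinearMap.exists_leftInverse_of_injective (Fintype.linearCombination K v)
    (LinearMap.ker_eq_bot.2 hv.fintypeLinearCombination_injective)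
  refine ⟨fun l i => g (Pi.single i 1) l, fun s l => ?_⟩
  have h1 : g (v s) = Pi.single s 1 := by
    have := LinearMap.congr_fun hg (Pi.single s 1)
    simpa using this
  have h2 : v s = ∑ i, v s i • (Pi.single i 1 : σ → K) := by
    ext j; simp [Finset.sum_apply, Pi.single_apply]
  have h3 : g (v s) l = ∑ i, v s i * g (Pi.single i 1) l := by
    conv_lhs => rw [h2]
    simp only [map_sum, map_smul, Finset.sum_apply, Pi.smul_apply, smul_eq_mul]
  rw [← h3, h1, Pi.single_apply]
  simp only [eq_comm]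

theorem finrank_forms (σ : Type) [Fintype σ] [DecidableEq σ] (D : ℕ) :
    Module.finrank ℂ (homogeneousSubmodule σ ℂ D) = (Fintype.card σ + D - 1).choose D := by
  rw [homogeneousSubmodule_eq_finsupp_supported]
  have e := AddMonoidAlgebra.supportedEquivFinsupp (R := ℂ) (S := ℂ)
    {d : σ →₀ ℕ | d.degree = D}
  have hs : {d : σ →₀ ℕ | d.degree = D} =
      ((Finset.univ : Finset σ).finsuppAntidiag D : Set (σ →₀ ℕ)) := by
    ext d
    simp [Finset.mem_finsuppAntidiag, Finsupp.degree_eq_sum]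
  rw [e.finrank_eq, hs, Module.finrank_finsupp_self]
  simp [Finset.card_finsuppAntidiag_nat_eq_choose]

attribute [local instance] MvPolynomial.gradedAlgebra

theorem comp_mul {σ : Type} {F : MvPolynomial σ ℂ} {d : ℕ} (hF : F.IsHomogeneous d)
    (A : MvPolynomial σ ℂ) (D : ℕ) :
    homogeneousComponent D (F * A) =
      if d ≤ D then F * homogeneousComponent (D - d) A else 0 := by
  have := DirectSum.coe_decompose_mul_of_left_mem (homogeneousSubmodule σ ℂ) (b := A) D
    ((mem_homogeneousSubmodule d F).2 hF)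
  have h1 : ∀ (p : MvPolynomial σ ℂ) (i : ℕ),
      (DirectSum.decompose (homogeneousSubmodule σ ℂ) p i : MvPolynomial σ ℂ) =
        homogeneousComponent i p := fun p i => decomposition.decompose'_apply p i
  rw [h1, h1] at this
  exact this

theorem split {σ : Type} {r : ℕ} {F : Fin r → MvPolynomial σ ℂ} {d : Fin r → ℕ}
    (hF : ∀ s, (F s).IsHomogeneous (d s)) (S : Set (Fin r)) (s : Fin r) {G : MvPolynomial σ ℂ}
    {D : ℕ} (hG : G.IsHomogeneous D) (h : G ∈ Ideal.span (F '' insert s S)) :
    ∃ A B, G = F s * A + B ∧ B ∈ Ideal.span (F '' S) ∧ A.IsHomogeneous (D - d s) ∧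
      (¬ d s ≤ D → A = 0) := by
  rw [Set.image_insert_eq, Ideal.mem_span_insert] at h
  obtain ⟨A, B, hB, rfl⟩ := h
  have hI : (Ideal.span (F '' S)).IsHomogeneous (homogeneousSubmodule σ ℂ) := by
    apply Ideal.homogeneous_span
    rintro _ ⟨t, -, rfl⟩
    exact ⟨d t, hF t⟩
  have h1 := homogeneousComponent_eq_self hG
  rw [map_add, mul_comm A, comp_mul (hF s)] at h1
  refine ⟨if d s ≤ D then homogeneousComponent (D - d s) A else 0, homogeneousComponent D B,
    ?_, homogeneousComponent_mem_of_mem hI hB D, ?_, fun hn => if_neg hn⟩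
  · rw [mul_comm A, ← h1]
    split_ifs <;> simp
  · split_ifs
    · exact homogeneousComponent_isHomogeneous _ _
    · exact isHomogeneous_zero _ _ _

theorem rank_split {V W : Type} [AddCommGroup V] [Module ℂ V] [AddCommGroup W] [Module ℂ W]
    (U : Submodule ℂ V) [Module.Finite ℂ U] (π : V →ₗ[ℂ] W) :
    Module.finrank ℂ U =
      Module.finrank ℂ (U.map π) + Module.finrank ℂ (U ⊓ LinearMap.ker π : Submodule ℂ V) := by
  have h := LinearMap.finrank_range_add_finrank_ker (π.domRestrict U)
  rw [LinearMap.range_domRestrict, LinearMap.ker_domRestrict,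
    ← Submodule.finrank_map_subtype_eq, Submodule.map_comap_subtype] at h
  exact h.symm

/-- The image of the forms of degree `D`. -/
noncomputable def img {σ C : Type} [CommRing C] [Algebra ℂ C] (φ : MvPolynomial σ ℂ →ₐ[ℂ] C)
    (D : ℕ) : Submodule ℂ C :=
  (homogeneousSubmodule σ ℂ D).map φ.toLinearMap

theorem step {σ C : Type} [Fintype σ] [CommRing C] [Algebra ℂ C] {r : ℕ}
    {F : Fin r → MvPolynomial σ ℂ} {d : Fin r → ℕ} (hd : ∀ s, 1 ≤ d s)
    (hF : ∀ s, (F s).IsHomogeneous (d s)) (S : Set (Fin r)) (s : Fin r)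
    (φ : MvPolynomial σ ℂ →ₐ[ℂ] C) (π : C →ₐ[ℂ] C)
    (hy : ∀ c, φ (F s) * c = 0 → c = 0) (hπ : π (φ (F s)) = 0)
    (hS : ∀ t ∈ S, φ (F t) = 0)
    (hk : ∀ (G : MvPolynomial σ ℂ) (D : ℕ), G.IsHomogeneous D → π (φ G) = 0 →
      G ∈ Ideal.span (F '' insert s S)) :
    (∀ (D : ℕ) (G : MvPolynomial σ ℂ), G.IsHomogeneous D → φ G = 0 →
      G ∈ Ideal.span (F '' S)) ∧
    ∀ D, Module.finrank ℂ (img φ D) = Module.finrank ℂ (img (π.comp φ) D) +
      if d s ≤ D then Module.finrank ℂ (img φ (D - d s)) else 0 := by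
  have hI : ∀ B ∈ Ideal.span (F '' S), φ B = 0 := by
    intro B hB
    have : Ideal.span (F '' S) ≤ RingHom.ker φ := by
      rw [Ideal.span_le]
      rintro _ ⟨t, ht, rfl⟩
      exact hS t ht
    exact this hB
  constructor
  · intro D
    induction D using Nat.strong_induction_on with
    | _ D ih =>
      intro G hG h0
      obtain ⟨A, B, rfl, hB, hA, hA0⟩ := split hF S s hG (hk G D hG (by rw [h0, map_zero]))
      refine Ideal.add_mem _ ?_ hB
      by_cases hs : d s ≤ D
      · refine Ideal.mul_mem_left _ _ (ih (D - d s) (by have := hd s; omega) A hA ?_)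
        rw [map_add, map_mul, hI B hB, add_zero] at h0
        exact hy _ h0
      · rw [hA0 hs, mul_zero]; exact Ideal.zero_mem _
  · intro D
    have : Module.Finite ℂ (homogeneousSubmodule σ ℂ D) :=
      Module.Finite.iff_fg.2 (homogeneousSubmodule_fg σ ℂ D)
    have : Module.Finite ℂ (img φ D) := by unfold img; infer_instance
    rw [rank_split (img φ D) π.toLinearMap]
    congr 1
    · unfold img
      rw [← Submodule.map_comp]
      rfl
    · split_ifs with hs
      · have : (img φ D ⊓ LinearMap.ker π.toLinearMap : Submodule ℂ C) =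
            (img φ (D - d s)).map (LinearMap.mulLeft ℂ (φ (F s))) := by
          apply le_antisymm
          · rintro _ ⟨⟨G, hG, rfl⟩, h0⟩
            obtain ⟨A, B, rfl, hB, hA, -⟩ := split hF S s hG (hk G D hG h0)
            refine ⟨φ A, ⟨A, hA, rfl⟩, ?_⟩
            simp [hI B hB]
          · rintro _ ⟨_, ⟨A, hA, rfl⟩, rfl⟩
            refine ⟨⟨F s * A, ?_, by simp⟩, ?_⟩
            · have := (hF s).mul hA
              rwa [Nat.add_sub_cancel' hs] at this
            · simp [hπ]
        rw [this]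
        refine (Submodule.equivMapOfInjective _ ?_ _).finrank_eq.symm
        rw [← LinearMap.ker_eq_bot, LinearMap.ker_eq_bot']
        intro c hc
        exact hy c hc
      · have : (img φ D ⊓ LinearMap.ker π.toLinearMap : Submodule ℂ C) = ⊥ := by
          rw [eq_bot_iff]
          rintro _ ⟨⟨G, hG, rfl⟩, h0⟩
          obtain ⟨A, B, rfl, hB, -, hA⟩ := split hF S s hG (hk G D hG h0)
          simp [hA hs, hI B hB]
        rw [this, finrank_bot]

theorem series_step (a b : ℕ → ℕ) (d : ℕ)
    (h : ∀ D, a D = b D + if d ≤ D then a (D - d) else 0) :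
    (PowerSeries.mk fun D => (b D : ℤ)) =
      (1 - PowerSeries.X ^ d) * PowerSeries.mk fun D => (a D : ℤ) := by
  ext D
  rw [sub_mul, one_mul, map_sub, PowerSeries.coeff_X_pow_mul', PowerSeries.coeff_mk,
    PowerSeries.coeff_mk, h D]
  split_ifs <;> simp

theorem bound_step (f : PowerSeries ℤ) (B n d : ℕ)
    (h : ∀ M, PowerSeries.coeff M f ≤ (B * (M + n).choose n : ℕ)) (M : ℕ) :
    PowerSeries.coeff M ((∑ a ∈ Finset.range d, (PowerSeries.X : PowerSeries ℤ) ^ a) * f) ≤
      ((d * B) * (M + n).choose n : ℕ) := by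
  rw [Finset.sum_mul, map_sum]
  calc _ ≤ ∑ _a ∈ Finset.range d, ((B * (M + n).choose n : ℕ) : ℤ) := by
        refine Finset.sum_le_sum fun a _ => ?_
        rw [PowerSeries.coeff_X_pow_mul']
        split_ifs
        · refine (h _).trans ?_
          exact_mod_cast Nat.mul_le_mul_left B (Nat.choose_le_choose n (by omega))
        · positivity
    _ = _ := by simp [mul_assoc]

theorem bound_prod {r : ℕ} (d : Fin r → ℕ) (n : ℕ) (T : Finset (Fin r)) (M : ℕ) :
    PowerSeries.coeff M ((∏ s ∈ T, ∑ a ∈ Finset.range (d s), (PowerSeries.X : PowerSeries ℤ) ^ a) *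
      (PowerSeries.mk 1 : PowerSeries ℤ) ^ (n + 1)) ≤ ((∏ s ∈ T, d s) * (M + n).choose n : ℕ) := by
  induction T using Finset.induction_on generalizing M with
  | empty => simp [PowerSeries.mk_one_pow_eq_mk_choose_add, add_comm]
  | insert s T hs ih =>
    rw [Finset.prod_insert hs, Finset.prod_insert hs, mul_assoc]
    exact bound_step _ _ n (d s) ih M

/-- Killing the variables outside `T`. -/
noncomputable def keep {r : ℕ} (K : Type) [Field K] [Algebra ℂ K] (T : Finset (Fin r)) :
    MvPowerSeries (Fin r) K →ₐ[ℂ] MvPowerSeries (Fin r) K :=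
  (MvPowerSeries.rescaleAlgHom fun s => if s ∈ T then (1 : K) else 0).restrictScalars ℂ

theorem keep_apply {r : ℕ} (K : Type) [Field K] [Algebra ℂ K] (T : Finset (Fin r))
    (f : MvPowerSeries (Fin r) K) :
    keep K T f = MvPowerSeries.rescale (fun s => if s ∈ T then (1 : K) else 0) f :=
  MvPowerSeries.rescaleAlgHom_apply _ f

theorem keep_X {r : ℕ} (K : Type) [Field K] [Algebra ℂ K] (T : Finset (Fin r)) (s : Fin r) :
    keep K T (MvPowerSeries.X s) = if s ∈ T then MvPowerSeries.X s else 0 := by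
  ext α
  rw [keep_apply, MvPowerSeries.coeff_rescale, MvPowerSeries.coeff_X]
  by_cases hα : α = Finsupp.single s 1
  · subst hα
    split_ifs <;> simp_all [Finsupp.prod_single_index, MvPowerSeries.coeff_X]
  · split_ifs <;> simp_all [MvPowerSeries.coeff_X]

theorem keep_keep {r : ℕ} (K : Type) [Field K] [Algebra ℂ K] (T : Finset (Fin r)) (s : Fin r)
    (f : MvPowerSeries (Fin r) K) : keep K T (keep K (insert s T) f) = keep K T f := by
  rw [keep_apply, keep_apply, keep_apply, MvPowerSeries.rescale_rescale]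
  congr 2
  ext t
  by_cases ht : t ∈ T <;> simp [ht]

theorem main {σ K : Type} [Fintype σ] [Field K] [Algebra ℂ K] {r : ℕ}
    {F : Fin r → MvPolynomial σ ℂ} {d : Fin r → ℕ} (hd : ∀ s, 1 ≤ d s)
    (hF : ∀ s, (F s).IsHomogeneous (d s)) (Ψ : MvPolynomial σ ℂ →ₐ[ℂ] MvPowerSeries (Fin r) K)
    (hΨ : ∀ s, Ψ (F s) = MvPowerSeries.X s)
    (h0 : ∀ (D : ℕ) (G : MvPolynomial σ ℂ), G.IsHomogeneous D → keep K ∅ (Ψ G) = 0 →
      G ∈ Ideal.span (Set.range F)) (T : Finset (Fin r)) :
    (∀ (D : ℕ) (G : MvPolynomial σ ℂ), G.IsHomogeneous D → keep K T (Ψ G) = 0 →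
      G ∈ Ideal.span (F '' {s | s ∉ T})) ∧
    (PowerSeries.mk fun D => (Module.finrank ℂ (img ((keep K ∅).comp Ψ) D) : ℤ)) =
      (∏ s ∈ T, (1 - PowerSeries.X ^ d s)) *
        PowerSeries.mk fun D => (Module.finrank ℂ (img ((keep K T).comp Ψ) D) : ℤ) := by
  induction T using Finset.induction_on with
  | empty => exact ⟨fun D G hG h => by simpa using h0 D G hG h, by simp⟩
  | insert s T hs ih =>
    have hset : {t | t ∉ T} = insert s {t | t ∉ insert s T} := by
      ext t
      by_cases ht : t = s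
      · subst ht; simp [hs]
      · simp [ht]
    have hc : (keep K T).comp ((keep K (insert s T)).comp Ψ) = (keep K T).comp Ψ :=
      AlgHom.ext fun G => keep_keep K T s _
    obtain ⟨h1, h2⟩ := step hd hF {t | t ∉ insert s T} s ((keep K (insert s T)).comp Ψ)
      (keep K T)
      (fun c hc => by
        rw [AlgHom.comp_apply, hΨ, keep_X, if_pos (Finset.mem_insert_self s T)] at hc
        exact (mul_eq_zero.1 hc).resolve_left fun h => by
          simpa using congrArg (MvPowerSeries.coeff (Finsupp.single s 1)) h)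
      (by rw [AlgHom.comp_apply, keep_keep, hΨ, keep_X, if_neg hs])
      (fun t ht => by rw [AlgHom.comp_apply, hΨ, keep_X, if_neg ht])
      (fun G D hG h => by
        rw [AlgHom.comp_apply, keep_keep] at h
        rw [← hset]
        exact ih.1 D G hG h)
    refine ⟨h1, ?_⟩
    rw [hc] at h2
    rw [ih.2, series_step _ _ _ h2, Finset.prod_insert hs]
    ring

end HilbA

open HilbA in
theorem p_HILB (hHENSEL : S_HENSEL) : S_HILB := by
  intro σ _ _ r F d n K _ _ ξ hcard hd hF hξ hli M
  obtain ⟨ww, hww⟩ := exists_dual _ hli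
  let ι : K →ₐ[ℂ] MvPowerSeries (Fin r) K := IsScalarTower.toAlgHom ℂ K _
  have hι : ∀ G : MvPolynomial σ ℂ, aeval (fun i => ι (ξ i)) G = ι (aeval ξ G) := fun G =>
    (AlgHom.congr_fun (MvPolynomial.comp_aeval ξ ι) G).symm
  have hF0 : ∀ s, aeval ξ (F s) = 0 := fun s =>
    (hξ _ _ (hF s)).2 (Ideal.subset_span ⟨s, rfl⟩)
  obtain ⟨y, hy, hΨ⟩ := hHENSEL σ r F (MvPowerSeries (Fin r) K)
    (Ideal.span (Set.range MvPowerSeries.X)) 1 (fun i => ι (ξ i)) (fun l i => ι (ww l i))
    MvPowerSeries.X le_rfl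
    (fun s => by
      rw [hι, hF0, map_zero, zero_sub, pow_one]
      exact neg_mem (Ideal.subset_span ⟨s, rfl⟩))
    (fun s l => by
      simp only [hι, ← map_mul, ← map_sum, hww]
      split_ifs <;> simp)
  let Ψ : MvPolynomial σ ℂ →ₐ[ℂ] MvPowerSeries (Fin r) K :=
    aeval fun i => ι (ξ i) + ∑ l, y l * ι (ww l i)
  have hy0 : ∀ l, keep K ∅ (y l) = 0 := by
    intro l
    have : Ideal.span (Set.range (MvPowerSeries.X : Fin r → MvPowerSeries (Fin r) K)) ≤
        RingHom.ker (keep K ∅) := by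
      rw [Ideal.span_le]
      rintro _ ⟨t, rfl⟩
      simp [keep_X]
    exact this (by simpa using hy l)
  have hkι : ∀ c, keep K (∅ : Finset (Fin r)) (ι c) = ι c := fun c =>
    (MvPowerSeries.rescaleAlgHom fun s => if s ∈ (∅ : Finset (Fin r)) then (1 : K) else 0).commutes c
  have hc : (keep K ∅).comp Ψ = ι.comp (aeval ξ) := by
    apply MvPolynomial.algHom_ext
    intro i
    simp [Ψ, hy0, hkι]
  have hinj : Function.Injective ι := ι.toRingHom.injective
  obtain ⟨h1, h2⟩ := main hd hF Ψ hΨ (fun D G hG h => by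
    have := AlgHom.congr_fun hc G
    rw [AlgHom.comp_apply, h, AlgHom.comp_apply, eq_comm, map_eq_zero_iff ι hinj] at this
    exact (hξ G D hG).1 this) Finset.univ
  have h3 : ∀ D, Module.finrank ℂ (img ((keep K ∅).comp Ψ) D) =
      Module.finrank ℂ (sections ξ D) := by
    intro D
    rw [hc]
    have : img (ι.comp (aeval ξ)) D = (sections ξ D).map ι.toLinearMap := by
      unfold img sections
      rw [← Submodule.map_comp]
      rfl
    rw [this]
    exact (Submodule.equivMapOfInjective _ hinj _).finrank_eq.symm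
  have h4 : ∀ D, Module.finrank ℂ (img ((keep K Finset.univ).comp Ψ) D) =
      (n + r + D).choose (n + r) := by
    intro D
    have : Module.Finite ℂ (homogeneousSubmodule σ ℂ D) :=
      Module.Finite.iff_fg.2 (homogeneousSubmodule_fg σ ℂ D)
    have h5 := rank_split (homogeneousSubmodule σ ℂ D)
      ((keep K Finset.univ).comp Ψ).toLinearMap
    have h6 : (homogeneousSubmodule σ ℂ D ⊓
        LinearMap.ker ((keep K Finset.univ).comp Ψ).toLinearMap) = ⊥ := by
      rw [eq_bot_iff]
      rintro G ⟨hG, h⟩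
      simpa using h1 D G hG h
    rw [h6, finrank_bot, add_zero, finrank_forms, hcard] at h5
    unfold img
    rw [← h5, show n + r + 1 + D - 1 = n + r + D by omega, Nat.choose_symm_add]
  simp only [h3, h4] at h2
  have h7 : (PowerSeries.mk fun D => (Module.finrank ℂ (sections ξ D) : ℤ)) =
      (∏ s, ∑ a ∈ Finset.range (d s), PowerSeries.X ^ a) *
        (PowerSeries.mk 1 : PowerSeries ℤ) ^ (n + 1) := by
    rw [h2, ← PowerSeries.mk_one_pow_eq_mk_choose_add]
    have h8 : ∀ s, (1 - PowerSeries.X ^ d s : PowerSeries ℤ) =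
        (∑ a ∈ Finset.range (d s), PowerSeries.X ^ a) * (1 - PowerSeries.X) := fun s =>
      (geom_sum_mul_neg _ _).symm
    simp only [h8, Finset.prod_mul_distrib, Finset.prod_const, Finset.card_univ,
      Fintype.card_fin]
    rw [show n + r + 1 = r + (n + 1) by omega, pow_add, mul_assoc, ← mul_assoc (_ ^ r),
      ← mul_pow, mul_comm (1 - PowerSeries.X), PowerSeries.mk_one_mul_one_sub_eq_one, one_pow,
      one_mul]
  have h9 := bound_prod d n Finset.univ M
  rw [← h7, PowerSeries.coeff_mk] at h9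
  exact_mod_cast h9

end Pool.Agent.P.MP_6149fc_ag
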