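import Pool.Agent.P.MP_6149fc_ag.Iface

namespace Pool.Agent.P.MP_6149fc_ag

open scoped ENNReal
open MvPolynomial MeasureTheory

namespace IndepA

variable {κ : Type} [Field κ] [Algebra ℂ κ]

theorem const (hDER : S_DER) (b : κ) (h : ∀ δ : Derivation ℂ κ κ, δ b = 0) :
    ∃ k : ℂ, algebraMap ℂ κ k = b := by
  have h1 : IsAlgebraic ℂ b := by
    by_contra h1
    obtain ⟨δ, hδ⟩ := hDER ℂ κ Unit (fun _ => b) (algebraicIndependent_unique_type_iff.2 h1)
      fun _ => 1
    exact one_ne_zero ((hδ ()).symm.trans (h δ))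
  exact minpoly.mem_range_of_degree_eq_one ℂ b
    (IsAlgClosed.degree_eq_one_of_irreducible ℂ (minpoly.irreducible h1.isIntegral))

theorem artin (hDER : S_DER) {V ι : Type} [AddCommGroup V] [Module ℂ V] [Module κ V]
    [IsScalarTower ℂ κ V] (e : ι → V)
    (h : ∀ δ : Derivation ℂ κ κ, ∃ D : V →+ V, ∀ (b : κ) i, D (b • e i) = δ b • e i)
    (hl : LinearIndependent ℂ e) : LinearIndependent κ e := by
  classical
  rw [linearIndependent_iff'] at hl ⊢
  intro s
  induction s using Finset.induction_on with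
  | empty => simp
  | insert a s ha ih =>
    intro g hg
    by_cases h0 : g a = 0
    · rw [Finset.sum_insert ha, h0, zero_smul, zero_add] at hg
      exact Finset.forall_mem_insert _ _ _ |>.2 ⟨h0, ih g hg⟩
    exfalso
    have h1 : ∑ i ∈ insert a s, ((g a)⁻¹ * g i) • e i = 0 := by
      simp only [mul_smul]
      rw [← Finset.smul_sum, hg, smul_zero]
    have h2 : ∀ i ∈ insert a s, ∃ k : ℂ, algebraMap ℂ κ k = (g a)⁻¹ * g i := by
      refine Finset.forall_mem_insert _ _ _ |>.2 ⟨⟨1, by rw [map_one, inv_mul_cancel₀ h0]⟩,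
        fun i hi => const hDER _ fun δ => ?_⟩
      obtain ⟨D, hD⟩ := h δ
      have h3 := congrArg D h1
      rw [map_sum, map_zero, Finset.sum_congr rfl fun i _ => hD _ i, Finset.sum_insert ha,
        inv_mul_cancel₀ h0, δ.map_one_eq_zero, zero_smul, zero_add] at h3
      exact ih _ h3 i hi
    choose! k hk using h2
    have h4 := hl (insert a s) k ((Finset.sum_congr rfl fun i hi => by
      rw [← hk i hi, algebraMap_smul]).trans h1) a (Finset.mem_insert_self _ _)
    have h5 := hk a (Finset.mem_insert_self _ _)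
    rw [h4, map_zero, inv_mul_cancel₀ h0] at h5
    exact zero_ne_one h5

/-- A derivation of the coefficient field acting on all coefficients. -/
noncomputable def dh (n : ℕ) (δ : Derivation ℂ κ κ) :
    Derivation ℂ (MvPowerSeries (Fin n) κ) (MvPowerSeries (Fin n) κ) :=
  Derivation.mk'
    { toFun := fun f α => δ (MvPowerSeries.coeff α f)
      map_add' := fun f g => funext fun α => δ.map_add _ _
      map_smul' := fun c f => funext fun α => δ.map_smul c _ }
    fun f g => by
      ext α
      change δ (MvPowerSeries.coeff α (f * g)) = _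
      rw [smul_eq_mul, smul_eq_mul, mul_comm g, map_add, MvPowerSeries.coeff_mul,
        MvPowerSeries.coeff_mul, MvPowerSeries.coeff_mul, map_sum, ← Finset.sum_add_distrib]
      refine Finset.sum_congr rfl fun q _ => ?_
      rw [δ.leibniz, smul_eq_mul, smul_eq_mul, mul_comm (MvPowerSeries.coeff q.2 g)]
      rfl

theorem dh_C (n : ℕ) (δ : Derivation ℂ κ κ) (b : κ) :
    dh n δ (MvPowerSeries.C b) = MvPowerSeries.C (δ b) := by
  ext α
  change δ (MvPowerSeries.coeff α (MvPowerSeries.C b)) = _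
  rw [MvPowerSeries.coeff_C, MvPowerSeries.coeff_C]
  split_ifs
  · rfl
  · exact δ.map_zero

/-- The constant coefficient as an algebra map. -/
noncomputable def rho (n : ℕ) (κ : Type) [Field κ] : MvPowerSeries (Fin n) κ →ₐ[κ] κ :=
  { MvPowerSeries.constantCoeff with commutes' := fun _ => rfl }

theorem sum_der {A ι : Type} [CommRing A] [Algebra ℂ A] (s : Finset ι)
    (D : ι → Derivation ℂ A A) (f : A) : (∑ i ∈ s, D i) f = ∑ i ∈ s, D i f := by
  classical
  induction s using Finset.induction_on with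
  | empty => simp
  | insert a s ha ih => rw [Finset.sum_insert ha, Finset.sum_insert ha, Derivation.add_apply, ih]

end IndepA

open IndepA in
theorem p_INDEP (hTAN : S_TAN) (hDER : S_DER) : S_INDEP := by
  intro σ _ _ r F n κ _ _ j0 x c y hy ι G
  refine artin hDER _ fun δ => ?_
  obtain ⟨p, hp⟩ : ∃ p, p = c.pt MvPowerSeries.X y := ⟨_, rfl⟩
  have h0 : p j0 = 1 := by simp [hp, Chart.pt, c.x_j0, c.vv_j0, c.ww_j0]
  have h1 : ∀ a, ∑ i, c.cz a i • p i = MvPowerSeries.X a := fun a => by
    have e : ∀ i, c.cz a i • p i = (c.cz a i * x i) • (1 : MvPowerSeries (Fin n) κ) +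
        ∑ b, (c.cz a i * c.vv b i) • MvPowerSeries.X b + ∑ l, (c.cz a i * c.ww l i) • y l := by
      intro i
      simp only [hp, Chart.pt, smul_add, Finset.smul_sum, Algebra.algebraMap_eq_smul_one,
        mul_smul_comm, mul_one, smul_smul]
    simp only [e, Finset.sum_add_distrib]
    rw [Finset.sum_comm, Finset.sum_comm (s := Finset.univ (α := σ))]
    simp only [← Finset.sum_smul, c.cz_x, c.cz_vv, c.cz_ww]
    simp
  obtain ⟨Q, hQ⟩ := (hTAN σ r F n κ j0 x c (MvPowerSeries (Fin n) κ) κ (rho n κ) p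
    (fun b hb => MvPowerSeries.isUnit_iff_constantCoeff.2 (Ne.isUnit hb)) fun i => by
      have e : ∀ l, rho n κ (y l) = 0 := fun l => hy.1 l 0 (by simp)
      have e' : ∀ a, rho n κ (MvPowerSeries.X a) = 0 := MvPowerSeries.constantCoeff_X
      simp only [hp, Chart.pt, map_add, map_sum, map_mul, e, e', zero_mul, Finset.sum_const_zero,
        add_zero, AlgHom.commutes]).1
  obtain ⟨D, hD⟩ : ∃ D : Derivation ℂ (MvPowerSeries (Fin n) κ) (MvPowerSeries (Fin n) κ),
      ∀ f, D f = dh n δ f + ∑ a, (-∑ i, c.cz a i • dh n δ (p i)) * MvPowerSeries.pderiv κ a f :=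
    ⟨dh n δ + ∑ a, (-∑ i, c.cz a i • dh n δ (p i)) •
      (MvPowerSeries.pderiv κ a).restrictScalars ℂ, fun f => by
        rw [Derivation.add_apply, sum_der]
        rfl⟩
  have h2 : ∀ a, ∑ i, c.cz a i • D (p i) = 0 := fun a => by
    simp only [hD, smul_add, Finset.smul_sum, Finset.sum_add_distrib]
    rw [Finset.sum_comm]
    simp only [← mul_smul_comm, ← Finset.mul_sum, ← Derivation.map_smul (MvPowerSeries.pderiv κ _)]
    simp only [← map_sum, h1]
    rw [Finset.sum_eq_single a (fun b _ hb => by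
      rw [MvPowerSeries.pderiv_X_of_ne hb.symm, mul_zero]) (by simp),
      MvPowerSeries.pderiv_X_self, mul_one, add_neg_cancel]
  have h3 : ∀ i, D (p i) = 0 := fun i => by
    rw [hQ (fun i => D (p i)) (by rw [h0, D.map_one_eq_zero]) (fun s => by
      have := deriv_aeval D p (F s)
      rw [hp, hy.2 s, map_zero, ← hp] at this
      exact this.symm) i]
    simp only [← Algebra.smul_def, h2, mul_zero, Finset.sum_const_zero]
  refine ⟨D.toLinearMap.toAddMonoidHom, fun b i => ?_⟩
  change D _ = _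
  rw [← hp, MvPowerSeries.smul_eq_C_mul, MvPowerSeries.smul_eq_C_mul, D.leibniz, deriv_aeval,
    hD (MvPowerSeries.C b), dh_C]
  simp [h3, mul_comm]

end Pool.Agent.P.MP_6149fc_ag
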