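import Pool.Agent.P.MP_6149fc_ag.Iface

namespace Pool.Agent.P.MP_6149fc_ag

open scoped ENNReal
open MvPolynomial MeasureTheory

namespace InitA

variable {n : ℕ} {κ : Type} [Field κ] (wt : Fin n → ℕ)

theorem ex (f : MvPowerSeries (Fin n) κ) (hf : f ≠ 0) : ∃ γ, IsInit wt f γ := by
  have hne : {α | MvPowerSeries.coeff α f ≠ 0}.Nonempty := by
    by_contra h
    refine hf (MvPowerSeries.ext fun α => ?_)
    by_contra h'
    exact h ⟨α, by simpa using h'⟩
  obtain ⟨γ, hγ, hmin⟩ := (key_wf wt).has_min _ hne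
  exact ⟨γ, hγ, fun α hα => not_lt.1 (hmin α hα)⟩

theorem mul (f g : MvPowerSeries (Fin n) κ) (γ η : Fin n →₀ ℕ) (hf : IsInit wt f γ)
    (hg : IsInit wt g η) : IsInit wt (f * g) (γ + η) := by
  classical
  refine ⟨?_, fun α hα => ?_⟩
  · rw [MvPowerSeries.coeff_mul, Finset.sum_eq_single (γ, η)]
    · exact mul_ne_zero hf.1 hg.1
    · rintro ⟨a, b⟩ hab hne
      by_contra h
      have h1 := hf.2 a (left_ne_zero_of_mul h)
      have h2 := hg.2 b (right_ne_zero_of_mul h)
      have h3 : key wt a + key wt b = key wt γ + key wt η := by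
        rw [← key_add, ← key_add, Finset.HasAntidiagonal.mem_antidiagonal.1 hab]
      have h4 : key wt γ = key wt a := by
        refine le_antisymm h1 (not_lt.1 fun h5 => ?_)
        exact absurd h3 (add_lt_add_of_lt_of_le h5 h2).ne'
      have h5 : key wt b = key wt η := by
        rw [h4] at h3
        exact add_left_cancel h3
      exact hne (Prod.ext (key_injective wt h4).symm (key_injective wt h5))
    · intro h
      rw [Finset.HasAntidiagonal.mem_antidiagonal] at h
      exact (h rfl).elim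
  · rw [MvPowerSeries.coeff_mul] at hα
    obtain ⟨⟨a, b⟩, hab, h⟩ := Finset.exists_ne_zero_of_sum_ne_zero hα
    rw [← Finset.HasAntidiagonal.mem_antidiagonal.1 hab, key_add, key_add]
    exact add_le_add (hf.2 a (left_ne_zero_of_mul h)) (hg.2 b (right_ne_zero_of_mul h))

theorem indep (W : Submodule κ (MvPowerSeries (Fin n) κ)) (I : Set (Fin n →₀ ℕ)) (F : I → W)
    (hF : ∀ γ, IsInit wt (F γ : MvPowerSeries (Fin n) κ) γ) : LinearIndependent κ F := by
  classical
  rw [linearIndependent_iff']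
  intro s g hs i hi
  by_contra hg
  obtain ⟨j, hj, hmin⟩ := (s.filter fun i => g i ≠ 0).exists_min_image (fun i => key wt i)
    ⟨i, Finset.mem_filter.2 ⟨hi, hg⟩⟩
  rw [Finset.mem_filter] at hj
  have h1 := congrArg (fun w : W => MvPowerSeries.coeff j (w : MvPowerSeries (Fin n) κ)) hs
  simp only [Submodule.coe_sum, Submodule.coe_smul, map_sum, map_smul, smul_eq_mul,
    Submodule.coe_zero, map_zero] at h1
  rw [Finset.sum_eq_single j] at h1
  · exact mul_ne_zero hj.2 (hF j).1 h1
  · intro l hl hlj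
    by_contra h
    have h2 := (hF l).2 j (right_ne_zero_of_mul h)
    have h3 := hmin l (Finset.mem_filter.2 ⟨hl, left_ne_zero_of_mul h⟩)
    exact hlj (Subtype.ext (key_injective wt (le_antisymm h2 h3)))
  · intro h
    exact absurd hj.1 h

theorem count (W : Submodule κ (MvPowerSeries (Fin n) κ)) [FiniteDimensional κ W] :
    ∃ Λ : Finset (Fin n →₀ ℕ), Λ.card = Module.finrank κ W ∧
      ∀ γ, γ ∈ Λ ↔ ∃ f ∈ W, IsInit wt f γ := by
  classical
  let I : Set (Fin n →₀ ℕ) := {γ | ∃ f ∈ W, IsInit wt f γ}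
  choose F hFW hF using fun γ : I => γ.2
  have hli := indep wt W I (fun γ => ⟨F γ, hFW γ⟩) hF
  have hfin : Finite I := hli.finite_of_isNoetherian
  have : Fintype I := Fintype.ofFinite I
  refine ⟨I.toFinset, le_antisymm ?_ ?_, fun γ => Set.mem_toFinset⟩
  · rw [Set.toFinset_card]
    exact hli.fintype_card_le_finrank
  · let φ : W →ₗ[κ] (I → κ) :=
      LinearMap.pi fun γ => (MvPowerSeries.coeff (γ : Fin n →₀ ℕ)).comp W.subtype
    have hφ : Function.Injective φ := by
      rw [← LinearMap.ker_eq_bot, LinearMap.ker_eq_bot']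
      intro w hw
      by_contra h0
      obtain ⟨γ, hγ⟩ := ex wt (w : MvPowerSeries (Fin n) κ) fun h => h0 (Subtype.ext h)
      exact hγ.1 (congrFun hw ⟨γ, w, w.2, hγ⟩)
    have := LinearMap.finrank_le_finrank_of_injective hφ
    rwa [Module.finrank_fintype_fun_eq_card, ← Set.toFinset_card] at this

end InitA

theorem p_INIT : S_INIT := fun _ _ _ wt =>
  ⟨InitA.ex wt, InitA.mul wt, fun W _ => InitA.count wt W⟩

end Pool.Agent.P.MP_6149fc_ag
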