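import Pool.Agent.P.MP_6149fc_ag.Iface

namespace Pool.Agent.P.MP_6149fc_ag

open scoped ENNReal
open MvPolynomial MeasureTheory

namespace JetA

section
variable (κ : Type) [Field κ] (n N : ℕ)

/-- The universal truncated arc. -/
noncomputable def Z (j : Fin n) : PowerSeries (MvPolynomial (Fin n × Fin N) κ) :=
  PowerSeries.mk fun s => if h : s < N then X (j, ⟨s, h⟩) else 0

/-- Coefficients of a monomial along the universal arc. -/
noncomputable def E (α : Fin n →₀ ℕ) (s : ℕ) : MvPolynomial (Fin n × Fin N) κ :=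
  PowerSeries.coeff s (∏ j, Z κ n N j ^ α j)

/-- The bidegree. -/
noncomputable def w (b : Fin n × Fin N) : (Fin n →₀ ℕ) × ℕ := (Finsupp.single b.1 1, b.2)

end

variable {κ : Type} [Field κ] {n N : ℕ}

/-- All coefficients are bihomogeneous. -/
def Hm (F : PowerSeries (MvPolynomial (Fin n × Fin N) κ)) (c : Fin n →₀ ℕ) : Prop :=
  ∀ s, IsWeightedHomogeneous (w n N) (PowerSeries.coeff s F) (c, s)

theorem Hm.mul {F G : PowerSeries (MvPolynomial (Fin n × Fin N) κ)} {c d : Fin n →₀ ℕ}
    (hF : Hm F c) (hG : Hm G d) : Hm (F * G) (c + d) := by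
  intro s
  rw [PowerSeries.coeff_mul]
  refine IsWeightedHomogeneous.sum _ _ _ fun p hp => ?_
  have := (hF p.1).mul (hG p.2)
  rwa [Prod.mk_add_mk, Finset.HasAntidiagonal.mem_antidiagonal.1 hp] at this

theorem hm_one : Hm (1 : PowerSeries (MvPolynomial (Fin n × Fin N) κ)) 0 := by
  intro s
  rw [PowerSeries.coeff_one]
  split_ifs with h
  · subst h; exact isWeightedHomogeneous_one κ _
  · exact isWeightedHomogeneous_zero κ _ _

theorem hm_Z (j : Fin n) : Hm (Z κ n N j) (Finsupp.single j 1) := by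
  intro s
  rw [Z, PowerSeries.coeff_mk]
  split_ifs with h
  · exact isWeightedHomogeneous_X κ (w n N) (j, ⟨s, h⟩)
  · exact isWeightedHomogeneous_zero κ _ _

theorem Hm.pow {F : PowerSeries (MvPolynomial (Fin n × Fin N) κ)} {c : Fin n →₀ ℕ}
    (hF : Hm F c) (k : ℕ) : Hm (F ^ k) (k • c) := by
  induction k with
  | zero => simpa using hm_one
  | succ k ih => rw [pow_succ, succ_nsmul]; exact ih.mul hF

theorem hom_E (α : Fin n →₀ ℕ) (s : ℕ) : IsWeightedHomogeneous (w n N) (E κ n N α s) (α, s) := by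
  classical
  have h : ∀ t : Finset (Fin n),
      Hm (∏ j ∈ t, Z κ n N j ^ α j) (∑ j ∈ t, Finsupp.single j (α j)) := by
    intro t
    induction t using Finset.induction_on with
    | empty => simpa using hm_one
    | insert a t ha ih =>
      rw [Finset.prod_insert ha, Finset.sum_insert ha]
      have := (hm_Z (κ := κ) (N := N) a).pow (α a)
      rw [Finsupp.smul_single, smul_eq_mul, mul_one] at this
      exact this.mul ih
  have h2 := h Finset.univ s
  rwa [Finsupp.univ_sum_single] at h2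

theorem w_snd (m : Fin n × Fin N →₀ ℕ) :
    (Finsupp.weight (w n N) m).2 = ∑ b, m b * (b.2 : ℕ) := by
  rw [Finsupp.weight_apply, Finsupp.sum_fintype _ _ (by simp), Prod.snd_sum]
  rfl

theorem w_fst (m : Fin n × Fin N →₀ ℕ) :
    Finsupp.degree (Finsupp.weight (w n N) m).1 = ∑ b, m b := by
  rw [Finsupp.weight_apply, Finsupp.sum_fintype _ _ (by simp), Prod.fst_sum, map_sum]
  refine Finset.sum_congr rfl fun b _ => ?_
  simp [w]

theorem le_mul_snd {m : Fin n × Fin N →₀ ℕ} (h : ∀ b, (b.2 : ℕ) = 0 → m b = 0)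
    (b : Fin n × Fin N) : m b ≤ m b * (b.2 : ℕ) := by
  by_cases hb : (b.2 : ℕ) = 0
  · simp [h b hb]
  · exact Nat.le_mul_of_pos_right _ (Nat.pos_of_ne_zero hb)

/-- The variables outside a prime over the jet ideal of a monomial are few. -/
theorem good_of_prime (γ : Fin n →₀ ℕ) (μ : ℕ) (hγ : ∀ i, γ i ≤ μ)
    (p : Ideal (MvPolynomial (Fin n × Fin N) κ)) [p.IsPrime] (hp : ∀ s < N, E κ n N γ s ∈ p)
    (T : Finset (Fin n × Fin N)) (hT : ∀ b ∈ T, X b ∉ p) : N + μ * T.card ≤ μ * (n * N) := by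
  classical
  set Y : Fin n → PowerSeries (MvPolynomial (Fin n × Fin N) κ ⧸ p) := fun j =>
    PowerSeries.map (Ideal.Quotient.mk p) (Z κ n N j) with hY
  have h1 : (N : ℕ∞) ≤ ∑ j, γ j • (Y j).order := by
    have : (N : ℕ∞) ≤ (∏ j, Y j ^ γ j).order := by
      refine PowerSeries.nat_le_order _ _ fun s hs => ?_
      have : ∏ j, Y j ^ γ j = PowerSeries.map (Ideal.Quotient.mk p) (∏ j, Z κ n N j ^ γ j) := by
        simp only [map_prod, map_pow, hY]
      rw [this, PowerSeries.coeff_map]
      exact Ideal.Quotient.eq_zero_iff_mem.2 (hp s hs)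
    simpa only [PowerSeries.order_prod, PowerSeries.order_pow] using this
  have h2 : ∀ j, ∃ o : ℕ, (o : ℕ∞) = min (N : ℕ∞) (Y j).order := fun j =>
    ⟨_, ENat.natCast_toNat (ne_top_of_le_ne_top (ENat.natCast_ne_top N) (min_le_left _ _))⟩
  choose o ho using h2
  have hoN : ∀ j, o j ≤ N := fun j => by
    have := ho j ▸ min_le_left (N : ℕ∞) (Y j).order
    exact_mod_cast this
  have h3 : N ≤ ∑ j, γ j * o j := by
    by_cases hc : ∃ j, γ j ≠ 0 ∧ (N : ℕ∞) ≤ (Y j).order
    · obtain ⟨j, hj, hj'⟩ := hc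
      have : o j = N := by
        have := ho j
        rw [min_eq_left hj'] at this
        exact_mod_cast this
      refine le_trans ?_ (Finset.single_le_sum (f := fun j => γ j * o j)
        (fun _ _ => Nat.zero_le _) (Finset.mem_univ j))
      rw [this]
      exact Nat.le_mul_of_pos_left _ (Nat.pos_of_ne_zero hj)
    · push Not at hc
      have : ∑ j, γ j • (Y j).order = ((∑ j, γ j * o j : ℕ) : ℕ∞) := by
        rw [Nat.cast_sum]
        refine Finset.sum_congr rfl fun j _ => ?_
        by_cases hj : γ j = 0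
        · simp [hj]
        · rw [Nat.cast_mul, ho, min_eq_right (hc j hj).le, nsmul_eq_mul]
      rw [this] at h1
      exact_mod_cast h1
  set U : Finset (Fin n × Fin N) := Finset.univ.filter fun b => (b.2 : ℕ) < o b.1 with hU
  have h4 : U.card = ∑ j, o j := by
    rw [hU, Finset.card_filter, Fintype.sum_prod_type]
    refine Finset.sum_congr rfl fun j _ => ?_
    rw [← Finset.card_filter]
    exact Fin.card_filter_val_lt.trans (min_eq_right (hoN j))
  have h5 : Disjoint T U := by
    rw [Finset.disjoint_left]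
    rintro ⟨j, l⟩ hb hb'
    have h6 : (l : ℕ) < o j := (Finset.mem_filter.1 hb').2
    have h7 : ((l : ℕ) : ℕ∞) < (Y j).order :=
      lt_of_lt_of_le (by exact_mod_cast h6) (ho j ▸ min_le_right (N : ℕ∞) (Y j).order)
    have h8 := PowerSeries.coeff_of_lt_order _ h7
    rw [hY, PowerSeries.coeff_map, Z, PowerSeries.coeff_mk, dif_pos l.2] at h8
    exact hT _ hb (Ideal.Quotient.eq_zero_iff_mem.1 h8)
  have h6 : T.card + ∑ j, o j ≤ n * N := by
    rw [← h4, ← Finset.card_union_of_disjoint h5]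
    simpa using Finset.card_le_univ (T ∪ U)
  have h7 : ∑ j, γ j * o j ≤ μ * ∑ j, o j := by
    rw [Finset.mul_sum]
    exact Finset.sum_le_sum fun j _ => Nat.mul_le_mul_right _ (hγ j)
  have h8 := Nat.mul_le_mul_left μ h6
  rw [mul_add] at h8
  omega

/-- Monomials with many large exponents lie in the jet ideal of the monomial. -/
theorem exists_K (κ : Type) [Field κ] (N : ℕ) (γ : Fin n →₀ ℕ) (μ : ℕ) (hγ : ∀ i, γ i ≤ μ) :
    ∃ K : ℕ, 1 ≤ K ∧ ∀ m : Fin n × Fin N →₀ ℕ,
      ¬ N + μ * (Finset.univ.filter fun b => K ≤ m b).card ≤ μ * (n * N) →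
      monomial m (1 : κ) ∈ Ideal.span (Set.range fun s : Fin N => E κ n N γ s) := by
  classical
  have h : ∀ T : Finset (Fin n × Fin N), ∃ k : ℕ, ¬ N + μ * T.card ≤ μ * (n * N) →
      (∏ b ∈ T, X b) ^ k ∈ Ideal.span (Set.range fun s : Fin N => E κ n N γ s) := by
    intro T
    by_cases hT : N + μ * T.card ≤ μ * (n * N)
    · exact ⟨0, fun h => absurd hT h⟩
    · have : (∏ b ∈ T, X b) ∈ (Ideal.span (Set.range fun s : Fin N => E κ n N γ s)).radical := by
        rw [Ideal.radical_eq_sInf, Submodule.mem_sInf]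
        rintro p ⟨h1, h2⟩
        by_contra h3
        refine hT (good_of_prime γ μ hγ p
          (fun s hs => h1 (Ideal.subset_span ⟨⟨s, hs⟩, rfl⟩)) T fun b hb h4 => h3 ?_)
        exact Ideal.mem_of_dvd _ (Finset.dvd_prod_of_mem _ hb) h4
      obtain ⟨k, hk⟩ := this
      exact ⟨k, fun _ => hk⟩
  choose k hk using h
  refine ⟨Finset.univ.sup k + 1, by omega, fun m hm => Ideal.mem_of_dvd _ ?_ (hk _ hm)⟩
  rw [monomial_eq, C_1, one_mul, Finsupp.prod_fintype _ _ (by simp), ← Finset.prod_pow]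
  refine dvd_trans (Finset.prod_dvd_prod_of_dvd _ (fun b => X b ^ m b) fun b hb => ?_)
    (Finset.prod_dvd_prod_of_subset _ _ _ (Finset.subset_univ _))
  refine pow_dvd_pow _ (le_trans ?_ (Finset.mem_filter.1 hb).2)
  exact (Finset.le_sup (f := k) (Finset.mem_univ _)).trans (Nat.le_succ _)

theorem comp_mem {σ M ι L : Type} [AddCommMonoid M] [Fintype ι] [AddCommGroup L] [Module κ L]
    (v : σ → M) (V : Submodule κ L) (ev : MvPolynomial σ κ →ₗ[κ] L) (c : M)
    (G : ι → MvPolynomial σ κ) (e : ι → M) (hG : ∀ s, IsWeightedHomogeneous v (G s) (e s))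
    (hV : ∀ u s, Finsupp.weight v u + e s = c → ev (monomial u 1 * G s) ∈ V)
    {x : MvPolynomial σ κ} (hx : x ∈ Ideal.span (Set.range G)) :
    ev (weightedHomogeneousComponent v c x) ∈ V := by
  obtain ⟨h, rfl⟩ := Ideal.mem_span_range_iff_exists_fun.1 hx
  rw [map_sum, map_sum]
  refine V.sum_mem fun s _ => ?_
  generalize h s = g
  induction g using MvPolynomial.induction_on' with
  | monomial u a =>
    have h1 : monomial u a * G s = a • (monomial u 1 * G s) := by
      rw [← smul_mul_assoc, smul_monomial, smul_eq_mul, mul_one]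
    have h2 := (isWeightedHomogeneous_monomial v u (1 : κ) rfl).mul (hG s)
    rw [h1, map_smul, map_smul]
    refine V.smul_mem _ ?_
    by_cases hc : Finsupp.weight v u + e s = c
    · rw [← hc, h2.weightedHomogeneousComponent_same]
      exact hV u s hc
    · rw [h2.weightedHomogeneousComponent_ne c (Ne.symm hc), map_zero]
      exact V.zero_mem
  | add p q hp hq =>
    rw [add_mul, map_add, map_add]
    exact V.add_mem hp hq

theorem hom_mem {σ M L : Type} [AddCommMonoid M] [AddCommGroup L] [Module κ L]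
    (v : σ → M) (V : Submodule κ L) (ev : MvPolynomial σ κ →ₗ[κ] L) (c : M)
    (hV : ∀ u, Finsupp.weight v u = c → ev (monomial u 1) ∈ V)
    {x : MvPolynomial σ κ} (hx : IsWeightedHomogeneous v x c) : ev x ∈ V := by
  rw [x.as_sum, map_sum]
  refine V.sum_mem fun u hu => ?_
  have h1 : monomial u (coeff u x) = coeff u x • monomial u (1 : κ) := by
    rw [smul_monomial, smul_eq_mul, mul_one]
  rw [h1, map_smul]
  exact V.smul_mem _ (hV u (hx (mem_support_iff.1 hu)))

variable {L : Type} [Field L] [Algebra κ L]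

theorem ev_E (z : Fin n → PowerSeries L) (α : Fin n →₀ ℕ) {s : ℕ} (hs : s < N) :
    aeval (fun b : Fin n × Fin N => PowerSeries.coeff (b.2 : ℕ) (z b.1)) (E κ n N α s) =
      PowerSeries.coeff s (∏ j, z j ^ α j) := by
  set ev : MvPolynomial (Fin n × Fin N) κ →+* L :=
    (aeval fun b : Fin n × Fin N => PowerSeries.coeff (b.2 : ℕ) (z b.1)).toRingHom with hev
  set q := Ideal.Quotient.mk (Ideal.span {(PowerSeries.X : PowerSeries L) ^ N}) with hq
  have h1 : ∀ j, q (PowerSeries.map ev (Z κ n N j)) = q (z j) := fun j => by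
    rw [hq, Ideal.Quotient.eq, Ideal.mem_span_singleton, PowerSeries.X_pow_dvd_iff]
    intro l hl
    rw [map_sub, PowerSeries.coeff_map, Z, PowerSeries.coeff_mk, dif_pos hl]
    simp [hev]
  have h2 : q (PowerSeries.map ev (∏ j, Z κ n N j ^ α j)) = q (∏ j, z j ^ α j) := by
    simp only [map_prod, map_pow, h1]
  rw [hq, Ideal.Quotient.eq, Ideal.mem_span_singleton, PowerSeries.X_pow_dvd_iff] at h2
  have h3 := h2 s hs
  rw [map_sub, PowerSeries.coeff_map, sub_eq_zero] at h3
  exact h3

/-- Every monomial is a combination of the monomials outside the jet ideal of the initial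
monomial. -/
theorem reduce {wt : Fin n → ℕ} {z : Fin n → PowerSeries L} {f : MvPowerSeries (Fin n) κ}
    {γ : Fin n →₀ ℕ} (hz : ∀ a, PowerSeries.constantCoeff (z a) = 0) (hf : IsInit wt f γ)
    (h0 : ∀ s < N, PowerSeries.coeff s (sub z f) = 0) (V : Submodule κ L) (d : ℕ)
    (hV : ∀ m : Fin n × Fin N →₀ ℕ, (∀ b, m b ≤ d) →
      monomial m (1 : κ) ∉ Ideal.span (Set.range fun s : Fin N => E κ n N γ s) →
      aeval (fun b : Fin n × Fin N => PowerSeries.coeff (b.2 : ℕ) (z b.1)) (monomial m (1 : κ)) ∈ V)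
    (m : Fin n × Fin N →₀ ℕ) (hm : (Finsupp.weight (w n N) m).2 = d) :
    aeval (fun b : Fin n × Fin N => PowerSeries.coeff (b.2 : ℕ) (z b.1)) (monomial m (1 : κ))
      ∈ V := by
  classical
  set ev : MvPolynomial (Fin n × Fin N) κ →ₐ[κ] L :=
    aeval fun b : Fin n × Fin N => PowerSeries.coeff (b.2 : ℕ) (z b.1) with hev
  have hnz : ∀ u : Fin n × Fin N →₀ ℕ, ev (monomial u 1) ∉ V → ∀ b, (b.2 : ℕ) = 0 → u b = 0 := by
    intro u hu b hb
    by_contra h
    apply hu
    rw [hev, aeval_monomial, Finsupp.prod_fintype _ _ (by simp),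
      Finset.prod_eq_zero (Finset.mem_univ b), mul_zero]
    · exact V.zero_mem
    · rw [hb, PowerSeries.coeff_zero_eq_constantCoeff, hz, zero_pow h]
  have hle : ∀ u : Fin n × Fin N →₀ ℕ, (Finsupp.weight (w n N) u).2 = d →
      ev (monomial u 1) ∉ V → ∀ b, u b ≤ d := by
    intro u hu hu' b
    rw [← hu, w_snd]
    exact (le_mul_snd (hnz u hu') b).trans (Finset.single_le_sum
      (f := fun b : Fin n × Fin N => u b * (b.2 : ℕ)) (fun _ _ => Nat.zero_le _) (Finset.mem_univ b))
  by_contra hc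
  have fin : {u : Fin n × Fin N →₀ ℕ |
      (Finsupp.weight (w n N) u).2 = d ∧ ev (monomial u 1) ∉ V}.Finite :=
    (Set.finite_Iic (Finsupp.equivFunOnFinite.symm fun _ => d)).subset fun u hu b =>
      hle u hu.1 hu.2 b
  obtain ⟨u, ⟨hu1, hu2⟩, hmax⟩ := Set.exists_max_image _
    (fun u => key wt (Finsupp.weight (w n N) u).1) fin ⟨m, hm, hc⟩
  apply hu2
  by_cases hJ : monomial u (1 : κ) ∈ Ideal.span (Set.range fun s : Fin N => E κ n N γ s)
  swap
  · exact hV u (hle u hu1 hu2) hJ
  have h1 := comp_mem (w n N) V ev.toLinearMap (Finsupp.weight (w n N) u) _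
    (fun s : Fin N => (γ, (s : ℕ))) (fun s => hom_E γ s) ?_ hJ
  · rwa [(isWeightedHomogeneous_monomial _ u (1 : κ) rfl).weightedHomogeneousComponent_same] at h1
  intro u' s hs
  obtain ⟨A, hA⟩ : ∃ A : Finset (Fin n →₀ ℕ), ∀ α, Finsupp.degree α ≤ (s : ℕ) → α ∈ A :=
    ⟨(Finsupp.finite_of_degree_le (s : ℕ)).toFinset, fun α h => by simpa using h⟩
  have h2 := h0 s s.2
  rw [coeff_sub hz f s (insert γ (A.erase γ)) fun α h => by simp [hA α h, eq_or_ne],
    Finset.sum_insert (Finset.notMem_erase _ _)] at h2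
  simp only [← ev_E (κ := κ) z _ s.2, ← hev] at h2
  have h3 : MvPowerSeries.coeff γ f • ev (monomial u' 1 * E κ n N γ s) =
      -∑ α ∈ A.erase γ, MvPowerSeries.coeff α f • ev (monomial u' 1 * E κ n N α s) := by
    simp only [map_mul, ← mul_smul_comm, ← Finset.mul_sum]
    rw [eq_neg_of_add_eq_zero_left h2, mul_neg]
  refine (V.smul_mem_iff hf.1).1 ?_
  change MvPowerSeries.coeff γ f • ev (monomial u' 1 * E κ n N γ s) ∈ V
  rw [h3]
  refine V.neg_mem (V.sum_mem fun α hα => ?_)
  by_cases hc0 : MvPowerSeries.coeff α f = 0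
  · rw [hc0, zero_smul]; exact V.zero_mem
  refine V.smul_mem _ (hom_mem (w n N) V ev.toLinearMap _ (fun u'' hu'' => ?_)
    ((isWeightedHomogeneous_monomial _ u' (1 : κ) rfl).mul (hom_E α s)))
  by_contra hb
  have h4 := hmax u'' ⟨by rw [hu'', ← hu1, ← hs]; rfl, hb⟩
  rw [hu'', ← hs, Prod.fst_add, Prod.fst_add, key_add, key_add, add_le_add_iff_left] at h4
  exact (Finset.mem_erase.1 hα).1 (key_injective wt (le_antisymm h4 (hf.2 α hc0)))

end JetA

open JetA in
theorem p_JET : S_JET := by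
  intro n κ L _ _ _ wt z f γ N μ S hz hf hγ h0 hS
  classical
  by_contra hc
  obtain ⟨K, hK, hKm⟩ := exists_K κ N γ μ hγ
  set x : Fin n × Fin N → L := fun b => PowerSeries.coeff (b.2 : ℕ) (z b.1) with hx
  set G : Finset (Finset (Fin n × Fin N)) :=
    Finset.univ.filter fun T => N + μ * T.card ≤ μ * (n * N) with hG
  set D : ℕ := G.card * K ^ (n * N) * (N * S.card + 1) ^ S.card with hD
  set D1 : ℕ := D * (N * S.card + 1) with hD1
  set Sm : Finset (Fin n × Fin N → ℕ) := G.biUnion fun T =>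
    Fintype.piFinset fun b => Finset.range (if b ∈ T then D1 + 1 else K) with hSm
  set W : Finset L := Sm.image fun m => ∏ b, x b ^ m b with hW
  have h1 : ∀ m : Fin n × Fin N →₀ ℕ, (Finsupp.weight (w n N) m).2 ≤ D1 →
      aeval x (monomial m (1 : κ)) ∈ Submodule.span κ (W : Set L) := by
    intro m hm
    refine reduce hz hf h0 _ _ (fun u hu hu' => Submodule.subset_span ?_) m rfl
    rw [aeval_monomial, map_one, one_mul, Finsupp.prod_fintype _ _ (by simp)]
    refine Finset.mem_coe.2 (Finset.mem_image.2 ⟨u, Finset.mem_biUnion.2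
      ⟨Finset.univ.filter fun b => K ≤ u b, ?_, Fintype.mem_piFinset.2 fun b => ?_⟩, rfl⟩)
    · exact Finset.mem_filter.2 ⟨Finset.mem_univ _, not_not.1 fun h => hu' (hKm u h)⟩
    · have := hu b
      simp only [Finset.mem_range, Finset.mem_filter, Finset.mem_univ, true_and]
      split_ifs <;> omega
  have h2 : W.card * (D1 + 1) ≤ G.card * K ^ (n * N) * (D1 + 1) ^ S.card := by
    have h3 : W.card ≤ ∑ T ∈ G, ∏ b, if b ∈ T then D1 + 1 else K := by
      refine Finset.card_image_le.trans (Finset.card_biUnion_le.trans (le_of_eq ?_))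
      simp only [Fintype.card_piFinset, Finset.card_range]
    refine (Nat.mul_le_mul_right _ h3).trans ?_
    rw [Finset.sum_mul, mul_assoc, ← smul_eq_mul]
    refine Finset.sum_le_card_nsmul _ _ _ fun T hT => ?_
    have h4 : T.card + 1 ≤ S.card := by
      have h5 := (Finset.mem_filter.1 hT).2
      exact Nat.lt_of_mul_lt_mul_left (a := μ) (by omega)
    rw [Finset.prod_ite, Finset.prod_const, Finset.prod_const, Finset.filter_mem_eq_inter,
      Finset.univ_inter, mul_comm ((D1 + 1) ^ _), mul_assoc, ← pow_succ]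
    refine Nat.mul_le_mul (Nat.pow_le_pow_right hK ?_) (Nat.pow_le_pow_right (by omega) h4)
    simpa using Finset.card_le_univ (Finset.univ.filter fun b : Fin n × Fin N => b ∉ T)
  have h3 : LinearIndependent κ fun e : S → Fin (D + 1) =>
      aeval (fun b : S => x b) (monomial (Finsupp.equivFunOnFinite.symm fun b => (e b : ℕ)) (1 : κ)) := by
    have h4 := ((basisMonomials S κ).linearIndependent.map'
      (aeval fun b : S => x b).toLinearMap (LinearMap.ker_eq_bot.2 hS)).comp
      (fun e : S → Fin (D + 1) => Finsupp.equivFunOnFinite.symm fun b => (e b : ℕ))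
      fun e e' h => funext fun b => Fin.ext (congrFun (Finsupp.equivFunOnFinite.symm.injective h) b)
    rw [coe_basisMonomials] at h4
    exact h4
  have h4 := linearIndependent_le_span_aux' _ h3 (W : Set L) (by
    rintro _ ⟨e, rfl⟩
    set m : S →₀ ℕ := Finsupp.equivFunOnFinite.symm fun b => (e b : ℕ) with hm
    have h5 := h1 (m.mapDomain Subtype.val) (by
      rw [Finsupp.weight_apply, Finsupp.sum_mapDomain_index (by simp) (by simp [add_smul]),
        Finsupp.sum_fintype _ _ (by simp), Prod.snd_sum]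
      refine (Finset.sum_le_card_nsmul _ _ (D * N) fun b _ => ?_).trans ?_
      · exact Nat.mul_le_mul (Nat.lt_succ_iff.1 (e b).2) b.1.2.2.le
      · rw [Finset.card_univ, Fintype.card_coe, smul_eq_mul, hD1]
        nlinarith)
    rw [← rename_monomial, aeval_rename] at h5
    exact h5)
  simp only [Fintype.card_fun, Fintype.card_fin, Fintype.card_coe, Finset.coe_sort_coe] at h4
  have h5 : (D1 + 1) ^ S.card ≤ (N * S.card + 1) ^ S.card * (D + 1) ^ S.card := by
    rw [← mul_pow]
    exact Nat.pow_le_pow_left (by rw [hD1]; nlinarith) _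
  have h6 : (D + 1) ^ S.card * (D1 + 1) ≤ (D + 1) ^ S.card * D := by
    calc _ ≤ W.card * (D1 + 1) := Nat.mul_le_mul_right _ h4
      _ ≤ G.card * K ^ (n * N) * ((N * S.card + 1) ^ S.card * (D + 1) ^ S.card) :=
        h2.trans (Nat.mul_le_mul_left _ h5)
      _ = _ := by rw [← mul_assoc, ← hD, mul_comm]
  have h7 := Nat.le_of_mul_le_mul_left h6 (by positivity)
  have h8 : D ≤ D1 := Nat.le_mul_of_pos_right _ (by omega)
  omega

end Pool.Agent.P.MP_6149fc_ag
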