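import Pool.Agent.P.MP_6149fc_ag.Iface

namespace Pool.Agent.P.MP_6149fc_ag

open scoped ENNReal
open MvPolynomial MeasureTheory

namespace LefA

section Const
variable {κ L : Type} [Field κ] [Field L] [Algebra κ L]

/-- The constants of a derivation. -/
def kerD (δ : Derivation κ L L) : Subfield L where
  carrier := {y | δ y = 0}
  mul_mem' {a b} ha hb := by
    simp only [Set.mem_ofPred_eq] at ha hb ⊢
    rw [Derivation.leibniz, ha, hb]; simp
  one_mem' := δ.map_one_eq_zero
  add_mem' {a b} ha hb := by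
    simp only [Set.mem_ofPred_eq] at ha hb ⊢
    rw [map_add, ha, hb, add_zero]
  zero_mem' := map_zero δ
  neg_mem' {a} ha := by
    simp only [Set.mem_ofPred_eq] at ha ⊢
    rw [map_neg, ha, neg_zero]
  inv_mem' a ha := by
    simp only [Set.mem_ofPred_eq] at ha ⊢
    rw [Derivation.leibniz_inv, ha, smul_zero]

theorem mem_kerD {δ : Derivation κ L L} {y : L} : y ∈ kerD δ ↔ δ y = 0 := Iff.rfl

/-- The derivation is linear over its constants. -/
def overK (δ : Derivation κ L L) : Derivation (kerD δ) L L :=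
  Derivation.mk'
    { toFun := δ
      map_add' := map_add δ
      map_smul' := fun c y => by
        show δ (c.1 * y) = c.1 * δ y
        rw [Derivation.leibniz, mem_kerD.1 c.2]; simp }
    fun a b => δ.leibniz a b

theorem kill_integral [CharZero L] (δ : Derivation κ L L) {y : L} (hy : IsIntegral (kerD δ) y) :
    δ y = 0 := by
  have h1 := (overK δ).map_aeval (minpoly (kerD δ) y) y
  rw [minpoly.aeval, map_zero] at h1
  have h2 : Polynomial.aeval y (Polynomial.derivative (minpoly (kerD δ) y)) ≠ 0 :=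
    (minpoly.irreducible hy).separable.aeval_derivative_ne_zero (minpoly.aeval _ _)
  exact (mul_eq_zero.1 h1.symm).resolve_left h2

theorem kill_of_val [CharZero L] (δ : Derivation κ L L) {y : L}
    (h : ∀ V : ValuationSubring L, (∀ a, δ a = 0 → a ∈ V) → y ∈ V) : δ y = 0 := by
  by_contra hy
  have : IsIntegrallyClosedIn (kerD δ).toSubring L :=
    isIntegrallyClosedIn_iff.2 ⟨Subtype.val_injective, fun {x} hx =>
      ⟨⟨x, kill_integral δ hx⟩, rfl⟩⟩
  obtain ⟨V, h1, h2⟩ := Subring.exists_le_valuationSubring_of_isIntegrallyClosedIn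
    (R := (kerD δ).toSubring) (x := y) hy
  exact h2 (h V fun a ha => h1 ha)

end Const

theorem aeval_scale {σ R C : Type} [CommRing R] [CommRing C] [Algebra R C]
    {f : MvPolynomial σ R} {d : ℕ} (hf : f.IsHomogeneous d) (u : C) (p : σ → C) :
    aeval (fun i => u * p i) f = u ^ d * aeval p f := by
  classical
  rw [f.as_sum, map_sum, map_sum, Finset.mul_sum]
  refine Finset.sum_congr rfl fun s hs => ?_
  rw [aeval_monomial, aeval_monomial, ← hf (mem_support_iff.1 hs), Finsupp.weight_apply,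
    mul_left_comm]
  congr 1
  simp only [Finsupp.prod, Finsupp.sum, mul_pow, Finset.prod_mul_distrib, smul_eq_mul,
    ← Finset.prod_pow_eq_pow_sum, Pi.one_apply, mul_one]

section Val
variable {σ : Type} [Fintype σ] {r : ℕ} {F : Fin r → MvPolynomial σ ℂ} {d : Fin r → ℕ}
  {L : Type} [Field L] [Algebra ℂ L]

/-- The finiteness of the Gauss map, in terms of valuation rings. -/
theorem mem_val (hF : ∀ s, (F s).IsHomogeneous (d s)) (hU : USmooth F) (V : ValuationSubring L)
    (hC : ∀ z : ℂ, algebraMap ℂ L z ∈ V) (P : σ → L) (j0 : σ) (hj : P j0 = 1)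
    (hP : ∀ s, aeval P (F s) = 0) (lam : Fin r → L)
    (hu : ∀ i, ∑ s, lam s * aeval P (pderiv i (F s)) ∈ V) (s0 : Fin r) (i0 : σ) :
    lam s0 * P i0 ^ (d s0 - 1) ∈ V := by
  by_contra h0
  have : Nonempty σ := ⟨j0⟩
  have : Nonempty (Fin r) := ⟨s0⟩
  obtain ⟨i1, hi1⟩ := Finite.exists_max fun i => V.valuation (P i)
  obtain ⟨s1, hs1⟩ := Finite.exists_max fun s => V.valuation (lam s * P i1 ^ (d s - 1))
  set g0 := lam s1 * P i1 ^ (d s1 - 1) with hg0
  have hP1 : P i1 ≠ 0 := by
    intro h
    have := hi1 j0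
    rw [hj, h, map_one, map_zero] at this
    exact absurd this (by simp)
  have hg1 : 1 < V.valuation g0 := by
    rw [← V.valuation_le_one_iff, not_le] at h0
    refine h0.trans_le (le_trans ?_ (hs1 s0))
    rw [map_mul, map_mul, map_pow, map_pow]
    exact mul_le_mul_right (pow_le_pow_left₀ zero_le (hi1 i0) _) _
  have hg : g0 ≠ 0 := by
    intro h
    rw [h, map_zero] at hg1
    exact absurd hg1 (by simp)
  have hdiv : ∀ a b : L, b ≠ 0 → V.valuation a ≤ V.valuation b → b⁻¹ * a ∈ V := by
    intro a b hb h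
    rw [← V.valuation_le_one_iff, map_mul, map_inv₀,
      inv_mul_le_iff₀ (zero_lt_iff.2 ((map_ne_zero _).2 hb)), mul_one]
    exact h
  let A : Subalgebra ℂ L := { V.toSubring.toSubsemiring with algebraMap_mem' := hC }
  have hA : ∀ a : A, V.valuation a.1 ≤ 1 := fun a => (V.valuation_le_one_iff _).2 a.2
  let J : Ideal A :=
    { carrier := {a | V.valuation a.1 < 1}
      add_mem' := fun {a b} ha hb => V.valuation.map_add_lt ha hb
      zero_mem' := by simp
      smul_mem' := fun c a ha => by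
        show V.valuation (c.1 * a.1) < 1
        rw [map_mul]
        exact (mul_le_of_le_one_left' (hA c)).trans_lt ha }
  let P' : σ → A := fun i => ⟨(P i1)⁻¹ * P i, hdiv _ _ hP1 (hi1 i)⟩
  let lam' : Fin r → A := fun s => ⟨g0⁻¹ * (lam s * P i1 ^ (d s - 1)), hdiv _ _ hg (hs1 s)⟩
  have hval : ∀ (f : MvPolynomial σ ℂ) (e : ℕ), f.IsHomogeneous e →
      (aeval P' f).1 = (P i1)⁻¹ ^ e * aeval P f := by
    intro f e hf
    rw [← aeval_scale hf]
    exact comp_aeval_apply P' A.val f
  have h1 := hU A J P' lam' (fun s => by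
      show V.valuation (aeval P' (F s)).1 < 1
      rw [hval _ _ (hF s), hP]; simp)
    (fun i => by
      show V.valuation (A.val (∑ s, lam' s * aeval P' (pderiv i (F s)))) < 1
      have e : A.val (∑ s, lam' s * aeval P' (pderiv i (F s))) =
          g0⁻¹ * ∑ s, lam s * aeval P (pderiv i (F s)) := by
        rw [map_sum, Finset.mul_sum]
        refine Finset.sum_congr rfl fun s _ => ?_
        show g0⁻¹ * (lam s * P i1 ^ (d s - 1)) * (aeval P' (pderiv i (F s))).1 = _
        rw [hval _ _ (hF s).pderiv, inv_pow]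
        field_simp
      rw [e, map_mul, map_inv₀, inv_mul_lt_iff₀ (zero_lt_one.trans hg1), mul_one]
      exact ((V.valuation_le_one_iff _).2 (hu i)).trans_lt hg1) s1 i1
  have h2 : lam' s1 * P' i1 = 1 := by
    apply Subtype.ext
    show g0⁻¹ * g0 * ((P i1)⁻¹ * P i1) = 1
    rw [inv_mul_cancel₀ hg, inv_mul_cancel₀ hP1, one_mul]
  rw [h2] at h1
  obtain ⟨k, hk⟩ := h1
  rw [one_pow] at hk
  have h3 : V.valuation (1 : L) < 1 := hk
  rw [map_one] at h3
  exact lt_irrefl _ h3

end Val

section Core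
variable {σ : Type} [Fintype σ] [DecidableEq σ] {r : ℕ} {F : Fin r → MvPolynomial σ ℂ}
  {d : Fin r → ℕ} {n : ℕ} {κ : Type} [Field κ] [Algebra ℂ κ] {j0 : σ} {x : σ → κ}
  (c : Chart F n j0 x) {L : Type} [Field L] [Algebra ℂ L] [Algebra κ L] [IsScalarTower ℂ κ L]

omit [Algebra ℂ L] [IsScalarTower ℂ κ L] in
theorem pt_eq (ζ : Fin n → L) (i : σ) :
    c.pt ζ 0 i = algebraMap κ L (x i) + ∑ a, ζ a * algebraMap κ L (c.vv a i) := by
  simp [Chart.pt]

/-- The Jacobian matrix in the tangent directions. -/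
noncomputable def Jv (ζ : Fin n → L) : Matrix (Fin r) (Fin n) L :=
  Matrix.of fun s a => ∑ i, aeval (c.pt ζ 0) (pderiv i (F s)) * algebraMap κ L (c.vv a i)

theorem Jv_deriv (ζ : Fin n → L) (hP : ∀ s, aeval (c.pt ζ 0) (F s) = 0) (δ : Derivation κ L L) :
    (Jv c ζ).mulVec (fun a => δ (ζ a)) = 0 := by
  funext s
  have h := deriv_aeval (δ.restrictScalars ℂ) (c.pt ζ 0) (F s)
  rw [hP, map_zero] at h
  have h2 : ∀ i, δ (c.pt ζ 0 i) = ∑ a, algebraMap κ L (c.vv a i) * δ (ζ a) := by
    intro i
    rw [pt_eq, map_add, map_sum, δ.map_algebraMap, zero_add]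
    refine Finset.sum_congr rfl fun a _ => ?_
    rw [Derivation.leibniz, δ.map_algebraMap]; simp
  simp only [Derivation.restrictScalars_apply, h2, smul_eq_mul, Finset.mul_sum] at h
  rw [Finset.sum_comm] at h
  simp only [Matrix.mulVec, dotProduct, Jv, Matrix.of_apply, Finset.sum_mul, mul_assoc]
  exact h.symm

/-- The conormal coordinates. -/
noncomputable def ell (ζ : Fin n → L) (lam : Fin r → L) (l : Fin r) : L :=
  ∑ i, (∑ s, lam s * aeval (c.pt ζ 0) (pderiv i (F s))) * algebraMap κ L (c.ww l i)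

omit [IsScalarTower ℂ κ L] in
theorem conormal (hF : ∀ s, (F s).IsHomogeneous (d s)) (ζ : Fin n → L)
    (hP : ∀ s, aeval (c.pt ζ 0) (F s) = 0) (lam : Fin r → L)
    (hl : Matrix.vecMul lam (Jv c ζ) = 0) (i' : σ) :
    ∑ s, lam s * aeval (c.pt ζ 0) (pderiv i' (F s)) =
      ∑ l, ell c ζ lam l * algebraMap κ L (aeval x (pderiv i' (F l))) := by
  set u : σ → L := fun i => ∑ s, lam s * aeval (c.pt ζ 0) (pderiv i (F s)) with hu
  have h1 : ∀ a, ∑ i, u i * algebraMap κ L (c.vv a i) = 0 := by
    intro a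
    have := congrFun hl a
    simp only [Matrix.vecMul, dotProduct, Jv, Matrix.of_apply, Finset.mul_sum] at this
    rw [Finset.sum_comm] at this
    simp only [hu, Finset.sum_mul, mul_assoc]
    exact this
  have h2 : ∑ i, u i * c.pt ζ 0 i = 0 := by
    simp only [hu, Finset.sum_mul]
    rw [Finset.sum_comm]
    refine Finset.sum_eq_zero fun s _ => ?_
    have := congrArg (aeval (c.pt ζ 0)) (hF s).sum_X_mul_pderiv
    rw [map_nsmul, hP, smul_zero, map_sum] at this
    simp only [map_mul, aeval_X] at this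
    simp only [mul_assoc, ← Finset.mul_sum]
    simp only [mul_comm _ (c.pt ζ 0 _), this, mul_zero]
  have h3 : ∑ i, u i * algebraMap κ L (x i) = 0 := by
    simp only [pt_eq, mul_add, Finset.sum_add_distrib, Finset.mul_sum] at h2
    rw [Finset.sum_comm] at h2
    simp only [mul_left_comm (u _), ← Finset.mul_sum, h1, mul_zero, Finset.sum_const_zero,
      add_zero] at h2
    exact h2
  have h4 : u i' = ∑ i, u i * algebraMap κ L (if i = i' then 1 else 0) := by
    simp [apply_ite (algebraMap κ L)]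
  show u i' = ∑ l, (∑ i, u i * algebraMap κ L (c.ww l i)) * _
  have h5 : ∀ i, algebraMap κ L (if i = i' then 1 else 0) =
      algebraMap κ L (x i) * algebraMap κ L (if i' = j0 then 1 else 0) +
      ∑ a, algebraMap κ L (c.vv a i) * algebraMap κ L (c.cz a i') +
      ∑ l, algebraMap κ L (c.ww l i) * algebraMap κ L (aeval x (pderiv i' (F l))) := fun i => by
    rw [c.decomp i i']
    simp only [map_add, map_mul, map_sum]
  rw [h4, Finset.sum_congr rfl fun i _ => by rw [h5 i]]
  simp only [mul_add, Finset.sum_add_distrib, Finset.mul_sum, ← mul_assoc]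
  rw [← Finset.sum_mul, h3, zero_mul, zero_add, Finset.sum_comm]
  simp only [← Finset.sum_mul, h1, zero_mul, Finset.sum_const_zero, zero_add]
  rw [Finset.sum_comm]
  simp only [Finset.sum_mul]

theorem core (hd : ∀ s, 2 ≤ d s) (hF : ∀ s, (F s).IsHomogeneous (d s)) (hU : USmooth F)
    (ζ : Fin n → L) (hP : ∀ s, aeval (c.pt ζ 0) (F s) = 0) (lam : Fin r → L) (hl0 : lam ≠ 0)
    (hl : Matrix.vecMul lam (Jv c ζ) = 0) (δ : Derivation κ L L)
    (hδ : ∀ l, δ (ell c ζ lam l) = 0) : (∀ a, δ (ζ a) = 0) ∧ ∀ s, δ (lam s) = 0 := by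
  have : CharZero L := charZero_of_injective_algebraMap (algebraMap ℂ L).injective
  have hj : c.pt ζ 0 j0 = 1 := by simp [pt_eq, c.x_j0, c.vv_j0]
  have h1 : ∀ s i, δ (lam s * c.pt ζ 0 i ^ (d s - 1)) = 0 := by
    intro s i
    refine kill_of_val δ fun V hV => mem_val hF hU V (fun z => hV _ ?_) _ j0 hj hP lam
      (fun i' => hV _ ?_) s i
    · rw [IsScalarTower.algebraMap_apply ℂ κ L, δ.map_algebraMap]
    · rw [conormal c hF ζ hP lam hl, map_sum]
      refine Finset.sum_eq_zero fun l _ => ?_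
      rw [Derivation.leibniz, δ.map_algebraMap, hδ]; simp
  have h2 : ∀ s, δ (lam s) = 0 := fun s => by simpa [hj] using h1 s j0
  obtain ⟨s, hs⟩ := Function.ne_iff.1 hl0
  have h3 : ∀ i, δ (c.pt ζ 0 i) = 0 := by
    intro i
    have h := h1 s i
    rw [Derivation.leibniz, h2, Derivation.leibniz_pow, smul_zero, add_zero, smul_eq_mul,
      nsmul_eq_mul, smul_eq_mul] at h
    have hne : ((d s - 1 : ℕ) : L) ≠ 0 := Nat.cast_ne_zero.2 (by have := hd s; omega)
    rcases mul_eq_zero.1 ((mul_eq_zero.1 ((mul_eq_zero.1 h).resolve_left hs)).resolve_left hne)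
      with h | h
    · rw [eq_zero_of_pow_eq_zero h, map_zero]
    · exact h
  refine ⟨fun a => ?_, h2⟩
  have h4 : ζ a = ∑ i, algebraMap κ L (c.cz a i) * c.pt ζ 0 i := by
    simp only [pt_eq, mul_add, Finset.sum_add_distrib, Finset.mul_sum]
    rw [Finset.sum_comm]
    simp only [mul_left_comm _ (ζ _), ← Finset.mul_sum, ← map_mul, ← map_sum, c.cz_x, c.cz_vv]
    simp [apply_ite (algebraMap κ L)]
  rw [h4, map_sum]
  refine Finset.sum_eq_zero fun i _ => ?_
  rw [Derivation.leibniz, δ.map_algebraMap, h3]; simp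

theorem count (hDER : S_DER) (hd : ∀ s, 2 ≤ d s) (hF : ∀ s, (F s).IsHomogeneous (d s))
    (hU : USmooth F) {Ω : Type} [Field Ω] [Algebra ℂ Ω] [Algebra κ Ω] [IsScalarTower ℂ κ Ω]
    [Algebra Ω L] [IsScalarTower κ Ω L] [IsScalarTower ℂ Ω L]
    (ζ : Fin n → Ω) (hP : ∀ s, aeval (c.pt ζ 0) (F s) = 0) (S : Finset (Fin n))
    (hS : AlgebraicIndependent κ (fun a : S => ζ a)) {ρ : ℕ} (hρ : 0 < ρ) (τ : Fin ρ → L)
    (hτ : AlgebraicIndependent Ω τ) (k : Fin ρ → Fin r → Ω) (hk : LinearIndependent Ω k)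
    (hk0 : ∀ t, Matrix.vecMul (k t) (Jv c ζ) = 0) : S.card + ρ ≤ r := by
  have : CharZero κ := charZero_of_injective_algebraMap (algebraMap ℂ κ).injective
  have : CharZero Ω := charZero_of_injective_algebraMap (algebraMap ℂ Ω).injective
  set ζ' : Fin n → L := fun a => algebraMap Ω L (ζ a) with hζ'
  have hpt : c.pt ζ' 0 = algebraMap Ω L ∘ c.pt ζ 0 := by
    funext i
    simp only [Function.comp_apply, pt_eq, hζ', map_add, map_sum, map_mul,
      ← IsScalarTower.algebraMap_apply]
  have hP' : ∀ s, aeval (c.pt ζ' 0) (F s) = 0 := fun s => by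
    rw [hpt, aeval_algebraMap_apply, hP, map_zero]
  have hJ : ∀ s a, Jv c ζ' s a = algebraMap Ω L (Jv c ζ s a) := fun s a => by
    simp only [Jv, Matrix.of_apply, hpt, aeval_algebraMap_apply, map_sum, map_mul,
      ← IsScalarTower.algebraMap_apply]
  have hS' : AlgebraicIndependent κ (fun a : S => ζ' a) :=
    hS.map' (f := IsScalarTower.toAlgHom κ Ω L) (algebraMap Ω L).injective
  have hk' : LinearIndependent L fun t => algebraMap Ω L ∘ k t :=
    linearIndependent_algebraMap_comp_iff.2 hk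
  rw [Fintype.linearIndependent_iff] at hk'
  set lam : Fin r → L := ∑ t, τ t • (algebraMap Ω L ∘ k t) with hlam
  have hl0 : lam ≠ 0 := fun h => hτ.ne_zero ⟨0, hρ⟩ (hk' τ h _)
  have hl : Matrix.vecMul lam (Jv c ζ') = 0 := by
    rw [hlam, Matrix.sum_vecMul]
    refine Finset.sum_eq_zero fun t _ => ?_
    rw [Matrix.smul_vecMul]
    have : Matrix.vecMul (algebraMap Ω L ∘ k t) (Jv c ζ') = 0 := by
      funext a
      have := congrArg (algebraMap Ω L) (congrFun (hk0 t) a)
      simpa only [Matrix.vecMul, dotProduct, map_sum, map_mul, hJ, Function.comp_apply,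
        Pi.zero_apply, map_zero] using this
    rw [this, smul_zero]
  choose d1 hd1 using fun b : S => hDER κ L S _ hS' (Pi.single b 1)
  choose d2 hd2 using fun t : Fin ρ => hDER Ω L _ _ hτ (Pi.single t 1)
  let δ : S ⊕ Fin ρ → Derivation κ L L := Sum.elim d1 fun t => (d2 t).restrictScalars κ
  have hli : LinearIndependent L fun j l => δ j (ell c ζ' lam l) := by
    rw [Fintype.linearIndependent_iff]
    intro g hg
    have hev : ∀ y, (∑ j, g j • δ j) y = ∑ b, g (.inl b) * d1 b y + ∑ t, g (.inr t) * d2 t y := by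
      intro y
      have := congrFun (map_sum (Derivation.coeFnAddMonoidHom (R := κ) (A := L) (M := L))
        (fun j => g j • δ j) Finset.univ) y
      rw [Finset.sum_apply] at this
      exact this.trans (Fintype.sum_sum_type _)
    obtain ⟨h1, h2⟩ := core c hd hF hU ζ' hP' lam hl0 hl (∑ j, g j • δ j) fun l => by
      have := congrFun hg l
      rw [Finset.sum_apply, Fintype.sum_sum_type] at this
      rw [hev]
      exact this
    have h3 : ∀ b, g (.inl b) = 0 := fun b => by
      have := h1 b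
      rw [hev] at this
      simp only [hd1] at this
      simpa [hζ', Pi.single_apply] using this
    have h4 : ∀ t, g (.inr t) = 0 := by
      refine hk' (fun t => g (.inr t)) (funext fun s => ?_)
      have := h2 s
      rw [hev] at this
      simp only [h3, zero_mul, Finset.sum_const_zero, zero_add, hlam, Finset.sum_apply,
        Pi.smul_apply, Function.comp_apply, map_sum, smul_eq_mul, Derivation.leibniz, hd2,
        Derivation.map_algebraMap, mul_zero] at this
      simpa [Pi.single_apply] using this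
    rintro (b | t)
    exacts [h3 b, h4 t]
  simpa using hli.fintype_card_le_finrank

end Core

end LefA

theorem p_LEF (hDER : S_DER) : S_LEF := by
  intro σ _ _ r F d n κ _ _ j0 x c hd hF hU Ω _ _ _ _ ζ hP S hS
  have : CharZero κ := charZero_of_injective_algebraMap (algebraMap ℂ κ).injective
  by_contra hlt
  rw [not_le, max_lt_iff] at hlt
  choose d1 hd1 using fun b : S => hDER κ Ω S _ hS (Pi.single b 1)
  let v : S → LinearMap.ker (LefA.Jv c ζ).mulVecLin :=
    fun b => ⟨fun a => d1 b (ζ a), LefA.Jv_deriv c ζ hP (d1 b)⟩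
  have hv : LinearIndependent Ω v := by
    rw [Fintype.linearIndependent_iff]
    intro g hg b
    have := congrFun (congrArg Subtype.val hg) b
    simpa [v, hd1, Pi.single_apply] using this
  have h1 := hv.fintype_card_le_finrank
  have h2 := (LefA.Jv c ζ).mulVecLin.finrank_range_add_finrank_ker
  have h3 := (LefA.Jv c ζ).transpose.mulVecLin.finrank_range_add_finrank_ker
  have h4 : Module.finrank Ω (LinearMap.range (LefA.Jv c ζ).transpose.mulVecLin) =
      Module.finrank Ω (LinearMap.range (LefA.Jv c ζ).mulVecLin) := (LefA.Jv c ζ).rank_transpose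
  simp only [Module.finrank_fintype_fun_eq_card, Fintype.card_fin, Fintype.card_coe] at h1 h2 h3
  set K := LinearMap.ker (LefA.Jv c ζ).transpose.mulVecLin with hK
  let bK := Module.finBasis Ω K
  let L := FractionRing (MvPolynomial (Fin (Module.finrank Ω K)) Ω)
  have hτ := (MvPolynomial.algebraicIndependent_X (Fin (Module.finrank Ω K)) Ω).map'
    (f := IsScalarTower.toAlgHom Ω (MvPolynomial (Fin (Module.finrank Ω K)) Ω) L)
    (IsFractionRing.injective (MvPolynomial (Fin (Module.finrank Ω K)) Ω) L)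
  have h5 := LefA.count (L := L) c hDER hd hF hU ζ hP S hS (by omega) _ hτ (fun t => (bK t).1)
    (bK.linearIndependent.map' K.subtype K.ker_subtype) fun t => by
      rw [← Matrix.mulVec_transpose]
      exact (bK t).2
  omega

end Pool.Agent.P.MP_6149fc_ag
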