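import Pool.Agent.P.MP_6149fc_ag.Iface

namespace Pool.Agent.P.MP_6149fc_ag

open scoped ENNReal
open MvPolynomial MeasureTheory

namespace LiftA

/-- Lifting along a surjection with complete kernel. -/
theorem lift_surj (hFSM : S_FSM) {κ ι C C' : Type} [Field κ] [Algebra ℂ κ] [CommRing C]
    [Algebra ℂ C] [CommRing C'] [Algebra ℂ C'] (x : ι → κ) (hx : IsTranscendenceBasis ℂ x)
    (p : C →ₐ[ℂ] C') (hp : Function.Surjective p) (hc : IsAdicComplete (RingHom.ker p) C)
    (f : κ →ₐ[ℂ] C') (y : ι → C) (hy : ∀ i, p (y i) = f (x i)) :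
    ∃ g : κ →ₐ[ℂ] C, (∀ a, p (g a) = f a) ∧ ∀ i, g (x i) = y i := by
  let e := Ideal.quotientKerAlgEquivOfSurjective hp
  have he : ∀ c, e (Ideal.Quotient.mk _ c) = p c := fun _ => rfl
  obtain ⟨g, h1, h2⟩ := hFSM ℂ κ ι C x (RingHom.ker p) (e.symm.toAlgHom.comp f) y hx (Or.inr hc)
    fun i => e.injective (by rw [he, hy]; simp)
  exact ⟨g, fun a => by rw [← he, h1]; simp, h2⟩

/-- The construction when the residue map has a section. -/
theorem core {C κ S : Type} [CommRing C] [Algebra ℂ C] [Field κ] [Algebra ℂ κ] [CommRing S]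
    [Algebra ℂ S] (J : Ideal S) [IsAdicComplete J S] (r : C →ₐ[ℂ] κ) (π : C) (σ : κ →ₐ[ℂ] C)
    (τ : κ →ₐ[ℂ] S) (w : S) (hw : w ∈ J) (hσ : ∀ a, r (σ a) = a) (hker : ∀ b, r b = 0 ↔ π ∣ b)
    (hu : ∀ b, r b ≠ 0 → IsUnit b) (hn : ∀ e N : ℕ, π ^ N ∣ π ^ e → N ≤ e) :
    ∃ φ : C →ₐ[ℂ] S, φ π = w ∧ ∀ a, φ (σ a) = τ a := by
  let ρ : Polynomial κ →ₐ[ℂ] C := Polynomial.eval₂AlgHom σ π fun _ => Commute.all _ _
  let θ : Polynomial κ →ₐ[ℂ] S := Polynomial.eval₂AlgHom τ w fun _ => Commute.all _ _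
  have ρX : ρ Polynomial.X = π := Polynomial.eval₂_X _ _
  have ρC : ∀ a, ρ (Polynomial.C a) = σ a := fun a => Polynomial.eval₂_C _ _
  have θX : θ Polynomial.X = w := Polynomial.eval₂_X _ _
  have θC : ∀ a, θ (Polynomial.C a) = τ a := fun a => Polynomial.eval₂_C _ _
  have hr0 : r π = 0 := (hker π).2 dvd_rfl
  have hsur : ∀ (N : ℕ) (b : C), ∃ P, π ^ N ∣ ρ P - b := by
    intro N
    induction N with
    | zero => exact fun b => ⟨0, by simp⟩
    | succ N ih =>
      intro b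
      obtain ⟨b', hb'⟩ := (hker (b - σ (r b))).1 (by rw [map_sub, hσ, sub_self])
      obtain ⟨P, hP⟩ := ih b'
      refine ⟨Polynomial.C (r b) + Polynomial.X * P, ?_⟩
      have : ρ (Polynomial.C (r b) + Polynomial.X * P) - b = π * (ρ P - b') := by
        rw [map_add, map_mul, ρX, ρC]
        linear_combination -hb'
      rw [this, pow_succ']
      exact mul_dvd_mul_left π hP
  have hk : ∀ (N : ℕ) (P : Polynomial κ), π ^ N ∣ ρ P → θ P ∈ J ^ N := by
    intro N P h
    by_cases hP : P = 0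
    · rw [hP, map_zero]; exact zero_mem _
    obtain ⟨Q, h1, h2⟩ := Polynomial.exists_eq_pow_rootMultiplicity_mul_and_not_dvd P hP 0
    rw [map_zero, sub_zero] at h1 h2
    rw [Polynomial.X_dvd_iff] at h2
    have h3 : r (ρ Q) ≠ 0 := by
      rw [← Polynomial.X_mul_divX_add Q, map_add, map_mul, ρX, ρC, map_add, map_mul, hr0, hσ,
        zero_mul, zero_add]
      exact h2
    rw [h1, map_mul, map_pow, ρX, (hu _ h3).dvd_mul_right] at h
    rw [h1, map_mul, map_pow, θX]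
    exact Ideal.mul_mem_right _ _ (Ideal.pow_le_pow_right (hn _ _ h) (Ideal.pow_mem_pow hw _))
  let ρN : ∀ N : ℕ, Polynomial κ →ₐ[ℂ] C ⧸ Ideal.span {π ^ N} := fun N =>
    (Ideal.Quotient.mkₐ ℂ _).comp ρ
  have hρN : ∀ N, Function.Surjective (ρN N) := by
    intro N c
    obtain ⟨b, rfl⟩ := Ideal.Quotient.mk_surjective c
    obtain ⟨P, hP⟩ := hsur N b
    exact ⟨P, Ideal.Quotient.eq.2 (Ideal.mem_span_singleton.2 hP)⟩
  let ψ : ∀ N : ℕ, C →ₐ[ℂ] S ⧸ J ^ N := fun N =>
    (AlgHom.liftOfSurjective (ρN N) (hρN N) ((Ideal.Quotient.mkₐ ℂ _).comp θ) fun P hP =>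
      Ideal.Quotient.eq_zero_iff_mem.2 (hk N P (Ideal.mem_span_singleton.1
        (Ideal.Quotient.eq_zero_iff_mem.1 hP)))).comp (Ideal.Quotient.mkₐ ℂ _)
  have hψ : ∀ (N : ℕ) (b : C) (P : Polynomial κ), π ^ N ∣ ρ P - b →
      ψ N b = Ideal.Quotient.mk _ (θ P) := by
    intro N b P h
    have h1 : Ideal.Quotient.mkₐ ℂ (Ideal.span {π ^ N}) b = ρN N P :=
      (Ideal.Quotient.eq.2 (Ideal.mem_span_singleton.2 h)).symm
    simp only [ψ, AlgHom.comp_apply]
    rw [h1, AlgHom.liftOfSurjective_apply]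
    rfl
  have hf : ∀ {m n : ℕ} (hle : m ≤ n),
      (Ideal.Quotient.factorₐ ℂ (Ideal.pow_le_pow_right hle)).comp (ψ n) = ψ m := by
    intro m n hle
    ext b
    obtain ⟨P, hP⟩ := hsur n b
    rw [AlgHom.comp_apply, hψ n b P hP, hψ m b P ((pow_dvd_pow π hle).trans hP)]
    rfl
  have key : ∀ P, IsAdicComplete.liftAlgHom J ψ hf (ρ P) = θ P := by
    have : (IsAdicComplete.liftAlgHom J ψ hf).comp ρ = θ := by
      refine IsAdicComplete.algHom_ext J fun n => AlgHom.ext fun P => ?_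
      exact (IsAdicComplete.mk_liftAlgHom J ψ hf n (ρ P)).trans (hψ n _ P (by simp))
    exact fun P => AlgHom.congr_fun this P
  exact ⟨IsAdicComplete.liftAlgHom J ψ hf, by rw [← ρX, key, θX],
    fun a => by rw [← ρC, key, θC]⟩

/-- The constant coefficient as an algebra map. -/
noncomputable def cc (L : Type) [Field L] [Algebra ℂ L] : PowerSeries L →ₐ[ℂ] L where
  toRingHom := PowerSeries.constantCoeff
  commutes' c := by simp [PowerSeries.algebraMap_apply]

end LiftA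

open LiftA in
theorem p_LIFT (hFSM : S_FSM) : S_LIFT := by
  intro m O κ L _ _ _ _ _ _ res π u ι pπ pu hsur hker _ hn hb hπ hu
  have hcc : RingHom.ker (cc L) = Ideal.span {PowerSeries.X} := by
    ext f
    rw [Ideal.mem_span_singleton, PowerSeries.X_dvd_iff]
    rfl
  obtain ⟨τ, hτ1, hτ2⟩ := lift_surj hFSM _ hb (cc L) (fun a => ⟨PowerSeries.C a, by simp [cc]⟩)
    (by rw [hcc]; infer_instance) ι pu hu
  have hI : RingHom.ker res = Ideal.span {π} := by
    ext b
    rw [Ideal.mem_span_singleton, RingHom.mem_ker, hker]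
  have hfg : (RingHom.ker res).FG := hI ▸ Submodule.fg_span_singleton π
  let C := AdicCompletion (RingHom.ker res) O
  let r : C →ₐ[ℂ] κ := AdicCompletion.kerProj hsur
  let a : O →ₐ[ℂ] C := IsScalarTower.toAlgHom ℂ O C
  have hra : ∀ b, r (a b) = res b := fun _ => rfl
  have hkr : RingHom.ker r = (RingHom.ker res).map (algebraMap O C) := by
    rw [← AdicCompletion.ker_evalOneₐ_eq_map _ hfg]
    ext x
    exact map_eq_zero_iff _ (Ideal.quotientKerAlgEquivOfSurjective hsur).injective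
  have hcomp : IsAdicComplete (RingHom.ker r) C := by
    rw [hkr, IsAdicComplete.map_algebraMap_iff]
    exact AdicCompletion.isAdicComplete hfg
  have hkπ : ∀ b, r b = 0 ↔ a π ∣ b := by
    intro b
    rw [← RingHom.mem_ker, hkr, ← Ideal.mem_span_singleton]
    have : (RingHom.ker res).map (algebraMap O C) = Ideal.span {a π} :=
      (congrArg (Ideal.map (algebraMap O C)) hI).trans (by
        rw [Ideal.map_span, Set.image_singleton]; rfl)
    rw [this]
  obtain ⟨σ, hσ1, hσ2⟩ := lift_surj hFSM _ hb r (AdicCompletion.kerProj_surjective hsur) hcomp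
    (AlgHom.id ℂ κ) (fun i => a (u i)) fun i => hra _
  have hσ : ∀ c, r (σ c) = c := hσ1
  obtain ⟨φ, h1, h2⟩ := core (Ideal.span {PowerSeries.X}) r (a π) σ τ pπ
    (Ideal.mem_span_singleton.2 (PowerSeries.X_dvd_iff.2 hπ)) hσ hkπ (fun b hb0 => by
      have h3 : b - σ (r b) ∈ RingHom.ker r := by rw [RingHom.mem_ker, map_sub, hσ, sub_self]
      have h4 := Ideal.mem_jacobson_bot.1 (IsAdicComplete.le_jacobson_bot _ h3) (σ (r b)⁻¹)
      have h5 : b * σ (r b)⁻¹ = (b - σ (r b)) * σ (r b)⁻¹ + 1 := by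
        rw [sub_mul, ← map_mul, mul_inv_cancel₀ hb0, map_one, sub_add_cancel]
      exact isUnit_of_mul_isUnit_left (h5 ▸ h4)) (fun e N h => by
      obtain ⟨c, hc⟩ := h
      have h3 := congrArg (AdicCompletion.evalₐ (RingHom.ker res) N) hc
      have h4 : ∀ k : ℕ, AdicCompletion.evalₐ (RingHom.ker res) N (a π ^ k) =
          Ideal.Quotient.mk _ (π ^ k) := fun k => by
        rw [← map_pow]; exact AdicCompletion.evalₐ_of _ N _
      have h5 : π ^ N ∈ RingHom.ker res ^ N :=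
        Ideal.pow_mem_pow ((hker π).2 dvd_rfl) N
      rw [map_mul, h4, h4, Ideal.Quotient.eq_zero_iff_mem.2 h5, zero_mul,
        Ideal.Quotient.eq_zero_iff_mem, hI, Ideal.span_singleton_pow,
        Ideal.mem_span_singleton] at h3
      exact hn e N h3)
  refine ⟨φ.comp a, h1, fun i => ?_, fun b => ?_⟩
  · rw [AlgHom.comp_apply, ← hσ2, h2, hτ2]
  · obtain ⟨y, hy⟩ := (hkπ (a b - σ (res b))).1 (by rw [map_sub, hra, hσ, sub_self])
    rw [AlgHom.comp_apply, sub_eq_iff_eq_add.1 hy, map_add, map_mul, h1, h2, map_add, map_mul, hπ,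
      zero_mul, zero_add]
    exact hτ1 _

end Pool.Agent.P.MP_6149fc_ag
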