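import Pool.Agent.P.MP_6149fc_ag.Iface

namespace Pool.Agent.P.MP_6149fc_ag

open scoped ENNReal
open MvPolynomial MeasureTheory

namespace LogdB

theorem alt_eq {K M N ι : Type} [Field K] [AddCommGroup M] [Module K M] [AddCommGroup N]
    [Module K N] [Fintype ι] [DecidableEq ι] (e : Module.Basis ι K M) (f : M [⋀^ι]→ₗ[K] N)
    (x : ι → M) : f x = e.det x • f e := by
  have h : f = e.det.smulRight (f e) := by
    refine Module.Basis.ext_alternating e fun i h => ?_
    let σ : Equiv.Perm ι := Equiv.ofBijective i (Finite.injective_iff_bijective.1 h)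
    change f (e ∘ σ) = (e.det.smulRight (f e)) (e ∘ σ)
    rw [AlternatingMap.map_perm, AlternatingMap.map_perm, AlternatingMap.smulRight_apply,
      Module.Basis.det_self, one_smul]
  conv_lhs => rw [h]
  rfl

theorem span_D {K σ : Type} [Field K] [Algebra ℂ K] (ξ : σ → K)
    (hξ : IntermediateField.adjoin ℂ (Set.range ξ) = ⊤) :
    Submodule.span K (Set.range fun i => KaehlerDifferential.D ℂ K (ξ i)) = ⊤ := by
  rw [eq_top_iff, ← KaehlerDifferential.span_range_derivation, Submodule.span_le]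
  rintro _ ⟨b, rfl⟩
  have hb : b ∈ IntermediateField.adjoin ℂ (Set.range ξ) := by rw [hξ]; trivial
  induction hb using IntermediateField.adjoin_induction with
  | mem x hx =>
    obtain ⟨i, rfl⟩ := hx
    exact Submodule.subset_span ⟨i, rfl⟩
  | algebraMap x =>
    rw [Derivation.map_algebraMap]
    exact Submodule.zero_mem _
  | add x y _ _ hx hy =>
    rw [map_add]
    exact Submodule.add_mem _ hx hy
  | inv x _ hx =>
    rw [Derivation.leibniz_inv]
    exact Submodule.smul_mem _ _ hx
  | mul x y _ _ hx hy =>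
    rw [Derivation.leibniz]
    exact Submodule.add_mem _ (Submodule.smul_mem _ _ hy) (Submodule.smul_mem _ _ hx)

variable {m : ℕ} {K : Type} [Field K] [Algebra ℂ K] {v : AddValuation K (WithTop ℤ)} {κ : Type}
  [Field κ] [Algebra ℂ κ]

theorem exists_basis (D : VD m v κ) :
    ∃ B : Module.Basis (Fin (m + 1)) K (KaehlerDifferential ℂ K),
      (∀ a, B a = KaehlerDifferential.D ℂ K (D.w a)) ∧
      ∀ b : Fin (m + 1) → K, B.det (fun i => KaehlerDifferential.D ℂ K (b i)) =
        Matrix.det (Matrix.of fun i a => D.pd a (b i)) := by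
  have hli : LinearIndependent K fun a : Fin (m + 1) => KaehlerDifferential.D ℂ K (D.w a) := by
    rw [Fintype.linearIndependent_iff]
    intro g hg a
    have := congrArg (D.pd a).liftKaehlerDifferential hg
    simp only [map_sum, map_smul, Derivation.liftKaehlerDifferential_comp_D, D.dual, map_zero,
      smul_eq_mul, mul_ite, mul_one, mul_zero, Finset.sum_ite_eq, Finset.mem_univ, if_true] at this
    exact this
  have hsp : ⊤ ≤ Submodule.span K
      (Set.range fun a : Fin (m + 1) => KaehlerDifferential.D ℂ K (D.w a)) := by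
    rw [← KaehlerDifferential.span_range_derivation, Submodule.span_le]
    rintro _ ⟨b, rfl⟩
    rw [D.span b]
    exact Submodule.sum_mem _ fun a _ => Submodule.smul_mem _ _ (Submodule.subset_span ⟨a, rfl⟩)
  have hB : ∀ a, Module.Basis.mk hli hsp a = KaehlerDifferential.D ℂ K (D.w a) := fun a =>
    Module.Basis.mk_apply hli hsp a
  refine ⟨Module.Basis.mk hli hsp, hB, fun b => ?_⟩
  rw [Module.Basis.det_apply, ← Matrix.det_transpose]
  congr 1
  ext i a
  rw [Matrix.transpose_apply, Module.Basis.toMatrix_apply, Matrix.of_apply, D.span (b i)]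
  have hs : ∑ c, D.pd c (b i) • KaehlerDifferential.D ℂ K (D.w c) =
      ∑ c, D.pd c (b i) • Module.Basis.mk hli hsp c :=
    Finset.sum_congr rfl fun c _ => by rw [hB]
  rw [hs, Module.Basis.repr_sum_self]

theorem det_lpd (D : VD m v κ) (b : Fin (m + 1) → K) :
    Matrix.det (Matrix.of fun i a => D.lpd a (b i)) =
      (D.w 0 : K) * Matrix.det (Matrix.of fun i a => D.pd a (b i)) := by
  have := Matrix.det_mul_row (fun a : Fin (m + 1) => if a = 0 then (D.w 0 : K) else 1)
    (Matrix.of fun i a => D.pd a (b i))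
  rw [Finset.prod_ite_eq' Finset.univ (0 : Fin (m + 1)) (fun _ => (D.w 0 : K)),
    if_pos (Finset.mem_univ _)] at this
  exact this

theorem det_mem (D : VD m v κ) (hI : ∀ b ∈ D.O, ∀ a, D.lpd a b ∈ D.O) (b : Fin (m + 1) → K)
    (hb : ∀ i, b i ∈ D.O) : Matrix.det (Matrix.of fun i a => D.lpd a (b i)) ∈ D.O := by
  rw [Matrix.det_apply']
  refine Subalgebra.sum_mem _ fun s _ => Subalgebra.mul_mem _ (intCast_mem _ _) ?_
  exact Subalgebra.prod_mem _ fun i _ => hI _ (hb _) _

omit [Algebra ℂ K] in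
theorem div_mem (c e : K) (k : ℤ) (he : v e = (k : WithTop ℤ)) (hc : (k : WithTop ℤ) ≤ v c) :
    0 ≤ v (c / e) := by
  have he0 : e ≠ 0 := by
    rw [← v.ne_top_iff, he]
    exact WithTop.coe_ne_top
  have h : v c = v (c / e) + k := by
    rw [← he, ← v.map_mul, div_mul_cancel₀ _ he0]
  rw [h] at hc
  generalize v (c / e) = x at hc
  induction x using WithTop.recTopCoe with
  | top => exact le_top
  | coe x =>
    rw [← WithTop.coe_add, WithTop.coe_le_coe] at hc
    rw [← WithTop.coe_zero, WithTop.coe_le_coe]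
    omega

theorem nonempty_set (D : VD m v κ) {σ : Type} (ξ : σ → K) (hO : ∀ i, ξ i ∈ D.O)
    (hξ : IntermediateField.adjoin ℂ (Set.range ξ) = ⊤)
    (hI : ∀ b ∈ D.O, ∀ a, D.lpd a b ∈ D.O) :
    {k : ℕ | ∀ c : K, ((k : ℤ) : WithTop ℤ) ≤ v c →
      ∀ ω ∈ topForms (m + 1) v (KaehlerDifferential.D ℂ K) {b | 0 ≤ v b},
        c • ω ∈ topForms (m + 1) v (KaehlerDifferential.D ℂ K)
          (Algebra.adjoin ℂ (Set.range ξ) : Subalgebra ℂ K)}.Nonempty := by
  obtain ⟨B, hB, hdet⟩ := exists_basis D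
  have hex : ∃ j : Fin (m + 1) → σ,
      Matrix.det (Matrix.of fun i a => D.pd a (ξ (j i))) ≠ 0 := by
    by_contra hcon
    push Not at hcon
    have h0 : exteriorPower.alternatingMapLinearEquiv B.det = 0 := by
      refine LinearMap.ext_on (exteriorPower.ιMulti_span_of_span K (m + 1) _ (span_D ξ hξ)) ?_
      rintro _ ⟨x, hx, rfl⟩
      choose j hj using fun i => hx (Set.mem_range_self (f := x) i)
      have : x = fun i => KaehlerDifferential.D ℂ K (ξ (j i)) := funext fun i => (hj i).symm
      rw [exteriorPower.alternatingMapLinearEquiv_apply_ιMulti, this, hdet, hcon]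
      rfl
    have h1 := exteriorPower.alternatingMapLinearEquiv_apply_ιMulti B.det B
    rw [h0, Module.Basis.det_self] at h1
    exact zero_ne_one h1
  obtain ⟨j, hj⟩ := hex
  have hw : (D.w 0 : K) ≠ 0 := by
    rw [← v.ne_top_iff, D.unif]
    exact WithTop.coe_ne_top
  have he := (D.mem _).1 (det_mem D hI (fun i => ξ (j i)) fun i => hO _)
  rw [det_lpd] at he
  obtain ⟨k, hk⟩ : ∃ k : ℕ, v ((D.w 0 : K) * Matrix.det (Matrix.of fun i a => D.pd a (ξ (j i)))) =
      ((k : ℤ) : WithTop ℤ) := by
    obtain ⟨z, hz⟩ := WithTop.ne_top_iff_exists.1 (v.ne_top_iff.2 (mul_ne_zero hw hj))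
    rw [← hz, ← WithTop.coe_zero, WithTop.coe_le_coe] at he
    exact ⟨z.toNat, by rw [← hz, Int.toNat_of_nonneg he]⟩
  refine ⟨k, fun c hc ω hω => ?_⟩
  induction hω using AddSubgroup.closure_induction with
  | mem x hx =>
    obtain ⟨c', a, hc', ha, rfl⟩ := hx
    have ha' := (D.mem _).1 (det_mem D hI a fun i => (D.mem _).2 (ha i))
    rw [det_lpd] at ha'
    refine AddSubgroup.subset_closure ⟨c / ((D.w 0 : K) *
      Matrix.det (Matrix.of fun i a => D.pd a (ξ (j i)))) * c' * ((D.w 0 : K) *
      Matrix.det (Matrix.of fun i b => D.pd b (a i))), fun i => ξ (j i), ?_,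
      fun i => Algebra.subset_adjoin ⟨j i, rfl⟩, ?_⟩
    · rw [v.map_mul, v.map_mul]
      exact add_nonneg (add_nonneg (div_mem _ _ _ hk hc) hc') ha'
    · rw [alt_eq B (ExteriorAlgebra.ιMulti K (m + 1)) fun i => KaehlerDifferential.D ℂ K (a i),
        alt_eq B (ExteriorAlgebra.ιMulti K (m + 1)) fun i => KaehlerDifferential.D ℂ K (ξ (j i)),
        hdet, hdet, smul_smul, smul_smul, smul_smul]
      congr 1
      field_simp
  | zero =>
    rw [smul_zero]
    exact zero_mem _
  | add x y _ _ hx hy =>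
    rw [smul_add]
    exact add_mem hx hy
  | neg x _ hx =>
    rw [smul_neg]
    exact neg_mem hx

end LogdB

theorem p_LOGD2 : S_LOGD := by
  intro m K _ _ v κ _ _ D σ ξ hO hξ hI
  obtain ⟨B, hB, hdet⟩ := LogdB.exists_basis D
  have hmem := Nat.sInf_mem (LogdB.nonempty_set D ξ hO hξ hI)
  obtain ⟨Λ, hΛ⟩ : ∃ Λ : ExteriorAlgebra K (KaehlerDifferential ℂ K) →ₗ[K] K,
      ∀ x, Λ (ExteriorAlgebra.ιMulti K (m + 1) x) = B.det x :=
    ⟨ExteriorAlgebra.liftAlternating (Function.update (fun _ => 0) (m + 1) B.det), fun x => by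
      rw [ExteriorAlgebra.liftAlternating_apply_ιMulti, Function.update_self]⟩
  unfold logDiscrepancy formOrder
  generalize @sInf ℕ _ _ = k at hmem ⊢
  have h1 := hmem ((D.w 0 : K) ^ k) (by
      rw [v.map_pow, D.unif, ← WithTop.coe_one, ← WithTop.coe_nsmul]
      simp)
    (ExteriorAlgebra.ιMulti K (m + 1) B)
    (AddSubgroup.subset_closure ⟨1, fun a => D.w a, by rw [v.map_one],
      fun a => (D.mem _).1 (D.w a).2, by rw [one_smul]; congr 1; exact funext hB⟩)
  have key : ∀ ω ∈ topForms (m + 1) v (KaehlerDifferential.D ℂ K)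
      (Algebra.adjoin ℂ (Set.range ξ) : Subalgebra ℂ K),
      (D.w 0 : K) * Λ ω ∈ AddSubgroup.closure
        {e : K | ∃ (c : K) (G : Fin (m + 1) → MvPolynomial σ ℂ), c ∈ D.O ∧
          e = c * Matrix.det (Matrix.of fun i a => D.lpd a (aeval ξ (G i)))} := by
    intro ω hω
    induction hω using AddSubgroup.closure_induction with
    | mem x hx =>
      obtain ⟨c, a, hc, ha, rfl⟩ := hx
      have hG : ∀ i, ∃ G : MvPolynomial σ ℂ, aeval ξ G = a i := fun i => by
        have := ha i
        rw [Algebra.adjoin_range_eq_range_aeval] at this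
        exact this
      choose G hG using hG
      refine AddSubgroup.subset_closure ⟨c, G, (D.mem _).2 hc, ?_⟩
      rw [map_smul, hΛ, hdet,
        LogdB.det_lpd D fun i => aeval ξ (G i)]
      simp only [hG, smul_eq_mul]
      ring
    | zero =>
      rw [map_zero, mul_zero]
      exact zero_mem _
    | add x y _ _ hx hy =>
      rw [map_add, mul_add]
      exact add_mem hx hy
    | neg x _ hx =>
      rw [map_neg, mul_neg]
      exact neg_mem hx
  have h2 := key _ h1
  rw [map_smul, hΛ, Module.Basis.det_self,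
    smul_eq_mul, mul_one] at h2
  rw [pow_add, pow_one]
  exact h2

end Pool.Agent.P.MP_6149fc_ag
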