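import Pool.Agent.P.MP_6149fc_ag.Val

namespace Pool.Agent.P.MP_6149fc_ag

open scoped ENNReal
open MvPolynomial MeasureTheory

namespace MainA

section semi
variable {n : ℕ} (G : Semi n)

theorem sum_mem (M : ℕ) (lam : (Fin n →₀ ℕ) → ℕ) (T : Finset (Fin n →₀ ℕ))
    (h : ∀ γ ∈ T, γ ∈ G.Γ M (lam γ)) : ∑ γ ∈ T, γ ∈ G.Γ (T.card * M) (∑ γ ∈ T, lam γ) := by
  classical
  induction T using Finset.induction_on with
  | empty => simpa using G.zero0
  | insert a T ha ih =>
    rw [Finset.sum_insert ha, Finset.sum_insert ha, Finset.card_insert_of_notMem ha, add_mul,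
      one_mul, add_comm (T.card * M)]
    exact G.add _ _ _ _ _ _ (h a (Finset.mem_insert_self _ _))
      (ih fun γ hγ => h γ (Finset.mem_insert_of_mem hγ))

/-- The sum of all exponents has the total level. -/
theorem total (M J : ℕ) : ∃ M', ∑ γ ∈ G.Γ M 0, γ ∈
    G.Γ M' (∑ j ∈ Finset.Icc 1 J, (G.Γ M j).card) := by
  classical
  have h1 : ∑ j ∈ Finset.Icc 1 J, (G.Γ M j).card =
      ∑ γ ∈ G.Γ M 0, ((Finset.Icc 1 J).filter fun j => γ ∈ G.Γ M j).card := by
    simp only [Finset.card_filter]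
    rw [Finset.sum_comm]
    refine Finset.sum_congr rfl fun j _ => ?_
    rw [← Finset.card_filter, Finset.filter_mem_eq_inter,
      Finset.inter_eq_right.2 (G.anti M 0 j (Nat.zero_le j))]
  rw [h1]
  refine ⟨_, sum_mem G M _ _ fun γ hγ => ?_⟩
  rcases ((Finset.Icc 1 J).filter fun j => γ ∈ G.Γ M j).eq_empty_or_nonempty with h | h
  · rw [h]; exact hγ
  · obtain ⟨j, hj, hmax⟩ := Finset.exists_max_image _ id h
    refine G.anti M _ j ?_ (Finset.mem_filter.1 hj).2
    calc _ ≤ (Finset.Icc 1 j).card := Finset.card_le_card fun i hi =>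
            Finset.mem_Icc.2 ⟨(Finset.mem_Icc.1 (Finset.mem_filter.1 hi).1).1, hmax i hi⟩
      _ = j := by simp
end semi

section forms
variable {σ : Type} {K : Type} [Field K] [Algebra ℂ K] (v : AddValuation K (WithTop ℤ))
  (ξ : σ → K) (κ : Type) [Field κ] [Algebra ℂ κ] {R : Type} [CommRing R] [Algebra ℂ R]
  [Algebra κ R] (p : σ → R)

/-- The span of the expansions of the forms of degree `M` that vanish to order `j`. -/
noncomputable def W (M j : ℕ) : Submodule κ R :=
  Submodule.span κ {h | ∃ G : MvPolynomial σ ℂ, G.IsHomogeneous M ∧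
    ((j : ℤ) : WithTop ℤ) ≤ v (aeval ξ G) ∧ h = aeval p G}

variable {v ξ κ p}

omit [Algebra ℂ κ] in
theorem W_mul {M M' j j' : ℕ} {f g : R} (hf : f ∈ W v ξ κ p M j) (hg : g ∈ W v ξ κ p M' j') :
    f * g ∈ W v ξ κ p (M + M') (j + j') := by
  have := Submodule.mul_mem_mul hf hg
  rw [W, W, Submodule.span_mul_span] at this
  refine Submodule.span_mono ?_ this
  rintro _ ⟨_, ⟨G, hG, hv, rfl⟩, _, ⟨G', hG', hv', rfl⟩, rfl⟩
  refine ⟨G * G', hG.mul hG', ?_, (map_mul _ _ _).symm⟩
  rw [map_mul, AddValuation.map_mul]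
  push_cast
  exact add_le_add hv hv'

omit [Algebra ℂ κ] in
theorem W_anti {M j j' : ℕ} (h : j ≤ j') : W v ξ κ p M j' ≤ W v ξ κ p M j := by
  refine Submodule.span_mono ?_
  rintro _ ⟨G, hG, hv, rfl⟩
  exact ⟨G, hG, le_trans (by exact_mod_cast h) hv, rfl⟩

omit [Algebra ℂ κ] in
theorem one_mem_W : (1 : R) ∈ W v ξ κ p 0 0 :=
  Submodule.subset_span ⟨1, isHomogeneous_one _ _, by simp, by simp⟩

omit [Algebra ℂ κ] in
theorem lin_mem_W [Fintype σ] (hξ : ∀ i, 0 ≤ v (ξ i)) (c : σ → κ) :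
    ∑ i, algebraMap κ R (c i) * p i ∈ W v ξ κ p 1 0 := by
  refine Submodule.sum_mem _ fun i _ => ?_
  rw [← Algebra.smul_def]
  exact Submodule.smul_mem _ _
    (Submodule.subset_span ⟨X i, isHomogeneous_X _ _, by simpa using hξ i, by simp⟩)

theorem sections_finite [Finite σ] (M : ℕ) : Module.Finite ℂ (sections ξ M) := by
  have : Module.Finite ℂ (homogeneousSubmodule σ ℂ M) :=
    Submodule.finiteDimensional_of_le (S₂ := restrictTotalDegree σ ℂ M) fun G hG =>
      (mem_restrictTotalDegree _ _ _).2 (IsHomogeneous.totalDegree_le hG)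
  unfold sections
  infer_instance

/-- Upper bound for the dimension. -/
theorem W_upper [Finite σ] [IsScalarTower ℂ κ R]
    (h : ∀ (G : MvPolynomial σ ℂ) (M : ℕ), G.IsHomogeneous M → aeval ξ G = 0 → aeval p G = 0)
    (M j : ℕ) : FiniteDimensional κ (W v ξ κ p M j) ∧
      Module.finrank κ (W v ξ κ p M j) ≤ Module.finrank ℂ (sections ξ M) := by
  classical
  have := sections_finite (ξ := ξ) M
  let b := Module.finBasis ℂ (sections ξ M)
  choose G hG hGb using fun i => Submodule.mem_map.1 (b i).2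
  have hle : W v ξ κ p M j ≤ Submodule.span κ (Set.range fun i => aeval p (G i)) := by
    rw [W, Submodule.span_le]
    rintro _ ⟨H, hH, -, rfl⟩
    let s : sections ξ M := ⟨aeval ξ H, Submodule.mem_map_of_mem hH⟩
    have h0 : aeval p (H - ∑ i, b.repr s i • G i) = 0 := by
      refine h _ M ((homogeneousSubmodule σ ℂ M).sub_mem hH
        (Submodule.sum_mem _ fun i _ => Submodule.smul_mem _ _ (hG i))) ?_
      have h1 := congrArg (fun t : sections ξ M => (t : K)) (b.sum_repr s)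
      simp only [AddSubmonoidClass.coe_finsetSum, SetLike.val_smul, ← hGb] at h1
      simp only [map_sub, map_sum, map_smul]
      exact sub_eq_zero.2 h1.symm
    rw [map_sub, sub_eq_zero, map_sum] at h0
    rw [SetLike.mem_coe, h0]
    refine Submodule.sum_mem _ fun i _ => ?_
    rw [map_smul, ← algebraMap_smul κ]
    exact Submodule.smul_mem _ _ (Submodule.subset_span ⟨i, rfl⟩)
  have hfin : FiniteDimensional κ (Submodule.span κ (Set.range fun i => aeval p (G i))) :=
    FiniteDimensional.span_of_finite κ (Set.finite_range _)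
  refine ⟨Submodule.finiteDimensional_of_le hle, (Submodule.finrank_mono hle).trans ?_⟩
  simpa [Set.finrank] using finrank_range_le_card (R := κ) fun i => aeval p (G i)

omit [Algebra ℂ κ] in
/-- Lower bound for the dimension. -/
theorem W_lower (hc : ∀ c : ℂ, 0 ≤ v (algebraMap ℂ K c))
    (h : ∀ G : MvPolynomial σ ℂ, aeval p G = 0 → aeval ξ G = 0)
    (hind : ∀ (ι : Type) (G : ι → MvPolynomial σ ℂ),
      LinearIndependent ℂ (fun i => aeval p (G i)) → LinearIndependent κ (fun i => aeval p (G i)))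
    {t : ℝ} (ht : 0 < t) (M : ℕ) [FiniteDimensional κ (W v ξ κ p M ⌈t * M⌉₊)] :
    Module.finrank ℂ (vanishing v ξ t M) ≤ Module.finrank κ (W v ξ κ p M ⌈t * M⌉₊) := by
  have hmem : ∀ g ∈ vanishing v ξ t M,
      g ∈ sections ξ M ∧ ((⌈t * M⌉ : ℤ) : WithTop ℤ) ≤ v g := by
    intro g hg
    induction hg using Submodule.span_induction with
    | mem g hg => exact hg
    | zero => exact ⟨Submodule.zero_mem _, by simp⟩
    | add a b _ _ ha hb => exact ⟨Submodule.add_mem _ ha.1 hb.1, v.map_le_add ha.2 hb.2⟩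
    | smul c a _ ha =>
      refine ⟨Submodule.smul_mem _ _ ha.1, ?_⟩
      rw [Algebra.smul_def, AddValuation.map_mul]
      exact le_add_of_nonneg_of_le (hc c) ha.2
  obtain ⟨b, hb⟩ := exists_linearIndependent_of_le_finrank (R := ℂ) (M := vanishing v ξ t M) le_rfl
  choose G hG hGb using fun i => Submodule.mem_map.1 (hmem _ (b i).2).1
  have hb' : LinearIndependent ℂ fun i => (b i : K) := hb.map' (Submodule.subtype _) (by simp)
  have h1 : LinearIndependent ℂ fun i => aeval p (G i) := by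
    rw [Fintype.linearIndependent_iff] at hb' ⊢
    intro c hc0
    refine hb' c ?_
    have := h (∑ i, c i • G i) (by simpa only [map_sum, map_smul] using hc0)
    simpa only [map_sum, map_smul, ← hGb, AlgHom.toLinearMap_apply] using this
  have h2 : ∀ i, aeval p (G i) ∈ W v ξ κ p M ⌈t * M⌉₊ := fun i =>
    Submodule.subset_span ⟨G i, hG i, by
      rw [Int.natCast_ceil_eq_ceil (by positivity)]
      have := (hmem _ (b i).2).2
      rwa [← hGb] at this, rfl⟩
  have h3 : LinearIndependent κ fun i => (⟨_, h2 i⟩ : W v ξ κ p M ⌈t * M⌉₊) :=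
    LinearIndependent.of_comp (Submodule.subtype _) (hind _ G h1)
  simpa using h3.fintype_card_le_finrank
end forms

theorem isInit_monomial {n : ℕ} {κ : Type} [Field κ] (wt : Fin n → ℕ) (γ : Fin n →₀ ℕ) :
    IsInit wt (MvPowerSeries.monomial γ (1 : κ)) γ := by
  classical
  refine ⟨by simp, fun α hα => ?_⟩
  rw [MvPowerSeries.coeff_monomial] at hα
  split_ifs at hα with h
  · rw [h]
  · exact absurd rfl hα

theorem cy_pt {r : ℕ} {σ : Type} [Fintype σ] [DecidableEq σ] {F : Fin r → MvPolynomial σ ℂ}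
    {κ : Type} [Field κ] [Algebra ℂ κ] {j0 : σ} {n : ℕ} {x : σ → κ} (c : Chart F n j0 x)
    {C : Type} [CommRing C] [Algebra κ C] (z : Fin n → C) (y : Fin r → C) (s : Fin r) :
    ∑ i, algebraMap κ C (aeval x (pderiv i (F s))) * c.pt z y i = y s := by
  have h1 : ∑ i, algebraMap κ C (aeval x (pderiv i (F s))) * algebraMap κ C (x i) = 0 := by
    simp only [← map_mul, ← map_sum, c.cy_x, map_zero]
  have h2 : ∀ b, ∑ i, algebraMap κ C (aeval x (pderiv i (F s))) *
      (z b * algebraMap κ C (c.vv b i)) = 0 := fun b => by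
    simp only [mul_left_comm _ (z b), ← Finset.mul_sum, ← map_mul, ← map_sum, c.cy_vv,
      map_zero, mul_zero]
  have h3 : ∀ l, ∑ i, algebraMap κ C (aeval x (pderiv i (F s))) *
      (y l * algebraMap κ C (c.ww l i)) = if s = l then y l else 0 := fun l => by
    simp only [mul_left_comm _ (y l), ← Finset.mul_sum, ← map_mul, ← map_sum, c.cy_ww]
    split_ifs <;> simp
  simp only [Chart.pt, mul_add, Finset.sum_add_distrib, h1, Finset.mul_sum]
  rw [Finset.sum_comm, Finset.sum_congr rfl fun b _ => h2 b, Finset.sum_comm (s := Finset.univ)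
    (t := Finset.univ) (f := fun i l => algebraMap κ C (aeval x (pderiv i (F s))) *
      (y l * algebraMap κ C (c.ww l i))), Finset.sum_congr rfl fun l _ => h3 l]
  simp

end MainA

open MainA in
theorem main (hNULL : S_NULL) (hTRB : S_TRB) (hGEOM : S_GEOM) (hINIT : S_INIT) (hPOW : S_POW)
    (hHILB : S_HILB) (hVAL : S_VAL) (hINDEP : S_INDEP) (hCONV : S_CONV)
    (σ : Type) [Fintype σ] [DecidableEq σ] (m r : ℕ) (d : Fin r → ℕ)
    (F : Fin r → MvPolynomial σ ℂ) (hσ : Fintype.card σ = m + 1 + r + 1) (hd : ∀ s, 2 ≤ d s)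
    (hF : ∀ s, (F s).IsHomogeneous (d s))
    (hsm : ∀ p : σ → ℂ, p ≠ 0 → (∀ s, eval p (F s) = 0) →
      LinearIndependent ℂ fun s i => eval p (pderiv i (F s)))
    (hdeg : ∏ s, d s ≤ (m + 1 + 1) * 2 ^ (min r ((m + 1 + 1) / 2) - 1)) :
    ValuativeCriterion (m + 1) (Ideal.span (Set.range F)) := by
  intro K _ _ ξ j hgp v hv hξ
  have hU := hNULL σ r F hsm
  have hFξ : ∀ s, aeval ξ (F s) = 0 := fun s =>
    (hgp.vanishes_iff _ _ (hF s)).2 (Ideal.subset_span ⟨s, rfl⟩)
  have hli : LinearIndependent K fun s i => aeval ξ (pderiv i (F s)) := by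
    rw [Fintype.linearIndependent_iff]
    intro g hg s
    have := hU K ⊥ ξ g (fun s => by simp [hFξ]) (fun i => by
      have := congrFun hg i
      simpa using this) s j
    rw [hgp.chart, mul_one] at this
    obtain ⟨e, he⟩ := this
    exact IsNilpotent.eq_zero ⟨e, he⟩
  obtain ⟨κ, _, _, ⟨D⟩⟩ := hTRB m r σ F K ξ j v hσ hgp.chart hgp.generates hFξ
    (fun s => ⟨_, hF s⟩) hli hv
  let ξ' : σ → D.O := fun i => ⟨ξ i, (D.mem _).2 (hξ i)⟩
  have h1 : ξ' j = 1 := Subtype.ext hgp.chart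
  have hF' : ∀ s, aeval ξ' (F s) = 0 := fun s =>
    Subtype.ext ((ValA.coe_aeval (ξ := ξ') (F s)).trans (hFξ s))
  obtain ⟨c, y, S, N, hy, hS, hN⟩ := hGEOM σ r F d (m + 1) κ j (fun i => D.res (ξ' i)) hσ
    (by simp only [h1, map_one]) (fun s => by
      rw [← comp_aeval_apply _ D.res, hF', map_zero]) hd hF hU
  obtain ⟨hVa, hVb⟩ := hVAL m r σ F K v κ D ξ' j c y hy h1 hF' hgp.generates
  set p := c.pt MvPowerSeries.X y with hp
  have hker : ∀ (G : MvPolynomial σ ℂ) (M : ℕ), G.IsHomogeneous M → aeval ξ G = 0 →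
      aeval p G = 0 := fun G M hG h0 => by
    have hle : Ideal.span (Set.range F) ≤ RingHom.ker (aeval (R := ℂ) p) := by
      rw [Ideal.span_le]
      rintro _ ⟨s, rfl⟩
      exact hy.2 s
    exact hle ((hgp.vanishes_iff G M hG).1 h0)
  have hup := W_upper (v := v) (κ := κ) hker
  obtain ⟨-, hmul, hdim⟩ := hINIT (m + 1) κ fun b => if b ∈ S then 1 else 2
  choose Γ hcard hΓ using fun M j => hdim (W v ξ κ p M j) (hup M j).1
  have hone : (1 : MvPowerSeries (Fin (m + 1)) κ) ∈ W v ξ κ p 1 0 :=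
    Submodule.subset_span ⟨X j, isHomogeneous_X _ _, by simpa using hξ j, by
      rw [aeval_X, hp, ValA.pt_j0]⟩
  have hX : ∀ a, MvPowerSeries.X a ∈ W v ξ κ p 1 0 := fun a => by
    rw [← ValA.cz_pt c MvPowerSeries.X y a]; exact lin_mem_W hξ _
  have hyW : ∀ l, y l ∈ W v ξ κ p 1 0 := fun l => by
    rw [← cy_pt c MvPowerSeries.X y l]; exact lin_mem_W hξ _
  let G : Semi (m + 1) :=
    { Γ := Γ
      add := fun M M' j j' a b ha hb => by
        obtain ⟨f, hf, hfa⟩ := (hΓ _ _ _).1 ha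
        obtain ⟨g, hg, hgb⟩ := (hΓ _ _ _).1 hb
        exact (hΓ _ _ _).2 ⟨f * g, W_mul hf hg, hmul f g a b hfa hgb⟩
      anti := fun M j j' h a ha => by
        obtain ⟨f, hf, hfa⟩ := (hΓ _ _ _).1 ha
        exact (hΓ _ _ _).2 ⟨f, W_anti h hf, hfa⟩
      zero0 := (hΓ _ _ _).2 ⟨1, one_mem_W, isInit_monomial _ 0⟩
      zero1 := (hΓ _ _ _).2 ⟨1, hone, isInit_monomial _ 0⟩
      single1 := fun a => (hΓ _ _ _).2 ⟨_, hX a, isInit_monomial _ _⟩ }
  obtain ⟨C0, hC0⟩ := hPOW (m + 1) r κ S y (fun M => W v ξ κ p M 0) N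
    (fun M M' f g hf hg => W_mul (j := 0) (j' := 0) hf hg) one_mem_W hone hX hyW hy.1 hN
  have hconv := hCONV (m + 1) (∏ s, d s) (logDiscrepancy (m + 1) v ξ) C0 G S (by omega)
    (fun M a ha => (hΓ _ _ _).2 (hC0 M a ha))
    (fun M => ((hcard M 0).le.trans (hup M 0).2).trans
      (hHILB σ r F d (m + 1) K ξ hσ (fun s => by have := hd s; omega) hF hgp.vanishes_iff hli M))
    (fun M J => by
      obtain ⟨M', hM'⟩ := total G M J
      obtain ⟨f, hf, hfi⟩ := (hΓ _ _ _).1 hM'
      obtain ⟨i, -, hi⟩ := Finset.exists_max_image Finset.univ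
        (fun i => (∑ γ ∈ G.Γ M 0, γ) i) Finset.univ_nonempty
      refine ⟨i, ?_⟩
      have := hVb _ _ _ f _ (Submodule.span_mono (by
        rintro _ ⟨H, -, h2, rfl⟩
        exact ⟨H, h2, rfl⟩) hf) hfi fun a => hi a (Finset.mem_univ a)
      rwa [mul_comm, Finsupp.finsetSum_apply] at this)
    (by rw [hS]; exact hdeg)
  refine ENNReal.div_le_of_le_mul (le_trans ?_ (hconv.trans ?_))
  · refine setLIntegral_mono' measurableSet_Ioi fun t ht => ?_
    refine Filter.limsup_le_limsup (Filter.Eventually.of_forall fun M => ?_)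
    have := (hup M ⌈t * M⌉₊).1
    have h2 := (W_lower hv.const hVa (hINDEP σ r F (m + 1) κ j _ c y hy) ht M).trans
      (hcard M _).ge
    dsimp only
    gcongr
  · refine mul_le_mul_right (Filter.limsup_le_limsup (Filter.Eventually.of_forall fun M => ?_)) _
    have h2 := (hcard M 0).le.trans (hup M 0).2
    gcongr

end Pool.Agent.P.MP_6149fc_ag
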