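import Pool.Agent.P.MP_6149fc_ag.Iface

namespace Pool.Agent.P.MP_6149fc_ag

open scoped ENNReal
open MvPolynomial MeasureTheory

theorem p_NULL : S_NULL := by
  intro σ _ r F h C _ _ J P lam h1 h2 s i
  let φ : MvPolynomial (Fin r ⊕ σ) ℂ →ₐ[ℂ] C := aeval (Sum.elim lam P)
  have key : X (Sum.inl s) * X (Sum.inr i) ∈ (J.comap φ).radical := by
    rw [← vanishingIdeal_zeroLocus_eq_radical (K := ℂ)]
    intro x hx
    have h3 : ∀ s, eval (x ∘ Sum.inr) (F s) = 0 := fun s => by
      have := hx (rename Sum.inr (F s)) (by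
        rw [Ideal.mem_comap, aeval_rename]
        exact h1 s)
      rwa [aeval_rename] at this
    have h4 : ∀ i, ∑ s, x (Sum.inl s) * eval (x ∘ Sum.inr) (pderiv i (F s)) = 0 := fun i => by
      have := hx (∑ s, X (Sum.inl s) * rename Sum.inr (pderiv i (F s))) (by
        simp only [Ideal.mem_comap, φ, map_sum, map_mul, aeval_rename, aeval_X]
        exact h2 i)
      simp only [map_sum, map_mul, aeval_rename, aeval_X] at this
      exact this
    rw [map_mul, aeval_X, aeval_X]
    by_cases h0 : x ∘ Sum.inr = 0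
    · exact mul_eq_zero_of_right _ (congrFun h0 i)
    · refine mul_eq_zero_of_left (Fintype.linearIndependent_iff.1 (h _ h0 h3)
        (fun s => x (Sum.inl s)) (funext fun i => ?_) s) _
      simpa using h4 i
  obtain ⟨n, hn⟩ := key
  exact ⟨n, by simpa [φ] using hn⟩

end Pool.Agent.P.MP_6149fc_ag
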