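import Pool.Agent.P.MP_6149fc_ag.Iface

namespace Pool.Agent.P.MP_6149fc_ag

open scoped ENNReal
open MvPolynomial MeasureTheory

namespace ParamA

theorem order_sq {n : ℕ} {κ : Type} [Field κ] {f : MvPowerSeries (Fin n) κ}
    (hf : f ∈ Ideal.span (Set.range (MvPowerSeries.X : Fin n → MvPowerSeries (Fin n) κ)) ^ 2) :
    2 ≤ f.order := by
  have h1 : ∀ g ∈ Ideal.span (Set.range (MvPowerSeries.X : Fin n → MvPowerSeries (Fin n) κ)),
      1 ≤ g.order := fun g hg => by
    rw [MvPowerSeries.one_le_order_iff_constCoeff_eq_zero, ← RingHom.mem_ker]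
    refine Ideal.span_le.2 ?_ hg
    rintro _ ⟨a, rfl⟩
    exact MvPowerSeries.constantCoeff_X a
  rw [pow_two] at hf
  refine Submodule.mul_induction_on hf (fun a ha b hb => ?_) fun a b ha hb =>
    (le_min ha hb).trans MvPowerSeries.min_order_le_add
  exact (one_add_one_eq_two.symm.trans_le (add_le_add (h1 a ha) (h1 b hb))).trans
    MvPowerSeries.le_order_mul

theorem near {σ : Type} [Fintype σ] [DecidableEq σ] {C : Type} [CommRing C] [Algebra ℂ C]
    (J : Ideal C) (a b : σ → C) (hab : ∀ i, a i - b i ∈ J) (G : MvPolynomial σ ℂ) :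
    aeval a G - aeval b G ∈ J ∧
      aeval a G - aeval b G - ∑ i, (a i - b i) * aeval b (pderiv i G) ∈ J ^ 2 := by
  obtain ⟨h, e, m⟩ := taylor J a b hab G
  rw [e, ← Finset.sum_sub_distrib, pow_two]
  refine ⟨J.sum_mem fun i _ => J.mul_mem_right _ (hab i), Ideal.sum_mem _ fun i _ => ?_⟩
  rw [← mul_sub]
  exact Ideal.mul_mem_mul (hab i) (m i)

end ParamA

theorem p_PARAM (hHENSEL : S_HENSEL) : S_PARAM := by
  intro σ _ _ r F n κ _ _ j0 x c
  let J : Ideal (MvPowerSeries (Fin n) κ) := Ideal.span (Set.range MvPowerSeries.X)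
  let b : σ → MvPowerSeries (Fin n) κ := fun i => algebraMap κ _ (x i)
  have hb : ∀ G : MvPolynomial σ ℂ, aeval b G = algebraMap κ _ (aeval x G) := fun G =>
    aeval_algebraMap_apply _ x G
  have hp : ∀ i, c.pt MvPowerSeries.X 0 i - b i =
      ∑ a, MvPowerSeries.X a * algebraMap κ (MvPowerSeries (Fin n) κ) (c.vv a i) := fun i => by
    simp [Chart.pt, b]
  have hJ : ∀ i, c.pt MvPowerSeries.X 0 i - b i ∈ J := fun i => by
    rw [hp]
    exact J.sum_mem fun a _ => J.mul_mem_right _ (Ideal.subset_span ⟨a, rfl⟩)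
  obtain ⟨y, hy, hF⟩ := hHENSEL σ r F (MvPowerSeries (Fin n) κ) J 2 (c.pt MvPowerSeries.X 0)
    (fun l i => algebraMap κ _ (c.ww l i)) 0 one_le_two
    (fun s => by
      have h := (ParamA.near J _ b hJ (F s)).2
      have h0 : ∑ i, (c.pt MvPowerSeries.X 0 i - b i) * aeval b (pderiv i (F s)) = 0 := by
        simp only [hp, hb, Finset.sum_mul]
        rw [Finset.sum_comm]
        refine Finset.sum_eq_zero fun a _ => ?_
        simp only [mul_assoc, ← map_mul, ← Finset.mul_sum, ← map_sum, mul_comm (c.vv a _)]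
        rw [c.cy_vv, map_zero, mul_zero]
      rwa [h0, hb, c.onX, map_zero, sub_zero] at h)
    (fun s l => by
      have h0 : (if s = l then 1 else 0 : MvPowerSeries (Fin n) κ) =
          ∑ i, aeval b (pderiv i (F s)) * algebraMap κ _ (c.ww l i) := by
        simp only [hb, ← map_mul, ← map_sum]
        rw [c.cy_ww]
        split_ifs <;> simp
      rw [h0, ← Finset.sum_sub_distrib]
      refine J.sum_mem fun i _ => ?_
      rw [← sub_mul]
      exact J.mul_mem_right _ (ParamA.near J _ b hJ _).1)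
  refine ⟨y, fun l α hα => MvPowerSeries.coeff_of_lt_order
    (lt_of_lt_of_le (by exact_mod_cast hα) (ParamA.order_sq (hy l))), fun s => ?_⟩
  have h1 : c.pt MvPowerSeries.X y = fun i => c.pt MvPowerSeries.X 0 i +
      ∑ l, y l * algebraMap κ (MvPowerSeries (Fin n) κ) (c.ww l i) := by
    funext i
    simp [Chart.pt]
  rw [h1]
  exact hF s

end Pool.Agent.P.MP_6149fc_ag
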