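import Pool.Agent.P.MP_6149fc_ag.Iface

namespace Pool.Agent.P.MP_6149fc_ag

open scoped ENNReal
open MvPolynomial MeasureTheory

theorem p_POW : S_POW := by
  classical
  intro n r κ _ S y U N hmul h0 h1 hX hy hy2 hN
  have mono : Monotone U := monotone_nat_of_le_succ fun M f hf => by simpa using hmul _ _ _ _ hf h1
  have mon : ∀ α : Fin n →₀ ℕ, MvPowerSeries.monomial α (1 : κ) ∈ U (∑ a, α a) := fun α => by
    induction α using Finsupp.induction_linear with
    | zero => simpa using h0
    | add α β ha hb =>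
      have := hmul _ _ _ _ ha hb
      rw [MvPowerSeries.monomial_mul_monomial, one_mul, ← Finset.sum_add_distrib] at this
      exact this
    | single a e =>
      rw [← MvPowerSeries.X_pow_eq, ← Finsupp.degree_eq_sum, Finsupp.degree_single]
      induction e with
      | zero => simpa using h0
      | succ e ih => rw [pow_succ]; exact hmul _ _ _ _ ih (hX a)
  have base : ∀ f, ∃ u ∈ U (n * N),
      f - u ∈ Ideal.span (MvPowerSeries.X '' {b | b ∉ S} ∪ Set.range y) := fun f => by
    let A : Finset (Fin n →₀ ℕ) := (Finset.Iic (Finsupp.equivFunOnFinite.symm fun _ => N))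
    refine ⟨∑ α ∈ A, MvPowerSeries.coeff α f • MvPowerSeries.monomial α 1,
      Submodule.sum_mem _ fun α hα => Submodule.smul_mem _ _ (mono ?_ (mon α)),
      (Ideal.span_le.2 ?_) (mem_span_X_pow N _ fun α hα => ?_)⟩
    · simpa using Finset.sum_le_card_nsmul Finset.univ α N fun a _ => Finset.mem_Iic.1 hα a
    · rintro _ ⟨a, rfl⟩
      exact hN a
    · have : α ∈ A := Finset.mem_Iic.2 fun a => (hα a).le
      simp [MvPowerSeries.coeff_monomial, this]
  let wt : Fin n → ℕ := fun b => if b ∈ S then 1 else 2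
  have gen : ∀ s ∈ MvPowerSeries.X '' {b | b ∉ S} ∪ Set.range y,
      s ∈ U 1 ∧ ((2 : ℕ) : ℕ∞) ≤ s.weightedOrder wt := by
    rintro _ (⟨b, hb, rfl⟩ | ⟨l, rfl⟩)
    · refine ⟨hX b, ?_⟩
      rw [MvPowerSeries.X, MvPowerSeries.weightedOrder_monomial_of_ne_zero _ one_ne_zero,
        Finsupp.weight_single]
      simp [wt, show b ∉ S from hb]
    · refine ⟨hy l, MvPowerSeries.nat_le_weightedOrder _ fun α hα => hy2 l α (lt_of_le_of_lt ?_ hα)⟩
      rw [Finsupp.degree_eq_sum, Finsupp.weight_eq_sum]
      refine Finset.sum_le_sum fun a _ => Nat.le_mul_of_pos_right _ ?_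
      simp only [wt]
      split_ifs <;> norm_num
  have key : ∀ j : ℕ, ∀ f, ∃ u ∈ U (n * N + j), ((2 * j : ℕ) : ℕ∞) ≤ (f - u).weightedOrder wt := by
    intro j
    induction j with
    | zero => exact fun f => ⟨0, zero_mem _, by simp⟩
    | succ j ih =>
      have step : ∀ s ∈ Ideal.span (MvPowerSeries.X '' {b | b ∉ S} ∪ Set.range y), ∀ h,
          ∃ u ∈ U (n * N + (j + 1)), ((2 * (j + 1) : ℕ) : ℕ∞) ≤ (h * s - u).weightedOrder wt := by
        intro s hs
        induction hs using Submodule.span_induction with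
        | mem s hs =>
          intro h
          obtain ⟨u, u1, u2⟩ := ih h
          refine ⟨u * s, hmul (n * N + j) 1 _ _ u1 (gen s hs).1, ?_⟩
          rw [← sub_mul, mul_add, Nat.cast_add]
          exact (add_le_add u2 (gen s hs).2).trans (MvPowerSeries.le_weightedOrder_mul _)
        | zero => exact fun h => ⟨0, zero_mem _, by simp⟩
        | add s t _ _ hs ht =>
          intro h
          obtain ⟨u, u1, u2⟩ := hs h
          obtain ⟨v, v1, v2⟩ := ht h
          refine ⟨u + v, add_mem u1 v1, ?_⟩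
          rw [mul_add h, add_sub_add_comm]
          exact (le_min u2 v2).trans (MvPowerSeries.min_weightedOrder_le_add _)
        | smul c s _ hs => exact fun h => by simpa only [smul_eq_mul, mul_assoc] using hs (h * c)
      intro f
      obtain ⟨u, u1, u2⟩ := base f
      obtain ⟨v, v1, v2⟩ := step _ u2 1
      exact ⟨u + v, add_mem (mono (Nat.le_add_right _ _) u1) v1, by rwa [one_mul, sub_sub] at v2⟩
  refine ⟨2 * (n * N) + 1, fun M a ha => ?_⟩
  rcases le_or_gt M (n * N) with h | h
  · refine ⟨1, mono (Nat.zero_le _) h0, ?_⟩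
    rw [show 2 * M - (2 * (n * N) + 1) = 0 by omega, Finsupp.single_zero]
    refine ⟨by simp, fun α hα => le_of_eq ?_⟩
    rw [MvPowerSeries.coeff_one] at hα
    rw [(ite_ne_right_iff.1 hα).1]
  · obtain ⟨j, rfl⟩ := Nat.exists_eq_add_of_lt h
    rw [show 2 * (n * N + j + 1) - (2 * (n * N) + 1) = 2 * j + 1 by omega]
    obtain ⟨u, u1, u2⟩ := key (j + 1) (MvPowerSeries.monomial (Finsupp.single a (2 * j + 1)) 1)
    have w : Finsupp.weight wt (Finsupp.single a (2 * j + 1)) = 2 * j + 1 := by
      rw [Finsupp.weight_single]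
      simp [wt, ha]
    have c : ∀ α, Finsupp.weight wt α ≤ 2 * j + 1 → MvPowerSeries.coeff α u =
        if α = Finsupp.single a (2 * j + 1) then 1 else 0 := fun α hα => by
      have := MvPowerSeries.coeff_eq_zero_of_lt_weightedOrder wt (d := α)
        (lt_of_lt_of_le (by exact_mod_cast (by omega)) u2)
      rw [map_sub, sub_eq_zero, MvPowerSeries.coeff_monomial] at this
      exact this.symm
    refine ⟨u, u1, by rw [c _ w.le, if_pos rfl]; exact one_ne_zero, fun α hα => ?_⟩
    rcases le_or_gt (Finsupp.weight wt α) (2 * j + 1) with g | g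
    · rw [c α g] at hα
      rw [(ite_ne_right_iff.1 hα).1]
    · exact (key_lt_of_weight_lt wt (w.trans_lt g)).le

end Pool.Agent.P.MP_6149fc_ag
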