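import Pool.Agent.P.MP_6149fc_ag.Iface

namespace Pool.Agent.P.MP_6149fc_ag

open scoped ENNReal
open MvPolynomial MeasureTheory

namespace RankA

open scoped Matrix

variable {L : Type} [Field L] {n : ℕ} (N : ℕ)

/-- Truncation. -/
noncomputable def tr : (Fin n → PowerSeries L) →ₗ[L] (Fin n × Fin N → L) :=
  LinearMap.pi fun q => PowerSeries.coeff (q.2 : ℕ) ∘ₗ LinearMap.proj q.1

theorem tr_apply (x : Fin n → PowerSeries L) (j : Fin n) (l : Fin N) :
    tr N x (j, l) = PowerSeries.coeff (l : ℕ) (x j) := rfl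

/-- The polynomial with given coefficients. -/
noncomputable def lift (c : Fin N → L) : PowerSeries L :=
  ∑ l' : Fin N, PowerSeries.C (c l') * PowerSeries.X ^ (l' : ℕ)

theorem coeff_lift (c : Fin N → L) (l : Fin N) : PowerSeries.coeff (l : ℕ) (lift N c) = c l := by
  simp [lift, PowerSeries.coeff_X_pow, Fin.val_inj]

/-- The image of the matrix on truncated series. -/
noncomputable def W (M : Matrix (Fin n) (Fin n) (PowerSeries L)) :
    Submodule L (Fin n × Fin N → L) :=
  LinearMap.range (tr N ∘ₗ M.mulVecLin.restrictScalars L)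

theorem mem_W {M : Matrix (Fin n) (Fin n) (PowerSeries L)} {q : Fin n × Fin N → L} :
    q ∈ W N M ↔ ∃ x, tr N (M *ᵥ x) = q := Iff.rfl

theorem unit_case {M : Matrix (Fin n) (Fin n) (PowerSeries L)} (h : IsUnit M.det) :
    W N M = ⊤ := by
  refine eq_top_iff.2 fun q _ => (mem_W N).2 ⟨M⁻¹ *ᵥ fun j => lift N fun l => q (j, l), ?_⟩
  rw [Matrix.mulVec_mulVec, Matrix.mul_nonsing_inv _ h, Matrix.one_mulVec]
  funext ⟨j, l⟩
  rw [tr_apply, coeff_lift]

theorem step {M : Matrix (Fin n) (Fin n) (PowerSeries L)} (h : ¬ IsUnit M.det) :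
    ∃ M' : Matrix (Fin n) (Fin n) (PowerSeries L), PowerSeries.X * M'.det ∣ M.det ∧
      Module.finrank L (W N M') ≤ Module.finrank L (W N M) + 1 := by
  have h1 : (M.map PowerSeries.constantCoeff).det = 0 := by
    rw [PowerSeries.isUnit_iff_constantCoeff, isUnit_iff_ne_zero, not_not, RingHom.map_det] at h
    exact h
  obtain ⟨v, hv, hv'⟩ := Matrix.exists_mulVec_eq_zero_iff.2 h1
  obtain ⟨a₀, ha₀⟩ := Function.ne_iff.1 hv
  have h2 : ∀ j, ∃ w, (M *ᵥ fun a => PowerSeries.C (v a)) j = PowerSeries.X * w := fun j => by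
    refine PowerSeries.X_dvd_iff.2 ?_
    simpa [Matrix.mulVec, dotProduct] using congrFun hv' j
  choose w hw using h2
  refine ⟨M.updateCol a₀ w, ?_, ?_⟩
  · have h3 := Matrix.det_updateCol_sum M a₀ fun a => PowerSeries.C (v a)
    have h4 : (fun k => ∑ i, PowerSeries.C (v i) • M k i) =
        (PowerSeries.X : PowerSeries L) • w := funext fun k => by
      rw [Pi.smul_apply, smul_eq_mul, ← hw]
      simp [Matrix.mulVec, dotProduct, mul_comm]
    rw [h4, Matrix.det_updateCol_smul, smul_eq_mul] at h3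
    refine ⟨PowerSeries.C (v a₀)⁻¹, ?_⟩
    rw [h3, mul_right_comm, ← map_mul, mul_inv_cancel₀ ha₀, map_one, one_mul]
  · have h3 : W N (M.updateCol a₀ w) ≤ W N M ⊔ Submodule.span L {tr N w} := by
      intro q hq
      obtain ⟨x, rfl⟩ := (mem_W N).1 hq
      obtain ⟨y, hy⟩ : PowerSeries.X ∣ x a₀ - PowerSeries.C (PowerSeries.constantCoeff (x a₀)) :=
        PowerSeries.X_dvd_iff.2 (by simp)
      have h4 : M.updateCol a₀ w *ᵥ x =
          M *ᵥ (Function.update x a₀ 0 + y • fun a => PowerSeries.C (v a)) +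
            PowerSeries.constantCoeff (x a₀) • w := by
        rw [Matrix.mulVec_add, Matrix.mulVec_smul]
        funext j
        have h5 : (M.updateCol a₀ w *ᵥ x) j =
            (M *ᵥ Function.update x a₀ 0) j + w j * x a₀ := by
          simp only [Matrix.mulVec, dotProduct]
          rw [← Finset.add_sum_erase _ _ (Finset.mem_univ a₀),
            ← Finset.add_sum_erase _ _ (Finset.mem_univ a₀), Matrix.updateCol_self,
            Function.update_self, mul_zero, zero_add, add_comm]
          congr 1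
          refine Finset.sum_congr rfl fun a ha => ?_
          rw [Matrix.updateCol_ne (Finset.ne_of_mem_erase ha),
            Function.update_of_ne (Finset.ne_of_mem_erase ha)]
        simp only [h5, Pi.add_apply, Pi.smul_apply, hw, smul_eq_mul, PowerSeries.smul_eq_C_mul]
        linear_combination w j * hy
      rw [h4, map_add, map_smul]
      exact Submodule.add_mem_sup ((mem_W N).2 ⟨_, rfl⟩)
        (Submodule.smul_mem _ _ (Submodule.mem_span_singleton_self _))
    refine (Submodule.finrank_mono h3).trans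
      ((Submodule.finrank_add_le_finrank_add_finrank _ _).trans (Nat.add_le_add_left ?_ _))
    simpa using finrank_span_le_card (R := L) {tr N w}

theorem main (e : ℕ) : ∀ M : Matrix (Fin n) (Fin n) (PowerSeries L),
    M.det ∣ PowerSeries.X ^ e → n * N ≤ Module.finrank L (W N M) + e := by
  have h0 : ∀ M : Matrix (Fin n) (Fin n) (PowerSeries L), IsUnit M.det →
      n * N ≤ Module.finrank L (W N M) := fun M h => by
    rw [unit_case N h]
    simp
  induction e with
  | zero => exact fun M h => h0 M (isUnit_of_dvd_one (by simpa using h))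
  | succ e ih =>
    intro M h
    by_cases hu : IsUnit M.det
    · exact (h0 M hu).trans (Nat.le_add_right _ _)
    obtain ⟨M', h1, h2⟩ := step N hu
    have h3 := h1.trans h
    rw [pow_succ', mul_dvd_mul_iff_left PowerSeries.X_ne_zero] at h3
    have h4 := ih M' h3
    omega

end RankA

open RankA in
theorem p_RANK : S_RANK := by
  intro L _ n N e M h
  refine ⟨W N M, main N e M h, fun q hq => ?_⟩
  obtain ⟨x, rfl⟩ := (mem_W N).1 hq
  refine ⟨tr N x, fun j l => ?_⟩
  have h1 : ∀ a, PowerSeries.X ^ N ∣ x a - lift N fun l' => tr N x (a, l') := fun a =>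
    PowerSeries.X_pow_dvd_iff.2 fun m hm => by
      rw [map_sub, coeff_lift N _ ⟨m, hm⟩, tr_apply, sub_self]
  have h2 : PowerSeries.X ^ N ∣ ∑ a, M j a * (x a - lift N fun l' => tr N x (a, l')) :=
    Finset.dvd_sum fun a _ => (h1 a).mul_left _
  have h3 := PowerSeries.X_pow_dvd_iff.1 h2 l l.2
  simp only [mul_sub, Finset.sum_sub_distrib, map_sub, sub_eq_zero] at h3
  exact h3

end Pool.Agent.P.MP_6149fc_ag
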