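import Pool.Agent.P.MP_6149fc_ag.Iface

namespace Pool.Agent.P.MP_6149fc_ag

open scoped ENNReal
open MvPolynomial MeasureTheory

namespace RkA

variable {k L : Type} [Field k] [Field L] [Algebra k L] (δ : Derivation k L L)
  (E : Subalgebra k L) (hE : ∀ x ∈ E, δ x = 0)

include hE

theorem chain (a : L) (p : Polynomial E) :
    δ (Polynomial.aeval a p) = Polynomial.aeval a (Polynomial.derivative p) * δ a := by
  induction p using Polynomial.induction_on' with
  | add p q hp hq => simp only [map_add, hp, hq, add_mul]
  | monomial n c =>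
    have h : δ (algebraMap E L c) = 0 := hE _ c.2
    simp only [Polynomial.aeval_monomial, Polynomial.derivative_monomial, Derivation.leibniz, h,
      Derivation.leibniz_pow, smul_eq_mul, nsmul_eq_mul, map_mul, map_natCast]
    ring

theorem kill [CharZero k] {a : L} (ha : IsAlgebraic E a) : δ a = 0 := by
  have : CharZero E := charZero_of_injective_algebraMap (algebraMap k E).injective
  obtain ⟨p, h0, hp⟩ := ha
  by_contra h
  induction hn : p.natDegree using Nat.strong_induction_on generalizing p with
  | _ n ih =>
    rcases Nat.eq_zero_or_pos n with rfl | hpos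
    · rw [Polynomial.eq_C_of_natDegree_eq_zero hn] at hp h0
      rw [Polynomial.aeval_C] at hp
      exact h0 (by rw [Subtype.ext hp (a2 := (0 : E)), map_zero])
    · have h1 := chain δ E hE a p
      rw [hp, map_zero] at h1
      refine ih _ (hn ▸ Polynomial.natDegree_derivative_lt (by omega)) _ (fun e => ?_)
        ((mul_eq_zero.1 h1.symm).resolve_right h) rfl
      have := Polynomial.derivative_eq_zero.1 e
      omega

end RkA

theorem p_RK : S_RK := by
  intro k L β _ _ _ _ _ z W hW
  classical
  obtain ⟨S, hS, hmax⟩ := Finset.exists_max_image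
    (Finset.univ.filter fun S : Finset β => AlgebraicIndepOn k z S) Finset.card
    ⟨∅, by simpa [AlgebraicIndepOn] using (algebraMap k L).injective⟩
  have hS' : AlgebraicIndepOn k z S := (Finset.mem_filter.1 hS).2
  refine ⟨S, ?_, hS'⟩
  have hinj : Function.Injective ((LinearMap.funLeft L L ((↑) : S → β)).comp W.subtype) := by
    rw [injective_iff_map_eq_zero]
    intro q hq
    obtain ⟨δ, hδ⟩ := hW q q.2
    have hE : ∀ x ∈ Algebra.adjoin k (z '' S), δ x = 0 := by
      intro x hx
      induction hx using Algebra.adjoin_induction with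
      | mem x hx =>
        obtain ⟨b, hb, rfl⟩ := hx
        exact (hδ b).trans (congrFun hq ⟨b, hb⟩)
      | algebraMap r => exact δ.map_algebraMap r
      | add x y _ _ hx hy => rw [map_add, hx, hy, add_zero]
      | mul x y _ _ hx hy => rw [Derivation.leibniz, hx, hy, smul_zero, smul_zero, add_zero]
    refine Subtype.ext (funext fun b => (hδ b).symm.trans ?_)
    by_cases hb : b ∈ S
    · exact hE _ (Algebra.subset_adjoin ⟨b, hb, rfl⟩)
    refine RkA.kill δ _ hE ?_
    by_contra h
    have h1 := hmax (insert b S) (Finset.mem_filter.2 ⟨Finset.mem_univ _, by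
      rw [Finset.coe_insert]
      exact (AlgebraicIndepOn.insert_iff (by simpa using hb)).2 ⟨hS', h⟩⟩)
    rw [Finset.card_insert_of_notMem hb] at h1
    omega
  simpa using LinearMap.finrank_le_finrank_of_injective hinj

end Pool.Agent.P.MP_6149fc_ag
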