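import Pool.Agent.P.MP_6149fc_ag.Iface

namespace Pool.Agent.P.MP_6149fc_ag

open scoped ENNReal
open MvPolynomial MeasureTheory

namespace TanA

open Matrix

variable {σ : Type} [Fintype σ] [DecidableEq σ] {r : ℕ} {F : Fin r → MvPolynomial σ ℂ} {n : ℕ}
  {κ : Type} [Field κ] [Algebra ℂ κ] {j0 : σ} {x : σ → κ} {C L : Type}
  [CommRing C] [Algebra ℂ C] [Algebra κ C] [IsScalarTower ℂ κ C] [Field L] [Algebra κ L]

omit [Fintype σ] [DecidableEq σ] in
theorem rho_aeval (ρ : C →ₐ[κ] L) {p : σ → C} (hp : ∀ i, ρ (p i) = algebraMap κ L (x i))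
    (G : MvPolynomial σ ℂ) : ρ (aeval p G) = algebraMap κ L (aeval x G) := by
  induction G using MvPolynomial.induction_on with
  | C c => rw [aeval_C, aeval_C, IsScalarTower.algebraMap_apply ℂ κ C, AlgHom.commutes]
  | add f g h1 h2 => simp only [map_add, h1, h2]
  | mul_X f i h1 => simp only [map_mul, h1, aeval_X, hp]

omit [Algebra ℂ C] [IsScalarTower ℂ κ C] in
theorem dec (c : Chart F n j0 x) (q : σ → C) (hq : q j0 = 0) (i : σ) :
    q i = ∑ a, algebraMap κ C (c.vv a i) * ∑ i', algebraMap κ C (c.cz a i') * q i' +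
      ∑ l, algebraMap κ C (c.ww l i) *
        ∑ i', algebraMap κ C (aeval x (pderiv i' (F l))) * q i' := by
  have h1 : q i = ∑ i', algebraMap κ C (if i = i' then 1 else 0) * q i' := by
    simp [apply_ite]
  rw [h1]
  simp only [c.decomp i, map_add, map_mul, map_sum, add_mul, Finset.sum_add_distrib,
    Finset.sum_mul, Finset.mul_sum, mul_assoc]
  rw [Finset.sum_comm (γ := σ), Finset.sum_comm (γ := σ) (t := (Finset.univ : Finset (Fin r)))]
  simp [apply_ite, hq]

omit [Algebra ℂ C] [IsScalarTower ℂ κ C] in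
theorem main (c : Chart F n j0 x) (ρ : C →ₐ[κ] L) (hu : ∀ b, ρ b ≠ 0 → IsUnit b)
    (h : Fin r → σ → C) (hh : ∀ s i, ρ (h s i) = algebraMap κ L (aeval x (pderiv i (F s)))) :
    ∃ Q : σ → Fin n → C, ∀ q : σ → C, q j0 = 0 → (∀ s, ∑ i, h s i * q i = 0) →
      ∀ i, q i = ∑ a, Q i a * ∑ i', algebraMap κ C (c.cz a i') * q i' := by
  let H : Matrix (Fin r) (Fin r) C := of fun s l => ∑ i, h s i * algebraMap κ C (c.ww l i)
  let K : Matrix (Fin r) (Fin n) C := of fun s a => ∑ i, h s i * algebraMap κ C (c.vv a i)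
  have hH : (ρ : C →+* L).mapMatrix H = 1 := by
    ext s l
    simp only [H, RingHom.mapMatrix_apply, map_apply, of_apply, RingHom.coe_coe, map_sum, map_mul,
      hh, AlgHom.commutes]
    simp only [← map_mul, ← map_sum, c.cy_ww, one_apply, apply_ite (algebraMap κ L), map_one,
      map_zero]
  have hd : IsUnit H.det := hu _ (by
    rw [show ρ H.det = (ρ : C →+* L) H.det from rfl, RingHom.map_det, hH, det_one]
    exact one_ne_zero)
  refine ⟨fun i a => algebraMap κ C (c.vv a i) -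
    ∑ l, algebraMap κ C (c.ww l i) * (H⁻¹ * K) l a, fun q hq h0 i => ?_⟩
  set z : Fin n → C := fun a => ∑ i', algebraMap κ C (c.cz a i') * q i' with hz
  set b : Fin r → C := fun l => ∑ i', algebraMap κ C (aeval x (pderiv i' (F l))) * q i' with hb
  have h1 : ∀ i, q i = ∑ a, algebraMap κ C (c.vv a i) * z a +
      ∑ l, algebraMap κ C (c.ww l i) * b l := dec c q hq
  have h2 : H *ᵥ b = -(K *ᵥ z) := by
    funext s
    have h3 := h0 s
    rw [Finset.sum_congr rfl fun i _ => by rw [h1 i]] at h3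
    simp only [mul_add, Finset.sum_add_distrib, Finset.mul_sum, ← mul_assoc] at h3
    rw [Finset.sum_comm (γ := σ), Finset.sum_comm (γ := σ) (t := (Finset.univ : Finset (Fin r)))]
      at h3
    simp only [H, K, mulVec, dotProduct, of_apply, Pi.neg_apply, Finset.sum_mul]
    exact eq_neg_of_add_eq_zero_right h3
  have h3 : b = -((H⁻¹ * K) *ᵥ z) := by
    rw [← mulVec_mulVec, ← mulVec_neg, ← h2, mulVec_mulVec, nonsing_inv_mul _ hd, one_mulVec]
  change q i = ∑ a, _ * z a
  rw [h1 i, h3]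
  simp only [sub_mul, Finset.sum_sub_distrib, Finset.sum_mul, Pi.neg_apply, mulVec, dotProduct,
    mul_neg, Finset.sum_neg_distrib, Finset.mul_sum, mul_assoc]
  rw [Finset.sum_comm (γ := Fin r), sub_eq_add_neg]

end TanA

theorem p_TAN : S_TAN := by
  intro σ _ _ r F n κ _ _ j0 x c C L _ _ _ _ _ _ ρ p hu hp
  refine ⟨TanA.main c ρ hu _ fun s i => TanA.rho_aeval ρ hp _, fun p' hp' h0 hF hz => ?_⟩
  choose h h1 h2 using fun s => taylor (RingHom.ker ρ) p' p
    (fun i => by rw [RingHom.mem_ker, map_sub, hp, hp', sub_self]) (F s)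
  obtain ⟨Q, hQ⟩ := TanA.main c ρ hu h fun s i => by
    have h3 := h2 s i
    rw [RingHom.mem_ker, map_sub, sub_eq_zero] at h3
    rw [h3, TanA.rho_aeval ρ hp]
  funext i
  have h3 := hQ (fun i => p' i - p i) (sub_eq_zero.2 h0) (fun s => by
    have h4 := h1 s
    rw [hF, sub_self] at h4
    rw [h4]
    exact Finset.sum_congr rfl fun _ _ => mul_comm _ _) i
  simp only [mul_sub, Finset.sum_sub_distrib, hz, sub_self, mul_zero,
    Finset.sum_const_zero] at h3
  exact sub_eq_zero.1 h3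

end Pool.Agent.P.MP_6149fc_ag
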