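import Pool.Agent.P.MP_6149fc_ag.Iface

namespace Pool.Agent.P.MP_6149fc_ag

open scoped ENNReal
open MvPolynomial MeasureTheory

namespace TrbA

variable {K : Type} [Field K] [Algebra ℂ K] {v : AddValuation K (WithTop ℤ)}

theorem eq_zero_of {a : WithTop ℤ} (h0 : 0 ≤ a) (h1 : ¬ 1 ≤ a) : a = 0 := by
  induction a using WithTop.recTopCoe with
  | top => exact absurd le_top h1
  | coe a =>
    have h2 : (0 : ℤ) ≤ a := by exact_mod_cast h0
    have h3 : ¬ (1 : ℤ) ≤ a := by exact_mod_cast h1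
    exact_mod_cast (show a = 0 by omega)

theorem not_one_le : ¬ (1 : WithTop ℤ) ≤ 0 := by
  exact_mod_cast (show ¬ (1 : ℤ) ≤ 0 by norm_num)

theorem exists_res (hc : ∀ c : ℂ, 0 ≤ v (algebraMap ℂ K c)) :
    ∃ (κ : Type) (_ : Field κ) (_ : Algebra ℂ κ) (O : Subalgebra ℂ K) (res : O →ₐ[ℂ] κ),
      (∀ b, b ∈ O ↔ 0 ≤ v b) ∧ Function.Surjective res ∧ ∀ b : O, res b = 0 ↔ 1 ≤ v b := by
  let O : Subalgebra ℂ K :=
    { carrier := {b | 0 ≤ v b}
      mul_mem' := fun {a b} ha hb => by
        change 0 ≤ v (a * b)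
        rw [v.map_mul]; exact add_nonneg ha hb
      add_mem' := fun ha hb => v.map_le_add ha hb
      algebraMap_mem' := hc }
  let M : Ideal O :=
    { carrier := {b | 1 ≤ v b}
      add_mem' := fun ha hb => v.map_le_add ha hb
      zero_mem' := by
        change 1 ≤ v 0
        rw [v.map_zero]; exact le_top
      smul_mem' := fun c b hb => by
        change 1 ≤ v (c * b)
        rw [v.map_mul]; exact le_add_of_nonneg_of_le c.2 hb }
  have hM : M.IsMaximal := by
    refine Ideal.isMaximal_iff.2 ⟨fun h => ?_, fun J x _ hx hxJ => ?_⟩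
    · change 1 ≤ v 1 at h
      rw [v.map_one] at h
      exact not_one_le h
    · have h0 : v x = 0 := eq_zero_of x.2 hx
      have h1 : (x : K) ≠ 0 := v.ne_top_iff.1 (by rw [h0]; exact WithTop.zero_ne_top)
      have h2 : (x : K)⁻¹ ∈ O := by
        change 0 ≤ v (x : K)⁻¹
        rw [v.map_inv, h0, neg_zero]
      have h3 : (1 : O) = ⟨_, h2⟩ * x := Subtype.ext (inv_mul_cancel₀ h1).symm
      rw [h3]
      exact J.mul_mem_left _ hxJ
  exact ⟨O ⧸ M, Ideal.Quotient.field M, inferInstance, O, Ideal.Quotient.mkₐ ℂ M, fun _ => Iff.rfl,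
    Ideal.Quotient.mkₐ_surjective ℂ M, fun _ => Ideal.Quotient.eq_zero_iff_mem⟩

theorem indep {κ ι : Type} [Field κ] [Algebra ℂ κ] {O : Subalgebra ℂ K} {res : O →ₐ[ℂ] κ}
    (mem : ∀ b, b ∈ O ↔ 0 ≤ v b) (ker : ∀ b : O, res b = 0 ↔ 1 ≤ v b) {π : O} (hπ : v π = 1)
    {b : ι → O} (hb : AlgebraicIndependent ℂ fun i => res (b i)) :
    AlgebraicIndependent ℂ fun o : Option ι => o.elim (π : K) fun i => (b i : K) := by
  have e1 : ∀ P : MvPolynomial ι ℂ, aeval (fun i => (b i : K)) P = (aeval b P : O) := fun P =>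
    (comp_aeval_apply b O.val P).symm
  have e2 : ∀ P : MvPolynomial ι ℂ, 1 ≤ v (aeval (fun i => (b i : K)) P) → P = 0 := fun P h => by
    rw [e1, ← ker, comp_aeval_apply] at h
    exact algebraicIndependent_iff.1 hb P h
  refine AlgebraicIndependent.option_iff.2 ⟨algebraicIndependent_iff.2 fun P h => e2 P ?_,
    fun h => ?_⟩
  · rw [h, v.map_zero]; exact le_top
  have h0 : (π : K) ≠ 0 := v.ne_top_iff.1 (by rw [hπ]; exact WithTop.one_ne_top)
  obtain ⟨q, q1, q2⟩ := h.exists_nonzero_coeff_and_aeval_eq_zero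
    (mem_nonZeroDivisors_of_ne_zero h0)
  have hle : Algebra.adjoin ℂ (Set.range fun i => (b i : K)) ≤ O :=
    Algebra.adjoin_le (by rintro _ ⟨i, rfl⟩; exact (b i).2)
  have h1 : Polynomial.aeval (π : K) q.divX ∈ O := by
    rw [Polynomial.aeval_eq_sum_range]
    exact sum_mem fun i _ => mul_mem (hle (q.divX.coeff i).2) (pow_mem π.2 i)
  rw [← q.X_mul_divX_add, map_add, map_mul, Polynomial.aeval_X, Polynomial.aeval_C] at q2
  have h2 : ((q.coeff 0 : _) : K) = -(π * Polynomial.aeval (π : K) q.divX) :=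
    eq_neg_of_add_eq_zero_right q2
  obtain ⟨P, hP⟩ := (Algebra.adjoin_range_eq_range_aeval ℂ _).le (q.coeff 0).2
  have h4 : aeval (fun i => (b i : K)) P = (q.coeff 0 : K) := hP
  have h5 := e2 P (by
    rw [h4, h2, v.map_neg, v.map_mul, hπ]
    exact le_add_of_nonneg_right ((mem _).1 h1))
  rw [h5, map_zero] at h4
  exact q1 (Subtype.ext h4.symm)

/-- evaluation of derivations -/
def ev (b : K) : Derivation ℂ K K →ₗ[K] K where
  toFun δ := δ b
  map_add' _ _ := rfl
  map_smul' _ _ := rfl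

theorem eq_zero_of_gen {σ : Type} {ξ : σ → K}
    (h : IntermediateField.adjoin ℂ (Set.range ξ) = ⊤) {δ : Derivation ℂ K K}
    (h0 : ∀ i, δ (ξ i) = 0) : δ = 0 := by
  ext x
  have hx : x ∈ IntermediateField.adjoin ℂ (Set.range ξ) := by rw [h]; trivial
  change δ x = 0
  induction hx using IntermediateField.adjoin_induction with
  | mem x hx => obtain ⟨i, rfl⟩ := hx; exact h0 i
  | algebraMap c => exact δ.map_algebraMap c
  | add x y _ _ hx hy => rw [map_add, hx, hy, add_zero]
  | inv x _ hx => rw [δ.leibniz_inv, hx, smul_zero]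
  | mul x y _ _ hx hy => rw [δ.leibniz, hx, hy, smul_zero, smul_zero, add_zero]

theorem rank_le {n r : ℕ} {σ : Type} [Fintype σ] [DecidableEq σ] {F : Fin r → MvPolynomial σ ℂ}
    {ξ : σ → K} {j0 : σ} (hc : Fintype.card σ = n + r + 1) (h1 : ξ j0 = 1)
    (h : IntermediateField.adjoin ℂ (Set.range ξ) = ⊤) (hF : ∀ s, aeval ξ (F s) = 0)
    (hh : ∀ s, ∃ d, (F s).IsHomogeneous d)
    (hl : LinearIndependent K fun s i => aeval ξ (pderiv i (F s))) :
    Module.Finite K (Derivation ℂ K K) ∧ Module.finrank K (Derivation ℂ K K) ≤ n := by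
  let A : Matrix (Option (Fin r)) σ K :=
    fun o => o.casesOn' (Pi.single j0 1) fun s i => aeval ξ (pderiv i (F s))
  have hA : LinearIndependent K A.row := by
    refine hl.option fun hm => ?_
    have h2 : ∀ q ∈ Submodule.span K (Set.range fun s i => aeval ξ (pderiv i (F s))),
        ξ ⬝ᵥ q = 0 := fun q hq => by
      induction hq using Submodule.span_induction with
      | mem q hq =>
        obtain ⟨s, rfl⟩ := hq
        obtain ⟨d, hd⟩ := hh s
        have h3 := congrArg (aeval ξ) hd.sum_X_mul_pderiv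
        rw [map_nsmul, hF, smul_zero, map_sum] at h3
        simpa [dotProduct] using h3
      | zero => exact dotProduct_zero _
      | add x y _ _ hx hy => rw [dotProduct_add, hx, hy, add_zero]
      | smul a x _ hx => rw [dotProduct_smul, hx, smul_zero]
    have h4 := h2 _ hm
    rw [dotProduct_single, h1, one_mul] at h4
    exact one_ne_zero h4
  have h5 := hA.rank_matrix
  have h6 := LinearMap.finrank_range_add_finrank_ker A.mulVecLin
  rw [← Matrix.rank, h5, Fintype.card_option, Fintype.card_fin, Module.finrank_fintype_fun_eq_card,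
    hc] at h6
  let E : Derivation ℂ K K →ₗ[K] LinearMap.ker A.mulVecLin :=
    (LinearMap.pi fun i => ev (ξ i)).codRestrict _ fun δ => by
      rw [LinearMap.mem_ker]
      funext o
      cases o with
      | none =>
        change Pi.single j0 1 ⬝ᵥ (fun i => δ (ξ i)) = 0
        rw [single_dotProduct, one_mul, h1, δ.map_one_eq_zero]
      | some s =>
        have h7 := deriv_aeval δ ξ (F s)
        rw [hF, map_zero] at h7
        exact h7.symm
  have hE : Function.Injective E := (injective_iff_map_eq_zero E).2 fun δ hδ =>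
    eq_zero_of_gen h fun i => congrFun (congrArg Subtype.val hδ) i
  refine ⟨Module.Finite.of_injective E hE, (LinearMap.finrank_le_finrank_of_injective hE).trans ?_⟩
  omega

theorem inj_of_surj {n : ℕ} (h1 : Module.Finite K (Derivation ℂ K K))
    (h2 : Module.finrank K (Derivation ℂ K K) ≤ n) {w : Fin n → K}
    (h : ∀ c : Fin n → K, ∃ δ : Derivation ℂ K K, ∀ a, δ (w a) = c a) {δ : Derivation ℂ K K}
    (h0 : ∀ a, δ (w a) = 0) : δ = 0 := by
  let T : Derivation ℂ K K →ₗ[K] (Fin n → K) := LinearMap.pi fun a => ev (w a)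
  have h3 : LinearMap.range T = ⊤ := LinearMap.range_eq_top.2 fun c => by
    obtain ⟨δ, hδ⟩ := h c
    exact ⟨δ, funext hδ⟩
  have h4 := LinearMap.finrank_range_add_finrank_ker T
  rw [h3, finrank_top, Module.finrank_fin_fun] at h4
  have h5 : LinearMap.ker T = ⊥ := Submodule.finrank_eq_zero.1 (by omega)
  exact (LinearMap.ker_eq_bot'.1 h5) δ (funext h0)

theorem span_eq {n : ℕ} {w : Fin n → K} {pd : Fin n → Derivation ℂ K K}
    (dual : ∀ a b, pd a (w b) = if a = b then 1 else 0)
    (inj : ∀ δ : Derivation ℂ K K, (∀ a, δ (w a) = 0) → δ = 0) (b : K) :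
    KaehlerDifferential.D ℂ K b = ∑ a, pd a b • KaehlerDifferential.D ℂ K (w a) := by
  rw [← sub_eq_zero, ← Module.forall_dual_apply_eq_zero_iff K]
  intro φ
  let δ : Derivation ℂ K K := φ.compDer (KaehlerDifferential.D ℂ K)
  have e : ∀ x, ev x (δ - ∑ a, δ (w a) • pd a) = δ x - ∑ a, δ (w a) * pd a x := fun x => by
    rw [map_sub, map_sum]; rfl
  have h1 := inj (δ - ∑ a, δ (w a) • pd a) fun c => by
    refine (e (w c)).trans ?_
    simp [dual]
  have h2 := e b
  rw [h1, map_zero] at h2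
  rw [map_sub, map_sum, h2]
  refine congrArg₂ _ rfl (Finset.sum_congr rfl fun a _ => ?_)
  rw [map_smul, smul_eq_mul, mul_comm]
  rfl

end TrbA

open TrbA in
theorem p_TRB (hDER : S_DER) : S_TRB := by
  intro m r σ _ _ F K _ _ ξ j0 v hc h1 hg hF hh hl hv
  obtain ⟨κ, _, _, O, res, mem, surj, ker⟩ := exists_res hv.const
  obtain ⟨π', hπ⟩ := hv.uniformizer
  obtain ⟨u', u1, u2⟩ : ∃ u : Fin m → K, (∀ i, 0 ≤ v (u i)) ∧
    ∀ P : MvPolynomial (Fin m) ℂ, P ≠ 0 → v (aeval u P) = 0 := hv.residue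
  let π : O := ⟨π', (mem _).2 (by rw [hπ]; exact zero_le_one)⟩
  let u : Fin m → O := fun i => ⟨u' i, (mem _).2 (u1 i)⟩
  have hu : AlgebraicIndependent ℂ fun i => res (u i) := algebraicIndependent_iff.2 fun P h => by
    by_contra hP
    rw [← comp_aeval_apply, ker] at h
    have h2 : ((aeval u P : O) : K) = aeval u' P := comp_aeval_apply u O.val P
    rw [h2, u2 P hP] at h
    exact not_one_le h
  let w : Fin (m + 1) → O := Fin.cons π u
  obtain ⟨f1, f2⟩ := rank_le hc h1 hg hF hh hl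
  have hs : ∀ c : Fin (m + 1) → K, ∃ δ : Derivation ℂ K K, ∀ a, δ (w a) = c a := fun c => by
    obtain ⟨δ, hδ⟩ := hDER ℂ K _ _ (indep mem ker (π := π) hπ hu)
      fun o => o.elim (c 0) fun i => c i.succ
    exact ⟨δ, Fin.cases (hδ none) fun i => hδ (some i)⟩
  have inj : ∀ δ : Derivation ℂ K K, (∀ a, δ (w a) = 0) → δ = 0 := fun δ h =>
    inj_of_surj f1 f2 hs h
  choose pd dual using fun a : Fin (m + 1) => hs fun b => if a = b then 1 else 0
  refine ⟨κ, inferInstance, inferInstance,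
    ⟨⟨O, mem, res, surj, ker, w, hπ, ?_, pd, dual, span_eq dual inj⟩⟩⟩
  refine hu.isTranscendenceBasis_iff_isAlgebraic.2 ⟨fun y => ?_⟩
  obtain ⟨b, rfl⟩ := surj y
  by_contra hb
  have h2 : AlgebraicIndependent ℂ fun o : Option (Fin m) => res (o.elim b u) := by
    have h3 := (hu.option_iff_transcendental _).2 hb
    have h5 : (fun o : Option (Fin m) => o.elim (res b) fun i => res (u i)) =
        fun o => res (o.elim b u) := _root_.funext fun o => by cases o <;> rfl
    rwa [h5] at h3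
  obtain ⟨δ, hδ⟩ := hDER ℂ K _ _ (indep mem ker (π := π) hπ h2)
    fun o => o.elim 0 fun o' => o'.elim 1 fun _ => 0
  have h4 := hδ (some none)
  rw [inj δ (Fin.cases (hδ none) fun i => hδ (some (some i)))] at h4
  exact zero_ne_one h4

end Pool.Agent.P.MP_6149fc_ag
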