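import Pool.Agent.P.MP_6149fc_ag.Iface

namespace Pool.Agent.P.MP_6149fc_ag

open scoped ENNReal
open MvPolynomial MeasureTheory

namespace TrdegA

section
variable {m : ℕ} {K : Type} [Field K] [Algebra ℂ K] {v : AddValuation K (WithTop ℤ)}
  {κ : Type} [Field κ] [Algebra ℂ κ]

theorem denom (D : VD m v κ) (a : K) : ∃ s ∈ D.O, s ≠ 0 ∧ s * a ∈ D.O := by
  by_cases ha : a ∈ D.O
  · exact ⟨1, D.O.one_mem, one_ne_zero, by simpa using ha⟩
  · have ha0 : a ≠ 0 := by rintro rfl; exact ha D.O.zero_mem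
    refine ⟨a⁻¹, ?_, inv_ne_zero ha0, by rw [inv_mul_cancel₀ ha0]; exact D.O.one_mem⟩
    rw [D.mem] at ha ⊢
    by_contra hb
    have h1 : v a + v a⁻¹ = 0 := by rw [← v.map_mul, mul_inv_cancel₀ ha0, v.map_one]
    have h2 : v a + v a⁻¹ ≤ v a + 0 := add_le_add le_rfl (not_le.1 hb).le
    rw [h1, add_zero] at h2
    exact ha h2

/-- The logarithmic derivations on the valuation ring. -/
noncomputable def lo (D : VD m v κ) (h : ∀ b ∈ D.O, ∀ a, D.lpd a b ∈ D.O) (a : Fin (m + 1))
    (b : D.O) : D.O := ⟨D.lpd a b, h b b.2 a⟩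

theorem coe_aeval {σ : Type} (O : Subalgebra ℂ K) (ξ : σ → O) (G : MvPolynomial σ ℂ) :
    ((aeval ξ G : O) : K) = aeval (fun i => (ξ i : K)) G :=
  comp_aeval_apply ξ O.val G

theorem lo_aeval {σ : Type} [Fintype σ] [DecidableEq σ] (D : VD m v κ)
    (h : ∀ b ∈ D.O, ∀ a, D.lpd a b ∈ D.O) (a : Fin (m + 1)) (ξ : σ → D.O)
    (G : MvPolynomial σ ℂ) :
    lo D h a (aeval ξ G) = ∑ i, aeval ξ (pderiv i G) * lo D h a (ξ i) := by
  apply Subtype.ext
  have h1 : ((∑ i, aeval ξ (pderiv i G) * lo D h a (ξ i) : D.O) : K) =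
      ∑ i, aeval (fun i => (ξ i : K)) (pderiv i G) * D.lpd a (ξ i) := by
    rw [AddSubmonoidClass.coe_finsetSum]
    refine Finset.sum_congr rfl fun i _ => ?_
    rw [MulMemClass.coe_mul, coe_aeval]
    rfl
  rw [h1]
  change D.lpd a ((aeval ξ G : D.O) : K) = _
  rw [coe_aeval]
  unfold VD.lpd
  rw [deriv_aeval, Finset.mul_sum]
  refine Finset.sum_congr rfl fun i _ => ?_
  rw [smul_eq_mul]; ring

theorem lo_zero (D : VD m v κ) (h : ∀ b ∈ D.O, ∀ a, D.lpd a b ∈ D.O) (a : Fin (m + 1)) :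
    lo D h a 0 = 0 := by
  apply Subtype.ext
  change D.lpd a ((0 : D.O) : K) = ((0 : D.O) : K)
  simp [VD.lpd]

theorem lo_one (D : VD m v κ) (h : ∀ b ∈ D.O, ∀ a, D.lpd a b ∈ D.O) (a : Fin (m + 1)) :
    lo D h a 1 = 0 := by
  apply Subtype.ext
  change D.lpd a ((1 : D.O) : K) = ((0 : D.O) : K)
  simp [VD.lpd]

theorem span_mul (D : VD m v κ) (h : ∀ b ∈ D.O, ∀ a, D.lpd a b ∈ D.O) (b : D.O) :
    ((D.w 0 : D.O) : K) • KaehlerDifferential.D ℂ K b =
      ∑ a, (((if a = 0 then 1 else D.w 0) * lo D h a b : D.O) : K) •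
        KaehlerDifferential.D ℂ K (D.w a) := by
  rw [D.span b, Finset.smul_sum]
  refine Finset.sum_congr rfl fun a _ => ?_
  rw [smul_smul, MulMemClass.coe_mul]
  congr 1
  change _ = _ * D.lpd a b
  unfold VD.lpd
  split_ifs with ha
  · simp
  · simp

end

theorem cd_lin {σ κ L : Type} [Fintype σ] [Field κ] [Field L] [Algebra κ L]
    (δ : Derivation κ L L) (c : σ → κ) (f : σ → PowerSeries L) :
    cd δ (∑ i, algebraMap κ (PowerSeries L) (c i) * f i) =
      ∑ i, algebraMap κ (PowerSeries L) (c i) * cd δ (f i) := by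
  ext l
  simp only [cd, PowerSeries.coeff_mk, map_sum, PowerSeries.algebraMap_apply,
    PowerSeries.coeff_C_mul]
  refine Finset.sum_congr rfl fun i _ => ?_
  rw [← Algebra.smul_def, ← Algebra.smul_def, Derivation.map_smul]

/-- The constant coefficient as an algebra map. -/
noncomputable def cc (κ L : Type) [Field κ] [Field L] [Algebra κ L] : PowerSeries L →ₐ[κ] L :=
  { PowerSeries.constantCoeff with
    commutes' := fun r => by simp [PowerSeries.algebraMap_apply] }

theorem cc_apply (κ L : Type) [Field κ] [Field L] [Algebra κ L] (f : PowerSeries L) :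
    cc κ L f = PowerSeries.constantCoeff f := rfl

end TrdegA

open TrdegA in
theorem p_TRDEG (hARCID : S_ARCID) (hRANK : S_RANK) (hRK : S_RK) (hTAN : S_TAN) : S_TRDEG := by
  intro m r σ _ _ F K _ _ v κ _ _ D ξ j0 c q N A L _ _ _ _ g hj0 hF hI hA
  classical
  have : CharZero κ := (algebraMap ℂ κ).charZero_iff (algebraMap ℂ κ).injective |>.1 inferInstance
  obtain ⟨u, hu, hπ⟩ := g.ord (D.w 0) 1 (by rw [D.unif]; rfl)
  obtain ⟨u, rfl⟩ := hu
  rw [mul_one] at hπ
  set P : σ → Fin (m + 1) → PowerSeries L := fun i a => g.φ (lo D hI a (ξ i)) with hP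
  set Jm : Matrix (Fin (m + 1)) (Fin (m + 1)) (PowerSeries L) :=
    Matrix.of fun j a => ∑ i, algebraMap κ (PowerSeries L) (c.cz j i) * P i a with hJm
  set e : Fin (m + 1) → PowerSeries L := fun a =>
    if a = 0 then ((u⁻¹ : (PowerSeries L)ˣ) : PowerSeries L) else PowerSeries.X with he
  set M : Matrix (Fin (m + 1)) (Fin (m + 1)) (PowerSeries L) :=
    Matrix.of fun j a => e a * Jm j a with hM
  -- step 1
  have hπ0 : g.φ (D.w 0) ≠ 0 := by
    rw [hπ]
    exact mul_ne_zero (pow_ne_zero _ PowerSeries.X_ne_zero) u.ne_zero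
  have step1 : ∀ cc : Fin (m + 1) × Fin N → L, ∃ δ : Derivation κ L L, ∀ j,
      cd δ (∑ i, algebraMap κ (PowerSeries L) (c.cz j i) * g.φ (ξ i)) =
        ∑ a, M j a * ∑ l' : Fin N, PowerSeries.C (cc (a, l')) * PowerSeries.X ^ (l' : ℕ) := by
    intro cc
    obtain ⟨δ, hδ⟩ := g.vary cc
    refine ⟨δ, fun j => ?_⟩
    have h1 : ∀ i, cd δ (g.φ (ξ i)) = ∑ a, P i a * e a *
        ∑ l' : Fin N, PowerSeries.C (cc (a, l')) * PowerSeries.X ^ (l' : ℕ) := by
      intro i
      have h2 := hARCID (m + 1) K L D.O g.φ (δ.restrictScalars ℂ) D.w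
        (fun a => (if a = 0 then 1 else D.w 0) * lo D hI a (ξ i)) (ξ i) (D.w 0) (denom D) g.inj
        (span_mul D hI (ξ i))
      change g.φ (D.w 0) * cd δ (g.φ (ξ i)) = ∑ a, _ * cd δ (g.φ (D.w a)) at h2
      apply mul_left_cancel₀ hπ0
      rw [h2, Finset.mul_sum]
      refine Finset.sum_congr rfl fun a _ => ?_
      rw [hδ a, map_mul]
      by_cases ha : a = 0
      · simp only [he, hP, if_pos ha, map_one, hπ]
        have : (u : PowerSeries L) * ((u⁻¹ : (PowerSeries L)ˣ) : PowerSeries L) = 1 :=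
          u.mul_inv
        linear_combination (-(PowerSeries.X ^ q * g.φ (lo D hI a (ξ i)) *
          ∑ l' : Fin N, PowerSeries.C (cc (a, l')) * PowerSeries.X ^ (l' : ℕ))) * this
      · simp only [he, hP, if_neg ha]
        ring
    rw [cd_lin]
    simp only [h1, hM, hJm, Matrix.of_apply]
    have h3 : ∀ T : Fin (m + 1) → PowerSeries L,
        ∑ x, algebraMap κ (PowerSeries L) (c.cz j x) * ∑ a, P x a * e a * T a =
        ∑ x, (e x * ∑ i, algebraMap κ (PowerSeries L) (c.cz j i) * P i x) * T x := by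
      intro T
      simp only [Finset.mul_sum, Finset.sum_mul]
      rw [Finset.sum_comm]
      refine Finset.sum_congr rfl fun a _ => Finset.sum_congr rfl fun i _ => ?_
      ring
    exact h3 _
  -- step 2
  have hchain : ∀ (G : MvPolynomial σ ℂ) (a : Fin (m + 1)), g.φ (lo D hI a (aeval ξ G)) =
      ∑ i, aeval (fun i => g.φ (ξ i)) (pderiv i G) * P i a := by
    intro G a
    rw [lo_aeval, map_sum]
    refine Finset.sum_congr rfl fun i _ => ?_
    rw [map_mul, comp_aeval_apply]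
  obtain ⟨⟨Q, hQ⟩, -⟩ := hTAN σ r F (m + 1) κ j0 _ c (PowerSeries L) L (cc κ L)
    (fun i => g.φ (ξ i))
    (fun b hb => PowerSeries.isUnit_iff_constantCoeff.2 (Ne.isUnit hb))
    (fun i => g.const (ξ i))
  have hPQ : ∀ i a, P i a = ∑ b, Q i b * Jm b a := by
    intro i a
    refine hQ (fun i => P i a) ?_ (fun s => ?_) i
    · simp only [hP, hj0, lo_one, map_zero]
    · rw [← hchain, hF, lo_zero, map_zero]
  have hgen : ∀ x ∈ AddSubgroup.closure
      {e : K | ∃ (c : K) (G : Fin (m + 1) → MvPolynomial σ ℂ), c ∈ D.O ∧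
        e = c * Matrix.det (Matrix.of fun i a => D.lpd a (aeval (fun i => (ξ i : K)) (G i)))},
      ∃ b : D.O, (b : K) = x ∧ Jm.det ∣ g.φ b := by
    intro x hx
    induction hx using AddSubgroup.closure_induction with
    | mem x hx =>
      obtain ⟨c', G, hc', rfl⟩ := hx
      refine ⟨⟨c', hc'⟩ * Matrix.det (Matrix.of fun i a => lo D hI a (aeval ξ (G i))), ?_, ?_⟩
      · rw [MulMemClass.coe_mul]
        congr 1
        have := D.O.val.map_det (Matrix.of fun i a => lo D hI a (aeval ξ (G i)))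
        refine this.trans ?_
        congr 1
        ext i a
        simp only [AlgHom.mapMatrix_apply, Matrix.map_apply, Matrix.of_apply, Subalgebra.coe_val]
        rw [← coe_aeval]
        rfl
      · rw [map_mul]
        apply Dvd.dvd.mul_left
        rw [g.φ.map_det]
        have : g.φ.mapMatrix (Matrix.of fun i a => lo D hI a (aeval ξ (G i))) =
            (Matrix.of fun i b => ∑ k, aeval (fun i => g.φ (ξ i)) (pderiv k (G i)) * Q k b) *
              Jm := by
          ext1 i a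
          simp only [AlgHom.mapMatrix_apply, Matrix.map_apply, Matrix.of_apply, Matrix.mul_apply,
            hchain, hPQ, Finset.mul_sum, Finset.sum_mul]
          rw [Finset.sum_comm]
          refine Finset.sum_congr rfl fun b _ => Finset.sum_congr rfl fun k _ => ?_
          ring
        rw [this, Matrix.det_mul]
        exact Dvd.intro_left _ rfl
    | zero => exact ⟨0, rfl, by simp⟩
    | add x y _ _ hx hy =>
      obtain ⟨b, rfl, hb⟩ := hx
      obtain ⟨b', rfl, hb'⟩ := hy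
      exact ⟨b + b', rfl, by rw [map_add]; exact dvd_add hb hb'⟩
    | neg x _ hx =>
      obtain ⟨b, rfl, hb⟩ := hx
      exact ⟨-b, rfl, by rw [map_neg]; exact hb.neg_right⟩
  have hdet : M.det ∣ PowerSeries.X ^ (q * A + m) := by
    obtain ⟨b, hb, t, ht⟩ := hgen _ hA
    have hb' : b = D.w 0 ^ A := Subtype.ext (by rw [hb]; simp)
    rw [hb', map_pow, hπ] at ht
    rw [hM, Matrix.det_mul_row, Fin.prod_univ_succ]
    simp only [he, if_pos, Fin.succ_ne_zero, if_false, Finset.prod_const, Finset.card_univ,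
      Fintype.card_fin]
    refine ⟨t * ((u⁻¹ : (PowerSeries L)ˣ) : PowerSeries L) ^ A * u, ?_⟩
    have h1 : (u : PowerSeries L) * ((u⁻¹ : (PowerSeries L)ˣ) : PowerSeries L) = 1 := u.mul_inv
    have h2 : (u : PowerSeries L) ^ A * ((u⁻¹ : (PowerSeries L)ˣ) : PowerSeries L) ^ A = 1 := by
      rw [← mul_pow, h1, one_pow]
    calc (PowerSeries.X : PowerSeries L) ^ (q * A + m)
        = (PowerSeries.X ^ q * (u : PowerSeries L)) ^ A *
          ((u⁻¹ : (PowerSeries L)ˣ) : PowerSeries L) ^ A * PowerSeries.X ^ m *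
          ((u : PowerSeries L) * ((u⁻¹ : (PowerSeries L)ˣ) : PowerSeries L)) := by
          rw [h1, mul_one, mul_pow, mul_assoc (_ ^ A) (_ ^ A), h2, mul_one, pow_add, pow_mul]
      _ = _ := by rw [ht]; ring
  -- step 3
  obtain ⟨W, hW, hq⟩ := hRANK L (m + 1) N (q * A + m) M hdet
  obtain ⟨S, hS, hind⟩ := hRK κ L (Fin (m + 1) × Fin N)
    (fun b => PowerSeries.coeff (b.2 : ℕ)
      (∑ i, algebraMap κ (PowerSeries L) (c.cz b.1 i) * g.φ (ξ i))) W (by
      intro q' hq'
      obtain ⟨cc, hcc⟩ := hq q' hq'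
      obtain ⟨δ, hδ⟩ := step1 cc
      refine ⟨δ, fun b => ?_⟩
      obtain ⟨j, l⟩ := b
      rw [hcc j l, ← hδ j]
      simp only [cd, PowerSeries.coeff_mk])
  exact ⟨S, by omega, hind⟩

end Pool.Agent.P.MP_6149fc_ag
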