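import Pool.Agent.P.MP_6149fc_ag.Iface

namespace Pool.Agent.P.MP_6149fc_ag

open scoped ENNReal
open MvPolynomial MeasureTheory

namespace ValA

/-- The constant coefficient as an algebra map. -/
noncomputable def cc (κ L : Type) [Field κ] [Field L] [Algebra κ L] : PowerSeries L →ₐ[κ] L :=
  { (PowerSeries.constantCoeff : PowerSeries L →+* L) with
    commutes' := fun t => by
      change PowerSeries.constantCoeff (algebraMap κ (PowerSeries L) t) = _
      rw [PowerSeries.algebraMap_apply, PowerSeries.constantCoeff_C] }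

theorem cc_apply {κ L : Type} [Field κ] [Field L] [Algebra κ L] (f : PowerSeries L) :
    cc κ L f = PowerSeries.constantCoeff f := rfl

variable {m r : ℕ} {σ : Type} [Fintype σ] [DecidableEq σ] {F : Fin r → MvPolynomial σ ℂ} {K : Type}
  [Field K] [Algebra ℂ K] {v : AddValuation K (WithTop ℤ)} {κ : Type} [Field κ] [Algebra ℂ κ]
  {D : VD m v κ} {ξ : σ → D.O} {j0 : σ}

theorem pt_j0 {n : ℕ} {x : σ → κ} (c : Chart F n j0 x) {C : Type} [CommRing C] [Algebra κ C]
    (z : Fin n → C) (y : Fin r → C) : c.pt z y j0 = 1 := by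
  simp [Chart.pt, c.x_j0, c.vv_j0, c.ww_j0]

theorem cz_pt {n : ℕ} {x : σ → κ} (c : Chart F n j0 x) {C : Type} [CommRing C] [Algebra κ C]
    (z : Fin n → C) (y : Fin r → C) (a : Fin n) :
    ∑ i, algebraMap κ C (c.cz a i) * c.pt z y i = z a := by
  have h1 : ∑ i, algebraMap κ C (c.cz a i) * algebraMap κ C (x i) = 0 := by
    simp only [← map_mul, ← map_sum, c.cz_x, map_zero]
  have h2 : ∀ b, ∑ i, algebraMap κ C (c.cz a i) * (z b * algebraMap κ C (c.vv b i)) =
      if a = b then z b else 0 := fun b => by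
    simp only [mul_left_comm _ (z b), ← Finset.mul_sum, ← map_mul, ← map_sum, c.cz_vv]
    split_ifs <;> simp
  have h3 : ∀ l, ∑ i, algebraMap κ C (c.cz a i) * (y l * algebraMap κ C (c.ww l i)) = 0 :=
    fun l => by
      simp only [mul_left_comm _ (y l), ← Finset.mul_sum, ← map_mul, ← map_sum, c.cz_ww,
        map_zero, mul_zero]
  simp only [Chart.pt, mul_add, Finset.sum_add_distrib, h1, Finset.mul_sum]
  rw [Finset.sum_comm, Finset.sum_congr rfl fun b _ => h2 b, Finset.sum_comm (s := Finset.univ)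
    (t := Finset.univ) (f := fun i l => algebraMap κ C (c.cz a i) * (y l * algebraMap κ C (c.ww l i))),
    Finset.sum_congr rfl fun l _ => h3 l]
  simp

/-- An arc is determined by its tangent coordinates. -/
theorem arc_id (hTAN : S_TAN) (c : Chart F (m + 1) j0 fun i => D.res (ξ i))
    {y : Fin r → MvPowerSeries (Fin (m + 1)) κ} (hy : c.IsParam y) (h1 : ξ j0 = 1)
    (hF : ∀ s, aeval ξ (F s) = 0) {q N : ℕ} {L : Type} [Field L] [Algebra ℂ L] [Algebra κ L]
    [IsScalarTower ℂ κ L] (g : GenArc D q N L) (z : Fin (m + 1) → PowerSeries L)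
    (hzd : ∀ a, z a = ∑ i, algebraMap κ (PowerSeries L) (c.cz a i) * g.φ (ξ i)) :
    (∀ a, PowerSeries.constantCoeff (z a) = 0) ∧
    ∃ ψ : MvPowerSeries (Fin (m + 1)) κ →ₐ[κ] PowerSeries L, (∀ f, ψ f = sub z f) ∧
      ∀ G : MvPolynomial σ ℂ, ψ (aeval (c.pt MvPowerSeries.X y) G) = g.φ (aeval ξ G) := by
  have hz : ∀ a, PowerSeries.constantCoeff (z a) = 0 := fun a => by
    rw [hzd, ← cc_apply (κ := κ), map_sum]
    simp only [map_mul, AlgHom.commutes]
    simp only [cc_apply, g.const, ← map_mul, ← map_sum, c.cz_x a, map_zero]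
  obtain ⟨ψ, hψ, hX⟩ := exists_subHom (κ := κ) hz
  refine ⟨hz, ψ, hψ, ?_⟩
  have hy0 : ∀ l, cc κ L (ψ (y l)) = 0 := fun l => by
    have h0 : MvPowerSeries.constantCoeff (y l) = 0 := by
      simpa using hy.1 l 0 (by simp)
    have hle : Ideal.span (Set.range (MvPowerSeries.X : Fin (m + 1) → MvPowerSeries _ κ)) ≤
        RingHom.ker ((cc κ L).comp ψ) := by
      rw [Ideal.span_le]
      rintro _ ⟨a, rfl⟩
      change cc κ L (ψ _) = 0
      rw [hX, cc_apply, hz]
    exact hle (mem_span_X _ h0)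
  have hψa : ∀ G : MvPolynomial σ ℂ, ψ (aeval (c.pt MvPowerSeries.X y) G) =
      aeval (fun i => ψ (c.pt MvPowerSeries.X y i)) G := fun G =>
    comp_aeval_apply _ (ψ.restrictScalars ℂ) G
  have hφa : ∀ G : MvPolynomial σ ℂ, g.φ (aeval ξ G) = aeval (fun i => g.φ (ξ i)) G := fun G =>
    comp_aeval_apply _ g.φ G
  have key := (hTAN σ r F (m + 1) κ j0 _ c (PowerSeries L) L (cc κ L) (fun i => g.φ (ξ i))
    (fun b hb => PowerSeries.isUnit_iff_constantCoeff.2 (IsUnit.mk0 _ hb))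
    (fun i => g.const (ξ i))).2 (fun i => ψ (c.pt MvPowerSeries.X y i)) (fun i => ?_) ?_
    (fun s => ?_) (fun a => ?_)
  · intro G
    rw [hψa, hφa, key]
  · simp only [Chart.pt, map_add, map_sum, map_mul, AlgHom.commutes, hy0, hX, zero_mul,
      Finset.sum_const_zero, add_zero]
    simp only [cc_apply, hz, zero_mul, Finset.sum_const_zero, add_zero]
  · simp only [pt_j0, h1, map_one]
  · rw [← hψa, ← hφa, hy.2 s, hF s, map_zero, map_zero]
  · rw [← hzd, ← hX, ← cz_pt c MvPowerSeries.X y a, map_sum]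
    simp only [map_mul, AlgHom.commutes]

omit [Fintype σ] [DecidableEq σ] in
theorem coe_aeval (G : MvPolynomial σ ℂ) :
    ((aeval ξ G : D.O) : K) = aeval (fun i => (ξ i : K)) G :=
  comp_aeval_apply _ D.O.val G

theorem dvd_of_le {q N : ℕ} {L : Type} [Field L] [Algebra ℂ L] [Algebra κ L]
    (g : GenArc D q N L) (b : D.O) (lam : ℕ) (h : ((lam : ℤ) : WithTop ℤ) ≤ v b) :
    (PowerSeries.X : PowerSeries L) ^ (q * lam) ∣ g.φ b := by
  by_cases hb : b = 0
  · subst hb; simp
  have hne : v b ≠ ⊤ := by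
    rw [AddValuation.ne_top_iff]; exact fun h => hb (Subtype.ext h)
  obtain ⟨e, he⟩ := WithTop.ne_top_iff_exists.1 hne
  rw [← he, WithTop.coe_le_coe] at h
  obtain ⟨u, -, hu⟩ := g.ord b e.toNat (by rw [← he, Int.toNat_of_nonneg (by omega)])
  rw [hu]
  exact Dvd.dvd.mul_right (pow_dvd_pow _ (Nat.mul_le_mul_left q (by omega))) u

end ValA

open ValA in
theorem p_VAL (hGENARC : S_GENARC) (hINTEG : S_INTEG) (hLOGD : S_LOGD) (hTRDEG : S_TRDEG) (hJET : S_JET) (hTAN : S_TAN) : S_VAL := by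
  intro m r σ _ _ F K _ _ v κ _ _ D ξ j0 c y hy h1 hF hgen
  refine ⟨fun G hG => ?_, fun wt lam μ f γ hf hγ hμ => ?_⟩
  · obtain ⟨L, _, _, _, _, ⟨g⟩⟩ := hGENARC m K v κ D 1 1 le_rfl le_rfl
    obtain ⟨-, ψ, -, hψ⟩ := arc_id hTAN c hy h1 hF g _ fun _ => rfl
    have h2 := hψ G
    rw [hG, map_zero, ← map_zero g.φ] at h2
    rw [← coe_aeval, ← g.inj h2]; rfl
  · set A := logDiscrepancy (m + 1) v fun i => (ξ i : K) with hA
    by_contra hlt
    have hI := hINTEG m K v κ D
    have hL := hLOGD m K v κ D σ (fun i => (ξ i : K)) (fun i => (ξ i).2) hgen hI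
    obtain ⟨L, _, _, _, _, ⟨g⟩⟩ := hGENARC m K v κ D (μ * m + 1) ((μ * m + 1) * lam) (by omega)
      (Nat.mul_pos (by omega) (by omega))
    obtain ⟨hz, ψ, hsub, hψ⟩ := arc_id hTAN c hy h1 hF g _ fun _ => rfl
    obtain ⟨S, hS, hind⟩ := hTRDEG m r σ F K v κ D ξ j0 c _ _ A L g h1 hF hI hL
    have hdvd : (PowerSeries.X : PowerSeries L) ^ ((μ * m + 1) * lam) ∣ ψ f := by
      clear hγ
      induction hf using Submodule.span_induction with
      | mem h hh =>
        obtain ⟨G, hG, rfl⟩ := hh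
        rw [hψ]
        exact dvd_of_le g _ lam (by rwa [coe_aeval])
      | zero => simp
      | add a b _ _ ha hb => rw [map_add]; exact dvd_add ha hb
      | smul t a _ ha => rw [map_smul, Algebra.smul_def]; exact Dvd.dvd.mul_left ha _
    have hJ := hJET (m + 1) κ L wt _ f γ _ μ S hz hγ hμ
      (fun s hs => by rw [← hsub]; exact PowerSeries.X_pow_dvd_iff.1 hdvd s hs) hind
    have h3 := Nat.mul_le_mul_left μ hS
    have h4 : (μ * m + 1) * (μ * A + 1) ≤ (μ * m + 1) * lam :=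
      Nat.mul_le_mul_left _ (by omega)
    nlinarith

end Pool.Agent.P.MP_6149fc_ag
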