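import Pool.Agent.P.MP_6149fc_ag.Bm
import Pool.Agent.P.MP_6149fc_ag.Bary
import Pool.Agent.P.MP_6149fc_ag.Cube
import Pool.Agent.P.MP_6149fc_ag.Body
import Pool.Agent.P.MP_6149fc_ag.Conv
import Pool.Agent.P.MP_6149fc_ag.Fsm
import Pool.Agent.P.MP_6149fc_ag.Der
import Pool.Agent.P.MP_6149fc_ag.Rk
import Pool.Agent.P.MP_6149fc_ag.Lift
import Pool.Agent.P.MP_6149fc_ag.Genarc
import Pool.Agent.P.MP_6149fc_ag.Arcid
import Pool.Agent.P.MP_6149fc_ag.Integ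
import Pool.Agent.P.MP_6149fc_ag.Rank
import Pool.Agent.P.MP_6149fc_ag.Jet
import Pool.Agent.P.MP_6149fc_ag.Trb
import Pool.Agent.P.MP_6149fc_ag.Logd2
import Pool.Agent.P.MP_6149fc_ag.Hensel
import Pool.Agent.P.MP_6149fc_ag.Param
import Pool.Agent.P.MP_6149fc_ag.Tan
import Pool.Agent.P.MP_6149fc_ag.Init
import Pool.Agent.P.MP_6149fc_ag.Pow
import Pool.Agent.P.MP_6149fc_ag.Indep
import Pool.Agent.P.MP_6149fc_ag.Null
import Pool.Agent.P.MP_6149fc_ag.Chart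
import Pool.Agent.P.MP_6149fc_ag.Lef
import Pool.Agent.P.MP_6149fc_ag.Cut
import Pool.Agent.P.MP_6149fc_ag.Geom
import Pool.Agent.P.MP_6149fc_ag.Hilb
import Pool.Agent.P.MP_6149fc_ag.Trdeg
import Pool.Agent.P.MP_6149fc_ag.Val
import Pool.Agent.P.MP_6149fc_ag.Main

/-! All steps, unconditionally. -/

namespace Pool.Agent.P.MP_6149fc_ag

theorem t_BM : S_BM := p_BM
theorem t_BARY : S_BARY := p_BARY t_BM
theorem t_CUBE : S_CUBE := p_CUBE
theorem t_BODY : S_BODY := p_BODY t_CUBE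
theorem t_CONV : S_CONV := p_CONV t_CUBE t_BODY t_BARY
theorem t_FSM : S_FSM := p_FSM
theorem t_DER : S_DER := p_DER t_FSM
theorem t_RK : S_RK := p_RK
theorem t_LIFT : S_LIFT := p_LIFT t_FSM
theorem t_GENARC : S_GENARC := p_GENARC t_LIFT t_DER
theorem t_ARCID : S_ARCID := p_ARCID
theorem t_INTEG : S_INTEG := p_INTEG t_GENARC t_ARCID
theorem t_RANK : S_RANK := p_RANK
theorem t_JET : S_JET := p_JET
theorem t_TRB : S_TRB := p_TRB t_DER
theorem t_LOGD : S_LOGD := p_LOGD2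
theorem t_HENSEL : S_HENSEL := p_HENSEL
theorem t_PARAM : S_PARAM := p_PARAM t_HENSEL
theorem t_TAN : S_TAN := p_TAN
theorem t_INIT : S_INIT := p_INIT
theorem t_POW : S_POW := p_POW
theorem t_INDEP : S_INDEP := p_INDEP t_TAN t_DER
theorem t_NULL : S_NULL := p_NULL
theorem t_CHART : S_CHART := p_CHART
theorem t_LEF : S_LEF := p_LEF t_DER
theorem t_CUT : S_CUT := p_CUT
theorem t_GEOM : S_GEOM := p_GEOM t_CHART t_LEF t_CUT t_PARAM
theorem t_HILB : S_HILB := p_HILB t_HENSEL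
theorem t_TRDEG : S_TRDEG := p_TRDEG t_ARCID t_RANK t_RK t_TAN
theorem t_VAL : S_VAL := p_VAL t_GENARC t_INTEG t_LOGD t_TRDEG t_JET t_TAN

end Pool.Agent.P.MP_6149fc_ag
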