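import Pool.Agent.P.MP_6149fc_ag.Defs

/-! Auxiliary definitions and small lemmas shared by all files of the proof. -/

namespace Pool.Agent.P.MP_6149fc_ag

open scoped ENNReal
open MvPolynomial

/-- The standard simplex with vertices `0, e₁, …, eₙ`. -/
def simplex (n : ℕ) : Set (Fin n → ℝ) := {x | (∀ i, 0 ≤ x i) ∧ ∑ i, x i ≤ 1}

/-- A graded semigroup of exponents with levels. -/
structure Semi (n : ℕ) where
  Γ : ℕ → ℕ → Finset (Fin n →₀ ℕ)
  add : ∀ M M' j j' a b, a ∈ Γ M j → b ∈ Γ M' j' → a + b ∈ Γ (M + M') (j + j')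
  anti : ∀ M j j', j ≤ j' → Γ M j' ⊆ Γ M j
  zero0 : 0 ∈ Γ 0 0
  zero1 : 0 ∈ Γ 1 0
  single1 : ∀ i, Finsupp.single i 1 ∈ Γ 1 0

/-- The monomial order: first the weight, then the lexicographic order. -/
noncomputable def key {n : ℕ} (wt : Fin n → ℕ) (α : Fin n →₀ ℕ) : ℕ ×ₗ Lex (Fin n →₀ ℕ) :=
  toLex (Finsupp.weight wt α, toLex α)

theorem key_add {n : ℕ} (wt : Fin n → ℕ) (α β : Fin n →₀ ℕ) :
    key wt (α + β) = key wt α + key wt β := by
  simp only [key, map_add]; rfl

theorem key_injective {n : ℕ} (wt : Fin n → ℕ) : Function.Injective (key wt) := by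
  intro α β h
  have := congrArg (fun p => ofLex (ofLex p).2) h
  simpa [key] using this

theorem key_lt_of_weight_lt {n : ℕ} (wt : Fin n → ℕ) {α β : Fin n →₀ ℕ}
    (h : Finsupp.weight wt α < Finsupp.weight wt β) : key wt α < key wt β :=
  Prod.Lex.toLex_lt_toLex.2 (Or.inl h)

theorem key_wf {n : ℕ} (wt : Fin n → ℕ) :
    WellFounded fun α β : Fin n →₀ ℕ => key wt α < key wt β :=
  InvImage.wf (key wt) wellFounded_lt

/-- `γ` is the exponent of the initial (smallest) monomial of the power series `f`. -/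
def IsInit {n : ℕ} {κ : Type} [Field κ] (wt : Fin n → ℕ) (f : MvPowerSeries (Fin n) κ)
    (γ : Fin n →₀ ℕ) : Prop :=
  MvPowerSeries.coeff γ f ≠ 0 ∧ ∀ α, MvPowerSeries.coeff α f ≠ 0 → key wt γ ≤ key wt α

/-- Smoothness of the cone over `F = 0` away from its vertex, for points in any ring. -/
def USmooth {σ : Type} [Fintype σ] {r : ℕ} (F : Fin r → MvPolynomial σ ℂ) : Prop :=
  ∀ (C : Type) [CommRing C] [Algebra ℂ C] (J : Ideal C) (P : σ → C) (lam : Fin r → C),
    (∀ s, aeval P (F s) ∈ J) → (∀ i, ∑ s, lam s * aeval P (pderiv i (F s)) ∈ J) →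
    ∀ s i, lam s * P i ∈ J.radical

/-- Linear coordinates adapted to the point `x` of `F = 0`: the basis `x, vv, ww` of `κ^σ` has
the dual basis `e_{j0}, cz, ∇F(x)`; the `vv` span the tangent space. -/
structure Chart {σ : Type} [Fintype σ] [DecidableEq σ] {r : ℕ} (F : Fin r → MvPolynomial σ ℂ)
    (n : ℕ) {κ : Type} [Field κ] [Algebra ℂ κ] (j0 : σ) (x : σ → κ) where
  vv : Fin n → σ → κ
  ww : Fin r → σ → κ
  cz : Fin n → σ → κ
  x_j0 : x j0 = 1
  onX : ∀ s, aeval x (F s) = 0
  vv_j0 : ∀ a, vv a j0 = 0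
  ww_j0 : ∀ l, ww l j0 = 0
  cz_x : ∀ a, ∑ i, cz a i * x i = 0
  cz_vv : ∀ a b, ∑ i, cz a i * vv b i = if a = b then 1 else 0
  cz_ww : ∀ a l, ∑ i, cz a i * ww l i = 0
  cy_x : ∀ s, ∑ i, aeval x (pderiv i (F s)) * x i = 0
  cy_vv : ∀ s a, ∑ i, aeval x (pderiv i (F s)) * vv a i = 0
  cy_ww : ∀ s l, ∑ i, aeval x (pderiv i (F s)) * ww l i = if s = l then 1 else 0
  decomp : ∀ i i', (if i = i' then 1 else 0 : κ) = x i * (if i' = j0 then 1 else 0) +
    ∑ a, vv a i * cz a i' + ∑ l, ww l i * aeval x (pderiv i' (F l))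

section
variable {σ : Type} [Fintype σ] [DecidableEq σ] {r : ℕ} {F : Fin r → MvPolynomial σ ℂ}
  {n : ℕ} {κ : Type} [Field κ] [Algebra ℂ κ] {j0 : σ} {x : σ → κ}

/-- The point `x + ∑ z a • vv a + ∑ y l • ww l` with coordinates in a `κ`-algebra. -/
noncomputable def Chart.pt (c : Chart F n j0 x) {C : Type} [CommRing C] [Algebra κ C]
    (z : Fin n → C) (y : Fin r → C) (i : σ) : C :=
  algebraMap κ C (x i) + ∑ a, z a * algebraMap κ C (c.vv a i) +
    ∑ l, y l * algebraMap κ C (c.ww l i)

/-- The formal parametrisation of `F = 0` at `x` by the tangent coordinates. -/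
def Chart.IsParam (c : Chart F n j0 x) (y : Fin r → MvPowerSeries (Fin n) κ) : Prop :=
  (∀ l α, Finsupp.degree α < 2 → MvPowerSeries.coeff α (y l) = 0) ∧
    ∀ s, aeval (c.pt MvPowerSeries.X y) (F s) = 0
end

/-- A map of the coefficient field applied to all coefficients of a power series. -/
noncomputable def cd {L : Type} [Field L] (δ : L → L) (f : PowerSeries L) : PowerSeries L :=
  PowerSeries.mk fun l => δ (PowerSeries.coeff l f)

/-- Substitution of arcs into a power series. -/
noncomputable def sub {n : ℕ} {κ L : Type} [Field κ] [Field L] [Algebra κ L]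
    (z : Fin n → PowerSeries L) (f : MvPowerSeries (Fin n) κ) : PowerSeries L :=
  MvPowerSeries.subst (τ := Unit) z f

/-- The data attached to a prime divisor: valuation ring, residue field, local coordinates
`w 0` (a uniformiser), `w 1, …`, and the dual derivations. -/
structure VD (m : ℕ) {K : Type} [Field K] [Algebra ℂ K] (v : AddValuation K (WithTop ℤ))
    (κ : Type) [Field κ] [Algebra ℂ κ] where
  O : Subalgebra ℂ K
  mem : ∀ b, b ∈ O ↔ 0 ≤ v b
  res : O →ₐ[ℂ] κ
  surj : Function.Surjective res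
  ker : ∀ b : O, res b = 0 ↔ 1 ≤ v b
  w : Fin (m + 1) → O
  unif : v (w 0) = 1
  basis : IsTranscendenceBasis ℂ fun a : Fin m => res (w a.succ)
  pd : Fin (m + 1) → Derivation ℂ K K
  dual : ∀ a b, pd a (w b) = if a = b then 1 else 0
  span : ∀ b : K, KaehlerDifferential.D ℂ K b = ∑ a, pd a b • KaehlerDifferential.D ℂ K (w a)

/-- The logarithmic derivations `w 0 * ∂₀, ∂₁, …`. -/
noncomputable def VD.lpd {m : ℕ} {K : Type} [Field K] [Algebra ℂ K]
    {v : AddValuation K (WithTop ℤ)} {κ : Type} [Field κ] [Algebra ℂ κ] (D : VD m v κ)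
    (a : Fin (m + 1)) (b : K) : K :=
  (if a = 0 then (D.w 0 : K) else 1) * D.pd a b

/-- A generic arc of contact order `q` along the divisor, with `N` free coefficients in each
coordinate. -/
structure GenArc {m : ℕ} {K : Type} [Field K] [Algebra ℂ K]
    {v : AddValuation K (WithTop ℤ)} {κ : Type} [Field κ] [Algebra ℂ κ] (D : VD m v κ)
    (q N : ℕ) (L : Type) [Field L] [Algebra ℂ L] [Algebra κ L] where
  φ : D.O →ₐ[ℂ] PowerSeries L
  const : ∀ b, PowerSeries.constantCoeff (φ b) = algebraMap κ L (D.res b)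
  ord : ∀ (b : D.O) (e : ℕ), v b = ((e : ℤ) : WithTop ℤ) →
    ∃ u : PowerSeries L, IsUnit u ∧ φ b = PowerSeries.X ^ (q * e) * u
  inj : Function.Injective φ
  vary : ∀ c : Fin (m + 1) × Fin N → L, ∃ δ : Derivation κ L L, ∀ a,
    cd δ (φ (D.w a)) = PowerSeries.X ^ (if a = 0 then q else 1) *
      ∑ l : Fin N, PowerSeries.C (c (a, l)) * PowerSeries.X ^ (l : ℕ)

/-! ### First order Taylor formula -/

theorem taylor {σ : Type} [Fintype σ] [DecidableEq σ] {R C : Type} [CommRing R] [CommRing C]
    [Algebra R C] (J : Ideal C) (a b : σ → C) (hab : ∀ i, a i - b i ∈ J) (G : MvPolynomial σ R) :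
    ∃ h : σ → C, aeval a G - aeval b G = ∑ i, (a i - b i) * h i ∧
      ∀ i, h i - aeval b (pderiv i G) ∈ J := by
  induction G using MvPolynomial.induction_on with
  | C c => exact ⟨0, by simp, by simp⟩
  | add p q hp hq =>
    obtain ⟨h1, e1, m1⟩ := hp
    obtain ⟨h2, e2, m2⟩ := hq
    refine ⟨h1 + h2, ?_, fun i => ?_⟩
    · simp only [map_add, Pi.add_apply, mul_add, Finset.sum_add_distrib, ← e1, ← e2]; ring
    · have := J.add_mem (m1 i) (m2 i)
      convert this using 1
      simp only [map_add, Pi.add_apply]; ring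
  | mul_X p j hp =>
    obtain ⟨h1, e1, m1⟩ := hp
    refine ⟨fun i => h1 i * a j + if i = j then aeval b p else 0, ?_, fun i => ?_⟩
    · simp only [map_mul, aeval_X, mul_add, Finset.sum_add_distrib, mul_ite, mul_zero,
        Finset.sum_ite_eq', Finset.mem_univ, if_true, ← mul_assoc, ← Finset.sum_mul, ← e1]
      ring
    · have := J.add_mem (J.mul_mem_right (a j) (m1 i))
        (J.mul_mem_left (aeval b (pderiv i p)) (hab j))
      convert this using 1
      by_cases hij : i = j
      · subst hij; simp [Derivation.leibniz]; ring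
      · simp [Derivation.leibniz, hij, pderiv_X_of_ne (Ne.symm hij)]; ring

/-- Chain rule for a derivation. -/
theorem deriv_aeval {σ : Type} [Fintype σ] [DecidableEq σ] {R C M : Type} [CommRing R]
    [CommRing C] [Algebra R C] [AddCommGroup M] [Module C M] [Module R M] (δ : Derivation R C M)
    (p : σ → C) (G : MvPolynomial σ R) :
    δ (aeval p G) = ∑ i, aeval p (pderiv i G) • δ (p i) := by
  induction G using MvPolynomial.induction_on with
  | C c => simp
  | add p q hp hq => simp [hp, hq, add_smul, Finset.sum_add_distrib]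
  | mul_X q j hq =>
    simp only [map_mul, aeval_X, Derivation.leibniz, hq, smul_eq_mul, map_add, add_smul,
      Finset.sum_add_distrib, Finset.smul_sum, smul_smul]
    congr 1
    rw [Finset.sum_eq_single j]
    · simp
    · intro i _ hij; simp [pderiv_X_of_ne (Ne.symm hij)]
    · simp

/-! ### Power series -/

/-- Division by the `N`-th powers of the variables. -/
theorem mem_span_X_pow {n : ℕ} {R : Type} [CommRing R] (N : ℕ) (f : MvPowerSeries (Fin n) R)
    (h : ∀ α : Fin n →₀ ℕ, (∀ a, α a < N) → MvPowerSeries.coeff α f = 0) :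
    f ∈ Ideal.span (Set.range fun a : Fin n => (MvPowerSeries.X a : MvPowerSeries (Fin n) R) ^ N) := by
  classical
  let g : Fin n → MvPowerSeries (Fin n) R := fun a β =>
    if ∀ b < a, β b < N then MvPowerSeries.coeff (Finsupp.single a N + β) f else 0
  have : f = ∑ a, MvPowerSeries.X a ^ N * g a := by
    ext α
    rw [map_sum]
    simp only [MvPowerSeries.X_pow_eq, MvPowerSeries.coeff_monomial_mul, one_mul]
    by_cases hα : ∀ a, α a < N
    · rw [h α hα, Finset.sum_eq_zero]
      intro a _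
      rw [if_neg]
      rw [Finsupp.single_le_iff]; exact not_le.2 (hα a)
    · push Not at hα
      obtain ⟨a, ha, hmin⟩ := (wellFounded_lt (α := Fin n)).has_min {a | N ≤ α a} hα
      rw [Finset.sum_eq_single a]
      · rw [if_pos (Finsupp.single_le_iff.2 ha)]
        change _ = if _ then _ else _
        rw [if_pos, add_tsub_cancel_of_le (Finsupp.single_le_iff.2 ha)]
        intro b hb
        have := hmin b
        simp only [Set.mem_ofPred_eq] at this
        have h2 : α b < N := by by_contra h3; exact this (not_lt.1 h3) hb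
        simp only [Finsupp.coe_tsub, Pi.sub_apply]; omega
      · intro b _ hba
        split_ifs with hb
        · change (if _ then _ else _) = _
          rw [if_neg]
          intro hc
          have hb' := Finsupp.single_le_iff.1 hb
          have hab : a < b := lt_of_le_of_ne (not_lt.1 (hmin b hb')) (Ne.symm hba)
          have := hc a hab
          simp only [Finsupp.coe_tsub, Pi.sub_apply, Finsupp.single_apply, if_neg hba] at this
          exact absurd ha (by simp only [Set.mem_ofPred_eq]; omega)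
        · rfl
      · simp
  rw [this]
  exact Ideal.sum_mem _ fun a _ => Ideal.mul_mem_right _ _ (Ideal.subset_span ⟨a, rfl⟩)

theorem mem_span_X {n : ℕ} {R : Type} [CommRing R] (f : MvPowerSeries (Fin n) R)
    (h : MvPowerSeries.constantCoeff f = 0) :
    f ∈ Ideal.span (Set.range (MvPowerSeries.X : Fin n → MvPowerSeries (Fin n) R)) := by
  have := mem_span_X_pow 1 f fun α hα => by
    have : α = 0 := by ext a; have := hα a; simp; omega
    subst this; simpa using h
  simpa using this

section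
variable {n : ℕ} {κ L : Type} [Field κ] [Field L] [Algebra κ L] {z : Fin n → PowerSeries L}

theorem hasSubst_of (hz : ∀ a, PowerSeries.constantCoeff (z a) = 0) :
    MvPowerSeries.HasSubst (τ := Unit) z :=
  MvPowerSeries.hasSubst_of_constantCoeff_zero hz

/-- Substitution is an algebra map. -/
theorem exists_subHom (hz : ∀ a, PowerSeries.constantCoeff (z a) = 0) :
    ∃ ψ : MvPowerSeries (Fin n) κ →ₐ[κ] PowerSeries L, (∀ f, ψ f = sub z f) ∧
      ∀ a, ψ (MvPowerSeries.X a) = z a :=
  ⟨MvPowerSeries.substAlgHom (hasSubst_of hz), fun f => MvPowerSeries.substAlgHom_apply _ f,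
    fun a => MvPowerSeries.substAlgHom_X _ a⟩

theorem coeff_prod_pow_eq_zero {C : Type} [CommRing C] {z : Fin n → PowerSeries C}
    (hz : ∀ a, PowerSeries.constantCoeff (z a) = 0) (α : Fin n →₀ ℕ) (s : ℕ)
    (h : s < Finsupp.degree α) : PowerSeries.coeff s (∏ a, z a ^ α a) = 0 := by
  have : (PowerSeries.X : PowerSeries C) ^ Finsupp.degree α ∣ ∏ a, z a ^ α a := by
    rw [Finsupp.degree_eq_sum, ← Finset.prod_pow_eq_pow_sum]
    exact Finset.prod_dvd_prod_of_dvd _ _ fun a _ =>
      pow_dvd_pow_of_dvd (PowerSeries.X_dvd_iff.2 (hz a)) _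
  exact PowerSeries.X_pow_dvd_iff.1 this s h

/-- The coefficients of a substitution, as a finite sum. -/
theorem coeff_sub (hz : ∀ a, PowerSeries.constantCoeff (z a) = 0) (f : MvPowerSeries (Fin n) κ)
    (s : ℕ) (A : Finset (Fin n →₀ ℕ)) (hA : ∀ α, Finsupp.degree α ≤ s → α ∈ A) :
    PowerSeries.coeff s (sub z f) =
      ∑ α ∈ A, MvPowerSeries.coeff α f • PowerSeries.coeff s (∏ a, z a ^ α a) := by
  have h1 := MvPowerSeries.coeff_subst (hasSubst_of hz) f (Finsupp.single () s)
  have h2 : ∀ α : Fin n →₀ ℕ, (α.prod fun a e => z a ^ e) = ∏ a, z a ^ α a := fun α =>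
    Finsupp.prod_fintype _ _ (by simp)
  change PowerSeries.coeff s (sub z f) = ∑ᶠ α : Fin n →₀ ℕ, MvPowerSeries.coeff α f •
    PowerSeries.coeff s (α.prod fun a e => z a ^ e) at h1
  rw [h1]
  simp only [h2]
  apply finsum_eq_sum_of_support_subset
  intro α hα
  by_contra hn
  apply hα
  have : s < Finsupp.degree α := by by_contra h3; exact hn (hA α (not_lt.1 h3))
  simp [coeff_prod_pow_eq_zero hz α s this]
end

end Pool.Agent.P.MP_6149fc_ag
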