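import Pool.Agent.P.MP_6149fc_ag.Iface

namespace Pool.Agent.P.MP_6149fc_ag

open scoped ENNReal
open MvPolynomial MeasureTheory

namespace BmA

open Set

theorem scale {c d : ℝ} (hc : 0 < c) {S T : Set ℝ} (h : ∀ x ∈ S, c * x + d ∈ T) :
    ENNReal.ofReal c * volume S ≤ volume T := by
  have h1 : S ⊆ (c * ·) ⁻¹' ((· + d) ⁻¹' T) := h
  refine (mul_le_mul_right (measure_mono h1) _).trans_eq ?_
  rw [Real.volume_preimage_mul_left hc.ne', measure_preimage_add_right, ← mul_assoc,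
    ← ENNReal.ofReal_mul hc.le, abs_of_pos (inv_pos.2 hc), mul_inv_cancel₀ hc.ne',
    ENNReal.ofReal_one, one_mul]

theorem le_sup_Iic {A : Set ℝ} (hA : MeasurableSet A) :
    volume A ≤ ⨆ a : A, volume (A ∩ Iic a.1) := by
  rw [hA.measure_eq_iSup_isCompact]
  refine iSup_le fun K => iSup_le fun h1 => iSup_le fun h2 => ?_
  rcases K.eq_empty_or_nonempty with rfl | h3
  · simp
  · obtain ⟨a, h4, h5⟩ := h2.exists_isGreatest h3
    exact le_iSup_of_le ⟨a, h1 h4⟩ (measure_mono fun x hx => ⟨h1 hx, h5 hx⟩)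

theorem le_sup_Ioi {A : Set ℝ} (hA : MeasurableSet A) :
    volume A ≤ ⨆ a : A, volume (A ∩ Ioi a.1) := by
  rw [hA.measure_eq_iSup_isCompact]
  refine iSup_le fun K => iSup_le fun h1 => iSup_le fun h2 => ?_
  rcases K.eq_empty_or_nonempty with rfl | h3
  · simp
  · obtain ⟨a, h4, h5⟩ := h2.exists_isLeast h3
    refine le_iSup_of_le ⟨a, h1 h4⟩ ?_
    rw [← measure_sdiff_null (s := K) (Real.volume_singleton (a := a))]
    exact measure_mono fun x hx => ⟨h1 hx.1, lt_of_le_of_ne (h5 hx.1) (Ne.symm hx.2)⟩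

variable {t : ℝ}

/-- The inequality for sets on the line. -/
theorem one_set (h0 : 0 < t) (h1 : t < 1) {A B C : Set ℝ} (hA : MeasurableSet A)
    (hB : MeasurableSet B) (hA' : A.Nonempty) (hB' : B.Nonempty)
    (h : ∀ x ∈ A, ∀ y ∈ B, (1 - t) * x + t * y ∈ C) :
    ENNReal.ofReal (1 - t) * volume A + ENNReal.ofReal t * volume B ≤ volume C := by
  have := hA'.to_subtype
  have := hB'.to_subtype
  have h2 : 0 < 1 - t := sub_pos.2 h1
  refine (add_le_add (mul_le_mul_right (le_sup_Iic hA) _)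
    (mul_le_mul_right (le_sup_Ioi hB) _)).trans ?_
  rw [ENNReal.mul_iSup, ENNReal.mul_iSup]
  refine ENNReal.iSup_add_iSup_le fun a b => ?_
  rw [← measure_inter_add_sdiff C (measurableSet_Iic (a := (1 - t) * a.1 + t * b.1))]
  refine add_le_add (scale (d := t * b.1) h2 fun x hx => ⟨h x hx.1 b b.2, ?_⟩)
    (scale (d := (1 - t) * a.1) h0 fun y hy => ⟨add_comm (t * y) _ ▸ h a a.2 y hy.1, ?_⟩)
  · have := mul_le_mul_of_nonneg_left (mem_Iic.1 hx.2) h2.le
    rw [mem_Iic]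
    linarith
  · have := mul_lt_mul_of_pos_left (mem_Ioi.1 hy.2) h0
    rw [mem_Iic, not_le]
    linarith

theorem layer {F : ℝ → ℝ≥0∞} (hF : Measurable F) :
    ∫⁻ s in Ioo (0 : ℝ) 1, volume {x | ENNReal.ofReal s ≤ F x} = ∫⁻ x, min (F x) 1 := by
  have hS : MeasurableSet {p : ℝ × ℝ | ENNReal.ofReal p.2 ≤ F p.1} :=
    measurableSet_le (by fun_prop) (by fun_prop)
  refine (Measure.prod_apply_symm hS).symm.trans ((Measure.prod_apply hS).trans
    (lintegral_congr fun x => ?_))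
  have h1 : min (F x) 1 ≠ ∞ := ne_top_of_le_ne_top ENNReal.one_ne_top (min_le_right _ _)
  have h2 : (min (F x) 1).toReal ≤ 1 := ENNReal.toReal_le_of_le_ofReal zero_le_one (by simp)
  rw [Measure.restrict_apply' measurableSet_Ioo, ← ENNReal.ofReal_toReal h1,
    ← sub_zero (min (F x) 1).toReal]
  refine le_antisymm ((measure_mono fun s hs => ?_).trans_eq Real.volume_Ioc)
    (Real.volume_Ioo.symm.trans_le (measure_mono fun s hs => ?_))
  · exact ⟨hs.2.1, (ENNReal.ofReal_le_iff_le_toReal h1).1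
      (le_min hs.1 (ENNReal.ofReal_le_one.2 hs.2.2.le))⟩
  · exact ⟨((ENNReal.ofReal_le_iff_le_toReal h1).2 hs.2.le).trans (min_le_left _ _), hs.1,
      hs.2.trans_le h2⟩

theorem amgm (h0 : 0 < t) (h1 : t < 1) (p q : ℝ≥0∞) :
    p ^ (1 - t) * q ^ t ≤ ENNReal.ofReal (1 - t) * p + ENNReal.ofReal t * q := by
  have h2 : 0 < 1 - t := sub_pos.2 h1
  induction p with
  | top => simp [ENNReal.mul_top, h1]
  | coe p =>
    induction q with
    | top => simp [ENNReal.mul_top, h0]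
    | coe q =>
      have h := NNReal.geom_mean_le_arith_mean2_weighted (1 - t).toNNReal t.toNNReal p q (by
        rw [← Real.toNNReal_add h2.le h0.le, sub_add_cancel, Real.toNNReal_one])
      rw [Real.coe_toNNReal _ h2.le, Real.coe_toNNReal _ h0.le] at h
      rw [← ENNReal.coe_rpow_of_nonneg _ h2.le, ← ENNReal.coe_rpow_of_nonneg _ h0.le,
        ENNReal.ofReal, ENNReal.ofReal]
      exact_mod_cast h

/-- The normalized inequality for functions on the line. -/
theorem one_norm (h0 : 0 < t) (h1 : t < 1) {f g h : ℝ → ℝ≥0∞} (hf : Measurable f)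
    (hg : Measurable g) (hh : Measurable h) (hf1 : ⨆ x, f x = 1) (hg1 : ⨆ x, g x = 1)
    (H : ∀ x y, f x ^ (1 - t) * g y ^ t ≤ h ((1 - t) * x + t * y)) :
    (∫⁻ x, f x) ^ (1 - t) * (∫⁻ x, g x) ^ t ≤ ∫⁻ x, h x := by
  have h2 : 0 < 1 - t := sub_pos.2 h1
  have e : ∀ {F : ℝ → ℝ≥0∞}, Measurable F → ⨆ x, F x = 1 →
      ∫⁻ x, F x = ∫⁻ s in Ioo (0 : ℝ) 1, volume {x | ENNReal.ofReal s ≤ F x} := fun hF hF1 => by
    rw [layer hF]
    exact lintegral_congr fun x => (min_eq_left (hF1 ▸ le_iSup _ x)).symm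
  have m : ∀ {F : ℝ → ℝ≥0∞}, Measurable F →
      Measurable fun s : ℝ => volume {x | ENNReal.ofReal s ≤ F x} := fun {F} hF =>
    measurable_measure_prodMk_left (s := {p : ℝ × ℝ | ENNReal.ofReal p.1 ≤ F p.2})
      (measurableSet_le (by fun_prop) (by fun_prop))
  have n : ∀ {F : ℝ → ℝ≥0∞} {s : ℝ}, s < 1 → ⨆ x, F x = 1 →
      {x | ENNReal.ofReal s ≤ F x}.Nonempty := fun hs hF1 =>
    (lt_iSup_iff.1 (hF1 ▸ ENNReal.ofReal_lt_one.2 hs)).imp fun _ hx => hx.le
  refine (amgm h0 h1 _ _).trans (le_trans ?_ (lintegral_mono fun x => min_le_left (h x) 1))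
  rw [e hf hf1, e hg hg1, ← layer hh, ← lintegral_const_mul _ (m hf),
    ← lintegral_const_mul _ (m hg), ← lintegral_add_left ((m hf).const_mul _)]
  refine setLIntegral_mono' measurableSet_Ioo fun s hs => one_set h0 h1
    (measurableSet_le measurable_const hf) (measurableSet_le measurable_const hg) (n hs.2 hf1)
    (n hs.2 hg1) fun x hx y hy => le_trans ?_ (H x y)
  refine le_trans (le_of_eq ?_)
    (mul_le_mul' (ENNReal.rpow_le_rpow hx h2.le) (ENNReal.rpow_le_rpow hy h0.le))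
  rw [← ENNReal.rpow_add_of_nonneg _ _ h2.le h0.le, sub_add_cancel, ENNReal.rpow_one]

/-- The inequality for bounded functions on the line. -/
theorem one_bdd (h0 : 0 < t) (h1 : t < 1) {f g h : ℝ → ℝ≥0∞} (hf : Measurable f)
    (hg : Measurable g) (hh : Measurable h) (hf1 : ⨆ x, f x ≠ ∞) (hg1 : ⨆ x, g x ≠ ∞)
    (H : ∀ x y, f x ^ (1 - t) * g y ^ t ≤ h ((1 - t) * x + t * y)) :
    (∫⁻ x, f x) ^ (1 - t) * (∫⁻ x, g x) ^ t ≤ ∫⁻ x, h x := by
  have h2 : 0 < 1 - t := sub_pos.2 h1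
  by_cases hf0 : ⨆ x, f x = 0
  · simp [ENNReal.iSup_eq_zero.1 hf0, h2]
  by_cases hg0 : ⨆ x, g x = 0
  · simp [ENNReal.iSup_eq_zero.1 hg0, h0]
  generalize ha : ⨆ x, f x = a at hf0 hf1
  generalize hb : ⨆ x, g x = b at hg0 hg1
  have h3 := one_norm h0 h1 (hf.const_mul a⁻¹) (hg.const_mul b⁻¹)
    (hh.const_mul (a⁻¹ ^ (1 - t) * b⁻¹ ^ t))
    (by rw [← ENNReal.mul_iSup, ha, ENNReal.inv_mul_cancel hf0 hf1])
    (by rw [← ENNReal.mul_iSup, hb, ENNReal.inv_mul_cancel hg0 hg1]) fun x y => by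
      rw [ENNReal.mul_rpow_of_nonneg _ _ h2.le, ENNReal.mul_rpow_of_nonneg _ _ h0.le,
        mul_mul_mul_comm]
      exact mul_le_mul_right (H x y) _
  rw [lintegral_const_mul _ hf, lintegral_const_mul _ hg, lintegral_const_mul _ hh,
    ENNReal.mul_rpow_of_nonneg _ _ h2.le, ENNReal.mul_rpow_of_nonneg _ _ h0.le,
    mul_mul_mul_comm] at h3
  refine (ENNReal.mul_le_mul_iff_right ?_ ?_).1 h3
  · exact mul_ne_zero (ENNReal.rpow_pos (ENNReal.inv_pos.2 hf1) (ENNReal.inv_ne_top.2 hf0)).ne'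
      (ENNReal.rpow_pos (ENNReal.inv_pos.2 hg1) (ENNReal.inv_ne_top.2 hg0)).ne'
  · exact ENNReal.mul_ne_top (ENNReal.rpow_ne_top_of_nonneg h2.le (ENNReal.inv_ne_top.2 hf0))
      (ENNReal.rpow_ne_top_of_nonneg h0.le (ENNReal.inv_ne_top.2 hg0))

theorem trunc {F : ℝ → ℝ≥0∞} (hF : Measurable F) {r : ℝ} (hr : 0 < r) :
    (∫⁻ x, F x) ^ r = ⨆ k : ℕ, (∫⁻ x, min (F x) k) ^ r := by
  have h := (ENNReal.orderIsoRpow r hr).map_iSup fun k : ℕ => ∫⁻ x, min (F x) k
  simp only [ENNReal.orderIsoRpow_apply] at h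
  rw [← h, ← lintegral_iSup (fun k => hF.min measurable_const)
    fun k l hkl x => min_le_min_left _ (Nat.cast_le.2 hkl)]
  refine congrArg (· ^ r) (lintegral_congr fun x => ?_)
  have := inf_iSup_eq (F x) fun k : ℕ => (k : ℝ≥0∞)
  rwa [ENNReal.iSup_natCast, inf_top_eq] at this

/-- The inequality for functions on the line. -/
theorem one_fun (h0 : 0 < t) (h1 : t < 1) {f g h : ℝ → ℝ≥0∞} (hf : Measurable f)
    (hg : Measurable g) (hh : Measurable h)
    (H : ∀ x y, f x ^ (1 - t) * g y ^ t ≤ h ((1 - t) * x + t * y)) :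
    (∫⁻ x, f x) ^ (1 - t) * (∫⁻ x, g x) ^ t ≤ ∫⁻ x, h x := by
  have h2 : 0 < 1 - t := sub_pos.2 h1
  have b : ∀ (F : ℝ → ℝ≥0∞) (k : ℕ), ⨆ x, min (F x) k ≠ ∞ := fun F k =>
    ne_top_of_le_ne_top (ENNReal.natCast_ne_top k) (iSup_le fun x => min_le_right _ _)
  rw [trunc hf h2, trunc hg h0, ENNReal.iSup_mul]
  refine iSup_le fun k => ?_
  rw [ENNReal.mul_iSup]
  exact iSup_le fun l => one_bdd h0 h1 (hf.min measurable_const) (hg.min measurable_const) hh
    (b f k) (b g l) fun x y => (mul_le_mul' (ENNReal.rpow_le_rpow (min_le_left _ _) h2.le)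
      (ENNReal.rpow_le_rpow (min_le_left _ _) h0.le)).trans (H x y)

/-- The inequality of Prekopa and Leindler. -/
theorem pl (h0 : 0 < t) (h1 : t < 1) (n : ℕ) : ∀ f g h : (Fin n → ℝ) → ℝ≥0∞, Measurable f →
    Measurable g → Measurable h → (∀ x y, f x ^ (1 - t) * g y ^ t ≤ h ((1 - t) • x + t • y)) →
    (∫⁻ x, f x) ^ (1 - t) * (∫⁻ x, g x) ^ t ≤ ∫⁻ x, h x := by
  induction n with
  | zero =>
    intro f g h _ _ _ H
    simp only [lintegral_unique, volume_pi, Measure.pi_univ, Finset.univ_eq_empty,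
      Finset.prod_empty, mul_one]
    exact (H _ _).trans_eq (congrArg h (Subsingleton.elim _ _))
  | succ n ih =>
    intro f g h hf hg hh H
    let e := (MeasurableEquiv.piFinSuccAbove (fun _ : Fin (n + 1) => ℝ) 0).symm
    have he : MeasurePreserving e := (volume_preserving_piFinSuccAbove _ 0).symm _
    have i : ∀ F : (Fin (n + 1) → ℝ) → ℝ≥0∞, Measurable F →
        ∫⁻ x, F x = ∫⁻ x, ∫⁻ y, F (e (x, y)) := fun F hF => by
      rw [← he.lintegral_comp hF, Measure.volume_eq_prod]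
      exact lintegral_prod _ (hF.comp e.measurable).aemeasurable
    rw [i f hf, i g hg, i h hh]
    refine one_fun h0 h1 (hf.comp e.measurable).lintegral_prod_right'
      (hg.comp e.measurable).lintegral_prod_right' (hh.comp e.measurable).lintegral_prod_right'
      fun x x' => ih _ _ _ (by fun_prop) (by fun_prop) (by fun_prop) fun y y' =>
        (H _ _).trans_eq (congrArg h (funext fun j => ?_))
    refine Fin.cases ?_ (fun j => ?_) j <;> simp [e, MeasurableEquiv.piFinSuccAbove]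

end BmA

theorem p_BM : S_BM := by
  intro n A B C t hA hB hC h0 h1 h
  have h2 : 0 < 1 - t := sub_pos.2 h1
  rw [← lintegral_indicator_one hA, ← lintegral_indicator_one hB, ← lintegral_indicator_one hC]
  refine BmA.pl h0 h1 n _ _ _ (measurable_one.indicator hA) (measurable_one.indicator hB)
    (measurable_one.indicator hC) fun x y => ?_
  by_cases hx : x ∈ A
  · by_cases hy : y ∈ B
    · simp [hx, hy, h x hx y hy]
    · simp [hy, h0]
  · simp [hx, h2]

end Pool.Agent.P.MP_6149fc_ag
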