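import Pool.Agent.P.MP_6149fc_ag.Iface

namespace Pool.Agent.P.MP_6149fc_ag

open scoped ENNReal
open MvPolynomial MeasureTheory

namespace ChartA

open Matrix Module

variable {σ κ : Type} [Fintype σ] [DecidableEq σ] [Field κ] {r n : ℕ} {g : Fin r → σ → κ}
  {j0 : σ} {x : σ → κ}

omit [DecidableEq σ] in
theorem exists_ww (hg : LinearIndependent κ g) (h1 : x j0 = 1) (h2 : of g *ᵥ x = 0) :
    ∃ w : Fin r → σ → κ, ∀ l, w l j0 = 0 ∧ of g *ᵥ w l = Pi.single l 1 := by
  have h3 : LinearMap.range (of g).mulVecLin = ⊤ :=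
    Submodule.eq_top_of_finrank_eq ((LinearIndependent.rank_matrix (M := of g) hg).trans (by simp))
  choose w hw using fun l => LinearMap.range_eq_top.1 h3 (Pi.single l 1)
  refine ⟨fun l => w l - w l j0 • x, fun l => ⟨by simp [h1], ?_⟩⟩
  rw [mulVec_sub, mulVec_smul, h2, smul_zero, sub_zero]
  exact hw l

omit [DecidableEq σ] in
theorem exists_all (hc : Fintype.card σ = n + r + 1) (h1 : x j0 = 1) (h2 : of g *ᵥ x = 0)
    {w : Fin r → σ → κ} (hw : ∀ l, w l j0 = 0 ∧ of g *ᵥ w l = Pi.single l 1) :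
    ∃ (v : Fin n → σ → κ) (c : (σ → κ) →ₗ[κ] Fin n → κ), (∀ a, v a j0 = 0 ∧ of g *ᵥ v a = 0) ∧
      c x = 0 ∧ (∀ a, c (v a) = Pi.single a 1) ∧ (∀ l, c (w l) = 0) ∧
      ∀ u, u = u j0 • x + ∑ a, c u a • v a + ∑ l, (of g *ᵥ u) l • w l := by
  let T : (σ → κ) →ₗ[κ] κ × (Fin r → κ) := (LinearMap.proj j0).prod (of g).mulVecLin
  let S : κ × (Fin r → κ) →ₗ[κ] σ → κ :=
    (LinearMap.toSpanSingleton κ _ x).coprod (Fintype.linearCombination κ w)
  have hT : ∀ u, T u = (u j0, of g *ᵥ u) := fun _ => rfl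
  have hS : ∀ p, S p = p.1 • x + ∑ l, p.2 l • w l := fun _ => rfl
  have hTS : ∀ p, T (S p) = p := fun p => by
    rw [hT, hS]
    refine Prod.ext (by simp [h1, hw]) ?_
    simp only [mulVec_add, mulVec_smul, h2, mulVec_sum, hw, smul_zero, zero_add]
    funext l
    simp [Pi.single_apply]
  have h3 : finrank κ (LinearMap.ker T) = n := by
    have := T.finrank_range_add_finrank_ker
    rw [LinearMap.range_eq_top.2 fun p => ⟨S p, hTS p⟩] at this
    simp at this
    omega
  let b := Module.finBasisOfFinrankEq κ (LinearMap.ker T) h3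
  let π : (σ → κ) →ₗ[κ] LinearMap.ker T :=
    (LinearMap.id - S ∘ₗ T).codRestrict _ fun u => by simp [hTS]
  have hπ : ∀ u, (π u : σ → κ) = u - S (T u) := fun _ => rfl
  have h4 : ∀ p, π (S p) = 0 := fun p => Subtype.ext (by rw [hπ, hTS, sub_self]; rfl)
  refine ⟨fun a => b a, b.equivFun.toLinearMap ∘ₗ π, fun a => Prod.ext_iff.1 (b a).2, ?_,
    fun a => ?_, fun l => ?_, fun u => ?_⟩
  · have : x = S (1, 0) := by simp [hS]
    rw [this, LinearMap.comp_apply, h4, map_zero]
  · have : π (b a) = b a := Subtype.ext (by rw [hπ, (b a).2, map_zero, sub_zero])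
    rw [LinearMap.comp_apply, this]
    funext a'
    simp [Pi.single_apply, eq_comm]
  · have : w l = S (0, Pi.single l 1) := by simp [hS, Pi.single_apply]
    rw [this, LinearMap.comp_apply, h4, map_zero]
  · have := congrArg Subtype.val (b.sum_equivFun (π u))
    rw [hπ, hS, hT, Submodule.coe_sum] at this
    simp only [Submodule.coe_smul] at this
    rw [add_right_comm, ← sub_eq_iff_eq_add']
    exact this.symm

theorem lin (c : (σ → κ) →ₗ[κ] Fin n → κ) (a : Fin n) (u : σ → κ) :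
    ∑ i, c (Pi.single i 1) a * u i = c u a := by
  conv_rhs => rw [← Finset.univ_sum_single u, map_sum, Finset.sum_apply]
  refine Finset.sum_congr rfl fun i _ => ?_
  rw [← mul_one (u i), ← smul_eq_mul (u i), Pi.single_smul, map_smul]
  simp [mul_comm]

end ChartA

open Matrix in
theorem p_CHART : S_CHART := by
  intro σ _ _ r F n κ _ _ j0 x hc h1 h0 hF hg
  have h2 : of (fun s i => aeval x (pderiv i (F s))) *ᵥ x = 0 := funext fun s => by
    obtain ⟨d, hd⟩ := hF s
    have := congrArg (aeval x) hd.sum_X_mul_pderiv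
    rw [map_nsmul, h0, smul_zero, map_sum] at this
    simpa [mulVec, dotProduct, mul_comm] using this
  obtain ⟨w, hw⟩ := ChartA.exists_ww hg h1 h2
  obtain ⟨v, c, h3, h4, h5, h6, h7⟩ := ChartA.exists_all hc h1 h2 hw
  refine ⟨⟨v, w, fun a i => c (Pi.single i 1) a, h1, h0, fun a => (h3 a).1, fun l => (hw l).1,
    fun a => ?_, fun a b => ?_, fun a l => ?_, fun s => congrFun h2 s,
    fun s a => congrFun (h3 a).2 s, fun s l => (congrFun (hw l).2 s).trans (Pi.single_apply _ _ _),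
    fun i i' => ?_⟩⟩
  · rw [ChartA.lin, h4, Pi.zero_apply]
  · rw [ChartA.lin, h5, Pi.single_apply]
  · rw [ChartA.lin, h6, Pi.zero_apply]
  · simpa [Pi.single_apply, mul_comm, eq_comm, ite_apply] using congrFun (h7 (Pi.single i' 1)) i

end Pool.Agent.P.MP_6149fc_ag
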