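import Mathlib

/-!
Valuative K-semistability for a projective variety `X` in its embedding by `O(1)`.

The function field of `X` is presented by a field `K` over `ℂ` with the homogeneous coordinates
`ξ` of the generic point of `X`, in an affine chart that contains the centre of the valuation.
-/

namespace Pool.Agent.P.MP_6149fc_ag

open scoped ENNReal

variable {σ : Type} {K : Type} [Field K] [Algebra ℂ K]

/-- `ξ` are homogeneous coordinates of the generic point of the projective variety with
homogeneous ideal `I`, normalised by `ξ j = 1`, and `K` is the function field they generate. -/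
structure IsGenericPoint (I : Ideal (MvPolynomial σ ℂ)) (ξ : σ → K) (j : σ) : Prop where
  chart : ξ j = 1
  generates : IntermediateField.adjoin ℂ (Set.range ξ) = ⊤
  vanishes_iff : ∀ (G : MvPolynomial σ ℂ) (M : ℕ), G.IsHomogeneous M →
    (MvPolynomial.aeval ξ G = 0 ↔ G ∈ I)

/-- `v` is the order of vanishing along a prime divisor of the function field `K` of dimension
`n`: a discrete valuation with value group `ℤ`, trivial on `ℂ`, whose residue field has
transcendence degree `n - 1`. -/
structure IsPrimeDivisor (n : ℕ) (v : AddValuation K (WithTop ℤ)) : Prop where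
  const : ∀ c : ℂ, 0 ≤ v (algebraMap ℂ K c)
  uniformizer : ∃ π : K, v π = 1
  residue : ∃ u : Fin (n - 1) → K, (∀ i, 0 ≤ v (u i)) ∧
    ∀ P : MvPolynomial (Fin (n - 1)) ℂ, P ≠ 0 → v (MvPolynomial.aeval u P) = 0

/-- The sections of `O(M)`: forms of degree `M`, as functions in the chart. -/
noncomputable def sections (ξ : σ → K) (M : ℕ) : Submodule ℂ K :=
  (MvPolynomial.homogeneousSubmodule σ ℂ M).map (MvPolynomial.aeval ξ).toLinearMap

/-- The sections of `O(M)` that vanish to order at least `t M` along `v`. -/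
noncomputable def vanishing (v : AddValuation K (WithTop ℤ)) (ξ : σ → K) (t : ℝ) (M : ℕ) :
    Submodule ℂ K :=
  Submodule.span ℂ {g | g ∈ sections ξ M ∧ ((⌈t * M⌉ : ℤ) : WithTop ℤ) ≤ v g}

/-- The volume `limsup n! dim (W M) / M ^ n` of a graded family of spaces of sections. -/
noncomputable def vol (n : ℕ) (W : ℕ → Submodule ℂ K) : ℝ≥0∞ :=
  Filter.limsup
    (fun M : ℕ => (n.factorial * Module.finrank ℂ (W M) : ℝ≥0∞) / (M : ℝ≥0∞) ^ n) Filter.atTop

/-- The expected vanishing order `S(v) = (1 / vol H) ∫₀^∞ vol (H - t E) dt`. -/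
noncomputable def expectedOrder (n : ℕ) (v : AddValuation K (WithTop ℤ)) (ξ : σ → K) : ℝ≥0∞ :=
  (∫⁻ t in Set.Ioi (0 : ℝ), vol n (vanishing v ξ t)) / vol n (sections ξ)

section
variable {Ω : Type} [AddCommGroup Ω] [Module K Ω]

/-- The module over the valuation ring of `v` spanned by the `n`-forms `d a₁ ∧ ⋯ ∧ d aₙ` with
all `aᵢ` in `T`. -/
noncomputable def topForms (n : ℕ) (v : AddValuation K (WithTop ℤ)) (d : K → Ω) (T : Set K) :
    AddSubgroup (ExteriorAlgebra K Ω) :=
  AddSubgroup.closure {ω | ∃ (c : K) (a : Fin n → K), 0 ≤ v c ∧ (∀ i, a i ∈ T) ∧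
    ω = c • ExteriorAlgebra.ιMulti K n fun i => d (a i)}

/-- The least `k` such that elements of valuation at least `k` multiply the `n`-forms regular
along the divisor of `v` into the module spanned by the `n`-forms of `T`. -/
noncomputable def formOrder (n : ℕ) (v : AddValuation K (WithTop ℤ)) (d : K → Ω) (T : Set K) : ℕ :=
  sInf {k : ℕ | ∀ c : K, ((k : ℤ) : WithTop ℤ) ≤ v c →
    ∀ ω ∈ topForms n v d {b | 0 ≤ v b}, c • ω ∈ topForms n v d T}
end

/-- The log discrepancy `A(v) = 1 + ord_E (K_Y - f^* K_X)` over a smooth `X`, computed with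
Kähler differentials in the affine chart of `X` with coordinate ring `ℂ[ξ]`. -/
noncomputable def logDiscrepancy (n : ℕ) (v : AddValuation K (WithTop ℤ)) (ξ : σ → K) : ℕ :=
  1 + formOrder n v (KaehlerDifferential.D ℂ K) (Algebra.adjoin ℂ (Set.range ξ) : Subalgebra ℂ K)

/-- The Jacobian matrix of `F` has full rank at every nonzero common zero of `F`. -/
def Nonsingular {r : ℕ} (F : Fin r → MvPolynomial σ ℂ) : Prop :=
  ∀ p : σ → ℂ, p ≠ 0 → (∀ s, MvPolynomial.eval p (F s) = 0) →
    LinearIndependent ℂ fun s i => MvPolynomial.eval p (MvPolynomial.pderiv i (F s))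

/-- The valuative criterion `S(E) ≤ A(E)` for every prime divisor `E` over the smooth
`n`-dimensional projective variety with homogeneous ideal `I`, polarised by `O(1)`. -/
def ValuativeCriterion (n : ℕ) (I : Ideal (MvPolynomial σ ℂ)) : Prop :=
  ∀ (K : Type) [Field K] [Algebra ℂ K] (ξ : σ → K) (j : σ), IsGenericPoint I ξ j →
    ∀ v : AddValuation K (WithTop ℤ), IsPrimeDivisor n v → (∀ i, 0 ≤ v (ξ i)) →
      expectedOrder n v ξ ≤ logDiscrepancy n v ξ

end Pool.Agent.P.MP_6149fc_ag
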