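import Pool.Agent.P.MP_6149fc_ag.Basic

/-! Statements of the steps of the proof. -/

namespace Pool.Agent.P.MP_6149fc_ag

open scoped ENNReal
open MvPolynomial MeasureTheory

/-! ### Convex geometry -/

/-- Brunn-Minkowski, multiplicative form. -/
def S_BM : Prop :=
  ∀ (n : ℕ) (A B C : Set (Fin n → ℝ)) (t : ℝ), MeasurableSet A → MeasurableSet B →
    MeasurableSet C → 0 < t → t < 1 → (∀ x ∈ A, ∀ y ∈ B, (1 - t) • x + t • y ∈ C) →
    volume A ^ (1 - t) * volume B ^ t ≤ volume C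

/-- Barycentre of a convex body that contains a simplex. -/
def S_BARY : Prop :=
  ∀ (n : ℕ) (D : Set (Fin n → ℝ)) (ε : Fin n → ℝ), Convex ℝ D → MeasurableSet D →
    (∀ x ∈ D, ∀ i, 0 ≤ x i) → (0 : Fin n → ℝ) ∈ D → (∀ i, 0 < ε i) →
    (∀ i, Pi.single i (ε i) ∈ D) → ∀ i,
      ((n + 1 : ℕ) : ℝ≥0∞) * ENNReal.ofReal (∏ j ∈ Finset.univ.erase i, ε j) *
        volume (simplex n) * ∫⁻ x in D, ENNReal.ofReal (x i) ≤ volume D ^ 2

/-- Unit cubes at lattice points. -/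
def S_CUBE : Prop :=
  ∀ n : ℕ,
    (∀ (Λ : Finset (Fin n →₀ ℕ)) (D : Set (Fin n → ℝ)), MeasurableSet D →
      (∀ γ ∈ Λ, ∀ x : Fin n → ℝ, (∀ i, (γ i : ℝ) ≤ x i ∧ x i < γ i + 1) → x ∈ D) →
      (Λ.card : ℝ≥0∞) ≤ volume D ∧
        ∀ i, ((∑ γ ∈ Λ, γ i : ℕ) : ℝ≥0∞) ≤ ∫⁻ x in D, ENNReal.ofReal (x i)) ∧
    (∀ (Λ : Finset (Fin n →₀ ℕ)) (D : Set (Fin n → ℝ)),
      (∀ x ∈ D, ∃ γ ∈ Λ, ∀ i, (γ i : ℝ) ≤ x i ∧ x i < γ i + 1) → volume D ≤ Λ.card) ∧
    (∀ M : ℕ, (((M + n).choose n : ℕ) : ℝ≥0∞) ≤ ((M + n : ℕ) : ℝ≥0∞) ^ n * volume (simplex n)) ∧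
    MeasurableSet (simplex n) ∧ volume (simplex n) ≠ 0 ∧ volume (simplex n) ≠ ⊤

/-- The convex body of a semigroup with levels and the lower bounds for the counts. -/
def S_BODY : Prop :=
  ∀ (n : ℕ) (G : Semi n), ∃ B : Set (ℝ × (Fin n → ℝ)), MeasurableSet B ∧ Convex ℝ B ∧
    (∀ p ∈ B, 0 ≤ p.1 ∧ ∀ i, 0 ≤ p.2 i) ∧
    (∀ s s' x, (s, x) ∈ B → 0 ≤ s' → s' ≤ s → (s', x) ∈ B) ∧
    (∀ M j γ, 1 ≤ M → γ ∈ G.Γ M j → (((j : ℝ) / M, fun i => (γ i : ℝ) / M) : ℝ × (Fin n → ℝ)) ∈ B) ∧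
    (∀ θ : ℝ, 0 < θ → θ < 1 → ∀ b < volume {x | ((0 : ℝ), x) ∈ B}, ∀ᶠ M : ℕ in Filter.atTop,
      ENNReal.ofReal (θ * M) ^ n * b ≤ (G.Γ M 0).card) ∧
    (∀ θ : ℝ, 0 < θ → θ < 1 → ∀ b < volume B, ∃ C : ℕ, ∀ᶠ M : ℕ in Filter.atTop, ∃ J : ℕ,
      ENNReal.ofReal (θ * M) ^ (n + 1) * b ≤
        ((∑ j ∈ Finset.Icc 1 J, (G.Γ M j).card + C * (G.Γ M 0).card : ℕ) : ℝ≥0∞))

/-- The volume inequality for a semigroup with levels. -/
def S_CONV : Prop :=
  ∀ (n d A C0 : ℕ) (G : Semi n) (S : Finset (Fin n)), 1 ≤ n →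
    (∀ M, ∀ a ∈ S, Finsupp.single a (2 * M - C0) ∈ G.Γ M 0) →
    (∀ M, (G.Γ M 0).card ≤ d * (M + n).choose n) →
    (∀ M J, ∃ i, ∑ j ∈ Finset.Icc 1 J, (G.Γ M j).card ≤ A * ∑ γ ∈ G.Γ M 0, γ i) →
    d ≤ (n + 1) * 2 ^ (S.card - 1) →
    ∫⁻ t in Set.Ioi (0 : ℝ), Filter.limsup (fun M : ℕ =>
        (n.factorial * (G.Γ M ⌈t * M⌉₊).card : ℝ≥0∞) / (M : ℝ≥0∞) ^ n) Filter.atTop ≤
      A * Filter.limsup (fun M : ℕ =>
        (n.factorial * (G.Γ M 0).card : ℝ≥0∞) / (M : ℝ≥0∞) ^ n) Filter.atTop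

/-! ### Derivations and arcs -/

/-- Lifting of maps out of a field with prescribed values on a transcendence basis. -/
def S_FSM : Prop :=
  ∀ (k L ι C : Type) [Field k] [CharZero k] [Field L] [Algebra k L] [CommRing C] [Algebra k C]
    (x : ι → L) (J : Ideal C) (f : L →ₐ[k] C ⧸ J) (y : ι → C), IsTranscendenceBasis k x →
    (IsNilpotent J ∨ IsAdicComplete J C) → (∀ i, Ideal.Quotient.mk J (y i) = f (x i)) →
    ∃ g : L →ₐ[k] C, (∀ a, Ideal.Quotient.mk J (g a) = f a) ∧ ∀ i, g (x i) = y i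

/-- Derivations with prescribed values on an algebraically independent family. -/
def S_DER : Prop :=
  ∀ (k L ι : Type) [Field k] [CharZero k] [Field L] [Algebra k L] (x : ι → L),
    AlgebraicIndependent k x → ∀ c : ι → L, ∃ δ : Derivation k L L, ∀ i, δ (x i) = c i

/-- Many derivations give many independent elements. -/
def S_RK : Prop :=
  ∀ (k L β : Type) [Field k] [CharZero k] [Field L] [Algebra k L] [Fintype β] (z : β → L)
    (W : Submodule L (β → L)), (∀ q ∈ W, ∃ δ : Derivation k L L, ∀ b, δ (z b) = q b) →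
    ∃ S : Finset β, Module.finrank L W ≤ S.card ∧ AlgebraicIndependent k fun b : S => z b

/-- Lifting the residue map to an arc with prescribed coordinates. -/
def S_LIFT : Prop :=
  ∀ (m : ℕ) (O κ L : Type) [CommRing O] [Algebra ℂ O] [Field κ] [Algebra ℂ κ] [Field L]
    [Algebra ℂ L] (res : O →ₐ[ℂ] κ) (π : O) (u : Fin m → O) (ι : κ →ₐ[ℂ] L)
    (pπ : PowerSeries L) (pu : Fin m → PowerSeries L),
    Function.Surjective res → (∀ b, res b = 0 ↔ π ∣ b) → (∀ b, res b ≠ 0 → IsUnit b) →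
    (∀ e N : ℕ, π ^ N ∣ π ^ e → N ≤ e) → IsTranscendenceBasis ℂ (fun a => res (u a)) →
    PowerSeries.constantCoeff pπ = 0 →
    (∀ a, PowerSeries.constantCoeff (pu a) = ι (res (u a))) →
    ∃ φ : O →ₐ[ℂ] PowerSeries L, φ π = pπ ∧ (∀ a, φ (u a) = pu a) ∧
      ∀ b, PowerSeries.constantCoeff (φ b) = ι (res b)

/-- Existence of generic arcs. -/
def S_GENARC : Prop :=
  ∀ (m : ℕ) (K : Type) [Field K] [Algebra ℂ K] (v : AddValuation K (WithTop ℤ)) (κ : Type)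
    [Field κ] [Algebra ℂ κ] (D : VD m v κ) (q N : ℕ), 1 ≤ q → 1 ≤ N →
    ∃ (L : Type) (_ : Field L) (_ : Algebra ℂ L) (_ : Algebra κ L) (_ : IsScalarTower ℂ κ L),
      Nonempty (GenArc D q N L)

/-- Linear relations between differentials hold for the variations of an arc. -/
def S_ARCID : Prop :=
  ∀ (n : ℕ) (K L : Type) [Field K] [Algebra ℂ K] [Field L] [Algebra ℂ L] (O : Subalgebra ℂ K)
    (φ : O →ₐ[ℂ] PowerSeries L) (δ : Derivation ℂ L L) (w c : Fin n → O) (b e : O),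
    (∀ a : K, ∃ s ∈ O, s ≠ 0 ∧ s * a ∈ O) → Function.Injective φ →
    (e : K) • KaehlerDifferential.D ℂ K b = ∑ a, (c a : K) • KaehlerDifferential.D ℂ K (w a) →
    φ e * cd δ (φ b) = ∑ a, φ (c a) * cd δ (φ (w a))

/-- The logarithmic derivations preserve the valuation ring. -/
def S_INTEG : Prop :=
  ∀ (m : ℕ) (K : Type) [Field K] [Algebra ℂ K] (v : AddValuation K (WithTop ℤ)) (κ : Type)
    [Field κ] [Algebra ℂ κ] (D : VD m v κ), ∀ b ∈ D.O, ∀ a, D.lpd a b ∈ D.O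

/-- The rank of a matrix of power series on truncated series. -/
def S_RANK : Prop :=
  ∀ (L : Type) [Field L] (n N e : ℕ) (M : Matrix (Fin n) (Fin n) (PowerSeries L)),
    M.det ∣ PowerSeries.X ^ e →
    ∃ W : Submodule L (Fin n × Fin N → L), n * N ≤ Module.finrank L W + e ∧
      ∀ q ∈ W, ∃ c : Fin n × Fin N → L, ∀ (j : Fin n) (l : Fin N),
        q (j, l) = PowerSeries.coeff (l : ℕ)
          (∑ a, M j a * ∑ l' : Fin N, PowerSeries.C (c (a, l')) * PowerSeries.X ^ (l' : ℕ))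

/-- Dimension of the jets of a hypersurface, bounded by its initial monomial. -/
def S_JET : Prop :=
  ∀ (n : ℕ) (κ L : Type) [Field κ] [Field L] [Algebra κ L] (wt : Fin n → ℕ)
    (z : Fin n → PowerSeries L) (f : MvPowerSeries (Fin n) κ) (γ : Fin n →₀ ℕ) (N μ : ℕ)
    (S : Finset (Fin n × Fin N)), (∀ a, PowerSeries.constantCoeff (z a) = 0) → IsInit wt f γ →
    (∀ i, γ i ≤ μ) → (∀ s < N, PowerSeries.coeff s (sub z f) = 0) →
    AlgebraicIndependent κ (fun b : S => PowerSeries.coeff (b.1.2 : ℕ) (z b.1.1)) →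
    N + μ * S.card ≤ μ * (n * N)

/-- The valuation data of a prime divisor. -/
def S_TRB : Prop :=
  ∀ (m r : ℕ) (σ : Type) [Fintype σ] [DecidableEq σ] (F : Fin r → MvPolynomial σ ℂ) (K : Type)
    [Field K] [Algebra ℂ K] (ξ : σ → K) (j0 : σ) (v : AddValuation K (WithTop ℤ)),
    Fintype.card σ = m + 1 + r + 1 → ξ j0 = 1 →
    IntermediateField.adjoin ℂ (Set.range ξ) = ⊤ → (∀ s, aeval ξ (F s) = 0) →
    (∀ (s : Fin r) , ∃ d, (F s).IsHomogeneous d) →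
    LinearIndependent K (fun s i => aeval ξ (pderiv i (F s))) → IsPrimeDivisor (m + 1) v →
    ∃ (κ : Type) (_ : Field κ) (_ : Algebra ℂ κ), Nonempty (VD m v κ)

/-- The set in the definition of the log discrepancy. -/
def S_LOGD : Prop :=
  ∀ (m : ℕ) (K : Type) [Field K] [Algebra ℂ K] (v : AddValuation K (WithTop ℤ)) (κ : Type)
    [Field κ] [Algebra ℂ κ] (D : VD m v κ) (σ : Type) (ξ : σ → K), (∀ i, ξ i ∈ D.O) →
    IntermediateField.adjoin ℂ (Set.range ξ) = ⊤ → (∀ b ∈ D.O, ∀ a, D.lpd a b ∈ D.O) →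
    (D.w 0 : K) ^ logDiscrepancy (m + 1) v ξ ∈ AddSubgroup.closure
      {e : K | ∃ (c : K) (G : Fin (m + 1) → MvPolynomial σ ℂ), c ∈ D.O ∧
        e = c * Matrix.det (Matrix.of fun i a => D.lpd a (aeval ξ (G i)))}

/-! ### Local geometry -/

/-- Hensel's lemma in several variables. -/
def S_HENSEL : Prop :=
  ∀ (σ : Type) [Fintype σ] [DecidableEq σ] (r : ℕ) (F : Fin r → MvPolynomial σ ℂ) (C : Type)
    [CommRing C] [Algebra ℂ C] (J : Ideal C) [IsAdicComplete J C] (e : ℕ) (p : σ → C)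
    (ww : Fin r → σ → C) (τ : Fin r → C), 1 ≤ e → (∀ s, aeval p (F s) - τ s ∈ J ^ e) →
    (∀ s l, ∑ i, aeval p (pderiv i (F s)) * ww l i - (if s = l then 1 else 0) ∈ J) →
    ∃ y : Fin r → C, (∀ l, y l ∈ J ^ e) ∧
      ∀ s, aeval (fun i => p i + ∑ l, y l * ww l i) (F s) = τ s

/-- Existence of the formal parametrisation. -/
def S_PARAM : Prop :=
  ∀ (σ : Type) [Fintype σ] [DecidableEq σ] (r : ℕ) (F : Fin r → MvPolynomial σ ℂ) (n : ℕ)
    (κ : Type) [Field κ] [Algebra ℂ κ] (j0 : σ) (x : σ → κ) (c : Chart F n j0 x),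
    ∃ y, c.IsParam y

/-- Tangent vectors at a point `p` near `x` are determined by their tangent coordinates. The
algebra `C` is local: `ρ` is a map to a field and what it does not kill is a unit. -/
def S_TAN : Prop :=
  ∀ (σ : Type) [Fintype σ] [DecidableEq σ] (r : ℕ) (F : Fin r → MvPolynomial σ ℂ) (n : ℕ)
    (κ : Type) [Field κ] [Algebra ℂ κ] (j0 : σ) (x : σ → κ) (c : Chart F n j0 x) (C L : Type)
    [CommRing C] [Algebra ℂ C] [Algebra κ C] [IsScalarTower ℂ κ C] [Field L] [Algebra κ L]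
    (ρ : C →ₐ[κ] L) (p : σ → C), (∀ b, ρ b ≠ 0 → IsUnit b) →
    (∀ i, ρ (p i) = algebraMap κ L (x i)) →
    (∃ Q : σ → Fin n → C, ∀ q : σ → C, q j0 = 0 →
      (∀ s, ∑ i, aeval p (pderiv i (F s)) * q i = 0) →
      ∀ i, q i = ∑ a, Q i a * ∑ i', algebraMap κ C (c.cz a i') * q i') ∧
    (∀ p' : σ → C, (∀ i, ρ (p' i) = algebraMap κ L (x i)) → p' j0 = p j0 →
      (∀ s, aeval p' (F s) = aeval p (F s)) →
      (∀ a, ∑ i, algebraMap κ C (c.cz a i) * p' i = ∑ i, algebraMap κ C (c.cz a i) * p i) →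
      p' = p)

/-- Initial monomials. -/
def S_INIT : Prop :=
  ∀ (n : ℕ) (κ : Type) [Field κ] (wt : Fin n → ℕ),
    (∀ f : MvPowerSeries (Fin n) κ, f ≠ 0 → ∃ γ, IsInit wt f γ) ∧
    (∀ (f g : MvPowerSeries (Fin n) κ) γ η, IsInit wt f γ → IsInit wt g η →
      IsInit wt (f * g) (γ + η)) ∧
    (∀ W : Submodule κ (MvPowerSeries (Fin n) κ), FiniteDimensional κ W →
      ∃ Λ : Finset (Fin n →₀ ℕ), Λ.card = Module.finrank κ W ∧
        ∀ γ, γ ∈ Λ ↔ ∃ f ∈ W, IsInit wt f γ)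

/-- Pure powers are initial monomials. -/
def S_POW : Prop :=
  ∀ (n r : ℕ) (κ : Type) [Field κ] (S : Finset (Fin n)) (y : Fin r → MvPowerSeries (Fin n) κ)
    (U : ℕ → Submodule κ (MvPowerSeries (Fin n) κ)) (N : ℕ),
    (∀ M M' f g, f ∈ U M → g ∈ U M' → f * g ∈ U (M + M')) → 1 ∈ U 0 → 1 ∈ U 1 →
    (∀ a, MvPowerSeries.X a ∈ U 1) → (∀ l, y l ∈ U 1) →
    (∀ l α, Finsupp.degree α < 2 → MvPowerSeries.coeff α (y l) = 0) →
    (∀ a, MvPowerSeries.X a ^ N ∈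
      Ideal.span (MvPowerSeries.X '' {b | b ∉ S} ∪ Set.range y)) →
    ∃ C0 : ℕ, ∀ M, ∀ a ∈ S, ∃ f ∈ U M,
      IsInit (fun b => if b ∈ S then 1 else 2) f (Finsupp.single a (2 * M - C0))

/-- Linear independence over `ℂ` of expansions of polynomials persists over `κ`. -/
def S_INDEP : Prop :=
  ∀ (σ : Type) [Fintype σ] [DecidableEq σ] (r : ℕ) (F : Fin r → MvPolynomial σ ℂ) (n : ℕ)
    (κ : Type) [Field κ] [Algebra ℂ κ] (j0 : σ) (x : σ → κ) (c : Chart F n j0 x)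
    (y : Fin r → MvPowerSeries (Fin n) κ), c.IsParam y →
    ∀ (ι : Type) (G : ι → MvPolynomial σ ℂ),
      LinearIndependent ℂ (fun i => aeval (c.pt MvPowerSeries.X y) (G i)) →
      LinearIndependent κ (fun i => aeval (c.pt MvPowerSeries.X y) (G i))

/-- Smoothness at complex points gives smoothness at all points. -/
def S_NULL : Prop :=
  ∀ (σ : Type) [Fintype σ] (r : ℕ) (F : Fin r → MvPolynomial σ ℂ),
    (∀ p : σ → ℂ, p ≠ 0 → (∀ s, eval p (F s) = 0) →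
      LinearIndependent ℂ fun s i => eval p (pderiv i (F s))) → USmooth F

/-- Existence of a chart. -/
def S_CHART : Prop :=
  ∀ (σ : Type) [Fintype σ] [DecidableEq σ] (r : ℕ) (F : Fin r → MvPolynomial σ ℂ) (n : ℕ)
    (κ : Type) [Field κ] [Algebra ℂ κ] (j0 : σ) (x : σ → κ), Fintype.card σ = n + r + 1 →
    x j0 = 1 → (∀ s, aeval x (F s) = 0) → (∀ s, ∃ d, (F s).IsHomogeneous d) →
    LinearIndependent κ (fun s i => aeval x (pderiv i (F s))) → Nonempty (Chart F n j0 x)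

/-- Dimension of the intersection of `X` with a tangent space. -/
def S_LEF : Prop :=
  ∀ (σ : Type) [Fintype σ] [DecidableEq σ] (r : ℕ) (F : Fin r → MvPolynomial σ ℂ)
    (d : Fin r → ℕ) (n : ℕ) (κ : Type) [Field κ] [Algebra ℂ κ] (j0 : σ) (x : σ → κ)
    (c : Chart F n j0 x), (∀ s, 2 ≤ d s) → (∀ s, (F s).IsHomogeneous (d s)) → USmooth F →
    ∀ (Ω : Type) [Field Ω] [Algebra ℂ Ω] [Algebra κ Ω] [IsScalarTower ℂ κ Ω] (ζ : Fin n → Ω),
      (∀ s, aeval (c.pt ζ 0) (F s) = 0) → ∀ S : Finset (Fin n),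
      AlgebraicIndependent κ (fun a : S => ζ a) → S.card ≤ max (n - r) (n / 2)

/-- Cutting by general hyperplanes through the origin until the origin is isolated. -/
def S_CUT : Prop :=
  ∀ (k : Type) [Field k] [Infinite k] (n e : ℕ) (I : Ideal (MvPolynomial (Fin n) k)), e ≤ n →
    (∀ (Ω : Type) [Field Ω] [Algebra k Ω] (ζ : Fin n → Ω), (∀ f ∈ I, aeval ζ f = 0) →
      ∀ S : Finset (Fin n), AlgebraicIndependent k (fun a : S => ζ a) → S.card ≤ e) →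
    ∃ (B B' : Matrix (Fin n) (Fin n) k) (S : Finset (Fin n)) (g : MvPolynomial (Fin n) k)
      (N : ℕ), B * B' = 1 ∧ S.card = n - e ∧ constantCoeff g ≠ 0 ∧
      ∀ a, g * X a ^ N ∈ Ideal.span (X '' {b | b ∉ S}) ⊔
        I.map (aeval fun a' => ∑ b, X b * C (B b a') :
          MvPolynomial (Fin n) k →ₐ[k] MvPolynomial (Fin n) k)

/-- A chart in which the point is isolated in the intersection with a coordinate subspace of
the tangent space. -/
def S_GEOM : Prop :=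
  ∀ (σ : Type) [Fintype σ] [DecidableEq σ] (r : ℕ) (F : Fin r → MvPolynomial σ ℂ)
    (d : Fin r → ℕ) (n : ℕ) (κ : Type) [Field κ] [Algebra ℂ κ] (j0 : σ) (x : σ → κ),
    Fintype.card σ = n + r + 1 → x j0 = 1 → (∀ s, aeval x (F s) = 0) → (∀ s, 2 ≤ d s) →
    (∀ s, (F s).IsHomogeneous (d s)) → USmooth F →
    ∃ (c : Chart F n j0 x) (y : Fin r → MvPowerSeries (Fin n) κ) (S : Finset (Fin n)) (N : ℕ),
      c.IsParam y ∧ S.card = min r ((n + 1) / 2) ∧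
      ∀ a, MvPowerSeries.X a ^ N ∈ Ideal.span (MvPowerSeries.X '' {b | b ∉ S} ∪ Set.range y)

/-- The Hilbert function of a complete intersection. -/
def S_HILB : Prop :=
  ∀ (σ : Type) [Fintype σ] [DecidableEq σ] (r : ℕ) (F : Fin r → MvPolynomial σ ℂ)
    (d : Fin r → ℕ) (n : ℕ) (K : Type) [Field K] [Algebra ℂ K] (ξ : σ → K),
    Fintype.card σ = n + r + 1 → (∀ s, 1 ≤ d s) → (∀ s, (F s).IsHomogeneous (d s)) →
    (∀ (G : MvPolynomial σ ℂ) (M : ℕ), G.IsHomogeneous M →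
      (aeval ξ G = 0 ↔ G ∈ Ideal.span (Set.range F))) →
    LinearIndependent K (fun s i => aeval ξ (pderiv i (F s))) →
    ∀ M, Module.finrank ℂ (sections ξ M) ≤ (∏ s, d s) * (M + n).choose n

/-- The tangent coordinates of a generic arc have many independent coefficients. -/
def S_TRDEG : Prop :=
  ∀ (m r : ℕ) (σ : Type) [Fintype σ] [DecidableEq σ] (F : Fin r → MvPolynomial σ ℂ) (K : Type)
    [Field K] [Algebra ℂ K] (v : AddValuation K (WithTop ℤ)) (κ : Type) [Field κ] [Algebra ℂ κ]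
    (D : VD m v κ) (ξ : σ → D.O) (j0 : σ) (c : Chart F (m + 1) j0 fun i => D.res (ξ i))
    (q N A : ℕ) (L : Type) [Field L] [Algebra ℂ L] [Algebra κ L] [IsScalarTower ℂ κ L]
    (g : GenArc D q N L), ξ j0 = 1 → (∀ s, aeval ξ (F s) = 0) →
    (∀ b ∈ D.O, ∀ a, D.lpd a b ∈ D.O) →
    (D.w 0 : K) ^ A ∈ AddSubgroup.closure
      {e : K | ∃ (c : K) (G : Fin (m + 1) → MvPolynomial σ ℂ), c ∈ D.O ∧
        e = c * Matrix.det (Matrix.of fun i a => D.lpd a (aeval (fun i => (ξ i : K)) (G i)))} →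
    ∃ S : Finset (Fin (m + 1) × Fin N), (m + 1) * N ≤ S.card + (q * A + m) ∧
      AlgebraicIndependent κ fun b : S => PowerSeries.coeff (b.1.2 : ℕ)
        (∑ i, algebraMap κ (PowerSeries L) (c.cz b.1.1 i) * g.φ (ξ i))

/-- The valuation of a function is bounded by its initial monomial. -/
def S_VAL : Prop :=
  ∀ (m r : ℕ) (σ : Type) [Fintype σ] [DecidableEq σ] (F : Fin r → MvPolynomial σ ℂ) (K : Type)
    [Field K] [Algebra ℂ K] (v : AddValuation K (WithTop ℤ)) (κ : Type) [Field κ] [Algebra ℂ κ]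
    (D : VD m v κ) (ξ : σ → D.O) (j0 : σ) (c : Chart F (m + 1) j0 fun i => D.res (ξ i))
    (y : Fin r → MvPowerSeries (Fin (m + 1)) κ), c.IsParam y → ξ j0 = 1 →
    (∀ s, aeval ξ (F s) = 0) →
    IntermediateField.adjoin ℂ (Set.range fun i => (ξ i : K)) = ⊤ →
    (∀ G : MvPolynomial σ ℂ, aeval (c.pt MvPowerSeries.X y) G = 0 →
      aeval (fun i => (ξ i : K)) G = 0) ∧
    ∀ (wt : Fin (m + 1) → ℕ) (lam μ : ℕ) (f : MvPowerSeries (Fin (m + 1)) κ)
      (γ : Fin (m + 1) →₀ ℕ),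
      f ∈ Submodule.span κ {h | ∃ G : MvPolynomial σ ℂ,
        ((lam : ℤ) : WithTop ℤ) ≤ v (aeval (fun i => (ξ i : K)) G) ∧
        h = aeval (c.pt MvPowerSeries.X y) G} →
      IsInit wt f γ → (∀ i, γ i ≤ μ) →
      lam ≤ μ * logDiscrepancy (m + 1) v fun i => (ξ i : K)

end Pool.Agent.P.MP_6149fc_ag
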