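import Pool.Agent.P.MP_6149fc_ag.Iface

namespace Pool.Agent.P.MP_6149fc_ag

open scoped ENNReal
open MvPolynomial MeasureTheory

namespace IntegA

variable {m : ℕ} {K : Type} [Field K] [Algebra ℂ K] {v : AddValuation K (WithTop ℤ)} {κ : Type}
  [Field κ] [Algebra ℂ κ]

theorem v_pow (D : VD m v κ) (s : ℕ) : v ((D.w 0 : K) ^ s) = ((s : ℤ) : WithTop ℤ) := by
  induction s with
  | zero => simp
  | succ s ih =>
    rw [pow_succ, v.map_mul, ih, D.unif]
    push_cast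
    rfl

omit [Algebra ℂ K] in
theorem exists_int {x : K} (hx : x ≠ 0) : ∃ p : ℤ, v x = (p : WithTop ℤ) := by
  have : v x ≠ ⊤ := fun h => hx ((AddValuation.top_iff v).1 h)
  obtain ⟨p, hp⟩ := WithTop.ne_top_iff_exists.1 this
  exact ⟨p, hp.symm⟩

theorem exists_pow (D : VD m v κ) (x : K) :
    ∃ s0 : ℕ, ∀ s, s0 ≤ s → (D.w 0 : K) ^ s * x ∈ D.O := by
  by_cases hx : x = 0
  · exact ⟨0, fun s _ => by rw [hx, mul_zero]; exact D.O.zero_mem⟩
  obtain ⟨p, hp⟩ := exists_int (v := v) hx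
  refine ⟨p.natAbs, fun s hs => ?_⟩
  rw [D.mem, v.map_mul, v_pow, hp, ← WithTop.coe_add, ← WithTop.coe_zero, WithTop.coe_le_coe]
  omega

theorem w_ne (D : VD m v κ) : (D.w 0 : K) ≠ 0 := by
  intro h
  have := D.unif
  rw [h, v.map_zero] at this
  exact WithTop.top_ne_coe this

theorem frac (D : VD m v κ) (x : K) : ∃ s ∈ D.O, s ≠ 0 ∧ s * x ∈ D.O := by
  obtain ⟨s, hs⟩ := exists_pow D x
  exact ⟨(D.w 0 : K) ^ s, D.O.pow_mem (D.w 0).2 s, pow_ne_zero s (w_ne D), hs s le_rfl⟩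

theorem le_of_dvd {L : Type} [Field L] {i j : ℕ} {u u' f : PowerSeries L} (hu' : IsUnit u')
    (h : PowerSeries.X ^ i * u * f = PowerSeries.X ^ j * u') : i ≤ j := by
  have h1 : (PowerSeries.X : PowerSeries L) ^ i ∣ PowerSeries.X ^ j * u' :=
    ⟨u * f, by rw [← h, mul_assoc]⟩
  rw [hu'.dvd_mul_right] at h1
  by_contra hlt
  have := PowerSeries.X_pow_dvd_iff.1 h1 j (not_le.1 hlt)
  simp at this

end IntegA

open IntegA in
theorem p_INTEG (hGENARC : S_GENARC) (hARCID : S_ARCID) : S_INTEG := by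
  intro m K _ _ v κ _ _ D b hb a0
  obtain ⟨L, _, _, _, _, ⟨g⟩⟩ := hGENARC m K v κ D 2 1 (by norm_num) le_rfl
  by_cases h0 : D.pd a0 b = 0
  · rw [VD.lpd, h0, mul_zero]; exact D.O.zero_mem
  choose s0 hs0 using fun a => exists_pow D (D.pd a b)
  obtain ⟨s, hs⟩ : ∃ s, ∀ a, s0 a ≤ s :=
    ⟨Finset.univ.sup s0, fun a => Finset.le_sup (Finset.mem_univ a)⟩
  let c : Fin (m + 1) → D.O := fun a => ⟨(D.w 0 : K) ^ s * D.pd a b, hs0 a s (hs a)⟩
  obtain ⟨δ, hδ⟩ := g.vary fun p => if p.1 = a0 then 1 else 0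
  have hid : ((D.w 0 ^ s : D.O) : K) • KaehlerDifferential.D ℂ K ((⟨b, hb⟩ : D.O) : K) =
      ∑ a, (c a : K) • KaehlerDifferential.D ℂ K (D.w a) := by
    change _ • KaehlerDifferential.D ℂ K b = _
    rw [D.span b, Finset.smul_sum]
    refine Finset.sum_congr rfl fun a _ => ?_
    rw [smul_smul]
    rfl
  have key := hARCID (m + 1) K L D.O g.φ (δ.restrictScalars ℂ) D.w c ⟨b, hb⟩ (D.w 0 ^ s)
    (frac D) g.inj hid
  have hcd : ∀ a, cd (δ.restrictScalars ℂ) (g.φ (D.w a)) =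
      if a = a0 then PowerSeries.X ^ (if a0 = 0 then 2 else 1) else 0 := by
    intro a
    have := hδ a
    change cd δ (g.φ (D.w a)) = _
    rw [this]
    by_cases ha : a = a0
    · subst ha; simp
    · simp [ha]
  simp only [hcd, mul_ite, mul_zero, Finset.sum_ite_eq', Finset.mem_univ, if_true] at key
  obtain ⟨p, hp⟩ := exists_int (v := v) h0
  have hvc : v (c a0 : K) = ((s + p : ℤ) : WithTop ℤ) := by
    change v ((D.w 0 : K) ^ s * D.pd a0 b) = _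
    rw [v.map_mul, v_pow, hp, ← WithTop.coe_add]
  have hnn : 0 ≤ (s : ℤ) + p := by
    have := (D.mem _).1 (c a0).2
    rwa [hvc, ← WithTop.coe_zero, WithTop.coe_le_coe] at this
  obtain ⟨e, he⟩ := Int.eq_ofNat_of_zero_le hnn
  obtain ⟨u, hu, hφu⟩ := g.ord (D.w 0 ^ s) s (v_pow D s)
  obtain ⟨u', hu', hφu'⟩ := g.ord (c a0) e (by rw [hvc, he])
  rw [hφu, hφu'] at key
  rw [D.mem, VD.lpd, v.map_mul, hp]
  by_cases ha : a0 = 0
  · rw [if_pos ha] at key ⊢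
    have h2 : 2 * s ≤ 2 * e + 2 := le_of_dvd hu' (key.trans (by ring))
    rw [D.unif, ← WithTop.coe_one, ← WithTop.coe_add, ← WithTop.coe_zero, WithTop.coe_le_coe]
    omega
  · rw [if_neg ha] at key ⊢
    have h2 : 2 * s ≤ 2 * e + 1 := le_of_dvd hu' (key.trans (by ring))
    rw [v.map_one, zero_add, ← WithTop.coe_zero, WithTop.coe_le_coe]
    omega

end Pool.Agent.P.MP_6149fc_ag
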